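import Mathlib
import Pool.Agent.Q82.BB.Stm

/-! # BB: bounds of the kernel -/

set_option autoImplicit false

open MeasureTheory Filter Topology Set

namespace Pool.Agent.Q82.BB

theorem kb_pow_exp {c : ℝ} (hc : 0 < c) (n : ℕ) (t : ℝ) (ht : 0 ≤ t) :
    t ^ n * Real.exp (-(c * t)) ≤ n.factorial / c ^ n := by
  have h1 := Real.pow_div_factorial_le_exp (c * t) (by positivity) n
  rw [div_le_iff₀ (by positivity)] at h1
  rw [le_div_iff₀ (by positivity), Real.exp_neg]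
  calc t ^ n * (Real.exp (c * t))⁻¹ * c ^ n = (c * t) ^ n * (Real.exp (c * t))⁻¹ := by ring
    _ ≤ (Real.exp (c * t) * n.factorial) * (Real.exp (c * t))⁻¹ := by gcongr
    _ = n.factorial := by
      field_simp

/-! ### The cut-off -/

theorem kb_chi_smooth (n : ℕ) : ContDiff ℝ n chi := bump.contDiff

theorem kb_chi_one {ξ : ℝ} (h : |ξ| ≤ 2) : chi ξ = 1 := by
  apply bump.one_of_mem_closedBall
  rw [Metric.mem_closedBall, Real.dist_eq, sub_zero]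
  exact h

theorem kb_chi_zero {ξ : ℝ} (h : 3 ≤ |ξ|) : chi ξ = 0 := by
  apply bump.zero_of_le_dist
  rw [Real.dist_eq, sub_zero]
  exact h

theorem kb_chi_neg (ξ : ℝ) : chi (-ξ) = chi ξ := bump.neg ξ

theorem kb_abs_open (a : ℝ) : IsOpen {ξ : ℝ | a < |ξ|} := isOpen_lt continuous_const continuous_abs

theorem kb_abs_open' (a : ℝ) : IsOpen {ξ : ℝ | |ξ| < a} := isOpen_lt continuous_abs continuous_const

/-- iterated derivatives of a function which is zero for `|ξ| > 3` -/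
theorem kb_zero (f : ℝ → ℝ) (hf : ∀ ξ, 3 < |ξ| → f ξ = 0) (i : ℕ) (ξ : ℝ) (h : 3 < |ξ|) : iteratedDeriv i f ξ = 0 := by
  have h1 : f =ᶠ[𝓝 ξ] fun _ => 0 := by
    filter_upwards [(kb_abs_open 3).mem_nhds h] with x hx
    exact hf x hx
  rw [h1.iteratedDeriv_eq]
  simp

theorem kb_zero' (f : ℝ → ℝ) (hf : ∀ ξ, |ξ| < 2 → f ξ = 0) (i : ℕ) (ξ : ℝ) (h : |ξ| < 2) : iteratedDeriv i f ξ = 0 := by
  have h1 : f =ᶠ[𝓝 ξ] fun _ => 0 := by
    filter_upwards [(kb_abs_open' 2).mem_nhds h] with x hx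
    exact hf x hx
  rw [h1.iteratedDeriv_eq]
  simp

theorem kb_chid_bdd (i : ℕ) : ∃ C, ∀ ξ, |iteratedDeriv i chi ξ| ≤ C := by
  have hc : Continuous (iteratedDeriv i chi) := (kb_chi_smooth i).continuous_iteratedDeriv i (le_refl _)
  obtain ⟨C, hC⟩ := (isCompact_Icc (a := (-3 : ℝ)) (b := 3)).exists_bound_of_continuousOn hc.continuousOn
  refine ⟨max C 0, fun ξ => ?_⟩
  rcases le_or_gt |ξ| 3 with h | h
  · exact (hC ξ (abs_le.1 h)).trans (le_max_left _ _)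
  · rw [kb_zero chi (fun x hx => kb_chi_zero hx.le) i ξ h, abs_zero]
    exact le_max_right _ _

/-! ### The function `lam` -/

theorem kb_mu_pos {ξ : ℝ} (h : 3 / 2 ≤ |ξ|) : ξ ^ 4 / 4 ≤ mu ξ ∧ 0 < mu ξ ∧ 0 < ξ ^ 2 := by
  have h1 : (3 / 2 : ℝ) ^ 2 ≤ |ξ| ^ 2 := by gcongr
  rw [sq_abs] at h1
  have h2 : ξ ^ 4 / 4 ≤ mu ξ := by
    unfold mu
    nlinarith
  refine ⟨h2, ?_, by nlinarith⟩
  have : 0 < ξ ^ 4 := by
    have : 0 < ξ ^ 2 := by nlinarith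
    nlinarith
  linarith

theorem kb_lam_low {ξ : ℝ} (h : 3 / 2 ≤ |ξ|) : ξ ^ 2 / 2 ≤ lam ξ := by
  unfold lam
  apply Real.le_sqrt_of_sq_le
  have := (kb_mu_pos h).1
  nlinarith

theorem kb_lam_pos {ξ : ℝ} (h : 3 / 2 ≤ |ξ|) : 0 < lam ξ := Real.sqrt_pos.2 (kb_mu_pos h).2.1

theorem kb_lam_sq {ξ : ℝ} (h : 3 / 2 ≤ |ξ|) : lam ξ ^ 2 = mu ξ := Real.sq_sqrt (kb_mu_pos h).2.1.le

theorem kb_lam_deriv {ξ : ℝ} (h : 3 / 2 ≤ |ξ|) : HasDerivAt lam ((4 * ξ ^ 3 - 2 * ξ) / (2 * lam ξ)) ξ := by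
  have h1 : HasDerivAt mu (4 * ξ ^ 3 - 2 * ξ) ξ := by
    have := (hasDerivAt_pow 4 ξ).sub (hasDerivAt_pow 2 ξ)
    exact this.congr_deriv (by norm_num)
  exact h1.sqrt (kb_mu_pos h).2.1.ne'

/-! ### Bounded functions -/

/-- functions of `ξ`, bounded with all derivatives for `|ξ| > 3/2` -/
inductive KbB : (ℝ → ℝ) → Prop
  | const (c : ℝ) : KbB (fun _ => c)
  | chid (i : ℕ) : KbB (iteratedDeriv i chi)
  | inv : KbB (fun ξ => ξ⁻¹)
  | v : KbB (fun ξ => ξ ^ 2 / lam ξ)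
  | add {f g : ℝ → ℝ} : KbB f → KbB g → KbB (fun ξ => f ξ + g ξ)
  | mul {f g : ℝ → ℝ} : KbB f → KbB g → KbB (fun ξ => f ξ * g ξ)

theorem kbB_bdd {f : ℝ → ℝ} (h : KbB f) : ∃ C, 0 ≤ C ∧ ∀ ξ, 3 / 2 ≤ |ξ| → |f ξ| ≤ C := by
  induction h with
  | const c => exact ⟨|c|, abs_nonneg _, fun ξ _ => le_refl _⟩
  | chid i =>
    obtain ⟨C, hC⟩ := kb_chid_bdd i
    exact ⟨C, (abs_nonneg _).trans (hC 0), fun ξ _ => hC ξ⟩
  | inv =>
    refine ⟨1, zero_le_one, fun ξ h => ?_⟩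
    rw [abs_inv]
    exact inv_le_one_of_one_le₀ (by linarith)
  | v =>
    refine ⟨2, by norm_num, fun ξ h => ?_⟩
    rw [abs_div, abs_of_pos (kb_lam_pos h), abs_of_nonneg (sq_nonneg ξ), div_le_iff₀ (kb_lam_pos h)]
    linarith [kb_lam_low h]
  | add _ _ h1 h2 =>
    obtain ⟨C, hC0, hC⟩ := h1
    obtain ⟨D, hD0, hD⟩ := h2
    exact ⟨C + D, by positivity, fun ξ h => (abs_add_le _ _).trans (add_le_add (hC ξ h) (hD ξ h))⟩
  | mul _ _ h1 h2 =>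
    obtain ⟨C, hC0, hC⟩ := h1
    obtain ⟨D, hD0, hD⟩ := h2
    refine ⟨C * D, by positivity, fun ξ h => ?_⟩
    rw [abs_mul]
    exact mul_le_mul (hC ξ h) (hD ξ h) (abs_nonneg _) hC0

theorem kbB_deriv {f : ℝ → ℝ} (h : KbB f) : ∃ f', KbB f' ∧ ∀ ξ, 3 / 2 < |ξ| → HasDerivAt f (f' ξ) ξ := by
  induction h with
  | const c => exact ⟨_, KbB.const 0, fun ξ _ => hasDerivAt_const ξ c⟩
  | chid i =>
    refine ⟨_, KbB.chid (i + 1), fun ξ _ => ?_⟩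
    have h1 : Differentiable ℝ (iteratedDeriv i chi) :=
      (kb_chi_smooth (i + 1)).differentiable_iteratedDeriv i (by exact_mod_cast Nat.lt_succ_self i)
    rw [iteratedDeriv_succ]
    exact (h1 ξ).hasDerivAt
  | inv =>
    refine ⟨_, KbB.mul (KbB.const (-1)) (KbB.mul KbB.inv KbB.inv), fun ξ h => ?_⟩
    have hξ : ξ ≠ 0 := by
      rintro rfl
      rw [abs_zero] at h
      linarith
    have := hasDerivAt_inv hξ
    exact this.congr_deriv (by field_simp)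
  | v =>
    refine ⟨_, KbB.mul (KbB.mul (KbB.const (-1)) (KbB.mul KbB.inv (KbB.mul KbB.inv KbB.inv)))
      (KbB.mul KbB.v (KbB.mul KbB.v KbB.v)), fun ξ h => ?_⟩
    have hξ : ξ ≠ 0 := by
      rintro rfl
      rw [abs_zero] at h
      linarith
    have hl := kb_lam_pos h.le
    have h1 := (hasDerivAt_pow 2 ξ).fun_div (kb_lam_deriv h.le) hl.ne'
    refine h1.congr_deriv ?_
    have h2 := kb_lam_sq h.le
    unfold mu at h2
    have h3 : lam ξ ≠ 0 := hl.ne'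
    have h4 : lam ξ ^ 2 = ξ ^ 4 - ξ ^ 2 := h2
    field_simp
    push_cast
    simp only [pow_one]
    linear_combination (4 * ξ) * h4
  | add _ _ h1 h2 =>
    obtain ⟨f', hf, hf2⟩ := h1
    obtain ⟨g', hg, hg2⟩ := h2
    exact ⟨_, hf.add hg, fun ξ h => (hf2 ξ h).fun_add (hg2 ξ h)⟩
  | mul hf0 hg0 h1 h2 =>
    obtain ⟨f', hf, hf2⟩ := h1
    obtain ⟨g', hg, hg2⟩ := h2
    exact ⟨_, (hf.mul hg0).add (hf0.mul hg), fun ξ h => (hf2 ξ h).fun_mul (hg2 ξ h)⟩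

/-! ### Functions with the exponential factor -/

/-- sums of `b ξ^a r^c exp (-lam r)`, `a ≤ 2 c`, `b` bounded with all derivatives -/
inductive KbC : (ℝ → ℝ → ℝ) → Prop
  | base {b : ℝ → ℝ} (hb : KbB b) (a c : ℕ) (h : a ≤ 2 * c) :
      KbC (fun ξ r => b ξ * ξ ^ a * r ^ c * Real.exp (-(lam ξ * r)))
  | add {f g : ℝ → ℝ → ℝ} : KbC f → KbC g → KbC (fun ξ r => f ξ r + g ξ r)

theorem kbC_bdd {f : ℝ → ℝ → ℝ} (h : KbC f) : ∃ C, 0 ≤ C ∧ ∀ ξ r, 3 / 2 ≤ |ξ| → 0 ≤ r →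
    |f ξ r| ≤ C * Real.exp (-(ξ ^ 2 * r / 4)) := by
  induction h with
  | @base b hb a c h =>
    obtain ⟨C, hC0, hC⟩ := kbB_bdd hb
    refine ⟨C * (c.factorial / (1 / 4 : ℝ) ^ c), by positivity, fun ξ r hξ hr => ?_⟩
    rw [abs_mul, abs_mul, abs_mul, abs_pow, abs_pow, Real.abs_exp, abs_of_nonneg hr]
    have h1 : Real.exp (-(lam ξ * r)) ≤ Real.exp (-(1 / 4 * (ξ ^ 2 * r))) * Real.exp (-(ξ ^ 2 * r / 4)) := by
      rw [← Real.exp_add]
      apply Real.exp_le_exp.2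
      have := mul_le_mul_of_nonneg_right (kb_lam_low hξ) hr
      linarith
    have h2 : |ξ| ^ a * r ^ c ≤ (ξ ^ 2 * r) ^ c := by
      have h3 : |ξ| ^ a ≤ |ξ| ^ (2 * c) := pow_le_pow_right₀ (by linarith) h
      calc |ξ| ^ a * r ^ c ≤ |ξ| ^ (2 * c) * r ^ c := by gcongr
        _ = (ξ ^ 2 * r) ^ c := by rw [pow_mul, sq_abs, mul_pow]
    have h4 := kb_pow_exp (c := 1 / 4) (by norm_num) c (ξ ^ 2 * r) (by positivity)
    calc |b ξ| * |ξ| ^ a * r ^ c * Real.exp (-(lam ξ * r)) = |b ξ| * (|ξ| ^ a * r ^ c) * Real.exp (-(lam ξ * r)) := by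
          ring
      _ ≤ C * (ξ ^ 2 * r) ^ c * (Real.exp (-(1 / 4 * (ξ ^ 2 * r))) * Real.exp (-(ξ ^ 2 * r / 4))) := by
          gcongr
          exact hC ξ hξ
      _ = C * ((ξ ^ 2 * r) ^ c * Real.exp (-(1 / 4 * (ξ ^ 2 * r)))) * Real.exp (-(ξ ^ 2 * r / 4)) := by ring
      _ ≤ _ := by gcongr
  | add _ _ h1 h2 =>
    obtain ⟨C, hC0, hC⟩ := h1
    obtain ⟨D, hD0, hD⟩ := h2
    refine ⟨C + D, by positivity, fun ξ r h hr => (abs_add_le _ _).trans ?_⟩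
    rw [add_mul]
    exact add_le_add (hC ξ r h hr) (hD ξ r h hr)

theorem kbC_deriv {f : ℝ → ℝ → ℝ} (h : KbC f) : ∃ f', KbC f' ∧ ∀ ξ r, 3 / 2 < |ξ| →
    HasDerivAt (fun ξ => f ξ r) (f' ξ r) ξ := by
  induction h with
  | @base b hb a c h =>
    obtain ⟨b', hb', hbd⟩ := kbB_deriv hb
    have hu := KbB.inv
    have hv := KbB.v
    have h1 : KbC (fun ξ r => b' ξ * ξ ^ a * r ^ c * Real.exp (-(lam ξ * r))) := KbC.base hb' a c h
    have h2 : KbC (fun ξ r => ((a : ℝ) * b ξ) * ξ ^ (a - 1) * r ^ c * Real.exp (-(lam ξ * r))) :=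
      KbC.base ((KbB.const (a : ℝ)).mul hb) (a - 1) c (by omega)
    have h3 : KbC (fun ξ r => (-1 * (b ξ * ((2 + (-1) * (ξ⁻¹ * ξ⁻¹)) * (ξ ^ 2 / lam ξ)))) * ξ ^ (a + 1) * r ^ (c + 1) *
        Real.exp (-(lam ξ * r))) :=
      KbC.base ((KbB.const (-1)).mul (hb.mul (((KbB.const 2).add ((KbB.const (-1)).mul (hu.mul hu))).mul hv)))
        (a + 1) (c + 1) (by omega)
    refine ⟨_, (h1.add h2).add h3, fun ξ r hξ => ?_⟩
    have hξ0 : ξ ≠ 0 := by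
      rintro rfl
      rw [abs_zero] at hξ
      linarith
    have hl := kb_lam_pos hξ.le
    have hl0 : lam ξ ≠ 0 := hl.ne'
    have e1 : HasDerivAt (fun ξ => Real.exp (-(lam ξ * r)))
        (Real.exp (-(lam ξ * r)) * (-((4 * ξ ^ 3 - 2 * ξ) / (2 * lam ξ) * r))) ξ :=
      (((kb_lam_deriv hξ.le).mul_const r).fun_neg).exp
    have e2 := (((hbd ξ hξ).fun_mul (hasDerivAt_pow a ξ)).mul_const (r ^ c)).fun_mul e1
    refine e2.congr_deriv ?_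
    have e3 : (4 * ξ ^ 3 - 2 * ξ) / (2 * lam ξ) = (2 + (-1) * (ξ⁻¹ * ξ⁻¹)) * (ξ ^ 2 / lam ξ) * ξ := by
      field_simp
      ring
    rw [e3]
    ring
  | add _ _ h1 h2 =>
    obtain ⟨f', hf, hf2⟩ := h1
    obtain ⟨g', hg, hg2⟩ := h2
    exact ⟨_, hf.add hg, fun ξ r h => (hf2 ξ r h).fun_add (hg2 ξ r h)⟩

/-! ### The two parts of the kernel -/

noncomputable def kb_1 (ξ r : ℝ) : ℝ := ξ ^ 2 * ((1 - chi ξ) * Real.exp (-(lam ξ * r)) / (2 * lam ξ))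

noncomputable def kb_2 (sh : ℝ → ℝ → ℝ) (ξ r : ℝ) : ℝ := -(ξ ^ 2 * (chi ξ * sh (mu ξ) r))

theorem kb_kap (sh : ℝ → ℝ → ℝ) (ξ τ s : ℝ) : kap sh ξ τ s = kb_1 ξ |τ - s| + kb_2 sh ξ (max (τ - s) 0) := by
  unfold kap kb_1 kb_2
  ring

theorem kb_1_iter (i : ℕ) : ∃ f, KbC f ∧ ∀ r ξ, 3 / 2 < |ξ| → iteratedDeriv i (fun ξ => kb_1 ξ r) ξ = f ξ r := by
  induction i with
  | zero =>
    have h1 : KbC (fun ξ r => (1 / 2 * ((1 + (-1) * iteratedDeriv 0 chi ξ) * (ξ ^ 2 / lam ξ))) * ξ ^ 0 * r ^ 0 *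
        Real.exp (-(lam ξ * r))) :=
      KbC.base ((KbB.const (1 / 2)).mul (((KbB.const 1).add ((KbB.const (-1)).mul (KbB.chid 0))).mul KbB.v)) 0 0 (by omega)
    refine ⟨_, h1, fun r ξ hξ => ?_⟩
    rw [iteratedDeriv_zero, iteratedDeriv_zero]
    have hl0 : lam ξ ≠ 0 := (kb_lam_pos hξ.le).ne'
    unfold kb_1
    field_simp
    ring
  | succ i ih =>
    obtain ⟨f, hf, hf2⟩ := ih
    obtain ⟨f', hf', hd⟩ := kbC_deriv hf
    refine ⟨f', hf', fun r ξ hξ => ?_⟩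
    rw [iteratedDeriv_succ]
    have h1 : iteratedDeriv i (fun ξ => kb_1 ξ r) =ᶠ[𝓝 ξ] fun ξ => f ξ r := by
      filter_upwards [(kb_abs_open (3 / 2)).mem_nhds hξ] with x hx
      exact hf2 r x hx
    rw [h1.deriv_eq]
    exact (hd ξ r hξ).deriv

theorem kb_1_zero {ξ : ℝ} (h : |ξ| < 2) (r : ℝ) : kb_1 ξ r = 0 := by
  unfold kb_1
  rw [kb_chi_one h.le]
  simp

theorem kb_1_bdd (i : ℕ) : ∃ C, 0 ≤ C ∧ ∀ ξ r, 0 ≤ r →
    |iteratedDeriv i (fun ξ => kb_1 ξ r) ξ| ≤ C * Real.exp (-(ξ ^ 2 * r / 4)) := by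
  obtain ⟨f, hf, hf2⟩ := kb_1_iter i
  obtain ⟨C, hC0, hC⟩ := kbC_bdd hf
  refine ⟨C, hC0, fun ξ r hr => ?_⟩
  rcases lt_or_ge |ξ| 2 with h | h
  · rw [kb_zero' (fun ξ => kb_1 ξ r) (fun x hx => kb_1_zero hx r) i ξ h, abs_zero]
    positivity
  · rw [hf2 r ξ (by linarith)]
    exact hC ξ r (by linarith) hr

theorem kb_1_smooth (n : ℕ) : ContDiff ℝ n (fun q : ℝ × ℝ => kb_1 q.1 q.2) := by
  rw [contDiff_iff_contDiffAt]
  rintro ⟨ξ, r⟩
  rcases lt_or_ge |ξ| 2 with h | h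
  · have h1 : (fun q : ℝ × ℝ => kb_1 q.1 q.2) =ᶠ[𝓝 (ξ, r)] fun _ => 0 := by
      have h2 : {q : ℝ × ℝ | |q.1| < 2} ∈ 𝓝 (ξ, r) :=
        (isOpen_lt (continuous_abs.comp continuous_fst) continuous_const).mem_nhds h
      filter_upwards [h2] with q hq
      exact kb_1_zero hq q.2
    exact contDiffAt_const.congr_of_eventuallyEq h1
  · have hm : ContDiffAt ℝ n (fun q : ℝ × ℝ => mu q.1) (ξ, r) := by
      unfold mu
      fun_prop
    have hpos := kb_mu_pos (ξ := ξ) (by linarith)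
    have hlam : ContDiffAt ℝ n (fun q : ℝ × ℝ => lam q.1) (ξ, r) := hm.sqrt hpos.2.1.ne'
    have hchi : ContDiffAt ℝ n (fun q : ℝ × ℝ => chi q.1) (ξ, r) :=
      (kb_chi_smooth n).contDiffAt.comp (ξ, r) contDiffAt_fst
    have hl0 : lam ξ ≠ 0 := (kb_lam_pos (by linarith)).ne'
    unfold kb_1
    refine (contDiffAt_fst.pow 2).mul (ContDiffAt.div ?_ (contDiffAt_const.mul hlam) (mul_ne_zero two_ne_zero hl0))
    exact (contDiffAt_const.sub hchi).mul ((hlam.mul contDiffAt_snd).neg.exp)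

theorem kb_2_smooth {sh : ℝ → ℝ → ℝ} (hsh : ∀ n : ℕ, ContDiff ℝ n (fun q : ℝ × ℝ => sh q.1 q.2)) (n : ℕ) :
    ContDiff ℝ n (fun q : ℝ × ℝ => kb_2 sh q.1 q.2) := by
  have hm : ContDiff ℝ n (fun q : ℝ × ℝ => (mu q.1, q.2)) := by
    unfold mu
    fun_prop
  have hchi : ContDiff ℝ n (fun q : ℝ × ℝ => chi q.1) := (kb_chi_smooth n).comp contDiff_fst
  have hs : ContDiff ℝ n (fun q : ℝ × ℝ => sh (mu q.1) q.2) := (hsh n).comp hm
  unfold kb_2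
  exact ((contDiff_fst.pow 2).mul (hchi.mul hs)).neg

/-- derivatives of a jointly smooth function in the first variable -/
theorem kb_joint (i : ℕ) : ∀ (F : ℝ × ℝ → ℝ), (∀ n : ℕ, ContDiff ℝ n F) →
    ∀ n : ℕ, ContDiff ℝ n (fun q : ℝ × ℝ => iteratedDeriv i (fun ξ => F (ξ, q.2)) q.1) := by
  induction i with
  | zero =>
    intro F hF n
    simp only [iteratedDeriv_zero]
    exact hF n
  | succ i ih =>
    intro F hF n
    have h1 : ∀ n : ℕ, ContDiff ℝ n (fun q : ℝ × ℝ => fderiv ℝ F q (1, 0)) := by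
      intro n
      exact ((hF (n + 1)).fderiv_right (by norm_cast)).clm_apply contDiff_const
    have h2 := ih _ h1 n
    have h3 : (fun q : ℝ × ℝ => iteratedDeriv (i + 1) (fun ξ => F (ξ, q.2)) q.1) =
        fun q : ℝ × ℝ => iteratedDeriv i (fun ξ => fderiv ℝ F (ξ, q.2) (1, 0)) q.1 := by
      funext q
      rw [iteratedDeriv_succ']
      congr 1
      funext ξ
      have h4 : HasFDerivAt F (fderiv ℝ F (ξ, q.2)) (ξ, q.2) :=
        ((hF 1).differentiable (by norm_num) (ξ, q.2)).hasFDerivAt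
      have h5 : HasDerivAt (fun ξ : ℝ => (ξ, q.2)) ((1 : ℝ), (0 : ℝ)) ξ :=
        (hasDerivAt_id ξ).prodMk (hasDerivAt_const ξ q.2)
      exact (h4.comp_hasDerivAt ξ h5).deriv
    rw [h3]
    exact h2

theorem kb : S_KB := by
  intro sh ch hs T hT
  have s1 : ∀ n : ℕ, ContDiff ℝ n (fun q : ℝ × ℝ => kb_1 q.1 q.2) := kb_1_smooth
  have s2 : ∀ n : ℕ, ContDiff ℝ n (fun q : ℝ × ℝ => kb_2 sh q.1 q.2) := kb_2_smooth hs.1
  have p1 : ∀ (r : ℝ) (n : ℕ), ContDiff ℝ n (fun ξ => kb_1 ξ r) := fun r n =>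
    (s1 n).comp (contDiff_id.prodMk contDiff_const)
  have p2 : ∀ (r : ℝ) (n : ℕ), ContDiff ℝ n (fun ξ => kb_2 sh ξ r) := fun r n =>
    (s2 n).comp (contDiff_id.prodMk contDiff_const)
  have hfun : ∀ τ s, (fun ξ => kap sh ξ τ s) = (fun ξ => kb_1 ξ |τ - s|) + fun ξ => kb_2 sh ξ (max (τ - s) 0) := by
    intro τ s
    funext ξ
    exact kb_kap sh ξ τ s
  have hder : ∀ (i : ℕ) (ξ τ s : ℝ), iteratedDeriv i (fun ξ => kap sh ξ τ s) ξ =
      iteratedDeriv i (fun ξ => kb_1 ξ |τ - s|) ξ + iteratedDeriv i (fun ξ => kb_2 sh ξ (max (τ - s) 0)) ξ := by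
    intro i ξ τ s
    rw [hfun, iteratedDeriv_add (p1 _ i).contDiffAt (p2 _ i).contDiffAt]
  refine ⟨?_, ?_, ?_, ?_⟩
  · intro τ s n
    rw [hfun]
    exact (p1 _ n).add (p2 _ n)
  · intro i
    have c1 : Continuous (fun q : ℝ × ℝ => iteratedDeriv i (fun ξ => kb_1 ξ q.2) q.1) :=
      (kb_joint i _ s1 0).continuous
    have c2 : Continuous (fun q : ℝ × ℝ => iteratedDeriv i (fun ξ => kb_2 sh ξ q.2) q.1) :=
      (kb_joint i _ s2 0).continuous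
    have h1 : (fun q : ℝ × ℝ × ℝ => iteratedDeriv i (fun ξ => kap sh ξ q.2.1 q.2.2) q.1) = fun q : ℝ × ℝ × ℝ =>
        iteratedDeriv i (fun ξ => kb_1 ξ |q.2.1 - q.2.2|) q.1 +
          iteratedDeriv i (fun ξ => kb_2 sh ξ (max (q.2.1 - q.2.2) 0)) q.1 := by
      funext q
      exact hder i _ _ _
    rw [h1]
    have m1 : Continuous (fun q : ℝ × ℝ × ℝ => (q.1, |q.2.1 - q.2.2|)) := by fun_prop
    have m2 : Continuous (fun q : ℝ × ℝ × ℝ => (q.1, max (q.2.1 - q.2.2) 0)) := by fun_prop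
    exact (c1.comp m1).add (c2.comp m2)
  · intro ξ τ s
    have e1 : mu (-ξ) = mu ξ := by unfold mu; ring
    have e2 : lam (-ξ) = lam ξ := by unfold lam; rw [e1]
    unfold kap
    rw [kb_chi_neg, e1, e2]
    ring
  · intro i
    obtain ⟨C, hC0, hC⟩ := kb_1_bdd i
    have c2 : Continuous (fun q : ℝ × ℝ => iteratedDeriv i (fun ξ => kb_2 sh ξ q.2) q.1) :=
      (kb_joint i _ s2 0).continuous
    obtain ⟨M, hM⟩ := ((isCompact_Icc (a := (-3 : ℝ)) (b := 3)).prod (isCompact_Icc (a := (0 : ℝ)) (b := T))).exists_bound_of_continuousOn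
      c2.continuousOn
    have hM0 : 0 ≤ M := (norm_nonneg _).trans (hM (0, 0) ⟨⟨by norm_num, by norm_num⟩, ⟨le_refl _, hT.le⟩⟩)
    refine ⟨C + M * Real.exp (9 * T / 4) + 1, by positivity, fun ξ τ hτ s hs => ?_⟩
    rw [hder]
    have hr : |τ - s| ≤ T := by
      rw [abs_le]
      constructor <;> linarith [hτ.1, hτ.2, hs.1, hs.2]
    have h1 := hC ξ |τ - s| (abs_nonneg _)
    have h2 : |iteratedDeriv i (fun ξ => kb_2 sh ξ (max (τ - s) 0)) ξ| ≤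
        M * Real.exp (9 * T / 4) * Real.exp (-(ξ ^ 2 * |τ - s| / 4)) := by
      rcases le_or_gt |ξ| 3 with h | h
      · have h3 := hM (ξ, max (τ - s) 0) ⟨abs_le.1 h, ⟨le_max_right _ _, by
          apply max_le _ hT.le
          linarith [hτ.1, hτ.2, hs.1, hs.2]⟩⟩
        have h4 : 1 ≤ Real.exp (9 * T / 4) * Real.exp (-(ξ ^ 2 * |τ - s| / 4)) := by
          rw [← Real.exp_add]
          apply Real.one_le_exp
          have h5 : ξ ^ 2 ≤ 9 := by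
            rw [← sq_abs]
            nlinarith [abs_nonneg ξ]
          have h6 : ξ ^ 2 * |τ - s| ≤ 9 * T := mul_le_mul h5 hr (abs_nonneg _) (by norm_num)
          linarith
        calc |iteratedDeriv i (fun ξ => kb_2 sh ξ (max (τ - s) 0)) ξ| ≤ M * 1 := by
              rw [mul_one]; exact h3
          _ ≤ M * (Real.exp (9 * T / 4) * Real.exp (-(ξ ^ 2 * |τ - s| / 4))) := by gcongr
          _ = _ := by ring
      · rw [kb_zero (fun ξ => kb_2 sh ξ (max (τ - s) 0)) (fun x hx => by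
          unfold kb_2
          rw [kb_chi_zero hx.le]
          ring) i ξ h, abs_zero]
        positivity
    have h3 : 0 ≤ Real.exp (-(ξ ^ 2 * |τ - s| / 4)) := by positivity
    calc _ ≤ |iteratedDeriv i (fun ξ => kb_1 ξ |τ - s|) ξ| +
        |iteratedDeriv i (fun ξ => kb_2 sh ξ (max (τ - s) 0)) ξ| := abs_add_le _ _
      _ ≤ _ := by linarith

end Pool.Agent.Q82.BB
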