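import Mathlib
import Pool.Agent.Q82.BB.Stm

/-! # BB: the equation -/

set_option autoImplicit false

open MeasureTheory Filter Topology Set

namespace Pool.Agent.Q82.BB

theorem pde_pow_exp {c : ℝ} (hc : 0 < c) (n : ℕ) (t : ℝ) (ht : 0 ≤ t) :
    t ^ n * Real.exp (-(c * t)) ≤ n.factorial / c ^ n := by
  have h1 := Real.pow_div_factorial_le_exp (c * t) (by positivity) n
  rw [div_le_iff₀ (by positivity)] at h1
  rw [le_div_iff₀ (by positivity), Real.exp_neg]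
  calc t ^ n * (Real.exp (c * t))⁻¹ * c ^ n = (c * t) ^ n * (Real.exp (c * t))⁻¹ := by ring
    _ ≤ (Real.exp (c * t) * n.factorial) * (Real.exp (c * t))⁻¹ := by gcongr
    _ = n.factorial := by
      field_simp

/-- the functions `(iξ)^i w e^{ixξ}` -/
noncomputable def pde_f (w : ℝ → ℂ) (x : ℝ) (i : ℕ) (ξ : ℝ) : ℂ :=
  (Complex.I * ξ) ^ i * w ξ * Complex.exp (Complex.I * x * ξ)

theorem pde_e (x ξ : ℝ) : ‖Complex.exp (Complex.I * x * ξ)‖ = 1 := by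
  have : Complex.I * x * ξ = ((x * ξ : ℝ) : ℂ) * Complex.I := by push_cast; ring
  rw [this, Complex.norm_exp_ofReal_mul_I]

theorem pde_norm (w : ℝ → ℂ) (x : ℝ) (i : ℕ) (ξ : ℝ) : ‖pde_f w x i ξ‖ = |ξ| ^ i * ‖w ξ‖ := by
  unfold pde_f
  rw [norm_mul, norm_mul, pde_e, mul_one, norm_pow, norm_mul, Complex.norm_I, one_mul, Complex.norm_real,
    Real.norm_eq_abs]

theorem pde_cont {w : ℝ → ℂ} (hw : Continuous w) (x : ℝ) (i : ℕ) : Continuous (pde_f w x i) := by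
  unfold pde_f
  fun_prop

theorem pde_bdd {w : ℝ → ℂ} {c C : ℝ} (hc : 0 < c) (hw : ∀ ξ, ‖w ξ‖ ≤ C * Real.exp (-(c * |ξ|))) (x : ℝ) (i : ℕ)
    (ξ : ℝ) : ‖pde_f w x i ξ‖ ≤ C * (i.factorial / c ^ i) := by
  have hC : 0 ≤ C := by
    have h1 := (norm_nonneg _).trans (hw 0)
    have h2 := Real.exp_pos (-(c * |(0 : ℝ)|))
    by_contra h
    push Not at h
    nlinarith
  rw [pde_norm]
  calc |ξ| ^ i * ‖w ξ‖ ≤ |ξ| ^ i * (C * Real.exp (-(c * |ξ|))) := by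
        gcongr; exact hw ξ
    _ = C * (|ξ| ^ i * Real.exp (-(c * |ξ|))) := by ring
    _ ≤ _ := by
      gcongr
      exact pde_pow_exp hc i |ξ| (abs_nonneg _)

theorem pde_int {w : ℝ → ℂ} {c C : ℝ} (hcw : Continuous w) (hc : 0 < c)
    (hw : ∀ ξ, ‖w ξ‖ ≤ C * Real.exp (-(c * |ξ|))) (x : ℝ) (i : ℕ) : Integrable (pde_f w x i) := by
  have hC : 0 ≤ C := by
    have h1 := (norm_nonneg _).trans (hw 0)
    have h2 := Real.exp_pos (-(c * |(0 : ℝ)|))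
    by_contra h
    push Not at h
    nlinarith
  have h1 : Integrable (fun ξ : ℝ => C * (i.factorial / c ^ i + (i + 2).factorial / c ^ (i + 2)) * (1 + ξ ^ 2)⁻¹) :=
    integrable_inv_one_add_sq.const_mul _
  refine h1.mono' (pde_cont hcw x i).aestronglyMeasurable (Eventually.of_forall fun ξ => ?_)
  rw [pde_norm, ← div_eq_mul_inv, le_div_iff₀ (by positivity)]
  have h2 := pde_pow_exp hc i |ξ| (abs_nonneg _)
  have h3 := pde_pow_exp hc (i + 2) |ξ| (abs_nonneg _)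
  have e1 : |ξ| ^ 2 = ξ ^ 2 := sq_abs ξ
  calc |ξ| ^ i * ‖w ξ‖ * (1 + ξ ^ 2) ≤ |ξ| ^ i * (C * Real.exp (-(c * |ξ|))) * (1 + ξ ^ 2) := by
        gcongr; exact hw ξ
    _ = C * (|ξ| ^ i * Real.exp (-(c * |ξ|)) + |ξ| ^ (i + 2) * Real.exp (-(c * |ξ|))) := by
      rw [pow_add, e1]; ring
    _ ≤ _ := by gcongr

theorem pde_real {w : ℝ → ℂ} (hh : ∀ ξ, w (-ξ) = (starRingEnd ℂ) (w ξ)) (x : ℝ) (i : ℕ) :
    ((∫ ξ, pde_f w x i ξ).re : ℂ) = ∫ ξ, pde_f w x i ξ := by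
  rw [← Complex.conj_eq_iff_re, ← integral_conj, ← integral_neg_eq_self (fun ξ => pde_f w x i ξ)]
  congr 1
  funext ξ
  unfold pde_f
  rw [map_mul, map_mul, map_pow, map_mul, Complex.conj_I, Complex.conj_ofReal, hh, ← Complex.exp_conj, map_mul,
    map_mul, Complex.conj_I, Complex.conj_ofReal, Complex.conj_ofReal]
  congr 2
  · congr 1
    push_cast
    ring
  · push_cast
    ring

theorem pde_conv {w : ℝ → ℂ} {c C : ℝ} (hcw : Continuous w) (hc : 0 < c)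
    (hw : ∀ ξ, ‖w ξ‖ ≤ C * Real.exp (-(c * |ξ|))) (x : ℝ) (i j : ℕ) :
    Integrable (fun ξ => ∫ η, pde_f w x i η * pde_f w x j (ξ - η)) ∧
      ∫ ξ, ∫ η, pde_f w x i η * pde_f w x j (ξ - η) = (∫ ξ, pde_f w x i ξ) * ∫ ξ, pde_f w x j ξ := by
  have h1 := pde_int hcw hc hw x i
  have h2 := pde_int hcw hc hw x j
  exact ⟨h1.integrable_convolution (ContinuousLinearMap.mul ℝ ℂ) h2,
    integral_convolution (ContinuousLinearMap.mul ℝ ℂ) h1 h2⟩

theorem pde_split {w : ℝ → ℂ} {c C : ℝ} (hcw : Continuous w) (hc : 0 < c)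
    (hw : ∀ ξ, ‖w ξ‖ ≤ C * Real.exp (-(c * |ξ|))) (x ξ : ℝ) :
    (Complex.I * ξ) ^ 2 * (∫ η, w η * w (ξ - η)) * Complex.exp (Complex.I * x * ξ) =
      (∫ η, pde_f w x 2 η * pde_f w x 0 (ξ - η)) + 2 * (∫ η, pde_f w x 1 η * pde_f w x 1 (ξ - η)) +
        ∫ η, pde_f w x 0 η * pde_f w x 2 (ξ - η) := by
  have hI : ∀ i j : ℕ, Integrable (fun η => pde_f w x i η * pde_f w x j (ξ - η)) := by
    intro i j
    refine (pde_int hcw hc hw x i).mul_bdd (c := C * (j.factorial / c ^ j)) ?_ (Eventually.of_forall fun η => ?_)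
    · exact ((pde_cont hcw x j).comp (by fun_prop)).aestronglyMeasurable
    · exact pde_bdd hc hw x j _
  have hA : Integrable (fun η => pde_f w x 2 η * pde_f w x 0 (ξ - η) + 2 * (pde_f w x 1 η * pde_f w x 1 (ξ - η))) :=
    (hI 2 0).add ((hI 1 1).const_mul 2)
  rw [← integral_const_mul (2 : ℂ), ← integral_add (hI 2 0) ((hI 1 1).const_mul 2),
    ← integral_add hA (hI 0 2), ← integral_const_mul, ← integral_mul_const]
  congr 1
  funext η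
  have e1 : Complex.exp (Complex.I * x * ξ) = Complex.exp (Complex.I * x * η) *
      Complex.exp (Complex.I * x * ((ξ - η : ℝ) : ℂ)) := by
    rw [← Complex.exp_add]
    congr 1
    push_cast
    ring
  unfold pde_f
  rw [e1]
  push_cast
  ring

theorem pde : S_PDE := by
  intro T W hT hW hh x τ hτ
  obtain ⟨hG, hD, hR⟩ := hW
  obtain ⟨hc0, hb0⟩ := hG 0
  obtain ⟨c, C, hc, hw⟩ := hb0 τ τ hτ.1 hτ.2
  have hw' : ∀ ξ, ‖W 0 ξ τ‖ ≤ C * Real.exp (-(c * |ξ|)) := fun ξ => hw ξ τ ⟨le_refl _, le_refl _⟩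
  have hcw : Continuous fun ξ => W 0 ξ τ := by
    rw [← continuousOn_univ]
    exact hc0.comp (by fun_prop : ContinuousOn (fun ξ : ℝ => ((ξ, τ) : ℝ × ℝ)) univ) (fun ξ _ => ⟨mem_univ _, hτ⟩)
  set w : ℝ → ℂ := fun ξ => W 0 ξ τ with hwdef
  have hhw : ∀ ξ, w (-ξ) = (starRingEnd ℂ) (w ξ) := fun ξ => hh ξ τ hτ
  have hU : ∀ i : ℕ, UU W i 0 x τ = (∫ ξ, pde_f w x i ξ).re := fun i => rfl
  have key : (∫ ξ : ℝ, (Complex.I * ξ) ^ 0 * W 2 ξ τ * Complex.exp (Complex.I * x * ξ)) =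
      (∫ ξ, pde_f w x 2 ξ) + (2 * (∫ ξ, pde_f w x 0 ξ) * (∫ ξ, pde_f w x 2 ξ) + 2 * (∫ ξ, pde_f w x 1 ξ) ^ 2) +
        ∫ ξ, pde_f w x 4 ξ := by
    obtain ⟨i20, c20⟩ := pde_conv hcw hc hw' x 2 0
    obtain ⟨i11, c11⟩ := pde_conv hcw hc hw' x 1 1
    obtain ⟨i02, c02⟩ := pde_conv hcw hc hw' x 0 2
    have e0 : ∀ ξ : ℝ, (Complex.I * ξ) ^ 0 * W 2 ξ τ * Complex.exp (Complex.I * x * ξ) =
        (pde_f w x 2 ξ + pde_f w x 4 ξ) + (((∫ η, pde_f w x 2 η * pde_f w x 0 (ξ - η)) +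
          2 * (∫ η, pde_f w x 1 η * pde_f w x 1 (ξ - η))) + ∫ η, pde_f w x 0 η * pde_f w x 2 (ξ - η)) := by
      intro ξ
      rw [← pde_split hcw hc hw' x ξ]
      have h1 := hR 0 ξ τ
      rw [Finset.sum_range_one, Nat.choose_self, Nat.cast_one, one_mul] at h1
      have h2 : W 2 ξ τ = (mu ξ : ℂ) * w ξ - (ξ : ℂ) ^ 2 * ∫ η, w η * w (ξ - η) := h1
      rw [h2]
      unfold pde_f mu
      have hI2 : Complex.I ^ 2 = -1 := Complex.I_sq
      have hI4 : Complex.I ^ 4 = 1 := Complex.I_pow_four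
      push_cast
      rw [pow_zero, one_mul, mul_pow, mul_pow, hI2, hI4]
      ring
    have j1 : Integrable (fun ξ => pde_f w x 2 ξ + pde_f w x 4 ξ) :=
      (pde_int hcw hc hw' x 2).add (pde_int hcw hc hw' x 4)
    have j2 : Integrable (fun ξ => (∫ η, pde_f w x 2 η * pde_f w x 0 (ξ - η)) +
          2 * (∫ η, pde_f w x 1 η * pde_f w x 1 (ξ - η))) := i20.add (i11.const_mul 2)
    have j3 : Integrable (fun ξ => ((∫ η, pde_f w x 2 η * pde_f w x 0 (ξ - η)) +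
          2 * (∫ η, pde_f w x 1 η * pde_f w x 1 (ξ - η))) + ∫ η, pde_f w x 0 η * pde_f w x 2 (ξ - η)) := j2.add i02
    rw [integral_congr_ae (Eventually.of_forall e0), integral_add j1 j3,
      integral_add (pde_int hcw hc hw' x 2) (pde_int hcw hc hw' x 4),
      integral_add j2 i02, integral_add i20 (i11.const_mul 2),
      integral_const_mul, c20, c11, c02]
    ring
  have hkey : UU W 0 2 x τ = ((∫ ξ, pde_f w x 2 ξ) + (2 * (∫ ξ, pde_f w x 0 ξ) * (∫ ξ, pde_f w x 2 ξ) +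
      2 * (∫ ξ, pde_f w x 1 ξ) ^ 2) + ∫ ξ, pde_f w x 4 ξ).re := congrArg Complex.re key
  rw [hkey, hU 0, hU 1, hU 2, hU 4, ← pde_real hhw x 0, ← pde_real hhw x 1, ← pde_real hhw x 2, ← pde_real hhw x 4]
  norm_cast

end Pool.Agent.Q82.BB
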