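import Mathlib
import Pool.Agent.Q82.BC.Stm
import Pool.Agent.Q129.BB_KB

/-! # BC: the linear part -/

set_option autoImplicit false

open MeasureTheory Filter Topology Set
open Pool.Agent.Q82.BB

namespace Pool.Agent.Q82.BC

/-- the profile -/
noncomputable def w02_g (ξ τ : ℝ) : ℝ := (1 - chi ξ) * |ξ| * Real.exp (-(lam ξ * τ))

theorem w02_inv {f : ℝ → ℝ → ℝ} (h : KbC f) : KbC (fun ξ r => ξ⁻¹ * f ξ r) := by
  induction h with
  | @base b hb a c h =>
    have h1 := KbC.base (KbB.inv.mul hb) a c h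
    have e : (fun ξ r : ℝ => ξ⁻¹ * (b ξ * ξ ^ a * r ^ c * Real.exp (-(lam ξ * r)))) =
        fun ξ r : ℝ => (ξ⁻¹ * b ξ) * ξ ^ a * r ^ c * Real.exp (-(lam ξ * r)) := by
      funext ξ r
      ring
    rw [e]
    exact h1
  | @add f g _ _ h1 h2 =>
    have e : (fun ξ r : ℝ => ξ⁻¹ * (f ξ r + g ξ r)) = fun ξ r : ℝ => ξ⁻¹ * f ξ r + ξ⁻¹ * g ξ r := by
      funext ξ r
      ring
    rw [e]
    exact h1.add h2

theorem w02_iter (i : ℕ) : ∃ f, KbC f ∧ ∀ r ξ, 3 / 2 < |ξ| →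
    iteratedDeriv i (fun ξ => w02_g ξ r) ξ = |ξ| * f ξ r := by
  induction i with
  | zero =>
    have h1 : KbC (fun ξ r => (1 + (-1) * iteratedDeriv 0 chi ξ) * ξ ^ 0 * r ^ 0 * Real.exp (-(lam ξ * r))) :=
      KbC.base ((KbB.const 1).add ((KbB.const (-1)).mul (KbB.chid 0))) 0 0 (by omega)
    refine ⟨_, h1, fun r ξ hξ => ?_⟩
    rw [iteratedDeriv_zero, iteratedDeriv_zero]
    unfold w02_g
    ring
  | succ i ih =>
    obtain ⟨f, hf, hf2⟩ := ih
    obtain ⟨f', hf', hd⟩ := kbC_deriv hf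
    refine ⟨_, (w02_inv hf).add hf', fun r ξ hξ => ?_⟩
    rw [iteratedDeriv_succ]
    have h1 : iteratedDeriv i (fun ξ => w02_g ξ r) =ᶠ[𝓝 ξ] fun ξ => |ξ| * f ξ r := by
      filter_upwards [(kb_abs_open (3 / 2)).mem_nhds hξ] with x hx
      exact hf2 r x hx
    rw [h1.deriv_eq]
    have hξ0 : ξ ≠ 0 := by
      rintro rfl
      rw [abs_zero] at hξ
      linarith
    have h2 : HasDerivAt (fun x : ℝ => |x|) (|ξ| * ξ⁻¹) ξ := by
      rcases lt_or_gt_of_ne hξ0 with h | h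
      · have := hasDerivAt_abs_neg h
        exact this.congr_deriv (by rw [abs_of_neg h]; field_simp)
      · have := hasDerivAt_abs_pos h
        exact this.congr_deriv (by rw [abs_of_pos h]; field_simp)
    rw [(h2.fun_mul (hd ξ r hξ)).deriv]
    ring

theorem w02_zero {ξ : ℝ} (h : |ξ| < 2) (r : ℝ) : w02_g ξ r = 0 := by
  unfold w02_g
  rw [kb_chi_one h.le]
  simp

theorem w02_exp (ξ τ : ℝ) (hτ : 0 ≤ τ) : Real.exp (-(ξ ^ 2 * τ / 4)) ≤ Real.exp 1 * er ξ τ := by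
  unfold er
  rw [← Real.exp_add]
  apply Real.exp_le_exp.2
  have h1 : (Real.sqrt τ * |ξ|) ^ 2 = ξ ^ 2 * τ := by
    rw [mul_pow, Real.sq_sqrt hτ, sq_abs]
    ring
  rw [← h1]
  nlinarith [sq_nonneg (Real.sqrt τ * |ξ| - 1 / 8)]

theorem w02_bdd (i : ℕ) : ∃ C, 0 ≤ C ∧ ∀ ξ r, 0 ≤ r →
    |iteratedDeriv i (fun ξ => w02_g ξ r) ξ| ≤ C * ((1 + |ξ|) * er ξ r) := by
  obtain ⟨f, hf, hf2⟩ := w02_iter i
  obtain ⟨C, hC0, hC⟩ := kbC_bdd hf
  refine ⟨C * Real.exp 1, by positivity, fun ξ r hr => ?_⟩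
  have her : 0 ≤ er ξ r := (Real.exp_pos _).le
  rcases lt_or_ge |ξ| 2 with h | h
  · rw [kb_zero' (fun ξ => w02_g ξ r) (fun x hx => w02_zero hx r) i ξ h, abs_zero]
    positivity
  · rw [hf2 r ξ (by linarith), abs_mul, abs_abs]
    calc |ξ| * |f ξ r| ≤ (1 + |ξ|) * (C * (Real.exp 1 * er ξ r)) := by
          gcongr
          · linarith
          · exact (hC ξ r (by linarith) hr).trans (by gcongr; exact w02_exp ξ r hr)
      _ = _ := by ring

theorem w02_smooth (n : ℕ) : ContDiff ℝ n (fun q : ℝ × ℝ => w02_g q.1 q.2) := by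
  rw [contDiff_iff_contDiffAt]
  rintro ⟨ξ, r⟩
  rcases lt_or_ge |ξ| 2 with h | h
  · have h1 : (fun q : ℝ × ℝ => w02_g q.1 q.2) =ᶠ[𝓝 (ξ, r)] fun _ => 0 := by
      have h2 : {q : ℝ × ℝ | |q.1| < 2} ∈ 𝓝 (ξ, r) :=
        (isOpen_lt (continuous_abs.comp continuous_fst) continuous_const).mem_nhds h
      filter_upwards [h2] with q hq
      exact w02_zero hq q.2
    exact contDiffAt_const.congr_of_eventuallyEq h1
  · have hm : ContDiffAt ℝ n (fun q : ℝ × ℝ => mu q.1) (ξ, r) := by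
      unfold mu
      fun_prop
    have hpos := kb_mu_pos (ξ := ξ) (by linarith)
    have hlam : ContDiffAt ℝ n (fun q : ℝ × ℝ => lam q.1) (ξ, r) := hm.sqrt hpos.2.1.ne'
    have hchi : ContDiffAt ℝ n (fun q : ℝ × ℝ => chi q.1) (ξ, r) :=
      (kb_chi_smooth n).contDiffAt.comp (ξ, r) contDiffAt_fst
    have hξ0 : ξ ≠ 0 := by
      rintro rfl
      rw [abs_zero] at h
      linarith
    have habs : ContDiffAt ℝ n (fun q : ℝ × ℝ => |q.1|) (ξ, r) :=
      (contDiffAt_abs hξ0).comp (ξ, r) contDiffAt_fst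
    unfold w02_g
    exact ((contDiffAt_const.sub hchi).mul habs).mul ((hlam.mul contDiffAt_snd).neg.exp)

theorem w02_ofReal {h : ℝ → ℝ} (hh : ∀ n : ℕ, ContDiff ℝ n h) (i : ℕ) :
    iteratedDeriv i (fun ξ => ((h ξ : ℝ) : ℂ)) = fun ξ => ((iteratedDeriv i h ξ : ℝ) : ℂ) := by
  induction i with
  | zero => simp only [iteratedDeriv_zero]
  | succ i ih =>
    rw [iteratedDeriv_succ, ih]
    funext ξ
    have h1 : Differentiable ℝ (iteratedDeriv i h) :=
      (hh (i + 1)).differentiable_iteratedDeriv i (by exact_mod_cast Nat.lt_succ_self i)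
    rw [iteratedDeriv_succ]
    exact (h1 ξ).hasDerivAt.ofReal_comp.deriv

theorem w02_eq (ε ξ τ : ℝ) : w02 ε ξ τ = ((ε * w02_g ξ τ : ℝ) : ℂ) := by
  unfold w02 w02_g
  congr 1
  ring

theorem w02a : S_W02 := by
  intro T hT
  choose C hC0 hC using w02_bdd
  have p1 : ∀ (r : ℝ) (n : ℕ), ContDiff ℝ n (fun ξ => w02_g ξ r) := fun r n =>
    (w02_smooth n).comp (contDiff_id.prodMk contDiff_const)
  refine ⟨C, fun ε hε => ⟨⟨?_, ?_, ?_, ?_⟩, ?_⟩⟩
  · intro τ _ n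
    simp only [w02_eq]
    exact Complex.ofRealCLM.contDiff.comp (contDiff_const.mul (p1 τ n))
  · intro i
    have c1 : Continuous (fun q : ℝ × ℝ => iteratedDeriv i (fun ξ => w02_g ξ q.2) q.1) :=
      (kb_joint i _ w02_smooth 0).continuous
    have e : (fun q : ℝ × ℝ => iteratedDeriv i (fun ξ => w02 ε ξ q.2) q.1) =
        fun q : ℝ × ℝ => ((ε * iteratedDeriv i (fun ξ => w02_g ξ q.2) q.1 : ℝ) : ℂ) := by
      funext q
      simp only [w02_eq]
      rw [w02_ofReal (fun n => contDiff_const.mul (p1 q.2 n)) i]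
      show ((iteratedDeriv i (fun ξ => ε * w02_g ξ q.2) q.1 : ℝ) : ℂ) = _
      rw [iteratedDeriv_const_mul_field]
    rw [e]
    exact (Complex.continuous_ofReal.comp (continuous_const.mul c1)).continuousOn
  · intro i
    exact mul_nonneg hε.le (hC0 i)
  · intro i ξ τ hτ
    simp only [w02_eq]
    rw [w02_ofReal (fun n => contDiff_const.mul (p1 τ n)) i]
    show ‖((iteratedDeriv i (fun ξ => ε * w02_g ξ τ) ξ : ℝ) : ℂ)‖ ≤ _
    rw [iteratedDeriv_const_mul_field, Complex.norm_real, Real.norm_eq_abs, abs_mul, abs_of_pos hε, mul_assoc]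
    exact mul_le_mul_of_nonneg_left (hC i ξ τ hτ.1.le) hε.le
  · intro ξ τ
    have e1 : mu (-ξ) = mu ξ := by unfold mu; ring
    have e2 : lam (-ξ) = lam ξ := by unfold lam; rw [e1]
    rw [w02_eq, w02_eq, Complex.conj_ofReal]
    unfold w02_g
    rw [kb_chi_neg, e2, abs_neg]

end Pool.Agent.Q82.BC
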