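import Pool.Agent.Q61.BS.Stm

/-!
# Job DIA (helper129, for project BS of helper61)
-/

set_option autoImplicit false

open MeasureTheory Set Filter Topology Real

namespace Pool.Agent.Q129.BS

open Pool.Agent.Q61.BS

theorem dia (h : S_agr) (h1 : S_mmn) (h2 : S_hgt) (_h3 : S_rec) : S_dia := by
  intro β₁ β₂ hb1 hb2 n i τ hi hz
  obtain ⟨-, a2, -⟩ := h1 β₁ β₂ hb1 hb2 n i hi
  refine Metric.ediam_le ?_
  rintro _ ⟨ω, hω, rfl⟩ _ ⟨ω', hω', rfl⟩
  rw [edist_dist]
  refine ENNReal.ofReal_le_ofReal ?_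
  have hag := h β₁ β₂ hb1.le hb2.le ω ω'
  have hX := (hag (mm β₁ β₂ n i)).2 fun k hk => (hω.2 k hk).trans (hω'.2 k hk).symm
  have hY := (hag n).1 fun k hk => (hω.1 k hk).trans (hω'.1 k hk).symm
  have hzc : zc ω n = i := by
    rw [← hz]
    unfold zc
    congr 1
    refine Finset.filter_congr fun k hk => ?_
    rw [hω.1 k (Finset.mem_range.1 hk)]
  rw [(h2 β₁ β₂ ω n).2, hzc] at hY
  rw [Prod.dist_eq]
  refine max_le ?_ ?_
  · rw [Real.dist_eq]
    exact hX
  · rw [Real.dist_eq]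
    refine hY.trans ?_
    have h5 : (1 / 5 : ℝ) ^ mm β₁ β₂ n i = exp (-(mm β₁ β₂ n i * log 5)) := by
      rw [Real.exp_neg, mul_comm, Real.exp_mul, Real.exp_log (by norm_num), Real.rpow_natCast,
        one_div, inv_pow]
    rw [h5]
    exact Real.exp_le_exp.2 (by linarith)

end Pool.Agent.Q129.BS
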