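import Pool.Agent.Q141.CP.Stm

/-!
# Project CP (helper141), job LNK: edges of `ℤ^D`
-/

set_option autoImplicit false

namespace Pool.Agent.Q129.CP_LNK

open Finset
open Pool.Agent.Q141.CP

theorem step_t {D : ℕ} (i : Fin D) : stepv (i, true) = Pi.single i (1 : ℤ) := rfl

theorem step_f {D : ℕ} (i : Fin D) : stepv (i, false) = -Pi.single i (1 : ℤ) := by
  have h : stepv (i, false) = Pi.single i (-1 : ℤ) := rfl
  rw [h, Pi.single_neg]

theorem ht_add {D : ℕ} (c : Fin D → Bool) (x : Vtx D) (i : Fin D) :
    ht c (x + Pi.single i 1) = ht c x + (if c i then 1 else -1) := by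
  unfold ht
  have h : ∀ j : Fin D, (if c j then (x + Pi.single i (1 : ℤ) : Vtx D) j else - (x + Pi.single i (1 : ℤ) : Vtx D) j) =
      (if c j then x j else - x j) + (if j = i then (if c i then 1 else -1) else 0) := by
    intro j
    by_cases hj : j = i
    · subst hj
      rw [Pi.add_apply, Pi.single_eq_same, if_pos rfl]
      by_cases hc : c j
      · simp [hc]
      · simp [hc]
        ring
    · rw [Pi.add_apply, Pi.single_eq_of_ne hj, if_neg hj, add_zero, add_zero]
  rw [Finset.sum_congr rfl fun j _ => h j, Finset.sum_add_distrib, Finset.sum_ite_eq' Finset.univ i,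
    if_pos (Finset.mem_univ i)]

/-- the edge of a point and a direction -/
def edg {D : ℕ} (p : Vtx D × Dir D) : Vtx D × Fin D :=
  (if p.2.2 then p.1 else p.1 - Pi.single p.2.1 1, p.2.1)

theorem edg_t {D : ℕ} (x : Vtx D) (i : Fin D) : edg (x, (i, true)) = (x, i) := rfl

theorem edg_f {D : ℕ} (x : Vtx D) (i : Fin D) : edg (x, (i, false)) = (x - Pi.single i 1, i) := rfl

/-- the set of edges at the points of `V` -/
def E0 {D : ℕ} (V : Finset (Vtx D)) : Finset (Vtx D × Fin D) :=
  (V ×ˢ (univ : Finset (Dir D))).image edg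

theorem mem_t {D : ℕ} {V : Finset (Vtx D)} {x : Vtx D} (hx : x ∈ V) (i : Fin D) : (x, i) ∈ E0 V := by
  unfold E0
  rw [mem_image]
  exact ⟨(x, (i, true)), mem_product.2 ⟨hx, mem_univ _⟩, edg_t x i⟩

theorem mem_f {D : ℕ} {V : Finset (Vtx D)} {x : Vtx D} (hx : x ∈ V) (i : Fin D) :
    (x - Pi.single i 1, i) ∈ E0 V := by
  unfold E0
  rw [mem_image]
  exact ⟨(x, (i, false)), mem_product.2 ⟨hx, mem_univ _⟩, edg_f x i⟩

theorem part1 {D : ℕ} (V : Finset (Vtx D)) (E : Finset (Vtx D × Fin D)) (hE : E0 V ⊆ E) :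
    (bdE enZ E V).card + ∑ x ∈ V, nb V x = 2 * D * V.card := by
  classical
  have h1 : (bdE enZ E V).card = ∑ x ∈ V, (univ.filter fun a : Dir D => x + stepv a ∉ V).card := by
    rw [← Finset.card_sigma]
    symm
    refine Finset.card_bij (fun (p : (_ : Vtx D) × Dir D) _ => edg (p.1, p.2)) ?_ ?_ ?_
    · rintro ⟨x, i, b⟩ hp
      rw [mem_sigma, mem_filter] at hp
      obtain ⟨hx, -, hs⟩ := hp
      unfold bdE
      rw [mem_filter]
      rcases b with _ | _
      · refine ⟨hE (mem_f hx i), Or.inr ?_⟩
        rw [edg_f]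
        simp only [step_f] at hs
        refine ⟨?_, ?_⟩
        · show x - Pi.single i 1 ∉ V
          rw [sub_eq_add_neg]
          exact hs
        · show x - Pi.single i 1 + Pi.single i 1 ∈ V
          rw [sub_add_cancel]
          exact hx
      · refine ⟨hE (mem_t hx i), Or.inl ?_⟩
        rw [edg_t]
        simp only [step_t] at hs
        exact ⟨hx, hs⟩
    · rintro ⟨x, i, b⟩ hp ⟨x', i', b'⟩ hp' heq
      rw [mem_sigma, mem_filter] at hp hp'
      obtain ⟨hx, -, hs⟩ := hp
      obtain ⟨hx', -, hs'⟩ := hp'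
      simp only at hx hx' hs hs'
      rcases b with _ | _ <;> rcases b' with _ | _
      · simp only [edg_f, Prod.mk.injEq] at heq
        obtain ⟨h2, rfl⟩ := heq
        rw [sub_left_inj] at h2
        rw [h2]
      · exfalso
        simp only [edg_f, edg_t, Prod.mk.injEq] at heq
        obtain ⟨h2, rfl⟩ := heq
        apply hs
        rw [step_f, ← sub_eq_add_neg, h2]
        exact hx'
      · exfalso
        simp only [edg_f, edg_t, Prod.mk.injEq] at heq
        obtain ⟨h2, rfl⟩ := heq
        apply hs'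
        rw [step_f, ← sub_eq_add_neg, ← h2]
        exact hx
      · simp only [edg_t, Prod.mk.injEq] at heq
        obtain ⟨rfl, rfl⟩ := heq
        rfl
    · rintro ⟨y, i⟩ he
      unfold bdE at he
      rw [mem_filter] at he
      obtain ⟨-, he⟩ := he
      rcases he with ⟨h2, h3⟩ | ⟨h2, h3⟩
      · refine ⟨⟨y, (i, true)⟩, ?_, rfl⟩
        rw [mem_sigma, mem_filter]
        exact ⟨h2, mem_univ _, h3⟩
      · have h2' : y ∉ V := h2
        have h3' : y + Pi.single i 1 ∈ V := h3
        refine ⟨⟨y + Pi.single i 1, (i, false)⟩, ?_, ?_⟩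
        · rw [mem_sigma, mem_filter]
          refine ⟨h3', mem_univ _, ?_⟩
          show y + Pi.single i 1 + stepv (i, false) ∉ V
          rw [step_f, add_neg_cancel_right]
          exact h2'
        · show edg (y + Pi.single i 1, (i, false)) = (y, i)
          rw [edg_f, add_sub_cancel_right]
  rw [h1, ← Finset.sum_add_distrib]
  have h2 : ∀ x ∈ V, (univ.filter fun a : Dir D => x + stepv a ∉ V).card + nb V x = 2 * D := by
    intro x _
    unfold nb
    rw [add_comm, Finset.card_filter_add_card_filter_not, Finset.card_univ]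
    simp [mul_comm]
  rw [Finset.sum_congr rfl h2, Finset.sum_const, smul_eq_mul, mul_comm]

theorem part2 {D : ℕ} (V : Finset (Vtx D)) (E : Finset (Vtx D × Fin D)) (hE : E0 V ⊆ E)
    (c : Fin D → Bool) (x : Vtx D) (hx : x ∈ V) : (lowE enZ E V (ht c) x).card = rc V c x := by
  classical
  unfold rc
  symm
  refine Finset.card_bij (fun i _ => edg (x, (i, !(c i)))) ?_ ?_ ?_
  · intro i hi
    rw [mem_filter] at hi
    obtain ⟨-, hi⟩ := hi
    unfold lowE inE
    rw [mem_filter, mem_filter]
    rcases hc : c i with _ | _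
    · rw [hc] at hi
      simp only [Bool.not_false] at hi ⊢
      rw [step_t] at hi
      rw [edg_t]
      refine ⟨⟨hE (mem_t hx i), hx, hi⟩, Or.inl ⟨rfl, ?_⟩⟩
      show ht c (x + Pi.single i 1) < ht c x
      rw [ht_add, hc]
      simp
    · rw [hc] at hi
      simp only [Bool.not_true] at hi ⊢
      rw [step_f, ← sub_eq_add_neg] at hi
      rw [edg_f]
      have e : x - Pi.single i 1 + Pi.single i (1 : ℤ) = x := sub_add_cancel _ _
      refine ⟨⟨hE (mem_f hx i), hi, ?_⟩, Or.inr ⟨e, ?_⟩⟩
      · show x - Pi.single i 1 + Pi.single i 1 ∈ V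
        rw [e]
        exact hx
      · show ht c (x - Pi.single i 1) < ht c x
        have h4 := ht_add c (x - Pi.single i 1) i
        rw [e, hc] at h4
        simp only [if_true] at h4
        omega
  · intro i _ j _ h
    exact congrArg Prod.snd h
  · rintro ⟨y, i⟩ he
    unfold lowE inE at he
    rw [mem_filter, mem_filter] at he
    obtain ⟨⟨-, h1, h2⟩, h3⟩ := he
    have h1' : y ∈ V := h1
    have h2' : y + Pi.single i 1 ∈ V := h2
    have hadd := ht_add c y i
    rcases h3 with ⟨h4, h5⟩ | ⟨h4, h5⟩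
    · have h4' : y = x := h4
      have h5' : ht c (y + Pi.single i 1) < ht c x := h5
      subst h4'
      rcases hc : c i with _ | _
      · refine ⟨i, ?_, ?_⟩
        · rw [mem_filter, hc]
          exact ⟨mem_univ _, h2'⟩
        · simp only [hc, Bool.not_false, edg_t]
      · rw [hadd, hc] at h5'
        simp at h5'
    · have h4' : y + Pi.single i 1 = x := h4
      have h5' : ht c y < ht c x := h5
      subst h4'
      rcases hc : c i with _ | _
      · rw [hadd, hc] at h5'
        simp at h5'
      · refine ⟨i, ?_, ?_⟩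
        · rw [mem_filter, hc]
          refine ⟨mem_univ _, ?_⟩
          simp only [Bool.not_true]
          rw [step_f, add_neg_cancel_right]
          exact h1'
        · simp only [hc, Bool.not_true, edg_f]
          rw [add_sub_cancel_right]

theorem t_LNK : S_LNK := by
  intro D V
  refine ⟨E0 V, fun E hE => ⟨part1 V E hE, fun c x hx => part2 V E hE c x hx, ?_, ?_⟩⟩
  · rintro c ⟨y, i⟩ _
    show ht c y ≠ ht c (y + Pi.single i 1)
    rw [ht_add]
    rcases c i with _ | _
    · simp
    · simp
  · intro hV x hx y hy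
    refine Relation.ReflTransGen.mono (r := fun a b => a ∈ V ∧ b ∈ V ∧ ∃ d, b = a + stepv d) ?_ x y
      (hV x hx y hy)
    rintro a b ⟨ha, hb, ⟨i, s⟩, rfl⟩
    rcases s with _ | _
    · rw [step_f, ← sub_eq_add_neg] at hb ⊢
      refine ⟨(a - Pi.single i 1, i), ?_, Or.inr ?_⟩
      · unfold inE
        rw [mem_filter]
        refine ⟨hE (mem_f ha i), hb, ?_⟩
        show a - Pi.single i 1 + Pi.single i 1 ∈ V
        rw [sub_add_cancel]
        exact ha
      · show (a - Pi.single i 1, a - Pi.single i 1 + Pi.single i 1) = (a - Pi.single i 1, a)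
        rw [sub_add_cancel]
    · rw [step_t] at hb ⊢
      refine ⟨(a, i), ?_, Or.inl rfl⟩
      unfold inE
      rw [mem_filter]
      exact ⟨hE (mem_t ha i), ha, hb⟩

end Pool.Agent.Q129.CP_LNK
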