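import Mathlib

set_option autoImplicit false

/-!
Finite circular-order obstructions for `k`-colourable graphs exist only for `k = 1`.
-/

namespace Q129.CircPatterns

open Finset

/-- The three positions are met in the order `a`, `b`, `c` (cyclically). -/
def CycLt (a b c : ℕ) : Prop := (a < b ∧ b < c) ∨ (b < c ∧ c < a) ∨ (c < a ∧ a < b)

/-- The graph `H`, whose vertices `0, 1, …, h - 1` are ordered circularly in this order, occurs in
the circularly ordered graph `(G, c)`. -/
def Occurs {h n : ℕ} {V : Type} (H : SimpleGraph (Fin h)) (G : SimpleGraph V) (c : V ≃ Fin n) :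
    Prop :=
  ∃ φ : H ↪g G, ∀ i j l : Fin h, i < j → j < l →
    CycLt (c (φ i)).val (c (φ j)).val (c (φ l)).val

/-- The class of `k`-colourable graphs is described by the set `F` of circularly ordered graphs. -/
def Describes (F : Set (Σ h : ℕ, SimpleGraph (Fin h))) (k : ℕ) : Prop :=
  ∀ (n : ℕ) (G : SimpleGraph (Fin n)), G.Colorable k ↔
    ∃ c : Fin n ≃ Fin n, ∀ H ∈ F, ¬ Occurs H.2 G c

/-! ### The circular cliques -/

/-- The distance condition. -/
def Far (m n x y : ℕ) : Prop := m ≤ (x - y) + (y - x) ∧ (x - y) + (y - x) + m ≤ n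

/-- The circular clique `K_{n/m}`. -/
def circ (m n : ℕ) (hm : 0 < m) : SimpleGraph (Fin n) where
  Adj x y := Far m n x y
  symm := ⟨fun x y h => by unfold Far at *; omega⟩
  loopless := ⟨fun x h => by unfold Far at h; omega⟩

theorem circ_not_colorable (k m : ℕ) (hk : 2 ≤ k) (hm : 0 < m) :
    ¬ (circ m (k * m + 1) hm).Colorable k := by
  rintro ⟨C⟩
  have hkm : m ≤ k * m := Nat.le_mul_of_pos_left m (by omega)
  set n := k * m + 1 with hn
  have hn0 : 0 < n := by omega
  -- position in terms of natural numbers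
  let P : ℕ → Fin n := fun x => ⟨x % n, Nat.mod_lt _ hn0⟩
  -- consecutive vertices have the same colour
  have hstep : ∀ x, x < n → C (P x) = C (P (x + k * m)) := by
    intro x hx
    by_contra hne
    -- the k + 1 vertices x, x + m, ..., x + k m have different colours
    let Q : Fin (k + 1) → Fin n := fun i => P (x + i * m)
    have hQ : Function.Injective (fun i => C (Q i)) := by
      intro i j hij
      by_contra hij'
      wlog hlt : i < j generalizing i j
      · exact this hij.symm (fun h => hij' h.symm) (lt_of_le_of_ne (not_lt.1 hlt)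
          (fun h => hij' h.symm))
      by_cases hfull : i.val = 0 ∧ j.val = k
      · apply hne
        have e1 : Q i = P x := by simp [Q, hfull.1]
        have e2 : Q j = P (x + k * m) := by simp [Q, hfull.2]
        simp only at hij
        rw [e1, e2] at hij
        exact hij
      · apply C.valid _ hij
        change Far m n ((x + i * m) % n) ((x + j * m) % n)
        have hi := i.isLt
        have hj := j.isLt
        have hij2 : i.val < j.val := hlt
        obtain ⟨d, hd⟩ := Nat.exists_eq_add_of_lt hij2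
        have hjm : j.val * m = i.val * m + (d + 1) * m := by rw [hd]; ring
        have hdk : d + 1 < k ∨ d + 1 = k := by omega
        have hdk' : d + 1 < k := by
          rcases hdk with h | h
          · exact h
          · exfalso; apply hfull; constructor <;> omega
        have h1 : (d + 1) * m + m ≤ k * m := by
          have := Nat.mul_le_mul_right m (show d + 1 + 1 ≤ k by omega)
          calc (d + 1) * m + m = (d + 1 + 1) * m := by ring
            _ ≤ k * m := this
        have h2 : m ≤ (d + 1) * m := Nat.le_mul_of_pos_left m (by omega)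
        have h3 : j.val * m ≤ k * m := Nat.mul_le_mul_right m (by omega)
        have h4 : i.val * m ≤ k * m := Nat.mul_le_mul_right m (by omega)
        have e1 : (x + i.val * m) % n = if x + i.val * m < n then x + i.val * m else
            x + i.val * m - n := by
          split_ifs with h
          · exact Nat.mod_eq_of_lt h
          · rw [Nat.mod_eq_sub_mod (by omega), Nat.mod_eq_of_lt (by omega)]
        have e2 : (x + j.val * m) % n = if x + j.val * m < n then x + j.val * m else
            x + j.val * m - n := by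
          split_ifs with h
          · exact Nat.mod_eq_of_lt h
          · rw [Nat.mod_eq_sub_mod (by omega), Nat.mod_eq_of_lt (by omega)]
        rw [e1, e2]
        unfold Far
        split_ifs <;> omega
    have := Fintype.card_le_of_injective _ hQ
    simp at this
  have hconst : ∀ x, x < n → C (P x) = C (P 0) := by
    intro x
    induction x with
    | zero => intro _; rfl
    | succ x ih =>
      intro hx
      rw [hstep (x + 1) hx]
      have : P (x + 1 + k * m) = P x := by
        apply Fin.ext
        change (x + 1 + k * m) % n = x % n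
        have : x + 1 + k * m = x + n := by omega
        rw [this, Nat.add_mod_right]
      rw [this]
      exact ih (by omega)
  -- but 0 and m are adjacent
  have hadj : (circ m n hm).Adj (P 0) (P m) := by
    change Far m n (0 % n) (m % n)
    have : 2 * m ≤ k * m := Nat.mul_le_mul_right m hk
    rw [Nat.zero_mod, Nat.mod_eq_of_lt (by omega)]
    unfold Far
    omega
  exact C.valid hadj (hconst m (by omega)).symm

/-- Patterns occurring in the circular clique. -/
theorem pattern_of_occurs {k m h : ℕ} (hm : 0 < m) (hh : h ≤ k * m) {H : SimpleGraph (Fin h)}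
    (hH : Occurs H (circ m (k * m + 1) hm) (Equiv.refl _)) :
    ∃ p : Fin h → ℕ, (∀ i, p i < k * m) ∧ Function.Injective p ∧
      (∀ i j, H.Adj i j ↔ Far m (k * m + 1) (p i) (p j)) ∧
      ∀ i j l : Fin h, i < j → j < l → CycLt (p i) (p j) (p l) := by
  set n := k * m + 1 with hn
  obtain ⟨φ, hφ⟩ := hH
  obtain ⟨x, hx⟩ : ∃ x : Fin n, ∀ i, φ i ≠ x := by
    by_contra hcon
    push Not at hcon
    have := Fintype.card_le_of_surjective φ hcon
    simp only [Fintype.card_fin] at this
    omega
  have hφ' : ∀ i, (φ i).val ≠ x.val := fun i h => hx i (Fin.ext h)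
  have hlt : ∀ i, (φ i).val < n := fun i => (φ i).isLt
  have hxlt := x.isLt
  let p : Fin h → ℕ := fun i =>
    if (φ i).val < x.val then (φ i).val + (n - 1 - x.val) + 0 else (φ i).val - x.val - 1
  have hp : ∀ i, p i = if (φ i).val < x.val then (φ i).val + (n - 1 - x.val) else
      (φ i).val - x.val - 1 := fun i => rfl
  refine ⟨p, ?_, ?_, ?_, ?_⟩
  · intro i
    rw [hp]
    have h1 := hφ' i
    have h2 := hlt i
    split_ifs <;> omega
  · intro i j hij
    rw [hp, hp] at hij
    apply φ.injective
    apply Fin.ext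
    have h1 := hφ' i
    have h2 := hlt i
    have h3 := hφ' j
    have h4 := hlt j
    split_ifs at hij <;> omega
  · intro i j
    rw [← φ.map_adj_iff]
    change Far m n (φ i).val (φ j).val ↔ _
    rw [hp, hp]
    have h1 := hφ' i
    have h2 := hlt i
    have h3 := hφ' j
    have h4 := hlt j
    unfold Far
    split_ifs <;> constructor <;> intro h <;> omega
  · intro i j l hij hjl
    have := hφ i j l hij hjl
    simp only [Equiv.refl_apply] at this
    rw [hp, hp, hp]
    have h1 := hφ' i
    have h2 := hlt i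
    have h3 := hφ' j
    have h4 := hlt j
    have h5 := hφ' l
    have h6 := hlt l
    unfold CycLt at *
    split_ifs <;> omega

/-! ### Blocks in an arbitrary order -/

theorem greedy {α : Type} [DecidableEq α] [Inhabited α] (t : α → ℕ → ℕ) :
    ∀ (r : ℕ) (A : Finset α) (j : ℕ), A.card = r → ∃ π : ℕ → α, (∀ i < r, π i ∈ A) ∧
      (∀ i < r, ∀ i' < r, π i = π i' → i = i') ∧
      ∀ i, i + 1 < r → t (π i) (j + i + 1) ≤ t (π (i + 1)) (j + i + 1) := by
  intro r
  induction r with
  | zero => intro A j _; exact ⟨fun _ => default, by omega, by omega, by omega⟩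
  | succ r ih =>
    intro A j hA
    have hne : A.Nonempty := by rw [← card_pos]; omega
    obtain ⟨a, ha, hmin⟩ := exists_min_image A (fun a => t a (j + 1)) hne
    obtain ⟨π, h1, h2, h3⟩ := ih (A.erase a) (j + 1) (by rw [card_erase_of_mem ha]; omega)
    refine ⟨fun i => if i = 0 then a else π (i - 1), ?_, ?_, ?_⟩
    · intro i hi
      by_cases h0 : i = 0
      · simp [h0, ha]
      · simp only [if_neg h0]
        exact mem_of_mem_erase (h1 (i - 1) (by omega))
    · intro i hi i' hi' he
      by_cases h0 : i = 0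
      · by_cases h0' : i' = 0
        · omega
        · simp only [if_pos h0, if_neg h0'] at he
          have := h1 (i' - 1) (by omega)
          rw [← he] at this
          exact absurd this (notMem_erase a A)
      · by_cases h0' : i' = 0
        · simp only [if_neg h0, if_pos h0'] at he
          have := h1 (i - 1) (by omega)
          rw [he] at this
          exact absurd this (notMem_erase a A)
        · simp only [if_neg h0, if_neg h0'] at he
          have := h2 (i - 1) (by omega) (i' - 1) (by omega) he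
          omega
    · intro i hi
      by_cases h0 : i = 0
      · subst h0
        simp only [if_true, zero_add, if_neg (show (1 : ℕ) ≠ 0 by norm_num), Nat.sub_self]
        exact hmin _ (mem_of_mem_erase (h1 0 (by omega)))
      · simp only [if_neg h0, if_neg (show i + 1 ≠ 0 by omega)]
        have := h3 (i - 1) (by omega)
        rw [show i - 1 + 1 = i by omega, show j + 1 + (i - 1) + 1 = j + i + 1 by omega] at this
        exact this

theorem blocks (k m wd n0 : ℕ) (hk : 0 < k) (hm : 0 < m) (hwd : 0 < wd)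
    (hn0 : n0 = k * m * wd) (σ : Fin k × Fin n0 → ℕ) (hσ : Function.Injective σ) :
    ∃ (X : ℕ → ℕ → Fin k × Fin n0) (π : ℕ → Fin k),
      (∀ i < k, ∀ i' < k, π i = π i' → i = i') ∧
      (∀ i y, i < k * m → y < wd → (X i y).1 = π (i / m)) ∧
      ∀ i y i' y', i < k * m → i' < k * m → y < wd → y' < wd →
        (i < i' ∨ (i = i' ∧ y < y')) → σ (X i y) < σ (X i' y') := by
  classical
  have hn0pos : 0 < n0 := by rw [hn0]; positivity
  have : Inhabited (Fin k) := ⟨⟨0, hk⟩⟩
  let S : Fin k → Finset ℕ := fun a => univ.image fun r => σ (a, r)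
  have hS : ∀ a, (S a).card = n0 := by
    intro a
    rw [card_image_of_injective, card_univ, Fintype.card_fin]
    intro r r' h
    exact congrArg Prod.snd (hσ h)
  let E : Fin k → ℕ → ℕ := fun a ρ =>
    if h : ρ < n0 then (S a).orderEmbOfFin (hS a) ⟨ρ, h⟩ else 0
  have hE : ∀ a ρ ρ', ρ < ρ' → ρ' < n0 → E a ρ < E a ρ' := by
    intro a ρ ρ' h h'
    simp only [E, dif_pos h', dif_pos (h.trans h')]
    exact ((S a).orderEmbOfFin (hS a)).lt_iff_lt.2 h
  have hR : ∀ a ρ, ∃ r : Fin n0, ρ < n0 → σ (a, r) = E a ρ := by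
    intro a ρ
    by_cases h : ρ < n0
    · have := (S a).orderEmbOfFin_mem (hS a) ⟨ρ, h⟩
      simp only [S, mem_image, mem_univ, true_and] at this
      obtain ⟨r, hr⟩ := this
      exact ⟨r, fun _ => by simp only [E, dif_pos h]; exact hr⟩
    · exact ⟨⟨0, hn0pos⟩, fun h' => absurd h' h⟩
  choose R hR using hR
  obtain ⟨π, _, hπ2, hπ3⟩ := greedy (fun a j => E a (j * m * wd)) k (univ : Finset (Fin k)) 0
    (by simp)
  refine ⟨fun i y => (π (i / m), R (π (i / m)) (i * wd + y)), π, hπ2, fun _ _ _ _ => rfl, ?_⟩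
  have hbound : ∀ i y, i < k * m → y < wd → i * wd + y < n0 := by
    intro i y hi hy
    calc i * wd + y < i * wd + wd := by omega
      _ = (i + 1) * wd := by ring
      _ ≤ k * m * wd := Nat.mul_le_mul_right _ hi
      _ = n0 := hn0.symm
  intro i y i' y' hi hi' hy hy' h
  simp only
  rw [hR _ _ (hbound i y hi hy), hR _ _ (hbound i' y' hi' hy')]
  rcases h with h | ⟨rfl, h⟩
  · -- monotonicity along the blocks
    have hstep : ∀ i, i + 1 < k * m → E (π (i / m)) ((i + 1) * wd) ≤
        E (π ((i + 1) / m)) ((i + 1) * wd) := by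
      intro i hi
      by_cases hd : (i + 1) / m = i / m
      · rw [hd]
      · have h1 : (i + 1) / m = i / m + 1 := by
          have h2 : (i + 1) / m = i / m + if m ∣ i + 1 then 1 else 0 := Nat.succ_div
          rw [h2]
          split_ifs with h3
          · rfl
          · rw [h2, if_neg h3] at hd
            exact absurd rfl hd
        have h4 : m ∣ i + 1 := by
          have h2 : (i + 1) / m = i / m + if m ∣ i + 1 then 1 else 0 := Nat.succ_div
          by_contra h3
          rw [if_neg h3] at h2
          exact hd h2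
        obtain ⟨q, hq⟩ := h4
        have h5 : (i + 1) / m = q := by rw [hq, Nat.mul_div_cancel_left _ hm]
        have h6 : q < k := by
          have : m * q < k * m := by rw [← hq]; exact hi
          rw [mul_comm k m] at this
          exact Nat.lt_of_mul_lt_mul_left this
        have h7 := hπ3 (i / m) (by rw [← h1, h5]; exact h6)
        simp only [zero_add] at h7
        rw [← h1, h5] at h7
        rw [h5]
        have h8 : (i + 1) * wd = q * m * wd := by rw [hq]; ring
        rw [h8]
        exact h7
    -- induction on the difference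
    have hind : ∀ d i y y', i + d + 1 < k * m → y < wd → y' < wd →
        E (π (i / m)) (i * wd + y) < E (π ((i + d + 1) / m)) ((i + d + 1) * wd + y') := by
      intro d
      induction d with
      | zero =>
        intro i y y' hi hy hy'
        simp only [add_zero] at hi ⊢
        calc E (π (i / m)) (i * wd + y) < E (π (i / m)) ((i + 1) * wd) := by
              apply hE
              · calc i * wd + y < i * wd + wd := by omega
                  _ = (i + 1) * wd := by ring
              · have := hbound (i + 1) 0 hi (by omega)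
                simpa using this
          _ ≤ E (π ((i + 1) / m)) ((i + 1) * wd) := hstep i hi
          _ ≤ E (π ((i + 1) / m)) ((i + 1) * wd + y') := by
              rcases Nat.eq_zero_or_pos y' with h0 | h0
              · rw [h0, add_zero]
              · exact (hE _ _ _ (by omega) (hbound _ _ hi hy')).le
      | succ d ih =>
        intro i y y' hi hy hy'
        have h1 := ih i y 0 (by omega) hy (by omega)
        refine h1.trans ?_
        have hi2 : (i + d + 1) + 1 < k * m := by omega
        calc E (π ((i + d + 1) / m)) ((i + d + 1) * wd + 0) <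
              E (π ((i + d + 1) / m)) ((i + d + 1 + 1) * wd) := by
              apply hE
              · calc (i + d + 1) * wd + 0 < (i + d + 1) * wd + wd := by omega
                  _ = (i + d + 1 + 1) * wd := by ring
              · have := hbound (i + d + 1 + 1) 0 hi2 (by omega)
                simpa using this
          _ ≤ E (π ((i + d + 1 + 1) / m)) ((i + d + 1 + 1) * wd) := hstep _ hi2
          _ ≤ E (π ((i + (d + 1) + 1) / m)) ((i + (d + 1) + 1) * wd + y') := by
              rw [show i + (d + 1) + 1 = i + d + 1 + 1 by ring]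
              rcases Nat.eq_zero_or_pos y' with h0 | h0
              · rw [h0, add_zero]
              · exact (hE _ _ _ (by omega) (hbound _ _ hi2 hy')).le
    obtain ⟨d, hd⟩ := Nat.exists_eq_add_of_lt h
    rw [hd]
    exact hind d i y y' (by omega) hy hy'
  · exact hE _ _ _ (by omega) (hbound i y' hi hy')

/-! ### Counting -/

theorem counting {E I D : Type} [Fintype E] [Fintype I] [Fintype D] [DecidableEq E]
    [DecidableEq I] [DecidableEq D] (ι : I × D → E) (hι : Function.Injective ι) (τ : D → Bool) :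
    (univ.filter fun g : E → Bool => ∀ s, ∃ d, g (ι (s, d)) ≠ τ d).card *
      2 ^ (Fintype.card I * Fintype.card D) ≤
      (2 ^ Fintype.card D - 1) ^ Fintype.card I * 2 ^ Fintype.card E := by
  classical
  have h1 : Fintype.card {g : E → Bool // ∀ s, ∃ d, g (ι (s, d)) ≠ τ d} ≤
      Fintype.card (({e : E // e ∉ Set.range ι} → Bool) × (I → {f : D → Bool // f ≠ τ})) := by
    apply Fintype.card_le_of_injective (fun g => (fun e => g.1 e.1, fun s =>
      ⟨fun d => g.1 (ι (s, d)), fun h => by
        obtain ⟨d, hd⟩ := g.2 s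
        exact hd (congrFun h d)⟩))
    intro g g' h
    simp only [Prod.mk.injEq] at h
    apply Subtype.ext
    funext e
    by_cases he : e ∈ Set.range ι
    · obtain ⟨⟨s, d⟩, rfl⟩ := he
      have := congrArg Subtype.val (congrFun h.2 s)
      exact congrFun this d
    · exact congrFun h.1 ⟨e, he⟩
  rw [Fintype.card_subtype] at h1
  have h2 : Fintype.card {e : E // e ∉ Set.range ι} + Fintype.card I * Fintype.card D =
      Fintype.card E := by
    have h3 := Fintype.card_subtype_compl (fun e : E => e ∈ Set.range ι)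
    have h4 : Fintype.card {e : E // e ∈ Set.range ι} = Fintype.card I * Fintype.card D := by
      rw [← Fintype.card_prod]
      exact (Set.card_range_of_injective hι)
    have h5 : Fintype.card {e : E // e ∈ Set.range ι} ≤ Fintype.card E :=
      Fintype.card_subtype_le _
    omega
  have h6 : Fintype.card {f : D → Bool // f ≠ τ} = 2 ^ Fintype.card D - 1 := by
    have h3 := Fintype.card_subtype_compl (fun f : D → Bool => f = τ)
    rw [Fintype.card_subtype_eq] at h3
    rw [show Fintype.card {f : D → Bool // f ≠ τ} = Fintype.card {f : D → Bool // ¬ f = τ} from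
      rfl, h3]
    simp
  rw [Fintype.card_prod, Fintype.card_fun, Fintype.card_fun, Fintype.card_bool, h6] at h1
  calc (univ.filter fun g : E → Bool => ∀ s, ∃ d, g (ι (s, d)) ≠ τ d).card *
      2 ^ (Fintype.card I * Fintype.card D) ≤
      (2 ^ Fintype.card {e : E // e ∉ Set.range ι} * (2 ^ Fintype.card D - 1) ^ Fintype.card I) *
        2 ^ (Fintype.card I * Fintype.card D) := Nat.mul_le_mul_right _ h1
    _ = (2 ^ Fintype.card D - 1) ^ Fintype.card I *
        (2 ^ Fintype.card {e : E // e ∉ Set.range ι} * 2 ^ (Fintype.card I * Fintype.card D)) := by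
        ring
    _ = _ := by rw [← pow_add, h2]

theorem exists_u (K d : ℕ) : ∃ u : ℕ, 0 < u ∧
    (K * u) ^ (K * u) * (2 ^ d - 1) ^ (u * u) < 2 ^ ((u * u) * d) := by
  have hr0 : (0 : ℝ) ≤ (2 ^ d - 1) / 2 ^ d := by
    apply div_nonneg
    · have : (1 : ℝ) ≤ 2 ^ d := one_le_pow₀ (by norm_num)
      linarith
    · positivity
  have hr1 : ((2 : ℝ) ^ d - 1) / 2 ^ d < 1 := by
    rw [div_lt_one (by positivity)]
    linarith
  have hlim := tendsto_pow_const_mul_const_pow_of_lt_one K hr0 hr1
  have hpos : (0 : ℝ) < 1 / ((K : ℝ) ^ K + 1) := by positivity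
  have hev := (hlim.eventually (gt_mem_nhds hpos)).and (Filter.eventually_ge_atTop 1)
  obtain ⟨u, hu, hu1⟩ := hev.exists
  refine ⟨u, hu1, ?_⟩
  have h1 : (K * u) ^ K * (2 ^ d - 1) ^ u < (2 ^ d) ^ u := by
    have h2 : ((K : ℝ) * u) ^ K * (2 ^ d - 1) ^ u < (2 ^ d) ^ u := by
      rw [div_pow] at hu
      have h3 : (0 : ℝ) < (2 ^ d) ^ u := by positivity
      have h4 : (u : ℝ) ^ K * (2 ^ d - 1) ^ u * ((K : ℝ) ^ K + 1) < (2 ^ d) ^ u := by
        have h5 : (u : ℝ) ^ K * ((2 ^ d - 1) ^ u / (2 ^ d) ^ u) =
            (u : ℝ) ^ K * (2 ^ d - 1) ^ u / (2 ^ d) ^ u := by ring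
        rw [h5, div_lt_div_iff₀ h3 (by positivity)] at hu
        linarith
      have h6 : (0 : ℝ) ≤ (u : ℝ) ^ K * (2 ^ d - 1) ^ u := by
        apply mul_nonneg (by positivity)
        apply pow_nonneg
        have : (1 : ℝ) ≤ 2 ^ d := one_le_pow₀ (by norm_num)
        linarith
      calc ((K : ℝ) * u) ^ K * (2 ^ d - 1) ^ u = (u : ℝ) ^ K * (2 ^ d - 1) ^ u * (K : ℝ) ^ K := by
            rw [mul_pow]; ring
        _ ≤ (u : ℝ) ^ K * (2 ^ d - 1) ^ u * ((K : ℝ) ^ K + 1) := by
            apply mul_le_mul_of_nonneg_left _ h6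
            linarith
        _ < _ := h4
    have h7 : (((2 ^ d - 1 : ℕ) : ℝ)) = 2 ^ d - 1 := by
      rw [Nat.cast_sub Nat.one_le_two_pow]; push_cast; ring
    rw [← h7] at h2
    exact_mod_cast h2
  calc (K * u) ^ (K * u) * (2 ^ d - 1) ^ (u * u) = ((K * u) ^ K * (2 ^ d - 1) ^ u) ^ u := by
        rw [mul_pow ((K * u) ^ K), ← pow_mul, ← pow_mul]
    _ < ((2 ^ d) ^ u) ^ u := Nat.pow_lt_pow_left h1 (by omega)
    _ = 2 ^ ((u * u) * d) := by rw [← pow_mul, ← pow_mul]; ring_nf

/-- The graph given by bits. -/
def bitGraph {k n0 : ℕ} (g : Sym2 (Fin k × Fin n0) → Bool) : SimpleGraph (Fin k × Fin n0) where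
  Adj x y := x.1 ≠ y.1 ∧ g s(x, y) = true
  symm := ⟨fun x y h => ⟨h.1.symm, by rw [Sym2.eq_swap]; exact h.2⟩⟩
  loopless := ⟨fun x h => h.1 rfl⟩

/-- The pairs. -/
abbrev Dt (h : ℕ) : Type := {p : Fin h × Fin h // p.1 < p.2}

instance farDec (m n x y : ℕ) : Decidable (Far m n x y) := by unfold Far; infer_instance

theorem universal (k m : ℕ) (hk : 2 ≤ k) (hm : 0 < m) :
    ∃ (N : ℕ) (G : SimpleGraph (Fin N)), G.Colorable k ∧ ∀ c : Fin N ≃ Fin N, ∃ ψ : ℕ → Fin N,
      (∀ i j, i < j → j < k * m → (c (ψ i)).val < (c (ψ j)).val) ∧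
      ∀ i j, i < k * m → j < k * m → (G.Adj (ψ i) (ψ j) ↔ Far m (k * m + 1) i j) := by
  classical
  obtain ⟨u, hu, hineq⟩ := exists_u (k * (k * m * (k * m))) (Fintype.card (Dt (k * m)))
  obtain ⟨n0, hn0⟩ : ∃ n0, n0 = k * m * (k * m * u) := ⟨_, rfl⟩
  have hkm : 0 < k * m := by positivity
  have hwd : 0 < k * m * u := by positivity
  let e : (Fin k × Fin n0) ≃ Fin (k * n0) := finProdFinEquiv
  have hN : k * n0 = k * (k * m * (k * m)) * u := by rw [hn0]; ring
  -- transversals
  have hy : ∀ i s t : ℕ, i < k * m → s < u → t < u → s + i * t < k * m * u := by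
    intro i s t hi hs ht
    calc s + i * t < u + i * t := by omega
      _ ≤ u + i * u := by gcongr
      _ = (i + 1) * u := by ring
      _ ≤ k * m * u := Nat.mul_le_mul_right _ hi
  have hbl : ∀ c : (Fin k × Fin n0) ≃ Fin (k * n0), ∃ (X : ℕ → ℕ → (Fin k × Fin n0)) (π : ℕ → Fin k),
      (∀ i < k, ∀ i' < k, π i = π i' → i = i') ∧
      (∀ i y, i < k * m → y < k * m * u → (X i y).1 = π (i / m)) ∧
      ∀ i y i' y', i < k * m → i' < k * m → y < k * m * u → y' < k * m * u →
        (i < i' ∨ (i = i' ∧ y < y')) → (c (X i y)).val < (c (X i' y')).val := fun c =>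
    blocks k m (k * m * u) n0 (by omega) hm hwd hn0 (fun v => (c v).val)
      (fun v v' h => c.injective (Fin.ext h))
  choose X π hπ hpart hord using hbl
  have hXinj : ∀ c i y i' y', i < k * m → i' < k * m → y < k * m * u → y' < k * m * u →
      X c i y = X c i' y' → i = i' ∧ y = y' := by
    intro c i y i' y' hi hi' hyy hyy' he
    have h1 := hord c i y i' y' hi hi' hyy hyy'
    have h2 := hord c i' y' i y hi' hi hyy' hyy
    rw [he] at h1 h2
    by_contra hcon
    have : (i < i' ∨ (i = i' ∧ y < y')) ∨ (i' < i ∨ (i' = i ∧ y' < y)) := by omega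
    rcases this with h | h
    · exact absurd (h1 h) (lt_irrefl _)
    · exact absurd (h2 h) (lt_irrefl _)
  let ι : ((Fin k × Fin n0) ≃ Fin (k * n0)) → (Fin u × Fin u) × Dt (k * m) → Sym2 (Fin k × Fin n0) := fun c z =>
    s(X c z.2.1.1 (z.1.1 + z.2.1.1 * z.1.2), X c z.2.1.2 (z.1.1 + z.2.1.2 * z.1.2))
  have hι : ∀ c, Function.Injective (ι c) := by
    rintro c ⟨⟨s, t⟩, ⟨⟨i, j⟩, hij⟩⟩ ⟨⟨s', t'⟩, ⟨⟨i', j'⟩, hij'⟩⟩ he
    simp only [ι, Sym2.eq_iff] at he
    simp only at hij hij'
    have b1 := hy i s t i.isLt s.isLt t.isLt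
    have b2 := hy j s t j.isLt s.isLt t.isLt
    have b3 := hy i' s' t' i'.isLt s'.isLt t'.isLt
    have b4 := hy j' s' t' j'.isLt s'.isLt t'.isLt
    rcases he with ⟨h1, h2⟩ | ⟨h1, h2⟩
    · obtain ⟨e1, e2⟩ := hXinj c _ _ _ _ i.isLt i'.isLt b1 b3 h1
      obtain ⟨e3, e4⟩ := hXinj c _ _ _ _ j.isLt j'.isLt b2 b4 h2
      have e5 : i = i' := Fin.ext e1
      have e6 : j = j' := Fin.ext e3
      subst e5
      subst e6
      have hlt : i.val < j.val := hij
      obtain ⟨d, hd⟩ := Nat.exists_eq_add_of_lt hlt
      rw [hd] at e4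
      have e7 : (d + 1) * t.val = (d + 1) * t'.val := by nlinarith
      have e8 : t.val = t'.val := Nat.eq_of_mul_eq_mul_left (by omega) e7
      rw [e8] at e2
      have e9 : s.val = s'.val := by omega
      have : t = t' := Fin.ext e8
      subst this
      have : s = s' := Fin.ext e9
      subst this
      rfl
    · obtain ⟨e1, _⟩ := hXinj c _ _ _ _ i.isLt j'.isLt b1 b4 h1
      obtain ⟨e3, _⟩ := hXinj c _ _ _ _ j.isLt i'.isLt b2 b3 h2
      have h3 : i.val < j.val := hij
      have h4 : i'.val < j'.val := hij'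
      omega
  let τ : Dt (k * m) → Bool := fun p => decide (Far m (k * m + 1) p.1.1 p.1.2)
  -- a good bit function
  obtain ⟨g, hg⟩ : ∃ g : Sym2 (Fin k × Fin n0) → Bool, ∀ c, ∃ s, ∀ d, g (ι c (s, d)) = τ d := by
    by_contra hcon
    push Not at hcon
    let bad : ((Fin k × Fin n0) ≃ Fin (k * n0)) → Finset (Sym2 (Fin k × Fin n0) → Bool) := fun c =>
      univ.filter fun g => ∀ s, ∃ d, g (ι c (s, d)) ≠ τ d
    have hcover : (univ : Finset (Sym2 (Fin k × Fin n0) → Bool)) ⊆ univ.biUnion bad := by
      intro g _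
      obtain ⟨c, hc⟩ := hcon g
      rw [mem_biUnion]
      exact ⟨c, mem_univ _, by simpa [bad] using hc⟩
    have h1 : 2 ^ Fintype.card (Sym2 (Fin k × Fin n0)) ≤ ∑ c, (bad c).card := by
      have := (card_le_card hcover).trans card_biUnion_le
      rw [card_univ, Fintype.card_fun, Fintype.card_bool] at this
      exact this
    have h2 : ∀ c, (bad c).card * 2 ^ (u * u * Fintype.card (Dt (k * m))) ≤
        (2 ^ Fintype.card (Dt (k * m)) - 1) ^ (u * u) * 2 ^ Fintype.card (Sym2 (Fin k × Fin n0)) := by
      intro c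
      have := counting (ι c) (hι c) τ
      rw [Fintype.card_prod, Fintype.card_fin] at this
      exact this
    have h3 : Fintype.card ((Fin k × Fin n0) ≃ Fin (k * n0)) ≤ (k * n0) ^ (k * n0) := by
      rw [Fintype.card_equiv e, Fintype.card_prod, Fintype.card_fin, Fintype.card_fin]
      exact Nat.factorial_le_pow _
    have h4 : 2 ^ Fintype.card (Sym2 (Fin k × Fin n0)) * 2 ^ (u * u * Fintype.card (Dt (k * m))) ≤
        (k * n0) ^ (k * n0) * ((2 ^ Fintype.card (Dt (k * m)) - 1) ^ (u * u) *
          2 ^ Fintype.card (Sym2 (Fin k × Fin n0))) := by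
      calc 2 ^ Fintype.card (Sym2 (Fin k × Fin n0)) * 2 ^ (u * u * Fintype.card (Dt (k * m))) ≤
          (∑ c, (bad c).card) * 2 ^ (u * u * Fintype.card (Dt (k * m))) :=
            Nat.mul_le_mul_right _ h1
        _ = ∑ c, (bad c).card * 2 ^ (u * u * Fintype.card (Dt (k * m))) := sum_mul _ _ _
        _ ≤ ∑ _c : (Fin k × Fin n0) ≃ Fin (k * n0), ((2 ^ Fintype.card (Dt (k * m)) - 1) ^ (u * u) *
              2 ^ Fintype.card (Sym2 (Fin k × Fin n0))) := sum_le_sum fun c _ => h2 c
        _ = Fintype.card ((Fin k × Fin n0) ≃ Fin (k * n0)) * ((2 ^ Fintype.card (Dt (k * m)) - 1) ^ (u * u) *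
              2 ^ Fintype.card (Sym2 (Fin k × Fin n0))) := by rw [sum_const, card_univ, smul_eq_mul]
        _ ≤ _ := Nat.mul_le_mul_right _ h3
    rw [hN] at h4
    have h5 : 0 < 2 ^ Fintype.card (Sym2 (Fin k × Fin n0)) := by positivity
    have h6 := Nat.mul_lt_mul_of_pos_left hineq h5
    have h7 : 2 ^ Fintype.card (Sym2 (Fin k × Fin n0)) * ((k * (k * m * (k * m)) * u) ^
        (k * (k * m * (k * m)) * u) * (2 ^ Fintype.card (Dt (k * m)) - 1) ^ (u * u)) =
        (k * (k * m * (k * m)) * u) ^ (k * (k * m * (k * m)) * u) *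
        ((2 ^ Fintype.card (Dt (k * m)) - 1) ^ (u * u) * 2 ^ Fintype.card (Sym2 (Fin k × Fin n0))) := by ring
    omega
  refine ⟨k * n0, (bitGraph g).comap e.symm, ?_, ?_⟩
  · exact ⟨SimpleGraph.Coloring.mk (fun x => (e.symm x).1) (fun {x y} h => h.1)⟩
  · intro c
    let c' : (Fin k × Fin n0) ≃ Fin (k * n0) := e.trans c
    obtain ⟨⟨s, t⟩, hst⟩ := hg c'
    refine ⟨fun i => e (X c' i (s + i * t)), ?_, ?_⟩
    · intro i j hij hj
      exact hord c' i _ j _ (by omega) hj (hy i s t (by omega) s.isLt t.isLt)
        (hy j s t hj s.isLt t.isLt) (Or.inl hij)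
    · -- adjacency
      have key : ∀ i j, i < j → j < k * m →
          (((bitGraph g).comap e.symm).Adj (e (X c' i (s + i * t))) (e (X c' j (s + j * t))) ↔
            Far m (k * m + 1) i j) := by
        intro i j hij hj
        have hi : i < k * m := by omega
        have h1 := hst ⟨(⟨i, hi⟩, ⟨j, hj⟩), hij⟩
        simp only [ι, τ] at h1
        have b1 := hy i s t hi s.isLt t.isLt
        have b2 := hy j s t hj s.isLt t.isLt
        rw [SimpleGraph.comap_adj, Equiv.symm_apply_apply, Equiv.symm_apply_apply]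
        change ((X c' i (s + i * t)).1 ≠ (X c' j (s + j * t)).1 ∧
          g s(X c' i (s + i * t), X c' j (s + j * t)) = true) ↔ _
        rw [h1, decide_eq_true_eq, hpart c' i _ hi b1, hpart c' j _ hj b2]
        constructor
        · exact fun h => h.2
        · intro h
          refine ⟨fun he => ?_, h⟩
          have hdi : i / m < k := Nat.div_lt_of_lt_mul (by rw [mul_comm]; exact hi)
          have hdj : j / m < k := Nat.div_lt_of_lt_mul (by rw [mul_comm]; exact hj)
          have hd := hπ c' _ hdi _ hdj he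
          have m1 := Nat.div_add_mod i m
          have m2 := Nat.div_add_mod j m
          have m3 := Nat.mod_lt i hm
          have m4 := Nat.mod_lt j hm
          rw [hd] at m1
          unfold Far at h
          omega
      intro i j hi hj
      rcases Nat.lt_trichotomy i j with h | h | h
      · exact key i j h hj
      · subst h
        constructor
        · intro h; exact absurd rfl h.1
        · intro h; unfold Far at h; omega
      · rw [SimpleGraph.adj_comm, key j i h hi]
        unfold Far
        omega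

/-- No finite description for `k ≥ 2`. -/
theorem not_describes {k : ℕ} (hk : 2 ≤ k) (F : Set (Σ h : ℕ, SimpleGraph (Fin h)))
    (hF : F.Finite) : ¬ Describes F k := by
  intro hd
  -- a bound for the sizes
  obtain ⟨m, hm⟩ : ∃ m, ∀ H ∈ F, H.1 ≤ m := by
    obtain ⟨m, hm⟩ := (hF.image fun H => H.1).bddAbove
    exact ⟨m, fun H hH => hm ⟨H, hH, rfl⟩⟩
  have hm1 : 0 < m + 1 := by omega
  have hle : m ≤ k * (m + 1) := by nlinarith
  have h1 := circ_not_colorable k (m + 1) hk hm1
  rw [hd] at h1
  push Not at h1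
  obtain ⟨H, hH, hocc⟩ := h1 (Equiv.refl _)
  obtain ⟨p, hp1, hp2, hp3, hp4⟩ := pattern_of_occurs hm1 ((hm H hH).trans hle) hocc
  obtain ⟨N, G, hG, hψ⟩ := universal k (m + 1) hk hm1
  obtain ⟨c, hc⟩ := (hd N G).1 hG
  apply hc H hH
  obtain ⟨ψ, hψ1, hψ2⟩ := hψ c
  have hψinj : ∀ i j, i < k * (m + 1) → j < k * (m + 1) → ψ i = ψ j → i = j := by
    intro i j hi hj he
    rcases Nat.lt_trichotomy i j with h | h | h
    · have := hψ1 i j h hj
      rw [he] at this
      exact absurd this (lt_irrefl _)
    · exact h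
    · have := hψ1 j i h hi
      rw [he] at this
      exact absurd this (lt_irrefl _)
  refine ⟨⟨⟨fun i => ψ (p i), ?_⟩, ?_⟩, ?_⟩
  · intro i j hij
    exact hp2 (hψinj _ _ (hp1 i) (hp1 j) hij)
  · intro i j
    change G.Adj (ψ (p i)) (ψ (p j)) ↔ H.2.Adj i j
    rw [hψ2 _ _ (hp1 i) (hp1 j), hp3]
  · intro i j l hij hjl
    have h2 := hp4 i j l hij hjl
    change CycLt (c (ψ (p i))).val (c (ψ (p j))).val (c (ψ (p l))).val
    rcases h2 with ⟨h3, h4⟩ | ⟨h3, h4⟩ | ⟨h3, h4⟩
    · exact Or.inl ⟨hψ1 _ _ h3 (hp1 _), hψ1 _ _ h4 (hp1 _)⟩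
    · exact Or.inr (Or.inl ⟨hψ1 _ _ h3 (hp1 _), hψ1 _ _ h4 (hp1 _)⟩)
    · exact Or.inr (Or.inr ⟨hψ1 _ _ h3 (hp1 _), hψ1 _ _ h4 (hp1 _)⟩)

theorem describes_one : ∃ F : Set (Σ h : ℕ, SimpleGraph (Fin h)), F.Finite ∧ Describes F 1 := by
  refine ⟨{⟨2, ⊤⟩}, Set.finite_singleton _, ?_⟩
  intro n G
  constructor
  · rintro ⟨C⟩
    refine ⟨Equiv.refl _, ?_⟩
    rintro H hH ⟨φ, _⟩
    rw [Set.mem_singleton_iff] at hH
    subst hH
    have : G.Adj (φ 0) (φ 1) := φ.map_adj_iff.2 (by simp)
    exact C.valid this (Subsingleton.elim _ _)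
  · rintro ⟨c, hc⟩
    have hno : ∀ u v, ¬ G.Adj u v := by
      intro u v huv
      apply hc ⟨2, ⊤⟩ rfl
      have hinj : Function.Injective (fun i : Fin 2 => if i = 0 then u else v) := by
        intro i j hij
        fin_cases i <;> fin_cases j <;> simp at hij ⊢
        · exact absurd hij huv.ne
        · exact absurd hij huv.ne'
      have hadj : ∀ i j : Fin 2, G.Adj (if i = 0 then u else v) (if j = 0 then u else v) ↔
          (⊤ : SimpleGraph (Fin 2)).Adj i j := by
        intro i j
        fin_cases i <;> fin_cases j <;> simp [huv, huv.symm]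
      refine ⟨⟨⟨fun i : Fin 2 => if i = 0 then u else v, hinj⟩, fun {i j} => hadj i j⟩, ?_⟩
      intro i j l hij hjl
      have h0 : l.val < 2 := l.isLt
      have h1 : i.val < j.val := hij
      have h2 : j.val < l.val := hjl
      omega
    exact ⟨SimpleGraph.Coloring.mk (fun _ => 0) (fun {u v} h => absurd h (hno u v))⟩

end Q129.CircPatterns
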