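import Mathlib

set_option autoImplicit false

/-!
First-Fit on blow-ups of binomial trees.
-/

namespace Q129.FirstFit

open SimpleGraph

/-- A graph is chordal if every cycle of length at least four has a chord. -/
def IsChordal {V : Type} (G : SimpleGraph V) : Prop :=
  ∀ (v : V) (c : G.Walk v v), c.IsCycle → 4 ≤ c.length → ∃ e, c.IsChord e

/-- `f` is the First-Fit colouring of `G` when the vertices are coloured in the order `σ`: every
vertex gets the least positive integer which is not the colour of an earlier neighbour. -/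
def IsFirstFit {V : Type} {n : ℕ} (G : SimpleGraph V) (σ : V ≃ Fin n) (f : V → ℕ) : Prop :=
  ∀ v : V, IsLeast {c : ℕ | 0 < c ∧ ∀ u : V, G.Adj u v → σ u < σ v → f u ≠ c} (f v)

/-- The First-Fit chromatic number: the largest number of colours used by First-Fit over all
orderings of the vertices. -/
noncomputable def firstFitNumber {n : ℕ} (G : SimpleGraph (Fin n)) : ℕ :=
  sSup {m : ℕ | ∃ (σ : Fin n ≃ Fin n) (f : Fin n → ℕ), IsFirstFit G σ f ∧
    (Finset.univ.image f).card = m}

/-- A graph whose vertices can be ranked so that the neighbours of at least the same rank of every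
vertex are pairwise adjacent is chordal. -/
theorem chordal_of_rank {V : Type} (G : SimpleGraph V) (r : V → ℕ)
    (h : ∀ v u w, G.Adj v u → G.Adj v w → r v ≤ r u → r v ≤ r w → u ≠ w → G.Adj u w) :
    IsChordal G := by
  classical
  intro v c hc hlen
  have hne : c.support.toFinset.Nonempty := ⟨v, by simp⟩
  obtain ⟨x, hx, hmin⟩ := Finset.exists_min_image c.support.toFinset r hne
  have hx' : x ∈ c.support := by simpa using hx
  let d := c.rotate x hx'
  have hd : d.IsCycle := hc.rotate hx'
  have hdl : d.length = c.length := Walk.length_rotate _ _ _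
  have hsup : ∀ y, y ∈ d.support → y ∈ c.support := fun y hy =>
    (Walk.mem_support_rotate_iff c x hx').1 hy
  have hedge : ∀ e, e ∈ c.edges → e ∈ d.edges := fun e he =>
    (Walk.rotate_edges c x hx').perm.mem_iff.2 he
  have hnil : ¬ d.Nil := hd.not_nil
  have h1 : G.Adj x d.snd := d.adj_snd hnil
  have h2 : G.Adj d.penultimate x := d.adj_penultimate hnil
  have hsnd : d.snd ∈ c.support := hsup _ (d.getVert_mem_support 1)
  have hpen : d.penultimate ∈ c.support := hsup _ (d.getVert_mem_support _)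
  have hne2 : d.snd ≠ d.penultimate := hd.snd_ne_penultimate
  have hadj : G.Adj d.snd d.penultimate :=
    h x _ _ h1 h2.symm (hmin _ (by simpa using hsnd)) (hmin _ (by simpa using hpen)) hne2
  refine ⟨s(d.snd, d.penultimate), ?_⟩
  rw [Walk.isChord_sym2Mk]
  refine ⟨hadj, ?_, hsnd, hpen⟩
  intro hmem
  have hmem' := hedge _ hmem
  rw [Walk.mk_mem_edges_iff_exists] at hmem'
  obtain ⟨i, hi, he⟩ := hmem'
  have hinj : ∀ a b : ℕ, 1 ≤ a ∧ a ≤ d.length → 1 ≤ b ∧ b ≤ d.length →
      d.getVert a = d.getVert b → a = b := fun a b ha hb h => hd.getVert_injOn ha hb h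
  have hlen' : 4 ≤ d.length := by omega
  have hsndE : d.snd = d.getVert 1 := rfl
  have hpenE : d.penultimate = d.getVert (d.length - 1) := rfl
  rw [hsndE, hpenE, Sym2.eq_iff] at he
  have hxe : d.getVert 0 = d.getVert d.length := by simp
  rcases he with ⟨h3, h4⟩ | ⟨h3, h4⟩
  · by_cases hi0 : i = 0
    · subst hi0
      have := hinj d.length 1 (by omega) (by omega) (by rw [← hxe]; exact h3)
      omega
    · have := hinj i 1 (by omega) (by omega) h3
      subst this
      have := hinj 2 (d.length - 1) (by omega) (by omega) h4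
      omega
  · have := hinj (i + 1) 1 (by omega) (by omega) h4
    have hi0 : i = 0 := by omega
    subst hi0
    have := hinj d.length (d.length - 1) (by omega) (by omega) (by rw [← hxe]; exact h3)
    omega

/-- A wall function gives a First-Fit colouring for some ordering. -/
theorem firstFit_of_wall {n : ℕ} (G : SimpleGraph (Fin n)) (L : Fin n → ℕ)
    (hpos : ∀ v, 0 < L v) (hprop : ∀ u v, G.Adj u v → L u ≠ L v)
    (hwall : ∀ v c, 0 < c → c < L v → ∃ u, G.Adj u v ∧ L u = c) :
    (Finset.univ.image L).card ≤ firstFitNumber G := by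
  classical
  let σ : Fin n ≃ Fin n := (Tuple.sort L).symm
  have hσ : ∀ u v, L u < L v → σ u < σ v := by
    intro u v huv
    by_contra hcon
    push Not at hcon
    have hm := Tuple.monotone_sort L hcon
    simp only [Function.comp, σ, Equiv.apply_symm_apply] at hm
    omega
  have hff : IsFirstFit G σ L := by
    intro v
    refine ⟨⟨hpos v, fun u hu _ => hprop u v hu⟩, ?_⟩
    intro c hc
    obtain ⟨hc0, hc1⟩ := hc
    by_contra hcon
    push Not at hcon
    obtain ⟨u, hu, hLu⟩ := hwall v c hc0 hcon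
    exact hc1 u hu (hσ u v (by omega)) hLu
  unfold firstFitNumber
  refine le_csSup ⟨n, ?_⟩ ⟨σ, L, hff, rfl⟩
  rintro m ⟨τ, f, _, rfl⟩
  exact Finset.card_image_le.trans (by simp)

/-- `y` is the parent of `x` in the binomial tree. -/
def Par (x y : ℕ) : Prop := ∃ t, x = y + 2 ^ t ∧ 2 ^ (t + 1) ∣ y

/-- The level of the node `x` of the binomial tree with `2 ^ H` nodes. -/
def lev (H x : ℕ) : ℕ := padicValNat 2 (x + 2 ^ H)

theorem par_lt {x y : ℕ} (h : Par x y) : y < x := by
  obtain ⟨t, rfl, _⟩ := h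
  have := Nat.two_pow_pos t
  omega

theorem lev_zero (H : ℕ) : lev H 0 = H := by
  simp [lev]

theorem dvd_iff_le_lev (H x t : ℕ) : 2 ^ t ∣ x + 2 ^ H ↔ t ≤ lev H x := by
  have : x + 2 ^ H ≠ 0 := by positivity
  exact (padicValNat_dvd_iff_le this)

theorem lev_le (H x : ℕ) (hx : x < 2 ^ H) : lev H x ≤ H := by
  by_contra hcon
  push Not at hcon
  have h := (dvd_iff_le_lev H x (H + 1)).2 hcon
  have := Nat.le_of_dvd (by positivity) h
  rw [pow_succ] at this
  omega

theorem par_lev {H x y : ℕ} (hx : x < 2 ^ H) (h : Par x y) :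
    ∃ t, x = y + 2 ^ t ∧ lev H x = t ∧ t < lev H y := by
  obtain ⟨t, rfl, hy⟩ := h
  have htH : t < H := by
    have : 2 ^ t < 2 ^ H := by omega
    exact (Nat.pow_lt_pow_iff_right (by norm_num)).1 this
  have hH : 2 ^ (t + 1) ∣ 2 ^ H := pow_dvd_pow 2 (by omega)
  have hyH : 2 ^ (t + 1) ∣ y + 2 ^ H := dvd_add hy hH
  refine ⟨t, rfl, ?_, (dvd_iff_le_lev H y (t + 1)).1 hyH⟩
  apply le_antisymm
  · by_contra hcon
    push Not at hcon
    have h1 : 2 ^ (t + 1) ∣ y + 2 ^ t + 2 ^ H := (dvd_iff_le_lev H _ (t + 1)).2 hcon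
    have h2 : 2 ^ (t + 1) ∣ 2 ^ t := by
      have : y + 2 ^ t + 2 ^ H = (y + 2 ^ H) + 2 ^ t := by ring
      rw [this] at h1
      exact (Nat.dvd_add_right hyH).1 h1
    have := Nat.le_of_dvd (by positivity) h2
    rw [pow_succ] at this
    have := Nat.two_pow_pos t
    omega
  · apply (dvd_iff_le_lev H _ t).1
    have : y + 2 ^ t + 2 ^ H = (y + 2 ^ H) + 2 ^ t := by ring
    rw [this]
    exact dvd_add ((pow_dvd_pow 2 (by omega)).trans hyH) dvd_rfl

theorem par_unique {x y y' : ℕ} (h : Par x y) (h' : Par x y') : y = y' := by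
  have hx : x < 2 ^ x := Nat.lt_two_pow_self
  obtain ⟨t, h1, h2, _⟩ := par_lev (H := x) hx h
  obtain ⟨t', h1', h2', _⟩ := par_lev (H := x) hx h'
  have : t = t' := by omega
  subst this
  omega

/-- Every node has children of all lower levels. -/
theorem exists_child {H y j : ℕ} (hy : y < 2 ^ H) (hj : j < lev H y) :
    ∃ x, x < 2 ^ H ∧ Par x y ∧ lev H x = j := by
  have hjH : j < H := lt_of_lt_of_le hj (lev_le H y hy)
  have h1 : 2 ^ (j + 1) ∣ y + 2 ^ H := (dvd_iff_le_lev H y (j + 1)).2 hj
  have h2 : 2 ^ (j + 1) ∣ 2 ^ H := pow_dvd_pow 2 (by omega)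
  have h3 : 2 ^ (j + 1) ∣ y := (Nat.dvd_add_left h2).1 h1
  have hlt : y + 2 ^ j < 2 ^ H := by
    obtain ⟨a, ha⟩ := h3
    obtain ⟨b, hb⟩ := h2
    have hab : a < b := by
      by_contra hcon
      push Not at hcon
      have := Nat.mul_le_mul_left (2 ^ (j + 1)) hcon
      omega
    have := Nat.mul_le_mul_left (2 ^ (j + 1)) (Nat.succ_le_of_lt hab)
    rw [Nat.mul_succ] at this
    have h5 : 2 ^ (j + 1) = 2 ^ j * 2 := pow_succ 2 j
    have := Nat.two_pow_pos j
    omega
  refine ⟨y + 2 ^ j, hlt, ⟨j, rfl, h3⟩, ?_⟩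
  obtain ⟨t, ht, hl, _⟩ := par_lev (H := H) hlt ⟨j, rfl, h3⟩
  have : 2 ^ j = 2 ^ t := by omega
  have := Nat.pow_right_injective (le_refl 2) this
  omega

/-- The relation defining the graph: the first `m * 2 ^ H` vertices form the blow-up of the
binomial tree, the next `k` ones a clique, the others are isolated. -/
def Rel (m H k u v : ℕ) : Prop :=
  (u < m * 2 ^ H ∧ v < m * 2 ^ H ∧ (u / m = v / m ∨ Par (u / m) (v / m) ∨ Par (v / m) (u / m))) ∨
  (m * 2 ^ H ≤ u ∧ u < m * 2 ^ H + k ∧ m * 2 ^ H ≤ v ∧ v < m * 2 ^ H + k)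

theorem rel_symm {m H k u v : ℕ} (h : Rel m H k u v) : Rel m H k v u := by
  rcases h with ⟨h1, h2, h3⟩ | ⟨h1, h2, h3, h4⟩
  · exact Or.inl ⟨h2, h1, by tauto⟩
  · exact Or.inr ⟨h3, h4, h1, h2⟩

/-- The graph on `n` vertices. -/
def gr (m H k n : ℕ) : SimpleGraph (Fin n) where
  Adj u v := u ≠ v ∧ Rel m H k u v
  symm := ⟨fun _ _ h => ⟨h.1.symm, rel_symm h.2⟩⟩
  loopless := ⟨fun _ h => h.1 rfl⟩

theorem div_lt_of {m H u : ℕ} (hu : u < m * 2 ^ H) : u / m < 2 ^ H :=
  Nat.div_lt_of_lt_mul hu

/-- The rank. -/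
def rk (m H u : ℕ) : ℕ := if u < m * 2 ^ H then lev H (u / m) else 0

theorem rk_same_or_par {m H k u v : ℕ} (h : Rel m H k v u) (hv : v < m * 2 ^ H)
    (hr : rk m H v ≤ rk m H u) : u < m * 2 ^ H ∧ (u / m = v / m ∨ Par (v / m) (u / m)) := by
  rcases h with ⟨h1, h2, h3⟩ | ⟨h1, h2, h3, h4⟩
  · refine ⟨h2, ?_⟩
    rcases h3 with h3 | h3 | h3
    · exact Or.inl h3.symm
    · exact Or.inr h3
    · exfalso
      obtain ⟨t, _, h5, h6⟩ := par_lev (div_lt_of h2) h3
      simp only [rk, h1, h2, if_true] at hr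
      omega
  · omega

theorem gr_chordal (m H k n : ℕ) : IsChordal (gr m H k n) := by
  apply chordal_of_rank _ (fun u : Fin n => rk m H u)
  intro v u w hvu hvw hru hrw hne
  refine ⟨hne, ?_⟩
  obtain ⟨_, hvu⟩ := hvu
  obtain ⟨_, hvw⟩ := hvw
  by_cases hv : (v : ℕ) < m * 2 ^ H
  · obtain ⟨hu1, hu2⟩ := rk_same_or_par hvu hv hru
    obtain ⟨hw1, hw2⟩ := rk_same_or_par hvw hv hrw
    refine Or.inl ⟨hu1, hw1, ?_⟩
    rcases hu2 with hu2 | hu2
    · rcases hw2 with hw2 | hw2
      · left; omega
      · right; left; rw [hu2]; exact hw2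
    · rcases hw2 with hw2 | hw2
      · right; right; rw [hw2]; exact hu2
      · left; exact par_unique hu2 hw2
  · rcases hvu with ⟨h1, _, _⟩ | ⟨h1, h2, h3, h4⟩
    · omega
    · rcases hvw with ⟨h1, _, _⟩ | ⟨_, _, h5, h6⟩
      · omega
      · exact Or.inr ⟨h3, h4, h5, h6⟩

/-- The wall. -/
def wall (m H k u : ℕ) : ℕ :=
  if u < m * 2 ^ H then lev H (u / m) * m + u % m + 1
  else if u < m * 2 ^ H + k then u - m * 2 ^ H + 1 else 1

theorem wall_pos (m H k u : ℕ) : 0 < wall m H k u := by
  unfold wall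
  split_ifs <;> omega

theorem wall_proper {m H k u v : ℕ} (hm : 0 < m) (hne : u ≠ v) (h : Rel m H k u v) :
    wall m H k u ≠ wall m H k v := by
  rcases h with ⟨h1, h2, h3⟩ | ⟨h1, h2, h3, h4⟩
  · simp only [wall, h1, h2, if_true]
    intro he
    have he1 : lev H (u / m) * m + u % m = lev H (v / m) * m + v % m := by omega
    have hu := Nat.mod_lt u hm
    have hv := Nat.mod_lt v hm
    have hl : lev H (u / m) = lev H (v / m) := by
      have := congrArg (· / m) he1
      simp only [Nat.mul_comm _ m] at this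
      rw [Nat.mul_add_div hm, Nat.mul_add_div hm, Nat.div_eq_of_lt hu, Nat.div_eq_of_lt hv] at this
      simpa using this
    have hmod : u % m = v % m := by rw [hl] at he1; omega
    rcases h3 with h3 | h3 | h3
    · apply hne
      rw [← Nat.div_add_mod u m, ← Nat.div_add_mod v m, h3, hmod]
    · obtain ⟨t, _, h5, h6⟩ := par_lev (div_lt_of h1) h3
      omega
    · obtain ⟨t, _, h5, h6⟩ := par_lev (div_lt_of h2) h3
      omega
  · unfold wall
    split_ifs <;> omega

theorem wall_wall {m H k v c : ℕ} (hm : 0 < m) (hc : 0 < c) (hcv : c < wall m H k v) :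
    ∃ u, u < max (v + 1) (m * 2 ^ H) ∧ u ≠ v ∧ Rel m H k u v ∧ wall m H k u = c := by
  by_cases hv : v < m * 2 ^ H
  · have hcv' : c < lev H (v / m) * m + v % m + 1 := by
      simpa only [wall, hv, if_true] using hcv
    obtain ⟨d, rfl⟩ : ∃ d, c = d + 1 := ⟨c - 1, by omega⟩
    have hdm := Nat.div_add_mod d m
    have hdlt := Nat.mod_lt d hm
    have hvlt := Nat.mod_lt v hm
    by_cases hd : d / m < lev H (v / m)
    · obtain ⟨x, hx, hpar, hlx⟩ := exists_child (div_lt_of hv) hd
      have hxlt : m * x + d % m < m * 2 ^ H := by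
        have := Nat.mul_le_mul_left m (Nat.succ_le_of_lt hx)
        rw [Nat.mul_succ] at this
        omega
      have hxdiv : (m * x + d % m) / m = x := by
        rw [Nat.mul_add_div hm, Nat.div_eq_of_lt hdlt]; rfl
      have hxmod : (m * x + d % m) % m = d % m := by
        rw [Nat.mul_add_mod, Nat.mod_mod]
      refine ⟨m * x + d % m, lt_of_lt_of_le hxlt (le_max_right _ _), ?_,
        Or.inl ⟨hxlt, hv, ?_⟩, ?_⟩
      · intro he
        rw [he] at hxdiv
        have := par_lt hpar
        omega
      · rw [hxdiv]; exact Or.inr (Or.inl hpar)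
      · simp only [wall, hxlt, if_true, hxdiv, hxmod, hlx]
        rw [Nat.mul_comm, hdm]
    · have hd' : d / m = lev H (v / m) := by
        apply le_antisymm _ (by omega)
        have : d < m * (lev H (v / m) + 1) := by
          rw [Nat.mul_add, Nat.mul_comm]; omega
        exact Nat.le_of_lt_succ (Nat.div_lt_of_lt_mul this)
      have hdv : d % m < v % m := by
        rw [hd', Nat.mul_comm] at hdm
        omega
      have hvdm := Nat.div_add_mod v m
      have hxdiv : (m * (v / m) + d % m) / m = v / m := by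
        rw [Nat.mul_add_div hm, Nat.div_eq_of_lt hdlt]; rfl
      have hxmod : (m * (v / m) + d % m) % m = d % m := by
        rw [Nat.mul_add_mod, Nat.mod_mod]
      have hxlt : m * (v / m) + d % m < m * 2 ^ H := by omega
      refine ⟨m * (v / m) + d % m, lt_of_lt_of_le hxlt (le_max_right _ _), by omega,
        Or.inl ⟨hxlt, hv, Or.inl hxdiv⟩, ?_⟩
      simp only [wall, hxlt, if_true, hxdiv, hxmod]
      rw [← hd', Nat.mul_comm, hdm]
  · by_cases hv2 : v < m * 2 ^ H + k
    · have hcv' : c < v - m * 2 ^ H + 1 := by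
        simpa only [wall, hv, hv2, if_true, if_false] using hcv
      refine ⟨m * 2 ^ H + (c - 1), ?_, by omega, Or.inr ⟨by omega, by omega, by omega, by omega⟩,
        ?_⟩
      · apply lt_of_lt_of_le _ (le_max_left _ _)
        omega
      · unfold wall
        split_ifs <;> omega
    · exfalso
      have hcv' : c < 1 := by
        simpa only [wall, hv, hv2, if_false] using hcv
      omega

theorem gr_firstFit {m H k n : ℕ} (hm : 0 < m) (hn : m * 2 ^ H + k ≤ n) :
    m * (H + 1) ≤ firstFitNumber (gr m H k n) := by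
  have h1 := firstFit_of_wall (gr m H k n) (fun u => wall m H k u)
    (fun v => wall_pos m H k v)
    (fun u v huv => wall_proper hm (fun he => huv.1 (Fin.ext he)) huv.2)
    (by
      intro v c hc hcv
      obtain ⟨u, hu1, hu2, hu3, hu4⟩ := wall_wall hm hc hcv
      have hun : u < n := lt_of_lt_of_le hu1 (max_le (by omega) (by omega))
      exact ⟨⟨u, hun⟩, ⟨fun he => hu2 (congrArg Fin.val he), hu3⟩, hu4⟩)
  refine le_trans ?_ h1
  have hsub : Finset.Icc 1 (m * (H + 1)) ⊆
      Finset.univ.image (fun u : Fin n => wall m H k u) := by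
    intro c hc
    rw [Finset.mem_Icc] at hc
    have hpow := Nat.two_pow_pos H
    have hmm : m ≤ m * 2 ^ H := Nat.le_mul_of_pos_right m hpow
    have hroot : m - 1 < m * 2 ^ H := by omega
    have hwr : wall m H k (m - 1) = m * (H + 1) := by
      simp only [wall, hroot, if_true]
      rw [Nat.div_eq_of_lt (by omega : m - 1 < m), lev_zero, Nat.mod_eq_of_lt (by omega),
        Nat.mul_add, Nat.mul_comm]
      omega
    rw [Finset.mem_image]
    rcases Nat.lt_or_ge c (m * (H + 1)) with hlt | hge
    · obtain ⟨u, hu1, hu2, hu3, hu4⟩ := wall_wall (v := m - 1) hm (by omega : 0 < c)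
        (by rw [hwr]; exact hlt)
      have hun : u < n := lt_of_lt_of_le hu1 (max_le (by omega) (by omega))
      exact ⟨⟨u, hun⟩, Finset.mem_univ _, hu4⟩
    · exact ⟨⟨m - 1, by omega⟩, Finset.mem_univ _, by simp only [hwr]; omega⟩
  have := Finset.card_le_card hsub
  simpa using this

theorem gr_cliqueNum {m H k n : ℕ} (hm : 0 < m) (hmk : 2 * m ≤ k) (hn : m * 2 ^ H + k ≤ n) :
    (gr m H k n).cliqueNum = k := by
  classical
  apply le_antisymm
  · obtain ⟨s, hs⟩ := (gr m H k n).exists_isNClique_cliqueNum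
    rw [← hs.card_eq]
    rcases s.eq_empty_or_nonempty with rfl | hne
    · simp
    obtain ⟨v, hv, hmin⟩ := Finset.exists_min_image s (fun u : Fin n => rk m H u) hne
    have hcl : ∀ u ∈ s, u ≠ v → Rel m H k v u := fun u hu huv =>
      (hs.isClique hv hu huv.symm).2
    by_cases hvA : (v : ℕ) < m * 2 ^ H
    · -- every vertex lies in the clique of v or in the one of its parent
      have hall : ∀ u ∈ s, (u : ℕ) < m * 2 ^ H ∧
          ((u : ℕ) / m = (v : ℕ) / m ∨ Par ((v : ℕ) / m) ((u : ℕ) / m)) := by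
        intro u hu
        by_cases huv : u = v
        · subst huv; exact ⟨hvA, Or.inl rfl⟩
        · exact rk_same_or_par (hcl u hu huv) hvA (hmin u hu)
      have hcard : s.card ≤ (Finset.range 2 ×ˢ Finset.range m).card := by
        apply Finset.card_le_card_of_injOn
          (fun u : Fin n => ((if (u : ℕ) / m = (v : ℕ) / m then 0 else 1), (u : ℕ) % m))
        · intro u hu
          simp only [Finset.coe_product, Set.mem_prod, Finset.coe_range, Set.mem_Iio]
          refine ⟨by split_ifs <;> omega, Nat.mod_lt _ hm⟩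
        · intro u hu w hw he
          simp only [Prod.mk.injEq] at he
          obtain ⟨he1, he2⟩ := he
          have hu' := (hall u hu).2
          have hw' := (hall w hw).2
          have hdiv : (u : ℕ) / m = (w : ℕ) / m := by
            by_cases h1 : (u : ℕ) / m = (v : ℕ) / m
            · by_cases h2 : (w : ℕ) / m = (v : ℕ) / m
              · rw [h1, h2]
              · rw [if_pos h1, if_neg h2] at he1; omega
            · by_cases h2 : (w : ℕ) / m = (v : ℕ) / m
              · rw [if_neg h1, if_pos h2] at he1; omega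
              · exact par_unique (hu'.resolve_left h1) (hw'.resolve_left h2)
          apply Fin.ext
          rw [← Nat.div_add_mod (u : ℕ) m, ← Nat.div_add_mod (w : ℕ) m, hdiv, he2]
      rw [Finset.card_product, Finset.card_range, Finset.card_range] at hcard
      omega
    · by_cases hvB : (v : ℕ) < m * 2 ^ H + k
      · have hall : ∀ u ∈ s, m * 2 ^ H ≤ (u : ℕ) ∧ (u : ℕ) < m * 2 ^ H + k := by
          intro u hu
          by_cases huv : u = v
          · subst huv; exact ⟨by omega, hvB⟩
          · rcases hcl u hu huv with ⟨h1, _⟩ | ⟨_, _, h3, h4⟩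
            · omega
            · exact ⟨h3, h4⟩
        have hcard : s.card ≤ (Finset.range k).card := by
          apply Finset.card_le_card_of_injOn (fun u : Fin n => (u : ℕ) - m * 2 ^ H)
          · intro u hu
            have := hall u hu
            simp only [Finset.coe_range, Set.mem_Iio]
            omega
          · intro u hu w hw he
            have h1 := hall u hu
            have h2 := hall w hw
            simp only at he
            apply Fin.ext
            omega
        simpa using hcard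
      · have hs1 : s ⊆ {v} := by
          intro u hu
          rw [Finset.mem_singleton]
          by_contra huv
          rcases hcl u hu huv with ⟨h1, _⟩ | ⟨_, h2, _, _⟩
          · omega
          · omega
        have := Finset.card_le_card hs1
        rw [Finset.card_singleton] at this
        omega
  · let e : Fin k → Fin n := fun i => ⟨m * 2 ^ H + (i : ℕ), by have := i.isLt; omega⟩
    have hev : ∀ i, ((e i : Fin n) : ℕ) = m * 2 ^ H + (i : ℕ) := fun i => rfl
    have hinj : Function.Injective e := by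
      intro i j h
      have := congrArg Fin.val h
      rw [hev, hev] at this
      exact Fin.ext (by omega)
    have hs : (gr m H k n).IsNClique k (Finset.univ.map ⟨e, hinj⟩) := by
      constructor
      · intro u hu w hw hne
        rw [Finset.mem_coe, Finset.mem_map] at hu hw
        obtain ⟨i, _, rfl⟩ := hu
        obtain ⟨j, _, rfl⟩ := hw
        refine ⟨hne, Or.inr ⟨?_, ?_, ?_, ?_⟩⟩
        · exact Nat.le_add_right _ _
        · exact Nat.add_lt_add_left i.isLt _
        · exact Nat.le_add_right _ _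
        · exact Nat.add_lt_add_left j.isLt _
      · simp
    have := hs.isClique.card_le_cliqueNum
    rw [hs.card_eq] at this
    exact this

/-- The estimate. -/
theorem exists_graph {k n : ℕ} (hk : 2 ≤ k) (hn : k ^ 2 ≤ n) :
    ∃ G : SimpleGraph (Fin n), IsChordal G ∧ G.cliqueNum = k ∧
      (1 / 6 : ℝ) * k * Real.log n ≤ firstFitNumber G := by
  obtain ⟨m, hm1, hm2⟩ : ∃ m, 2 * m ≤ k ∧ k ≤ 2 * m + 1 := ⟨k / 2, by omega, by omega⟩
  have hm : 0 < m := by omega
  have hkn : k * 2 ≤ n := le_trans (by rw [pow_two]; exact Nat.mul_le_mul_left k hk) hn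
  set q := (n - k) / m with hq
  have hq0 : q ≠ 0 := by
    have : 1 ≤ (n - k) / m := (Nat.le_div_iff_mul_le hm).2 (by omega)
    omega
  set H := Nat.log 2 q with hH
  have h1 : 2 ^ H ≤ q := Nat.pow_log_le_self 2 hq0
  have h2 : q < 2 ^ (H + 1) := Nat.lt_pow_succ_log_self (by norm_num) q
  have h3 : m * 2 ^ H + k ≤ n := by
    have : m * q ≤ n - k := Nat.mul_div_le _ _
    have := Nat.mul_le_mul_left m h1
    omega
  have h4 : n - k < m * 2 ^ (H + 1) := by
    have := (Nat.div_lt_iff_lt_mul hm).1 (hq ▸ h2)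
    rw [Nat.mul_comm]; exact this
  have h5 : n < k * (2 ^ H + 1) := by
    have h6 : m * 2 ^ (H + 1) = (2 * m) * 2 ^ H := by rw [pow_succ]; ring
    have h7 : (2 * m) * 2 ^ H ≤ k * 2 ^ H := Nat.mul_le_mul_right _ hm1
    have h8 : k * (2 ^ H + 1) = k * 2 ^ H + k := by ring
    omega
  have h6 : k < 2 ^ H + 1 := by
    have : k * k < k * (2 ^ H + 1) := by rw [← pow_two]; omega
    exact Nat.lt_of_mul_lt_mul_left this
  have h7 : n < 4 ^ (H + 1) := by
    have h8 : k * (2 ^ H + 1) ≤ 2 ^ H * (2 ^ H + 1) := Nat.mul_le_mul_right _ (by omega)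
    have h9 : (4 : ℕ) ^ (H + 1) = 2 ^ H * (4 * 2 ^ H) := by
      rw [pow_succ, show (4 : ℕ) = 2 * 2 by norm_num, mul_pow]; ring
    have h10 : 2 ^ H * (2 ^ H + 1) ≤ 2 ^ H * (4 * 2 ^ H) := by
      apply Nat.mul_le_mul_left
      have := Nat.two_pow_pos H
      omega
    omega
  refine ⟨gr m H k n, gr_chordal m H k n, gr_cliqueNum hm hm1 h3, ?_⟩
  have h8 : m * (H + 1) ≤ firstFitNumber (gr m H k n) := gr_firstFit hm h3
  have h9 : ((m : ℝ) * (H + 1)) ≤ firstFitNumber (gr m H k n) := by exact_mod_cast h8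
  refine le_trans ?_ h9
  have hn0 : (0 : ℝ) < n := by
    have : 0 < n := by omega
    exact_mod_cast this
  have h10 : Real.log n ≤ (H + 1) * 2 := by
    have h11 : Real.log n ≤ Real.log ((4 : ℝ) ^ (H + 1)) := by
      apply Real.log_le_log hn0
      have : (n : ℝ) ≤ ((4 ^ (H + 1) : ℕ) : ℝ) := by exact_mod_cast h7.le
      simpa using this
    rw [Real.log_pow] at h11
    have h12 : Real.log 4 ≤ 2 := by
      have : Real.log 4 = 2 * Real.log 2 := by
        rw [show (4 : ℝ) = 2 ^ 2 by norm_num, Real.log_pow]; norm_num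
      rw [this]
      have := Real.log_two_lt_d9
      linarith
    refine h11.trans ?_
    push_cast
    exact mul_le_mul_of_nonneg_left h12 (by positivity)
  have h13 : (k : ℝ) ≤ 3 * m := by
    have : k ≤ 3 * m := by omega
    exact_mod_cast this
  have hlog : 0 ≤ Real.log n := Real.log_natCast_nonneg n
  calc (1 / 6 : ℝ) * k * Real.log n ≤ (1 / 6 : ℝ) * (3 * m) * ((H + 1) * 2) := by
        apply mul_le_mul
        · linarith
        · exact h10
        · exact hlog
        · positivity
    _ = (m : ℝ) * (H + 1) := by ring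

end Q129.FirstFit
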