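import Pool.Agent.Q88.MK.Stm

/-!
# Job CHA (helper129, for project MK of helper88)
-/

set_option autoImplicit false

namespace Pool.Agent.Q129.MK

open Pool.Agent.Q88.MK

theorem Good.mono {s p δ : ℝ} {n n' : ℕ} (h : Good s p δ n) (hn : n ≤ n') : Good s p δ n' := by
  obtain ⟨Q, h1, h2, h3⟩ := h
  exact ⟨Q, h1.trans hn, h2, h3⟩

theorem cha (h : S_sta) (h1 : S_ste) : S_cha := by
  intro s p ρ N D hs hsp hρ hρ1 hN hL
  obtain ⟨δ₀, hδ0, hδ1, hste⟩ := h1 s p ρ N D hs hsp hρ hρ1 hN hL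
  refine ⟨δ₀, ⌈1 / δ₀⌉₊ + D, hδ0, hδ1, fun k => ?_⟩
  induction k with
  | zero =>
    rw [pow_zero, pow_zero, mul_one, mul_one]
    exact Good.mono (h s p δ₀ hs hsp hδ0 hδ1) (Nat.le_add_right _ _)
  | succ k ih =>
    have h2 := hste (δ₀ * ρ ^ k) (by positivity)
      (mul_le_of_le_one_right hδ0.le (pow_le_one₀ hρ.le hρ1)) _ ih
    have e1 : δ₀ * ρ ^ (k + 1) = ρ * (δ₀ * ρ ^ k) := by ring
    rw [e1]
    refine Good.mono h2 ?_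
    have h3 : D ≤ (⌈1 / δ₀⌉₊ + D) * (N + 1) ^ k :=
      (Nat.le_add_left D ⌈1 / δ₀⌉₊).trans (Nat.le_mul_of_pos_right _ (by positivity))
    calc N * ((⌈1 / δ₀⌉₊ + D) * (N + 1) ^ k) + D
        ≤ N * ((⌈1 / δ₀⌉₊ + D) * (N + 1) ^ k) + (⌈1 / δ₀⌉₊ + D) * (N + 1) ^ k := by gcongr
      _ = (⌈1 / δ₀⌉₊ + D) * (N + 1) ^ (k + 1) := by ring

end Pool.Agent.Q129.MK
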