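import Pool.Agent.Q256.MP.Stm

/-!
# Project MP, job BOX: integral vectors in a subspace
-/

set_option autoImplicit false

noncomputable section

namespace Pool.Agent.Q129.MP

open Pool.Agent.Q256.MP

theorem exists_coords {ι : Type} [Fintype ι] (k : ℕ) :
    ∀ V : Submodule ℂ (ι → ℂ), Module.finrank ℂ V ≤ k →
      ∃ J : Finset ι, J.card ≤ k ∧ ∀ v ∈ V, (∀ j ∈ J, v j = 0) → v = 0 := by
  classical
  induction k with
  | zero =>
    intro V hV
    have hV0 : Module.finrank ℂ V = 0 := Nat.le_zero.mp hV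
    have hbot : V = ⊥ := Submodule.finrank_eq_zero.mp hV0
    refine ⟨∅, by simp, fun v hv _ => ?_⟩
    rw [hbot] at hv
    exact (Submodule.mem_bot ℂ).mp hv
  | succ k ih =>
    intro V hV
    by_cases hbot : V = ⊥
    · refine ⟨∅, by simp, fun v hv _ => ?_⟩
      rw [hbot] at hv
      exact (Submodule.mem_bot ℂ).mp hv
    · obtain ⟨v, hv, hv0⟩ := Submodule.exists_mem_ne_zero_of_ne_bot hbot
      obtain ⟨i, hi⟩ := Function.ne_iff.mp hv0
      have hlt : V ⊓ LinearMap.ker (LinearMap.proj (R := ℂ) (φ := fun _ : ι => ℂ) i) < V := by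
        refine lt_of_le_of_ne inf_le_left ?_
        intro h
        have h1 : v ∈ V ⊓ LinearMap.ker (LinearMap.proj (R := ℂ) (φ := fun _ : ι => ℂ) i) := by
          rw [h]; exact hv
        have h2 := h1.2
        exact hi h2
      have hfr := Submodule.finrank_lt_finrank_of_lt hlt
      obtain ⟨J, hJ, hJ'⟩ := ih _ (by omega : Module.finrank ℂ
        ↥(V ⊓ LinearMap.ker (LinearMap.proj (R := ℂ) (φ := fun _ : ι => ℂ) i)) ≤ k)
      refine ⟨insert i J, (Finset.card_insert_le i J).trans (by omega), fun w hw h0 => ?_⟩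
      refine hJ' w ⟨hw, ?_⟩ fun j hj => h0 j (Finset.mem_insert_of_mem hj)
      exact h0 i (Finset.mem_insert_self i J)

theorem box_dim : S_box := by
  classical
  intro ι _ V k T hV
  obtain ⟨J, hJ, hJ'⟩ := exists_coords k V hV
  have h1 : {g : ι → ℤ | (∀ i, |g i| ≤ (T : ℤ)) ∧ (fun i => (g i : ℂ)) ∈ V}.ncard ≤
      ((Fintype.piFinset fun _ : J => Finset.Icc (-(T : ℤ)) T : Finset (J → ℤ)) :
        Set (J → ℤ)).ncard := by
    refine Set.ncard_le_ncard_of_injOn (fun g j => g j.1) ?_ ?_ (Finset.finite_toSet _)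
    · rintro g ⟨hg, -⟩
      rw [Finset.mem_coe, Fintype.mem_piFinset]
      intro j
      exact Finset.mem_Icc.mpr (abs_le.mp (hg j.1))
    · rintro g ⟨-, hg⟩ g' ⟨-, hg'⟩ h
      have h2 : (fun i => (g i : ℂ)) - (fun i => (g' i : ℂ)) = 0 := by
        refine hJ' _ (V.sub_mem hg hg') fun j hj => ?_
        have h3 : g j = g' j := congrFun h (⟨j, hj⟩ : J)
        simp [h3]
      funext i
      have h4 := congrFun h2 i
      simp only [Pi.sub_apply, Pi.zero_apply, sub_eq_zero] at h4
      exact_mod_cast h4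
  refine h1.trans ?_
  rw [Set.ncard_coe_finset, Fintype.card_piFinset]
  simp only [Int.card_Icc, Finset.prod_const, Finset.card_univ, Fintype.card_coe]
  have h5 : ((T : ℤ) + 1 - -(T : ℤ)).toNat = 2 * T + 1 := by omega
  rw [h5]
  exact Nat.pow_le_pow_right (by omega) hJ

end Pool.Agent.Q129.MP
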