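import Pool.Agent.Q256.MP.Stm

/-!
# Project MP, job UPE: the number of the systems with many points of small growth
-/

set_option autoImplicit false

open Height NumberField

noncomputable section

namespace Pool.Agent.Q129.MP

open Pool.Agent.Q256.MP
open Pool.Agent.W276.GE

theorem cnt_le_add {N d H : ℕ} {Φ Ψ₁ Ψ₂ : Sy N d → Prop}
    (h : ∀ F ∈ Fb (N + 1) d H, NoZero F → Φ F → Ψ₁ F ∨ Ψ₂ F) :
    cnt N d H Φ ≤ cnt N d H Ψ₁ + cnt N d H Ψ₂ := by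
  have h1 : {F : Sy N d | F ∈ Fb (N + 1) d H ∧ NoZero F ∧ Φ F}.ncard ≤
      ({F : Sy N d | F ∈ Fb (N + 1) d H ∧ NoZero F ∧ Ψ₁ F} ∪
        {F : Sy N d | F ∈ Fb (N + 1) d H ∧ NoZero F ∧ Ψ₂ F}).ncard := by
    refine Set.ncard_le_ncard ?_ ?_
    · rintro F ⟨hF, hF0, hΦ⟩
      rcases h F hF hF0 hΦ with h1 | h1
      · exact Or.inl ⟨hF, hF0, h1⟩
      · exact Or.inr ⟨hF, hF0, h1⟩
    · refine (Fb (N + 1) d H).finite_toSet.subset ?_
      rintro F (hF | hF)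
      · exact hF.1
      · exact hF.1
  have h2 := h1.trans (Set.ncard_union_le _ _)
  have h3 : (({F : Sy N d | F ∈ Fb (N + 1) d H ∧ NoZero F ∧ Φ F}.ncard : ℕ) : ℝ) ≤
      (({F : Sy N d | F ∈ Fb (N + 1) d H ∧ NoZero F ∧ Ψ₁ F}.ncard +
        {F : Sy N d | F ∈ Fb (N + 1) d H ∧ NoZero F ∧ Ψ₂ F}.ncard : ℕ) : ℝ) := by
    exact_mod_cast h2
  rw [Nat.cast_add] at h3
  exact h3

theorem cnt_le_card {N d H : ℕ} {Φ : Sy N d → Prop} :
    cnt N d H Φ ≤ ((Fb (N + 1) d H).card : ℝ) := by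
  have h1 : {F : Sy N d | F ∈ Fb (N + 1) d H ∧ NoZero F ∧ Φ F}.ncard ≤
      ((Fb (N + 1) d H : Finset (Sy N d)) : Set (Sy N d)).ncard :=
    Set.ncard_le_ncard (fun F hF => hF.1) (Finset.finite_toSet _)
  rw [Set.ncard_coe_finset] at h1
  rw [cnt]
  exact_mod_cast h1

theorem le_MM {N d : ℕ} (hN : 1 ≤ N) : d + 1 ≤ MM N d := by
  have h1 : MM N d = (N + d).choose N := card_E N d
  rw [h1, Nat.choose_symm_add]
  calc d + 1 = (d + 1).choose d := (Nat.choose_succ_self_right d).symm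
    _ ≤ (N + d).choose d := Nat.choose_le_choose d (by omega)

theorem mul_le_QQ {N d k : ℕ} (hN : 1 ≤ N) (hk : k ≤ d + 1) : k * N ≤ QQ N d := by
  have h1 := le_MM (d := d) hN
  calc k * N ≤ MM N d * (N + 1) := Nat.mul_le_mul (hk.trans h1) (by omega)
    _ = QQ N d := Nat.mul_comm _ _

theorem upe (h1 : S_tail) (h2 : S_small) (h3 : S_smc) : S_upe := by
  intro N D m hN hD hm
  obtain ⟨c, hc⟩ := h3 N D (m + 1) hN hD (by omega)
  obtain ⟨d₁, hd₁⟩ := h1 N D 2 (m * N * (c + 1)) hN hD (by norm_num)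
  refine ⟨max d₁ (m + 2), fun d hd => ?_⟩
  have hdd₁ : d₁ ≤ d := (le_max_left _ _).trans hd
  have hdm : m + 2 ≤ d := (le_max_right _ _).trans hd
  obtain ⟨C₁, hC₁, ht⟩ := hd₁ d hdd₁
  obtain ⟨C₂, hC₂, hs⟩ := hc d (by omega)
  have hη : (0 : ℝ) < 1 / ((c : ℝ) + 1) := by positivity
  obtain ⟨θ, hθ, hsm⟩ := h2 N D d (1 / ((c : ℝ) + 1)) hD (by omega) hη
  have hcard : (0 : ℝ) ≤ ((Fb (N + 1) d 1).card : ℝ) := Nat.cast_nonneg _
  refine ⟨((Fb (N + 1) d 1).card : ℝ) + (C₁ + C₂ * 2 ^ c), θ, by positivity, hθ, fun H hH => ?_⟩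
  rcases Nat.eq_or_lt_of_le hH with h | hH2
  · subst h
    refine cnt_le_card.trans ?_
    have h4 : (0 : ℝ) ≤ C₁ + C₂ * 2 ^ c := by positivity
    simp only [Nat.cast_one, one_pow, mul_one]
    linarith
  have hH1 : (1 : ℝ) ≤ H := by exact_mod_cast hH
  have hH0 : (0 : ℝ) ≤ H := by linarith
  have hx1 : (1 : ℝ) ≤ (H : ℝ) ^ (1 / ((c : ℝ) + 1)) := Real.one_le_rpow hH1 hη.le
  obtain ⟨κ, hκ1, hκ2⟩ := exists_nat_pow_near hx1 (by norm_num : (1 : ℝ) < 2)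
  set x : ℝ := (H : ℝ) ^ (1 / ((c : ℝ) + 1)) with hx
  have hx0 : 0 < x := by linarith
  have hxc : x ^ (c + 1) = H := by
    rw [hx, ← Real.rpow_natCast, ← Real.rpow_mul hH0]
    have : 1 / ((c : ℝ) + 1) * ((c + 1 : ℕ) : ℝ) = 1 := by
      push_cast
      field_simp
    rw [this, Real.rpow_one]
  have hup : (2 : ℝ) ^ (κ + 1) ≤ 2 * x := by
    rw [pow_succ]; linarith
  have hlo : x ≤ (2 : ℝ) ^ (κ + 1) := hκ2.le
  have hsplit : cnt N d H (fun F => Many (N + 1) D (m + 1) (fun K _ _ P => ¬ Gr θ H F K P)) ≤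
      cnt N d H (Tl D 2 (κ + 1)) + cnt N d H (fun F => Many (N + 1) D (m + 1)
        (fun K _ _ P => mulHeight P ≤ (2 : ℝ) ^ (κ + 1) ∧
          mulHeight (fm F K P) ≤ (2 : ℝ) ^ (κ + 1))) := by
    refine cnt_le_add fun F hF hF0 hM => ?_
    by_cases hT : Tl D 2 (κ + 1) F
    · exact Or.inl hT
    · right
      obtain ⟨z, hz, hz'⟩ := hM
      refine ⟨z, hz, fun i => ?_⟩
      obtain ⟨K, i1, i2, φ, P, hK, hP, hG, hzi⟩ := hz' i
      exact ⟨K, i1, i2, φ, P, hK, hP,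
        hsm H (by omega) F hF hF0 (κ + 1) hlo hT K hK P hP hG, hzi⟩
  have hA : cnt N d H (Tl D 2 (κ + 1)) ≤ C₁ * (H : ℝ) ^ (QQ N d - m * N) := by
    refine (ht H hH (κ + 1)).trans ?_
    have e1 : (1 / 2 : ℝ) ^ (m * N * (c + 1) * (κ + 1)) =
        1 / ((2 : ℝ) ^ (κ + 1)) ^ (m * N * (c + 1)) := by
      rw [one_div_pow, ← pow_mul, mul_comm (κ + 1)]
    have e2 : (H : ℝ) ^ (m * N) ≤ ((2 : ℝ) ^ (κ + 1)) ^ (m * N * (c + 1)) := by
      calc (H : ℝ) ^ (m * N) = x ^ (m * N * (c + 1)) := by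
            rw [← hxc, ← pow_mul, mul_comm (c + 1)]
        _ ≤ _ := pow_le_pow_left₀ hx0.le hlo _
    have hpos : 0 < (H : ℝ) ^ (m * N) := by positivity
    rw [e1]
    calc C₁ * (H : ℝ) ^ (QQ N d - N) * (1 / ((2 : ℝ) ^ (κ + 1)) ^ (m * N * (c + 1)))
        ≤ C₁ * (H : ℝ) ^ (QQ N d - N) * (1 / (H : ℝ) ^ (m * N)) := by gcongr
      _ ≤ C₁ * (H : ℝ) ^ (QQ N d - m * N) := by
          rw [mul_one_div, div_le_iff₀ hpos, mul_assoc, ← pow_add]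
          refine mul_le_mul_of_nonneg_left ?_ hC₁.le
          exact pow_le_pow_right₀ hH1 (by omega)
  have hB : cnt N d H (fun F => Many (N + 1) D (m + 1)
        (fun K _ _ P => mulHeight P ≤ (2 : ℝ) ^ (κ + 1) ∧
          mulHeight (fm F K P) ≤ (2 : ℝ) ^ (κ + 1))) ≤
      C₂ * 2 ^ c * (H : ℝ) ^ (QQ N d - m * N) := by
    refine (hs H (2 ^ (κ + 1)) hH (one_le_pow₀ (by norm_num))).trans ?_
    have hQ : (m + 1) * N ≤ QQ N d := mul_le_QQ hN (by omega)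
    have e1 : ((2 : ℝ) ^ (κ + 1)) ^ c ≤ 2 ^ c * (H : ℝ) ^ N := by
      calc ((2 : ℝ) ^ (κ + 1)) ^ c ≤ (2 * x) ^ c := pow_le_pow_left₀ (by positivity) hup _
        _ = 2 ^ c * x ^ c := mul_pow _ _ _
        _ ≤ 2 ^ c * x ^ (c + 1) := by
            refine mul_le_mul_of_nonneg_left ?_ (by positivity)
            exact pow_le_pow_right₀ hx1 (by omega)
        _ = 2 ^ c * (H : ℝ) := by rw [hxc]
        _ ≤ 2 ^ c * (H : ℝ) ^ N := by
            refine mul_le_mul_of_nonneg_left ?_ (by positivity)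
            exact le_self_pow₀ hH1 (by omega)
    have e2 : (H : ℝ) ^ (QQ N d - m * N) = (H : ℝ) ^ N * (H : ℝ) ^ (QQ N d - (m + 1) * N) := by
      rw [← pow_add]
      congr 1
      have : (m + 1) * N = m * N + N := by ring
      omega
    calc C₂ * ((2 : ℝ) ^ (κ + 1)) ^ c * (H : ℝ) ^ (QQ N d - (m + 1) * N)
        ≤ C₂ * (2 ^ c * (H : ℝ) ^ N) * (H : ℝ) ^ (QQ N d - (m + 1) * N) := by gcongr
      _ = C₂ * 2 ^ c * (H : ℝ) ^ (QQ N d - m * N) := by rw [e2]; ring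
  have hpow : (0 : ℝ) ≤ (H : ℝ) ^ (QQ N d - m * N) := by positivity
  calc cnt N d H (fun F => Many (N + 1) D (m + 1) (fun K _ _ P => ¬ Gr θ H F K P))
      ≤ C₁ * (H : ℝ) ^ (QQ N d - m * N) + C₂ * 2 ^ c * (H : ℝ) ^ (QQ N d - m * N) :=
        hsplit.trans (add_le_add hA hB)
    _ ≤ (((Fb (N + 1) d 1).card : ℝ) + (C₁ + C₂ * 2 ^ c)) * (H : ℝ) ^ (QQ N d - m * N) := by
        nlinarith [mul_nonneg hcard hpow]

end Pool.Agent.Q129.MP
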