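import Mathlib
import Pool.Agent.Q49.MR2.Stm

/-!
# Job Q4 (helper129, for project MR2 of helper49): zeros of a quaternary quadratic form in
characteristic 2
-/

set_option autoImplicit false

namespace Q129.MR2_Q4

open Q49.MR Q49.MR2

open Finset

section

variable {K : Type} [Field K]

/-- the Artin-Schreier map -/
def wp (h2 : (2 : K) = 0) : K →+ K where
  toFun c := c ^ 2 + c
  map_zero' := by ring
  map_add' c d := by linear_combination c * d * h2

theorem wp_apply (h2 : (2 : K) = 0) (c : K) : wp h2 c = c ^ 2 + c := rfl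

theorem wp_index [Finite K] (h2 : (2 : K) = 0) : (wp h2).range.index = 2 := by
  have hker : Nat.card (wp h2).ker = 2 := by
    have e : ((wp h2).ker : Set K) = {0, 1} := by
      ext c
      simp only [SetLike.mem_coe, AddMonoidHom.mem_ker, wp_apply, Set.mem_insert_iff,
        Set.mem_singleton_iff]
      constructor
      · intro h
        have h3 : c * (c + 1) = 0 := by linear_combination h
        rcases mul_eq_zero.1 h3 with h4 | h4
        · exact Or.inl h4
        · right
          linear_combination h4 - h2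
      · rintro (rfl | rfl)
        · ring
        · linear_combination h2
    have h5 : Nat.card (wp h2).ker = ((wp h2).ker : Set K).ncard := rfl
    rw [h5, e, Set.ncard_pair zero_ne_one]
  have h1 := (wp h2).ker.card_mul_index
  rw [AddSubgroup.index_ker, hker] at h1
  have h3 := (wp h2).range.card_mul_index
  have hpos : 0 < Nat.card (wp h2).range := Nat.card_pos
  have h4 : Nat.card (wp h2).range * (wp h2).range.index = Nat.card (wp h2).range * 2 := by
    rw [h3, ← h1, mul_comm]
  exact Nat.eq_of_mul_eq_mul_left hpos h4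

theorem sum_iff [Finite K] (h2 : (2 : K) = 0) (A B : K) :
    (∃ c : K, A + B = c ^ 2 + c) ↔ ((∃ c : K, A = c ^ 2 + c) ↔ ∃ c : K, B = c ^ 2 + c) := by
  have e : ∀ X : K, (∃ c : K, X = c ^ 2 + c) ↔ X ∈ (wp h2).range := by
    intro X
    rw [AddMonoidHom.mem_range]
    exact ⟨fun ⟨c, hc⟩ => ⟨c, hc.symm⟩, fun ⟨c, hc⟩ => ⟨c, hc.symm⟩⟩
  rw [e, e, e]
  exact AddSubgroup.add_mem_iff_of_index_two (wp_index h2)

/-- the binary form -/
def Q (a p b : K) (z : K × K) : K := a * z.1 ^ 2 + p * z.1 * z.2 + b * z.2 ^ 2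

variable [Fintype K] [DecidableEq K]

/-- the number of representations -/
def N (a p b u : K) : ℕ := (univ.filter fun z : K × K => Q a p b z = u).card

theorem N_scale (h2 : (2 : K) = 0) (a p b : K) {u : K} (hu : u ≠ 0) : N a p b u = N a p b 1 := by
  have : CharP K 2 := by
    refine CharTwo.of_one_ne_zero_of_two_eq_zero one_ne_zero h2
  obtain ⟨r, hr⟩ : IsSquare u := FiniteField.isSquare_of_char_two (CharP.ringChar_of_prime_eq_zero Nat.prime_two (by exact_mod_cast h2)) u
  have hr0 : r ≠ 0 := by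
    rintro rfl
    exact hu (by rw [hr, zero_mul])
  refine Finset.card_nbij' (fun z => (r⁻¹ * z.1, r⁻¹ * z.2)) (fun z => (r * z.1, r * z.2)) ?_ ?_ ?_ ?_
  · intro z hz
    simp only [Finset.coe_filter, Finset.mem_univ, true_and, Set.mem_ofPred_eq] at hz ⊢
    have e : Q a p b (r⁻¹ * z.1, r⁻¹ * z.2) = r⁻¹ * r⁻¹ * Q a p b z := by
      unfold Q
      ring
    rw [e, hz, hr]
    field_simp
  · intro z hz
    simp only [Finset.coe_filter, Finset.mem_univ, true_and, Set.mem_ofPred_eq] at hz ⊢
    have e : Q a p b (r * z.1, r * z.2) = r * r * Q a p b z := by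
      unfold Q
      ring
    rw [e, hz, hr]
    ring
  · intro z _
    ext
    · simp only
      field_simp
    · simp only
      field_simp
  · intro z _
    ext
    · simp only
      field_simp
    · simp only
      field_simp

theorem sum_N (f : K → ℕ) {c : ℕ} (hf : ∀ u, u ≠ 0 → f u = c) :
    ∑ u, f u = f 0 + (Fintype.card K - 1) * c := by
  rw [← Finset.add_sum_erase univ f (Finset.mem_univ 0)]
  congr 1
  rw [Finset.sum_congr rfl fun u hu => hf u (Finset.ne_of_mem_erase hu), Finset.sum_const,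
    Finset.card_erase_of_mem (Finset.mem_univ _), Finset.card_univ, smul_eq_mul]

theorem total (h2 : (2 : K) = 0) (a p b : K) :
    N a p b 0 + (Fintype.card K - 1) * N a p b 1 = Fintype.card K * Fintype.card K := by
  rw [← sum_N (N a p b) fun u hu => N_scale h2 a p b hu]
  have h := Finset.card_eq_sum_card_fiberwise (s := (univ : Finset (K × K))) (t := (univ : Finset K))
    (f := Q a p b) (fun _ _ => Finset.mem_coe.2 (Finset.mem_univ _))
  rw [Finset.card_univ, Fintype.card_prod] at h
  exact h.symm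

theorem card_hyp : (univ.filter fun z : K × K => z.1 * z.2 = 0).card + 1 = 2 * Fintype.card K := by
  rw [Finset.card_filter, Fintype.sum_prod_type]
  rw [sum_N (fun u : K => ∑ v : K, if (u, v).1 * (u, v).2 = 0 then 1 else 0) (c := 1)]
  · have h : (∑ v : K, if ((0 : K), v).1 * ((0 : K), v).2 = 0 then 1 else 0) = Fintype.card K := by
      simp
    rw [h]
    have := Fintype.card_pos (α := K)
    omega
  · intro u hu
    have : ∀ v : K, (if (u, v).1 * (u, v).2 = 0 then 1 else 0) = if v = 0 then 1 else 0 := by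
      intro v
      simp [hu]
    rw [Finset.sum_congr rfl fun v _ => this v]
    simp

theorem N_split (h2 : (2 : K) = 0) {a p b : K} (hp : p ≠ 0) (h : ∃ c : K, a * b / p ^ 2 = c ^ 2 + c) :
    N a p b 0 + 1 = 2 * Fintype.card K := by
  rw [← card_hyp]
  congr 1
  obtain ⟨c, hc⟩ := h
  rw [div_eq_iff (pow_ne_zero 2 hp)] at hc
  by_cases ha : a = 0
  · subst ha
    refine Finset.card_nbij' (fun z => (z.2, p * z.1 + b * z.2)) (fun z => ((z.2 - b * z.1) / p, z.1)) ?_ ?_ ?_ ?_
    · intro z hz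
      simp only [Finset.coe_filter, Finset.mem_univ, true_and, Set.mem_ofPred_eq, Q] at hz ⊢
      linear_combination hz
    · intro z hz
      simp only [Finset.coe_filter, Finset.mem_univ, true_and, Set.mem_ofPred_eq, Q] at hz ⊢
      have e : (0 : K) * ((z.2 - b * z.1) / p) ^ 2 + p * ((z.2 - b * z.1) / p) * z.1 + b * z.1 ^ 2 =
          z.1 * z.2 := by
        have e2 : p * ((z.2 - b * z.1) / p) = z.2 - b * z.1 := by field_simp
        rw [e2]
        ring
      rw [e, hz]
    · intro z _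
      ext
      · simp only
        field_simp
        ring
      · simp only
    · intro z _
      ext
      · simp only
      · simp only
        field_simp
        ring
  · refine Finset.card_nbij' (fun z => (z.1 + c * p / a * z.2, a * z.1 + (c + 1) * p * z.2))
      (fun z => (z.1 - c * ((z.2 - a * z.1) / a), (z.2 - a * z.1) / p)) ?_ ?_ ?_ ?_
    · intro z hz
      simp only [Finset.coe_filter, Finset.mem_univ, true_and, Set.mem_ofPred_eq, Q] at hz ⊢
      field_simp
      linear_combination a * hz - z.2 ^ 2 * hc + a * c * p * z.1 * z.2 * h2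
    · intro z hz
      simp only [Finset.coe_filter, Finset.mem_univ, true_and, Set.mem_ofPred_eq, Q] at hz ⊢
      obtain ⟨w, hw⟩ : ∃ w, w = z.2 - a * z.1 := ⟨_, rfl⟩
      rw [← hw]
      obtain ⟨X, hX⟩ : ∃ X, a * X = w := ⟨w / a, by field_simp⟩
      obtain ⟨Y, hY⟩ : ∃ Y, p * Y = w := ⟨w / p, by field_simp⟩
      have e1 : w / a = X := by rw [div_eq_iff ha]; linear_combination -hX
      have e2 : w / p = Y := by rw [div_eq_iff hp]; linear_combination -hY
      rw [e1, e2]
      have e3 : a * (a * (z.1 - c * X) ^ 2 + p * (z.1 - c * X) * Y + b * Y ^ 2) = 0 := by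
        have e4 : a * (a * (z.1 - c * X) ^ 2 + p * (z.1 - c * X) * Y + b * Y ^ 2) =
            (a * z.1 - c * (a * X)) ^ 2 + (a * z.1 - c * (a * X)) * (p * Y) + a * b * Y ^ 2 := by
          ring
        rw [e4, hc, hX, hY]
        have e5 : (c ^ 2 + c) * p ^ 2 * Y ^ 2 = (c ^ 2 + c) * (p * Y) ^ 2 := by ring
        rw [e5, hY]
        linear_combination a * hz + a * z.1 * hw + (-a * z.1 * c * w + c ^ 2 * w ^ 2) * h2
      rcases mul_eq_zero.1 e3 with h3 | h3
      · exact absurd h3 ha
      · exact h3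
    · intro z _
      ext
      · simp only
        field_simp
        ring
      · simp only
        field_simp
        ring
    · intro z _
      ext
      · simp only
        field_simp
        ring
      · simp only
        field_simp
        ring

theorem N_nonsplit (h2 : (2 : K) = 0) {a p b : K} (hp : p ≠ 0)
    (h : ¬ ∃ c : K, a * b / p ^ 2 = c ^ 2 + c) : N a p b 0 = 1 := by
  have ha : a ≠ 0 := by
    rintro rfl
    exact h ⟨0, by simp⟩
  unfold N
  rw [Finset.card_eq_one]
  refine ⟨(0, 0), ?_⟩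
  ext ⟨x, y⟩
  simp only [Finset.mem_filter, Finset.mem_univ, true_and, Finset.mem_singleton, Prod.mk.injEq, Q]
  constructor
  · intro h0
    by_cases hy : y = 0
    · subst hy
      refine ⟨?_, rfl⟩
      have h3 : a * x ^ 2 = 0 := by linear_combination h0
      rcases mul_eq_zero.1 h3 with h4 | h4
      · exact absurd h4 ha
      · exact pow_eq_zero_iff (two_ne_zero) |>.1 h4
    · exfalso
      refine h ⟨a * x / (p * y), ?_⟩
      field_simp
      linear_combination (-1) * h0 + b * y ^ 2 * h2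
  · rintro ⟨rfl, rfl⟩
    ring

theorem card_four (h2 : (2 : K) = 0) (a1 b1 p1 a2 b2 p2 : K) :
    Nat.card {x : Fin 4 → K // a1 * x 0 ^ 2 + p1 * x 0 * x 1 + b1 * x 1 ^ 2
      + a2 * x 2 ^ 2 + p2 * x 2 * x 3 + b2 * x 3 ^ 2 = 0} =
    N a1 p1 b1 0 * N a2 p2 b2 0 + (Fintype.card K - 1) * (N a1 p1 b1 1 * N a2 p2 b2 1) := by
  have e1 : Nat.card {x : Fin 4 → K // a1 * x 0 ^ 2 + p1 * x 0 * x 1 + b1 * x 1 ^ 2
      + a2 * x 2 ^ 2 + p2 * x 2 * x 3 + b2 * x 3 ^ 2 = 0} =
      Nat.card {w : (K × K) × (K × K) // Q a1 p1 b1 w.1 = Q a2 p2 b2 w.2} := by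
    refine Nat.card_congr (Equiv.subtypeEquiv
      { toFun := fun x => ((x 0, x 1), (x 2, x 3))
        invFun := fun w => ![w.1.1, w.1.2, w.2.1, w.2.2]
        left_inv := fun x => by
          ext i
          fin_cases i <;> rfl
        right_inv := fun w => rfl } ?_)
    intro x
    simp only [Equiv.coe_fn_mk, Q]
    constructor
    · intro h
      linear_combination h - (a2 * x 2 ^ 2 + p2 * x 2 * x 3 + b2 * x 3 ^ 2) * h2
    · intro h
      linear_combination h + (a2 * x 2 ^ 2 + p2 * x 2 * x 3 + b2 * x 3 ^ 2) * h2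
  rw [e1, Nat.card_eq_fintype_card, Fintype.card_subtype]
  have h := Finset.card_eq_sum_card_fiberwise
    (s := (univ.filter fun w : (K × K) × (K × K) => Q a1 p1 b1 w.1 = Q a2 p2 b2 w.2))
    (t := (univ : Finset K)) (f := fun w => Q a1 p1 b1 w.1) (fun _ _ => Finset.mem_coe.2 (Finset.mem_univ _))
  rw [h]
  have hf : ∀ u : K, ((univ.filter fun w : (K × K) × (K × K) =>
      Q a1 p1 b1 w.1 = Q a2 p2 b2 w.2).filter fun w => Q a1 p1 b1 w.1 = u).card =
      N a1 p1 b1 u * N a2 p2 b2 u := by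
    intro u
    unfold N
    rw [← Finset.card_product]
    congr 1
    ext w
    simp only [Finset.mem_filter, Finset.mem_univ, true_and, Finset.mem_product]
    constructor
    · rintro ⟨h3, h4⟩
      exact ⟨h4, h3.symm.trans h4⟩
    · rintro ⟨h3, h4⟩
      exact ⟨h3.trans h4.symm, h3⟩
  rw [Finset.sum_congr rfl fun u _ => hf u]
  exact sum_N (fun u => N a1 p1 b1 u * N a2 p2 b2 u) fun u hu => by
    rw [N_scale h2 a1 p1 b1 hu, N_scale h2 a2 p2 b2 hu]

end

theorem q4 : S2_Q4 := by
  intro K _ _ a1 b1 p1 a2 b2 p2 h2 hp1 hp2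
  classical
  have := Fintype.ofFinite K
  obtain ⟨r, hr⟩ : ∃ r, Fintype.card K = r + 1 := ⟨Fintype.card K - 1, by
    have := Fintype.card_pos (α := K)
    omega⟩
  have hr0 : 0 < r := by
    have := Fintype.one_lt_card (α := K)
    omega
  have hcard := card_four h2 a1 b1 p1 a2 b2 p2
  have hS : ∀ a p b : K, p ≠ 0 → (∃ c : K, a * b / p ^ 2 = c ^ 2 + c) →
      N a p b 0 = 2 * r + 1 ∧ N a p b 1 = r := by
    intro a p b hp h
    have h3 := N_split h2 hp h
    have h4 := total h2 a p b
    rw [hr] at h3 h4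
    have h5 : N a p b 0 = 2 * r + 1 := by omega
    refine ⟨h5, ?_⟩
    rw [h5, Nat.add_sub_cancel] at h4
    have h6 : r * N a p b 1 = r * r := by nlinarith
    exact Nat.eq_of_mul_eq_mul_left hr0 h6
  have hT : ∀ a p b : K, p ≠ 0 → (¬ ∃ c : K, a * b / p ^ 2 = c ^ 2 + c) →
      N a p b 0 = 1 ∧ N a p b 1 = r + 2 := by
    intro a p b hp h
    have h3 := N_nonsplit h2 hp h
    have h4 := total h2 a p b
    rw [hr] at h4
    refine ⟨h3, ?_⟩
    rw [h3, Nat.add_sub_cancel] at h4
    have h6 : r * N a p b 1 = r * (r + 2) := by nlinarith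
    exact Nat.eq_of_mul_eq_mul_left hr0 h6
  rw [hcard, Nat.card_eq_fintype_card, hr, Nat.add_sub_cancel]
  rw [sum_iff h2]
  by_cases hs1 : ∃ c : K, a1 * b1 / p1 ^ 2 = c ^ 2 + c
  · obtain ⟨u1, v1⟩ := hS a1 p1 b1 hp1 hs1
    by_cases hs2 : ∃ c : K, a2 * b2 / p2 ^ 2 = c ^ 2 + c
    · obtain ⟨u2, v2⟩ := hS a2 p2 b2 hp2 hs2
      rw [u1, u2, v1, v2]
      refine ⟨fun _ => by ring, fun h => absurd (iff_of_true hs1 hs2) h⟩
    · obtain ⟨u2, v2⟩ := hT a2 p2 b2 hp2 hs2
      rw [u1, u2, v1, v2]
      refine ⟨fun h => absurd (h.1 hs1) hs2, fun _ => by ring⟩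
  · obtain ⟨u1, v1⟩ := hT a1 p1 b1 hp1 hs1
    by_cases hs2 : ∃ c : K, a2 * b2 / p2 ^ 2 = c ^ 2 + c
    · obtain ⟨u2, v2⟩ := hS a2 p2 b2 hp2 hs2
      rw [u1, u2, v1, v2]
      refine ⟨fun h => absurd (h.2 hs2) hs1, fun _ => by ring⟩
    · obtain ⟨u2, v2⟩ := hT a2 p2 b2 hp2 hs2
      rw [u1, u2, v1, v2]
      refine ⟨fun _ => by ring, fun h => absurd (iff_of_false hs1 hs2) h⟩

end Q129.MR2_Q4
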