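import Pool.Agent.Q61.ND.Stm

/-! # Project ND of helper61: job BPA -/

set_option autoImplicit false

open MeasureTheory Set Filter Topology Real

namespace Pool.Agent.Q129.ND

open Pool.Agent.Q61.ND
open Pool.Agent.Q61.AD (P Q Per dx dy lap)

theorem rsE (p : P) : rs (EE p) = exp (-2 * p.1) := by
  have h1 : exp (-2 * p.1) = exp (-p.1) ^ 2 := by
    rw [← exp_nat_mul]
    congr 1
    push_cast
    ring
  rw [h1, rs, EE]
  have h2 := sin_sq_add_cos_sq p.2
  calc (exp (-p.1) * cos p.2) ^ 2 + (exp (-p.1) * sin p.2) ^ 2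
      = exp (-p.1) ^ 2 * (sin p.2 ^ 2 + cos p.2 ^ 2) := by ring
    _ = _ := by rw [h2, mul_one]

theorem lsE (p : P) : ls (EE p) = p.1 := by
  rw [ls, rsE, log_exp]
  ring

/-- the derivative of the smooth transition function is bounded -/
theorem dst : ∃ C : ℝ, 0 ≤ C ∧ ∀ x, |deriv smoothTransition x| ≤ C := by
  have h1 : ContDiff ℝ 1 smoothTransition := smoothTransition.contDiff
  obtain ⟨C, hC⟩ := (isCompact_Icc (a := (0 : ℝ)) (b := 1)).exists_bound_of_continuousOn
    (h1.continuous_deriv le_rfl).continuousOn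
  refine ⟨|C|, abs_nonneg _, fun x => ?_⟩
  rcases le_or_gt x 0 with h2 | h2
  · have h3 : IsLocalMin smoothTransition x := by
      filter_upwards with y
      rw [smoothTransition.zero_of_nonpos h2]
      exact smoothTransition.nonneg y
    rw [h3.deriv_eq_zero, abs_zero]
    exact abs_nonneg _
  · rcases le_or_gt 1 x with h3 | h3
    · have h4 : IsLocalMax smoothTransition x := by
        filter_upwards with y
        rw [smoothTransition.one_of_one_le h3]
        exact smoothTransition.le_one y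
      rw [h4.deriv_eq_zero, abs_zero]
      exact abs_nonneg _
    · have h4 := hC x ⟨h2.le, h3.le⟩
      rw [norm_eq_abs] at h4
      exact h4.trans (le_abs_self C)

theorem etaT_zero {s : ℝ} (hs : s ≤ 1) : etaT s = 0 := by
  rw [etaT, smoothTransition.zero_of_nonpos (by linarith)]
  simp

theorem etaT_nonpos (s : ℝ) : etaT s ≤ 0 := by
  rcases le_or_gt s 1 with h1 | h1
  · rw [etaT_zero h1]
  · rw [etaT]
    have h2 := smoothTransition.nonneg (s - 1)
    apply div_nonpos_of_nonpos_of_nonneg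
    · linarith
    · linarith

theorem detaT_zero {s : ℝ} (hs : s ≤ 1) : deriv etaT s = 0 := by
  have h1 : IsLocalMax etaT s := by
    filter_upwards with y
    rw [etaT_zero hs]
    exact etaT_nonpos y
  exact h1.deriv_eq_zero

theorem etaT_bound : ∃ C : ℝ, 0 < C ∧ ∀ s, 1 ≤ s → |etaT s| ≤ C / s ∧ |deriv etaT s| ≤ C / s := by
  obtain ⟨C, hC0, hC⟩ := dst
  refine ⟨3 / 2 * (C + 1), by positivity, fun s hs => ?_⟩
  have hs0 : 0 < s := by linarith
  have h1 := smoothTransition.nonneg (s - 1)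
  have h2 := smoothTransition.le_one (s - 1)
  constructor
  · rw [etaT, abs_div, abs_of_pos hs0]
    apply div_le_div_of_nonneg_right _ hs0.le
    rw [abs_le]
    constructor
    · nlinarith
    · nlinarith
  · have h3 : HasDerivAt etaT ((-(3 / 2) * (deriv smoothTransition (s - 1) * 1) * s -
        (-(3 / 2) * smoothTransition (s - 1)) * 1) / s ^ 2) s := by
      have h4 : DifferentiableAt ℝ smoothTransition (s - 1) :=
        (smoothTransition.contDiff (n := 1)).contDiffAt.differentiableAt (by norm_num)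
      have h6 : HasDerivAt (fun s : ℝ => smoothTransition (s - 1))
          (deriv smoothTransition (s - 1) * 1) s := by
        rw [mul_one]
        exact h4.hasDerivAt.comp_sub_const s 1
      exact (h6.const_mul (-(3 / 2))).fun_div (hasDerivAt_id s) hs0.ne'
    rw [h3.deriv, abs_div, abs_of_pos (show 0 < s ^ 2 by positivity), div_le_div_iff₀ (by positivity) hs0]
    have h7 := abs_le.1 (hC (s - 1))
    have h8 : |(-(3 / 2) * (deriv smoothTransition (s - 1) * 1) * s -
        (-(3 / 2) * smoothTransition (s - 1)) * 1)| ≤ 3 / 2 * (C + 1) * s := by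
      rw [abs_le]
      constructor
      · nlinarith [h7.1, h7.2]
      · nlinarith [h7.1, h7.2]
    calc _ ≤ 3 / 2 * (C + 1) * s * s := mul_le_mul_of_nonneg_right h8 hs0.le
      _ = _ := by ring

theorem norm_sq_le {v : P} {M : ℝ} (h1 : v.1 ^ 2 ≤ M) (h2 : v.2 ^ 2 ≤ M) : ‖v‖ ^ 2 ≤ M := by
  rw [Prod.norm_def]
  rcases max_choice ‖v.1‖ ‖v.2‖ with h | h
  · rw [h, norm_eq_abs, sq_abs]
    exact h1
  · rw [h, norm_eq_abs, sq_abs]
    exact h2

/-- the size of the drift -/
theorem bb_sq (η : ℝ → ℝ) (x : P) (hx : 0 < rs x) :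
    ‖bb η x‖ ^ 2 ≤ (4 * η (ls x) ^ 2 + deriv η (ls x) ^ 2) / rs x := by
  obtain ⟨e, he⟩ : ∃ e, e = η (ls x) := ⟨_, rfl⟩
  obtain ⟨d, hd⟩ : ∃ d, d = deriv η (ls x) := ⟨_, rfl⟩
  have hr : rs x = x.1 ^ 2 + x.2 ^ 2 := rfl
  have hA : (x.1 ^ 2 - x.2 ^ 2) ^ 2 ≤ rs x ^ 2 := by
    rw [hr]
    nlinarith [sq_nonneg x.1, sq_nonneg x.2, mul_nonneg (sq_nonneg x.1) (sq_nonneg x.2)]
  have hB : (2 * x.1 * x.2) ^ 2 ≤ rs x ^ 2 := by
    rw [hr]
    nlinarith [sq_nonneg (x.1 ^ 2 - x.2 ^ 2)]
  have key : ∀ u v : ℝ, u ^ 2 + v ^ 2 = rs x →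
      (-2 * e * (x.1 ^ 2 - x.2 ^ 2) * u + d * (2 * x.1 * x.2) * v) ^ 2 ≤
        (4 * e ^ 2 + d ^ 2) * rs x ^ 3 := by
    intro u v huv
    have h1 : (-2 * e * (x.1 ^ 2 - x.2 ^ 2) * u + d * (2 * x.1 * x.2) * v) ^ 2 ≤
        (4 * e ^ 2 + d ^ 2) * ((x.1 ^ 2 - x.2 ^ 2) ^ 2 * u ^ 2 + (2 * x.1 * x.2) ^ 2 * v ^ 2) := by
      nlinarith [sq_nonneg (-2 * e * ((2 * x.1 * x.2) * v) - d * ((x.1 ^ 2 - x.2 ^ 2) * u))]
    have h2 : (x.1 ^ 2 - x.2 ^ 2) ^ 2 * u ^ 2 + (2 * x.1 * x.2) ^ 2 * v ^ 2 ≤ rs x ^ 3 := by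
      have h3 := mul_le_mul_of_nonneg_right hA (sq_nonneg u)
      have h4 := mul_le_mul_of_nonneg_right hB (sq_nonneg v)
      calc _ ≤ rs x ^ 2 * u ^ 2 + rs x ^ 2 * v ^ 2 := add_le_add h3 h4
        _ = rs x ^ 2 * (u ^ 2 + v ^ 2) := by ring
        _ = rs x ^ 3 := by rw [huv]; ring
    exact h1.trans (mul_le_mul_of_nonneg_left h2 (by positivity))
  have hfin : ∀ N : ℝ, N ^ 2 ≤ (4 * e ^ 2 + d ^ 2) * rs x ^ 3 →
      (N / rs x ^ 2) ^ 2 ≤ (4 * e ^ 2 + d ^ 2) / rs x := by
    intro N hN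
    rw [div_pow, div_le_div_iff₀ (by positivity) hx]
    calc N ^ 2 * rs x ≤ (4 * e ^ 2 + d ^ 2) * rs x ^ 3 * rs x := mul_le_mul_of_nonneg_right hN hx.le
      _ = _ := by ring
  rw [← he, ← hd]
  apply norm_sq_le
  · rw [bb, ← he, ← hd]
    exact hfin _ (key x.1 x.2 rfl)
  · rw [bb, ← he, ← hd]
    apply hfin
    have h1 := key x.2 (-x.1) (by rw [hr]; ring)
    refine le_trans (le_of_eq ?_) h1
    ring

theorem meas_rs : Measurable rs := by
  unfold rs
  fun_prop

theorem meas_ls : Measurable ls := by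
  unfold ls
  exact (measurable_log.comp meas_rs).const_mul _

theorem meas_etaT : Measurable etaT := by
  unfold etaT
  have h1 : Measurable smoothTransition := smoothTransition.continuous.measurable
  exact ((h1.comp (measurable_id.sub_const 1)).const_mul _).div measurable_id

theorem meas_bb : Measurable (bb etaT) := by
  have h1 : Measurable fun x : P => etaT (ls x) := meas_etaT.comp meas_ls
  have h2 : Measurable fun x : P => deriv etaT (ls x) := (measurable_deriv _).comp meas_ls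
  have h3 := meas_rs
  unfold bb
  fun_prop

theorem meas_fr : Measurable fr := by
  unfold fr
  exact ((measurable_fract.comp measurable_fst).sub_const _).prodMk
    ((measurable_fract.comp measurable_snd).sub_const _)

theorem meas_EE : Measurable EE := by
  unfold EE
  fun_prop

theorem bpa (h : S_pol) (h1 : S_tra) : S_bpa := by
  have hz : ∀ x, exp (-2) ≤ rs x → bb etaT x = 0 := by
    intro x hx
    have h2 : ls x ≤ 1 := by
      have h3 := log_le_log (exp_pos _) hx
      rw [log_exp] at h3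
      rw [ls]
      linarith
    rw [bb, etaT_zero h2, detaT_zero h2]
    simp
  have hint : IntegrableOn (fun x => ‖bb etaT x‖ ^ 2) (Dc 1) := by
    rw [(h 1 _).2]
    obtain ⟨C, hC0, hC⟩ := etaT_bound
    have h2 : IntegrableOn (fun s : ℝ => 5 * C ^ 2 * s ^ (-2 : ℝ)) (Ioi 1) :=
      (integrableOn_Ioi_rpow_of_lt (by norm_num) one_pos).const_mul _
    have h3 : IntegrableOn (fun _ : ℝ => (1 : ℝ)) (Ioo (-π) π) := by
      rw [integrableOn_const_iff]
      right
      rw [volume_Ioo]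
      exact ENNReal.ofReal_lt_top
    have h4 : IntegrableOn (fun p : P => 5 * C ^ 2 * p.1 ^ (-2 : ℝ) * 1) (Sp 1) := by
      have h5 := Integrable.mul_prod h2 h3
      rw [Measure.prod_restrict] at h5
      exact h5
    refine h4.mono' ?_ ?_
    · apply Measurable.aestronglyMeasurable
      have h5 : Measurable fun p : P => bb etaT (EE p) := meas_bb.comp meas_EE
      fun_prop
    · refine (ae_restrict_iff' (measurableSet_Ioi.prod measurableSet_Ioo)).2 ?_
      filter_upwards with p hp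
      have hs : 1 < p.1 := hp.1
      have hs0 : 0 < p.1 := by linarith
      have h5 : 0 < rs (EE p) := by
        rw [rsE]
        exact exp_pos _
      have h6 := bb_sq etaT (EE p) h5
      rw [rsE, lsE] at h6
      obtain ⟨h7, h8⟩ := hC p.1 hs.le
      have h9 : etaT p.1 ^ 2 ≤ (C / p.1) ^ 2 := by
        rw [← sq_abs]
        exact pow_le_pow_left₀ (abs_nonneg _) h7 2
      have h10 : deriv etaT p.1 ^ 2 ≤ (C / p.1) ^ 2 := by
        rw [← sq_abs]
        exact pow_le_pow_left₀ (abs_nonneg _) h8 2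
      have hE : 0 < exp (-2 * p.1) := exp_pos _
      rw [norm_eq_abs, abs_of_nonneg (by positivity)]
      have h11 : p.1 ^ (-2 : ℝ) = 1 / p.1 ^ 2 := by
        rw [rpow_neg hs0.le]
        norm_num
      rw [h11]
      calc exp (-2 * p.1) * ‖bb etaT (EE p)‖ ^ 2
          ≤ exp (-2 * p.1) * ((4 * etaT p.1 ^ 2 + deriv etaT p.1 ^ 2) / exp (-2 * p.1)) :=
            mul_le_mul_of_nonneg_left h6 hE.le
        _ = 4 * etaT p.1 ^ 2 + deriv etaT p.1 ^ 2 := by field_simp
        _ ≤ 5 * (C / p.1) ^ 2 := by linarith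
        _ = _ := by ring
  refine ⟨meas_bb.comp meas_fr, ?_, ?_, hz, hint⟩
  · intro x y
    constructor
    · rw [bP, bP, fr, fr, Int.fract_add_one]
    · rw [bP, bP, fr, fr, Int.fract_add_one]
  · have h2 := (h1 (fun x => ‖bb etaT x‖ ^ 2) (fun _ => 1) (by
      intro x hx
      rcases hx with hx | hx
      · rw [bb, hx]
        simp
      · rw [hz x hx]
        simp)).2
    simp only [mul_one] at h2
    exact h2.2 hint

end Pool.Agent.Q129.ND
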