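import Pool.Agent.Q61.ND.Stm

/-! # Project ND of helper61: job ENE -/

set_option autoImplicit false

open MeasureTheory Set Filter Topology Real

namespace Pool.Agent.Q129.ND

open Pool.Agent.Q61.ND
open Pool.Agent.Q61.AD (P dx dy lap)

/-- the partial derivatives of a smooth function -/
theorem dxy {f : P → ℝ} (hf : ContDiff ℝ (⊤ : ℕ∞) f) :
    ContDiff ℝ (⊤ : ℕ∞) (dx f) ∧ ContDiff ℝ (⊤ : ℕ∞) (dy f) ∧
      (∀ s θ : ℝ, HasDerivAt (fun s => f (s, θ)) (dx f (s, θ)) s) ∧
      ∀ s θ : ℝ, HasDerivAt (fun θ => f (s, θ)) (dy f (s, θ)) θ := by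
  have hd : Differentiable ℝ f := hf.differentiable (by simp)
  have e1 : ∀ p : P, HasDerivAt (fun s => f (s, p.2)) (fderiv ℝ f p (1, 0)) p.1 := by
    intro p
    have h1 : HasDerivAt (fun s : ℝ => ((s, p.2) : P)) (1, 0) p.1 :=
      (hasDerivAt_id p.1).prodMk (hasDerivAt_const p.1 p.2)
    exact ((hd p).hasFDerivAt).comp_hasDerivAt p.1 h1
  have e2 : ∀ p : P, HasDerivAt (fun s => f (p.1, s)) (fderiv ℝ f p (0, 1)) p.2 := by
    intro p
    have h1 : HasDerivAt (fun s : ℝ => ((p.1, s) : P)) (0, 1) p.2 :=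
      (hasDerivAt_const p.2 p.1).prodMk (hasDerivAt_id p.2)
    exact ((hd p).hasFDerivAt).comp_hasDerivAt p.2 h1
  have f1 : dx f = fun p => fderiv ℝ f p (1, 0) := funext fun p => (e1 p).deriv
  have f2 : dy f = fun p => fderiv ℝ f p (0, 1) := funext fun p => (e2 p).deriv
  have hc : ContDiff ℝ (⊤ : ℕ∞) (fderiv ℝ f) := hf.fderiv_right (by simp)
  refine ⟨?_, ?_, ?_, ?_⟩
  · rw [f1]
    exact hc.clm_apply contDiff_const
  · rw [f2]
    exact hc.clm_apply contDiff_const
  · intro s θ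
    rw [f1]
    exact e1 (s, θ)
  · intro s θ
    rw [f2]
    exact e2 (s, θ)

/-- the functions on the strip which occur in the proof are integrable -/
theorem int_strip {a b : ℝ} (ha : 0 < a) {g : P → ℝ} (hg : ContinuousOn g {p : P | 0 < p.1})
    (hz : ∀ s θ : ℝ, s ∉ Icc a b → g (s, θ) = 0) :
    Integrable g ((volume.restrict (Ioi (21 : ℝ))).prod (volume.restrict (Ioo (-π) π))) := by
  rw [Measure.prod_restrict]
  have h1 : IntegrableOn g (Icc a b ×ˢ Icc (-π) π) ((volume : Measure ℝ).prod volume) := by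
    apply ContinuousOn.integrableOn_compact (isCompact_Icc.prod isCompact_Icc)
    refine hg.mono ?_
    rintro ⟨s, θ⟩ h
    exact lt_of_lt_of_le ha h.1.1
  refine h1.of_forall_sdiff_eq_zero (measurableSet_Ioi.prod measurableSet_Ioo) ?_
  rintro ⟨s, θ⟩ ⟨h2, h3⟩
  apply hz
  intro h4
  exact h3 ⟨h4, ⟨h2.2.1.le, h2.2.2.le⟩⟩

theorem ene (h : S_sli) : S_ene := by
  intro Φ hΦ
  obtain ⟨hs, hanti, a, b, ha, hsupp⟩ := hΦ
  obtain ⟨cx, cy, dX, dY⟩ := dxy hs
  obtain ⟨cxx, -, -, -⟩ := dxy cx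
  obtain ⟨-, cyy, -, dYY⟩ := dxy cy
  have ha0 : 0 < a := by linarith
  have hz : ∀ s θ : ℝ, s ∉ Icc a b → Φ (s, θ) = 0 := fun s θ hh =>
    by_contra fun h' => hh (hsupp s θ h')
  have hzy : ∀ s θ : ℝ, s ∉ Icc a b → dy Φ (s, θ) = 0 := by
    intro s θ hh
    have h1 : (fun θ => Φ (s, θ)) = fun _ => 0 := funext fun θ => hz s θ hh
    have h2 := dY s θ
    rw [h1] at h2
    exact h2.unique (hasDerivAt_const θ 0)
  have c0 : Continuous Φ := hs.continuous
  have c1 : Continuous (dx Φ) := cx.continuous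
  have c2 : Continuous (dy Φ) := cy.continuous
  have c3 : Continuous (dx (dx Φ)) := cxx.continuous
  have c4 : Continuous (dy (dy Φ)) := cyy.continuous
  have hw : ∀ n : ℕ, ContinuousOn (fun p : P => 1 / p.1 ^ n) {p : P | 0 < p.1} := by
    intro n
    refine ContinuousOn.div (by fun_prop) (by fun_prop) ?_
    intro p hp
    exact pow_ne_zero n (ne_of_gt hp)
  have hE : Continuous fun p : P => exp (2 * p.1) := by fun_prop
  have hcos : Continuous fun p : P => cos (2 * p.2) := by fun_prop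
  have hsin : Continuous fun p : P => sin (2 * p.2) := by fun_prop
  -- the four functions
  obtain ⟨A, hA⟩ : ∃ A : P → ℝ, ∀ p, A p = -(exp (2 * p.1) / p.1 ^ 2 *
      ((dx (dx Φ) p - 3 / p.1 * cos (2 * p.2) * dx Φ p) * Φ p)) := ⟨_, fun _ => rfl⟩
  obtain ⟨L, hL⟩ : ∃ L : P → ℝ, ∀ p, L p = exp (2 * p.1) * ((-1 / p.1 ^ 2 + 2 / p.1 ^ 3 - 3 / p.1 ^ 4) -
      cos (2 * p.2) * (3 / 2) * (2 / p.1 ^ 3 - 3 / p.1 ^ 4)) * Φ p ^ 2 := ⟨_, fun _ => rfl⟩
  obtain ⟨K, hK⟩ : ∃ K : P → ℝ, ∀ p, K p = -(exp (2 * p.1) / p.1 ^ 2) * (dy (dy Φ) p * Φ p + dy Φ p * dy Φ p) +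
      3 / 4 * (exp (2 * p.1) / p.1 ^ 4) * (2 * cos (2 * p.2) * (Φ p * Φ p) +
        sin (2 * p.2) * (dy Φ p * Φ p + Φ p * dy Φ p)) := ⟨_, fun _ => rfl⟩
  obtain ⟨M, hM⟩ : ∃ M : P → ℝ, ∀ p, M p = exp (2 * p.1) / p.1 ^ 2 * (dy Φ p ^ 2 - Φ p ^ 2 -
        3 * (1 / p.1 * (1 - 1 / p.1)) * cos (2 * p.2) * Φ p ^ 2 +
          (2 / p.1 - 3 / p.1 ^ 2) * Φ p ^ 2) := ⟨_, fun _ => rfl⟩
  have iA : Integrable A ((volume.restrict (Ioi (21 : ℝ))).prod (volume.restrict (Ioo (-π) π))) := by
    apply int_strip ha0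
    · have h1 : ContinuousOn (fun p : P => -(exp (2 * p.1) * (1 / p.1 ^ 2) *
          ((dx (dx Φ) p - 3 * (1 / p.1 ^ 1) * cos (2 * p.2) * dx Φ p) * Φ p))) {p : P | 0 < p.1} :=
        ((hE.continuousOn.mul (hw 2)).mul ((c3.continuousOn.sub
          (((continuousOn_const.mul (hw 1)).mul hcos.continuousOn).mul c1.continuousOn)).mul
            c0.continuousOn)).neg
      refine h1.congr ?_
      intro p _
      rw [hA]
      ring
    · intro s θ hh
      rw [hA, hz s θ hh]
      ring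
  have iL : Integrable L ((volume.restrict (Ioi (21 : ℝ))).prod (volume.restrict (Ioo (-π) π))) := by
    apply int_strip ha0
    · have h1 : ContinuousOn (fun p : P => exp (2 * p.1) * ((-(1 / p.1 ^ 2) + 2 * (1 / p.1 ^ 3) -
          3 * (1 / p.1 ^ 4)) - cos (2 * p.2) * (2 * (1 / p.1 ^ 3) - 3 * (1 / p.1 ^ 4)) * (3 / 2)) * (Φ p) ^ 2)
          {p : P | 0 < p.1} :=
        (hE.continuousOn.mul ((((hw 2).neg.add (continuousOn_const.mul (hw 3))).sub
          (continuousOn_const.mul (hw 4))).sub ((hcos.continuousOn.mul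
            ((continuousOn_const.mul (hw 3)).sub (continuousOn_const.mul (hw 4)))).mul
              continuousOn_const))).mul (c0.continuousOn.pow 2)
      refine h1.congr ?_
      intro p _
      rw [hL]
      ring
    · intro s θ hh
      rw [hL, hz s θ hh]
      ring
  have iK : Integrable K ((volume.restrict (Ioi (21 : ℝ))).prod (volume.restrict (Ioo (-π) π))) := by
    apply int_strip ha0
    · have h1 : ContinuousOn (fun p : P => -(exp (2 * p.1) * (1 / p.1 ^ 2)) *
          (dy (dy Φ) p * Φ p + dy Φ p * dy Φ p) +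
          3 / 4 * (exp (2 * p.1) * (1 / p.1 ^ 4)) * (2 * cos (2 * p.2) * (Φ p * Φ p) +
        sin (2 * p.2) * (dy Φ p * Φ p + Φ p * dy Φ p))) {p : P | 0 < p.1} :=
        ((hE.continuousOn.mul (hw 2)).neg.mul (by fun_prop)).add
          ((continuousOn_const.mul (hE.continuousOn.mul (hw 4))).mul (by fun_prop))
      refine h1.congr ?_
      intro p _
      rw [hK]
      ring
    · intro s θ hh
      rw [hK, hz s θ hh, hzy s θ hh]
      ring
  have iM : Integrable M ((volume.restrict (Ioi (21 : ℝ))).prod (volume.restrict (Ioo (-π) π))) := by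
    apply int_strip ha0
    · have h1 : ContinuousOn (fun p : P => exp (2 * p.1) * (1 / p.1 ^ 2) * (dy Φ p ^ 2 - Φ p ^ 2 -
        3 * (1 / p.1 ^ 1 * (1 - 1 / p.1 ^ 1)) * cos (2 * p.2) * Φ p ^ 2 +
          (2 * (1 / p.1 ^ 1) - 3 * (1 / p.1 ^ 2)) * Φ p ^ 2)) {p : P | 0 < p.1} :=
        (hE.continuousOn.mul (hw 2)).mul ((((c2.continuousOn.pow 2).sub (c0.continuousOn.pow 2)).sub
          (((continuousOn_const.mul ((hw 1).mul (continuousOn_const.sub (hw 1)))).mul
            hcos.continuousOn).mul (c0.continuousOn.pow 2))).add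
          (((continuousOn_const.mul (hw 1)).sub (continuousOn_const.mul (hw 2))).mul
            (c0.continuousOn.pow 2)))
      refine h1.congr ?_
      intro p _
      rw [hM]
      ring
    · intro s θ hh
      rw [hM, hz s θ hh, hzy s θ hh]
      ring
  -- the integral in `s`
  have h1 : ∫ p, L p ∂((volume.restrict (Ioi (21 : ℝ))).prod (volume.restrict (Ioo (-π) π))) ≤
      ∫ p, A p ∂((volume.restrict (Ioi (21 : ℝ))).prod (volume.restrict (Ioo (-π) π))) := by
    rw [integral_prod_symm _ iL, integral_prod_symm _ iA]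
    refine integral_mono iL.integral_prod_right iA.integral_prod_right ?_
    intro θ
    have h16 : ContDiff ℝ (⊤ : ℕ∞) (fun s => Φ (s, θ)) :=
      hs.comp (contDiff_id.prodMk contDiff_const)
    have h17 : ContDiff ℝ 2 (fun s => Φ (s, θ)) := by exact_mod_cast (contDiff_infty.1 h16) 2
    have h2 := h (fun s => Φ (s, θ)) a b (cos (2 * θ)) h17 ha
      (fun s hh => hsupp s θ hh)
    refine le_trans (le_of_eq ?_) (h2.trans (le_of_eq ?_))
    · apply integral_congr_ae
      filter_upwards with s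
      rw [hL]
    · rw [← integral_neg]
      apply integral_congr_ae
      filter_upwards with s
      rw [hA]
      rfl
  -- the integral in `θ`
  have h3 : ∫ p, K p ∂((volume.restrict (Ioi (21 : ℝ))).prod (volume.restrict (Ioo (-π) π))) = 0 := by
    rw [integral_prod _ iK]
    refine integral_eq_zero_of_ae ?_
    filter_upwards with s
    rw [← integral_Ioc_eq_integral_Ioo, ← intervalIntegral.integral_of_le (by linarith [pi_pos])]
    have h4 : ∀ θ ∈ uIcc (-π) π, HasDerivAt (fun θ => -(exp (2 * s) / s ^ 2) * (dy Φ (s, θ) * Φ (s, θ)) +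
        3 / 4 * (exp (2 * s) / s ^ 4) * (sin (2 * θ) * (Φ (s, θ) * Φ (s, θ)))) (K (s, θ)) θ := by
      intro θ _
      have h5 : HasDerivAt (fun θ : ℝ => sin (2 * θ)) (cos (2 * θ) * (2 * 1)) θ :=
        ((hasDerivAt_id θ).const_mul 2).sin
      have h6 := ((((dYY s θ).mul (dY s θ)).const_mul (-(exp (2 * s) / s ^ 2))).add
        ((h5.mul ((dY s θ).mul (dY s θ))).const_mul (3 / 4 * (exp (2 * s) / s ^ 4))))
      refine h6.congr_deriv ?_
      rw [hK]
      simp only [Pi.mul_apply]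
      ring
    have h7 : IntervalIntegrable (fun θ => K (s, θ)) volume (-π) π := by
      apply Continuous.intervalIntegrable
      simp only [hK]
      fun_prop
    rw [intervalIntegral.integral_eq_sub_of_hasDerivAt h4 h7]
    have h8 : Φ (s, π) = Φ (s, -π) := by
      have h9 := hanti s 0
      have h10 := hanti s (-π)
      rw [zero_add] at h9
      rw [neg_add_cancel] at h10
      rw [h9, h10, neg_neg]
    have hantiy : ∀ θ : ℝ, dy Φ (s, θ + π) = -dy Φ (s, θ) := by
      intro θ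
      have h9 : HasDerivAt (fun θ => Φ (s, θ + π)) (dy Φ (s, θ + π)) θ :=
        (dY s (θ + π)).comp_add_const θ π
      have h10 : (fun θ => Φ (s, θ + π)) = fun θ => -Φ (s, θ) := funext fun θ => hanti s θ
      rw [h10] at h9
      exact h9.unique (dY s θ).neg
    have h11 : dy Φ (s, π) = dy Φ (s, -π) := by
      have h9 := hantiy 0
      have h10 := hantiy (-π)
      rw [zero_add] at h9
      rw [neg_add_cancel] at h10
      rw [h9, h10, neg_neg]
    have h12 : sin (2 * π) = 0 := sin_two_pi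
    have h13 : sin (2 * -π) = 0 := by
      rw [mul_neg, sin_neg, sin_two_pi, neg_zero]
    rw [h8, h11, h12, h13]
    simp
  -- the sum
  have hvol : (volume : Measure P).restrict (Sp 21) =
      (volume.restrict (Ioi (21 : ℝ))).prod (volume.restrict (Ioo (-π) π)) := by
    rw [Measure.prod_restrict, Sp]
    rfl
  rw [hvol, ← integral_neg]
  have h14 : ∫ p, -(exp (2 * p.1) / p.1 ^ 2 * (G0 Φ p * Φ p))
      ∂((volume.restrict (Ioi (21 : ℝ))).prod (volume.restrict (Ioo (-π) π))) =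
      ∫ p, (M p + (A p - L p) + K p)
        ∂((volume.restrict (Ioi (21 : ℝ))).prod (volume.restrict (Ioo (-π) π))) := by
    apply integral_congr_ae
    filter_upwards with p
    rw [hM, hA, hL, hK, G0, lap]
    ring
  have e1 := integral_add (iM.add (iA.sub iL)) iK
  have e2 := integral_add iM (iA.sub iL)
  have e3 := integral_sub iA iL
  simp only [Pi.add_apply, Pi.sub_apply] at e1 e2 e3
  rw [h14, e1, e2, e3, h3]
  have h15 : ∫ p : P, exp (2 * p.1) / p.1 ^ 2 * (dy Φ p ^ 2 - Φ p ^ 2 -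
        3 * (1 / p.1 * (1 - 1 / p.1)) * cos (2 * p.2) * Φ p ^ 2 +
          (2 / p.1 - 3 / p.1 ^ 2) * Φ p ^ 2)
      ∂((volume.restrict (Ioi (21 : ℝ))).prod (volume.restrict (Ioo (-π) π))) =
      ∫ p, M p ∂((volume.restrict (Ioi (21 : ℝ))).prod (volume.restrict (Ioo (-π) π))) := by
    apply integral_congr_ae
    filter_upwards with p
    rw [hM]
  rw [h15]
  linarith

end Pool.Agent.Q129.ND
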