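import Pool.Agent.Q61.ND.Stm

/-! # Project ND of helper61: job SLI -/

set_option autoImplicit false

open MeasureTheory Set Filter Topology Real

namespace Pool.Agent.Q129.ND

open Pool.Agent.Q61.ND

/-- the derivative of `exp (2 s) / s ^ n` -/
theorem gd (n : ℕ) (s : ℝ) (hs : s ≠ 0) : HasDerivAt (fun s : ℝ => exp (2 * s) / s ^ n)
    (2 * (exp (2 * s) / s ^ n) - n * (exp (2 * s) / s ^ (n + 1))) s := by
  have h1 : HasDerivAt (fun s : ℝ => exp (2 * s)) (exp (2 * s) * (2 * 1)) s :=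
    ((hasDerivAt_id s).const_mul 2).exp
  have h2 := h1.fun_div (hasDerivAt_pow n s) (pow_ne_zero n hs)
  refine h2.congr_deriv ?_
  rcases n with _ | n
  · simp
    ring
  · rw [Nat.add_sub_cancel]
    field_simp
    ring

theorem sli : S_sli := by
  intro f a b κ hf ha hs
  have h1 : Differentiable ℝ f := hf.differentiable (by norm_num)
  have h2 : ContDiff ℝ 1 (deriv f) := by
    have h3 : ContDiff ℝ (1 + 1) f := by
      rw [one_add_one_eq_two]
      exact hf
    exact (contDiff_succ_iff_deriv.1 h3).2.2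
  have h3 : Differentiable ℝ (deriv f) := h2.differentiable (by norm_num)
  have h4 : Continuous (deriv (deriv f)) := h2.continuous_deriv le_rfl
  obtain ⟨B, hB, hbB⟩ : ∃ B : ℝ, 21 ≤ B ∧ b < B :=
    ⟨max b 21 + 1, by linarith [le_max_right b 21], by linarith [le_max_left b 21]⟩
  have hz : ∀ s, s ∉ Icc a b → f s = 0 := fun s h => by_contra fun h' => h (hs s h')
  have red : ∀ g : ℝ → ℝ, (∀ s, f s = 0 → g s = 0) →
      ∫ s in Ioi (21 : ℝ), g s = ∫ s in (21 : ℝ)..B, g s := by
    intro g hg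
    rw [intervalIntegral.integral_of_le hB]
    refine setIntegral_eq_of_subset_of_forall_sdiff_eq_zero measurableSet_Ioi Ioc_subset_Ioi_self ?_
    intro s hs'
    exact hg s (hz s fun h => hs'.2 ⟨hs'.1, h.2.trans hbB.le⟩)
  have hne : ∀ s ∈ uIcc (21 : ℝ) B, s ≠ 0 := by
    intro s hs'
    rw [uIcc_of_le hB, mem_Icc] at hs'
    linarith [hs'.1]
  have hg : ∀ n : ℕ, ContinuousOn (fun s : ℝ => exp (2 * s) / s ^ n) (uIcc (21 : ℝ) B) := by
    intro n
    refine ContinuousOn.div (by fun_prop) (by fun_prop) ?_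
    intro s hs'
    exact pow_ne_zero n (hne s hs')
  have hfc : ∀ S : Set ℝ, ContinuousOn f S := fun S => h1.continuous.continuousOn
  have hfc1 : ∀ S : Set ℝ, ContinuousOn (deriv f) S := fun S => h3.continuous.continuousOn
  have hfc2 : ∀ S : Set ℝ, ContinuousOn (deriv (deriv f)) S := fun S => h4.continuousOn
  -- the primitive
  have hF : ∀ s ∈ uIcc (21 : ℝ) B, HasDerivAt
      (fun s => -(exp (2 * s) / s ^ 2 * (deriv f s * f s)) +
        (3 / 2 * κ - 1) * (exp (2 * s) / s ^ 3 * (f s * f s)))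
      (-((2 * (exp (2 * s) / s ^ 2) - (2 : ℕ) * (exp (2 * s) / s ^ (2 + 1))) * (deriv f s * f s) +
        exp (2 * s) / s ^ 2 * (deriv (deriv f) s * f s + deriv f s * deriv f s)) +
        (3 / 2 * κ - 1) * ((2 * (exp (2 * s) / s ^ 3) - (3 : ℕ) * (exp (2 * s) / s ^ (3 + 1))) * (f s * f s) +
          exp (2 * s) / s ^ 3 * (deriv f s * f s + f s * deriv f s))) s := by
    intro s hs'
    have hf1 := (h1 s).hasDerivAt
    have hf2 := (h3 s).hasDerivAt
    exact ((gd 2 s (hne s hs')).mul (hf2.mul hf1)).neg.add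
      (((gd 3 s (hne s hs')).mul (hf1.mul hf1)).const_mul _)
  have hFc : ContinuousOn (fun s : ℝ =>
      (-((2 * (exp (2 * s) / s ^ 2) - (2 : ℕ) * (exp (2 * s) / s ^ (2 + 1))) * (deriv f s * f s) +
        exp (2 * s) / s ^ 2 * (deriv (deriv f) s * f s + deriv f s * deriv f s)) +
        (3 / 2 * κ - 1) * ((2 * (exp (2 * s) / s ^ 3) - (3 : ℕ) * (exp (2 * s) / s ^ (3 + 1))) * (f s * f s) +
          exp (2 * s) / s ^ 3 * (deriv f s * f s + f s * deriv f s)))) (uIcc (21 : ℝ) B) := by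
    refine ContinuousOn.add (ContinuousOn.neg (ContinuousOn.add
      (ContinuousOn.mul (ContinuousOn.sub (continuousOn_const.mul (hg 2))
        (continuousOn_const.mul (hg (2 + 1)))) ((hfc1 _).mul (hfc _)))
      ((hg 2).mul (((hfc2 _).mul (hfc _)).add ((hfc1 _).mul (hfc1 _))))))
      (continuousOn_const.mul (ContinuousOn.add
        (ContinuousOn.mul (ContinuousOn.sub (continuousOn_const.mul (hg 3))
        (continuousOn_const.mul (hg (3 + 1)))) ((hfc _).mul (hfc _)))
        ((hg 3).mul (((hfc1 _).mul (hfc _)).add ((hfc _).mul (hfc1 _))))))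
  have hFi := intervalIntegral.integral_eq_sub_of_hasDerivAt hF hFc.intervalIntegrable
  have hf21 : f 21 = 0 := hz 21 fun h => by linarith [h.1]
  have hfB : f B = 0 := hz B fun h => by linarith [h.2]
  rw [hf21, hfB] at hFi
  simp only [mul_zero, neg_zero, add_zero, sub_zero] at hFi
  have hsqc : ContinuousOn (fun s : ℝ => exp (2 * s) / s ^ 2 * (deriv f s + f s) ^ 2) (uIcc (21 : ℝ) B) :=
    (hg 2).mul (((hfc1 _).add (hfc _)).pow 2)
  have hsq : 0 ≤ ∫ s in (21 : ℝ)..B, exp (2 * s) / s ^ 2 * (deriv f s + f s) ^ 2 :=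
    intervalIntegral.integral_nonneg hB fun s _ => by positivity
  have hLc : ContinuousOn (fun s : ℝ => exp (2 * s) * ((-1 / s ^ 2 + 2 / s ^ 3 - 3 / s ^ 4) -
        κ * (3 / 2) * (2 / s ^ 3 - 3 / s ^ 4)) * f s ^ 2) (uIcc (21 : ℝ) B) := by
    have h5 : ContinuousOn (fun s : ℝ => ((-(exp (2 * s) / s ^ 2) + 2 * (exp (2 * s) / s ^ 3) -
        3 * (exp (2 * s) / s ^ 4)) - κ * (3 / 2) * (2 * (exp (2 * s) / s ^ 3) -
        3 * (exp (2 * s) / s ^ 4))) * f s ^ 2) (uIcc (21 : ℝ) B) :=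
      ContinuousOn.mul (ContinuousOn.sub (ContinuousOn.sub (ContinuousOn.add (hg 2).neg
        (continuousOn_const.mul (hg 3))) (continuousOn_const.mul (hg 4)))
        (continuousOn_const.mul ((continuousOn_const.mul (hg 3)).sub (continuousOn_const.mul (hg 4)))))
        ((hfc _).pow 2)
    refine h5.congr ?_
    intro s _
    ring
  rw [red _ (fun s h => by rw [h]; ring), red _ (fun s h => by rw [h]; ring)]
  have hfin : (∫ s in (21 : ℝ)..B, exp (2 * s) / s ^ 2 *
        ((deriv (deriv f) s - 3 / s * κ * deriv f s) * f s)) =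
      -((∫ s in (21 : ℝ)..B, exp (2 * s) * ((-1 / s ^ 2 + 2 / s ^ 3 - 3 / s ^ 4) -
        κ * (3 / 2) * (2 / s ^ 3 - 3 / s ^ 4)) * f s ^ 2) +
        ((∫ s in (21 : ℝ)..B, exp (2 * s) / s ^ 2 * (deriv f s + f s) ^ 2) +
          ∫ s in (21 : ℝ)..B,
            (-((2 * (exp (2 * s) / s ^ 2) - (2 : ℕ) * (exp (2 * s) / s ^ (2 + 1))) * (deriv f s * f s) +
        exp (2 * s) / s ^ 2 * (deriv (deriv f) s * f s + deriv f s * deriv f s)) +
        (3 / 2 * κ - 1) * ((2 * (exp (2 * s) / s ^ 3) - (3 : ℕ) * (exp (2 * s) / s ^ (3 + 1))) * (f s * f s) +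
          exp (2 * s) / s ^ 3 * (deriv f s * f s + f s * deriv f s))))) := by
    rw [← intervalIntegral.integral_add hsqc.intervalIntegrable hFc.intervalIntegrable,
      ← intervalIntegral.integral_add hLc.intervalIntegrable
        (hsqc.intervalIntegrable.add hFc.intervalIntegrable), ← intervalIntegral.integral_neg]
    apply intervalIntegral.integral_congr
    intro s _
    push_cast
    ring
  rw [hfin, hFi]
  linarith

end Pool.Agent.Q129.ND
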