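import Pool.Agent.Q129.NeighborLocating

set_option autoImplicit false

/-!
Graphs of maximum degree `D` with `∑ j ∈ [1, D], k * (k - 1).choose j` vertices and
neighbor-locating chromatic number `k`, for `3 ≤ D ≤ k - 2`.
-/

namespace Q129.NLExtremal

open SimpleGraph Q129.NeighborLocating

/-- The vertices: a colour together with a set of other colours. -/
def VS (k D : ℕ) : Finset (ℕ × Finset ℕ) :=
  (Finset.range k ×ˢ (Finset.range k).powerset).filter
    fun p => p.1 ∉ p.2 ∧ 1 ≤ p.2.card ∧ p.2.card ≤ D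

theorem mem_VS {k D : ℕ} {p : ℕ × Finset ℕ} : p ∈ VS k D ↔
    p.1 < k ∧ p.2 ⊆ Finset.range k ∧ p.1 ∉ p.2 ∧ 1 ≤ p.2.card ∧ p.2.card ≤ D := by
  simp only [VS, Finset.mem_filter, Finset.mem_product, Finset.mem_range, Finset.mem_powerset]
  tauto

theorem card_VS (k D : ℕ) :
    (VS k D).card = ∑ j ∈ Finset.Icc 1 D, k * (k - 1).choose j := by
  classical
  rw [Finset.card_eq_sum_card_fiberwise (f := fun p : ℕ × Finset ℕ => (p.2.card, p.1))
    (t := Finset.Icc 1 D ×ˢ Finset.range k)]
  · rw [Finset.sum_product]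
    apply Finset.sum_congr rfl
    intro j hj
    rw [Finset.mem_Icc] at hj
    have h : ∀ i ∈ Finset.range k,
        ((VS k D).filter fun p : ℕ × Finset ℕ => (p.2.card, p.1) = (j, i)).card =
          (k - 1).choose j := by
      intro i hi
      have h1 : ((VS k D).filter fun p : ℕ × Finset ℕ => (p.2.card, p.1) = (j, i)) =
          (Finset.powersetCard j ((Finset.range k).erase i)).map
            ⟨fun S => (i, S), fun S T h => (Prod.mk.inj h).2⟩ := by
        ext ⟨x, S⟩
        simp only [Finset.mem_filter, mem_VS, Prod.mk.injEq, Finset.mem_map,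
          Finset.mem_powersetCard]
        constructor
        · rintro ⟨⟨_, h2, h3, _, _⟩, h4, rfl⟩
          exact ⟨S, ⟨fun y hy => Finset.mem_erase.2 ⟨fun h => h3 (h ▸ hy), h2 hy⟩, h4⟩, rfl⟩
        · rintro ⟨S', ⟨h2, h3⟩, he⟩
          obtain ⟨rfl, rfl⟩ := Prod.mk.inj he
          refine ⟨⟨Finset.mem_range.1 hi, fun y hy => (Finset.mem_erase.1 (h2 hy)).2,
            fun h => (Finset.mem_erase.1 (h2 h)).1 rfl, by omega, by omega⟩, h3, rfl⟩
      rw [h1, Finset.card_map, Finset.card_powersetCard, Finset.card_erase_of_mem hi,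
        Finset.card_range]
    rw [Finset.sum_congr rfl h]
    simp
  · intro p hp
    have := mem_VS.1 (Finset.mem_coe.1 hp)
    simp only [Finset.coe_product, Set.mem_prod, Finset.mem_coe, Finset.mem_Icc, Finset.mem_range]
    exact ⟨this.2.2.2, this.1⟩

/-- The sets on a ring. -/
def A (k D j : ℕ) : Finset (Finset ℕ) :=
  (Finset.Ioo j k).powerset.filter fun s => 1 ≤ s.card ∧ s.card + 1 ≤ D

theorem mem_A {k D j : ℕ} {s : Finset ℕ} :
    s ∈ A k D j ↔ s ⊆ Finset.Ioo j k ∧ 1 ≤ s.card ∧ s.card + 1 ≤ D := by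
  simp [A]

/-- A choice of cyclic permutations. -/
structure Rings (k D : ℕ) where
  g : ℕ → Equiv.Perm (Finset ℕ)
  cyc : ∀ j, (g j).IsCycleOn (A k D j : Set (Finset ℕ))
  fix : ∀ j s, s ∉ A k D j → g j s = s

theorem exists_rings (k D : ℕ) : Nonempty (Rings k D) := by
  have h : ∀ j, ∃ f : Equiv.Perm (Finset ℕ), f.IsCycleOn (A k D j : Set (Finset ℕ)) ∧
      {x | f x ≠ x} ⊆ (A k D j : Set (Finset ℕ)) := fun j =>
    Set.Countable.exists_cycleOn (Finset.countable_toSet _)
  choose g hg1 hg2 using h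
  refine ⟨⟨g, hg1, fun j s hs => ?_⟩⟩
  by_contra hcon
  exact hs (hg2 j hcon)

variable {k D : ℕ} (R : Rings k D)

theorem g_mem {j : ℕ} {s : Finset ℕ} (hs : s ∈ A k D j) : R.g j s ∈ A k D j :=
  (R.cyc j).1.mapsTo hs

theorem ginv_mem {j : ℕ} {s : Finset ℕ} (hs : s ∈ A k D j) : (R.g j).symm s ∈ A k D j := by
  by_contra hcon
  have := R.fix j _ hcon
  rw [Equiv.apply_symm_apply] at this
  rw [← this] at hcon
  exact hcon hs

theorem ginv_fix {j : ℕ} {s : Finset ℕ} (hs : s ∉ A k D j) : (R.g j).symm s = s := by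
  rw [Equiv.symm_apply_eq]
  exact (R.fix j s hs).symm

/-- The sets that can be completed by `i` and `j`. -/
def Good (k D i j : ℕ) (s : Finset ℕ) : Prop :=
  i ∉ s ∧ j ∉ s ∧ s ⊆ Finset.range k ∧ s.card + 1 ≤ D

theorem good_of_mem {i j : ℕ} {s : Finset ℕ} (hij : i < j) (hs : s ∈ A k D j) :
    Good k D i j s := by
  obtain ⟨h1, h2, h3⟩ := mem_A.1 hs
  refine ⟨fun h => ?_, fun h => ?_, fun x hx => ?_, h3⟩
  · have := Finset.mem_Ioo.1 (h1 h)
    omega
  · have := Finset.mem_Ioo.1 (h1 h)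
    omega
  · have := Finset.mem_Ioo.1 (h1 hx)
    exact Finset.mem_range.2 this.2

theorem good_g {i j : ℕ} {s : Finset ℕ} (hij : i < j) (hs : Good k D i j s) :
    Good k D i j (R.g j s) := by
  by_cases h : s ∈ A k D j
  · exact good_of_mem hij (g_mem R h)
  · rw [R.fix j s h]; exact hs

theorem good_ginv {i j : ℕ} {s : Finset ℕ} (hij : i < j) (hs : Good k D i j s) :
    Good k D i j ((R.g j).symm s) := by
  by_cases h : s ∈ A k D j
  · exact good_of_mem hij (ginv_mem R h)
  · rw [ginv_fix R h]; exact hs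

/-- The switched disjoint union of complete graphs. -/
def Base (p q : ℕ × Finset ℕ) : Prop :=
  p.1 < q.1 ∧ q.1 ∈ p.2 ∧ p.1 ∈ q.2 ∧ q.2.erase p.1 = R.g q.1 (p.2.erase q.1)

theorem good_of_VS {p : ℕ × Finset ℕ} (hp : p ∈ VS k D) {j : ℕ} (hj : j ∈ p.2) :
    Good k D p.1 j (p.2.erase j) ∧ Good k D j p.1 (p.2.erase j) := by
  obtain ⟨h1, h2, h3, h4, h5⟩ := mem_VS.1 hp
  have h6 : (p.2.erase j).card + 1 ≤ D := by
    rw [Finset.card_erase_of_mem hj]; omega
  have h7 : p.2.erase j ⊆ Finset.range k := (Finset.erase_subset _ _).trans h2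
  exact ⟨⟨fun h => h3 (Finset.mem_of_mem_erase h), Finset.notMem_erase _ _, h7, h6⟩,
    ⟨Finset.notMem_erase _ _, fun h => h3 (Finset.mem_of_mem_erase h), h7, h6⟩⟩

theorem VS_of_good {i j : ℕ} {s : Finset ℕ} (hi : i < k) (hj : j < k) (hij : i ≠ j)
    (hs : Good k D i j s) : (i, insert j s) ∈ VS k D := by
  obtain ⟨h1, h2, h3, h4⟩ := hs
  rw [mem_VS]
  refine ⟨hi, ?_, ?_, ?_, ?_⟩
  · intro x hx
    rcases Finset.mem_insert.1 hx with h | h
    · rw [h]; exact Finset.mem_range.2 hj
    · exact h3 h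
  · intro h
    rcases Finset.mem_insert.1 h with h | h
    · exact hij h
    · exact h1 h
  · rw [Finset.card_insert_of_notMem h2]; omega
  · rw [Finset.card_insert_of_notMem h2]; omega

theorem base_fwd {p : ℕ × Finset ℕ} (hp : p ∈ VS k D) {j : ℕ} (hj : j ∈ p.2) (hlt : p.1 < j) :
    ∃ q ∈ VS k D, q.1 = j ∧ Base R p q := by
  have hv := mem_VS.1 hp
  have hgood := good_g R hlt (good_of_VS hp hj).1
  have hjk : j < k := Finset.mem_range.1 (hv.2.1 hj)
  have hgood' : Good k D j p.1 (R.g j (p.2.erase j)) :=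
    ⟨hgood.2.1, hgood.1, hgood.2.2⟩
  refine ⟨(j, insert p.1 (R.g j (p.2.erase j))), VS_of_good hjk hv.1 hlt.ne' hgood', rfl, hlt, hj,
    Finset.mem_insert_self _ _, ?_⟩
  exact Finset.erase_insert hgood.1

theorem base_bwd {q : ℕ × Finset ℕ} (hq : q ∈ VS k D) {i : ℕ} (hi : i ∈ q.2) (hlt : i < q.1) :
    ∃ p ∈ VS k D, p.1 = i ∧ Base R p q := by
  have hv := mem_VS.1 hq
  have hgood := good_ginv R hlt (good_of_VS hq hi).2
  have hik : i < k := Finset.mem_range.1 (hv.2.1 hi)
  refine ⟨(i, insert q.1 ((R.g q.1).symm (q.2.erase i))), VS_of_good hik hv.1 hlt.ne hgood, rfl,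
    hlt, Finset.mem_insert_self _ _, hi, ?_⟩
  simp only
  rw [Finset.erase_insert hgood.2.1, Equiv.apply_symm_apply]

theorem base_unique_fwd {p q q' : ℕ × Finset ℕ} (h : Base R p q) (h' : Base R p q')
    (he : q.1 = q'.1) : q = q' := by
  obtain ⟨_, _, h3, h4⟩ := h
  obtain ⟨_, _, h3', h4'⟩ := h'
  refine Prod.ext he ?_
  rw [← Finset.insert_erase h3, ← Finset.insert_erase h3', h4, h4', he]

theorem base_unique_bwd {p p' q : ℕ × Finset ℕ} (h : Base R p q) (h' : Base R p' q)
    (he : p.1 = p'.1) : p = p' := by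
  obtain ⟨_, h2, _, h4⟩ := h
  obtain ⟨_, h2', _, h4'⟩ := h'
  refine Prod.ext he ?_
  rw [← he] at h4'
  rw [h4] at h4'
  have := (R.g q.1).injective h4'
  rw [← Finset.insert_erase h2, ← Finset.insert_erase h2', this]

/-- The choices of the additional edges. -/
def L (k a b c : ℕ) : Prop := a < k ∧ b < k ∧
  ((a = 0 ∧ 2 ≤ b ∧ c = 1) ∨ (b = 0 ∧ a = 1 ∧ c = 2) ∨ (b = 0 ∧ 2 ≤ a ∧ a + 2 ≤ k ∧ c = k - 1) ∨
    (1 ≤ a ∧ a < b ∧ b + 2 ≤ k ∧ c = k - 1) ∨ (1 ≤ b ∧ b < a ∧ c = 0))

/-- The additional edges. -/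
def Ext (k : ℕ) (p q : ℕ × Finset ℕ) : Prop :=
  ∃ a b c, L k a b c ∧ p = (b, {a}) ∧ q = (a, {b, c})

theorem L_ne {k a b c : ℕ} (hk : 5 ≤ k) (h : L k a b c) : a ≠ b ∧ b ≠ c ∧ a ≠ c ∧ c < k := by
  unfold L at h
  omega

theorem L_fun {k a b c c' : ℕ} (hk : 5 ≤ k) (h : L k a b c) (h' : L k a b c') : c = c' := by
  unfold L at h h'
  omega

theorem L_swap {k a b c : ℕ} (hk : 5 ≤ k) (h : L k a b c) (h' : L k a c b) : False := by
  unfold L at h h'
  omega

/-- The graph. -/
def G : SimpleGraph (VS k D) where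
  Adj p q := p ≠ q ∧ (Base R p.1 q.1 ∨ Base R q.1 p.1 ∨ Ext k p.1 q.1 ∨ Ext k q.1 p.1)
  symm := ⟨fun _ _ h => ⟨h.1.symm, by tauto⟩⟩
  loopless := ⟨fun _ h => h.1 rfl⟩

theorem adj_mem {p q : VS k D} (h : (G R).Adj p q) : q.1.1 ∈ p.1.2 := by
  rcases h.2 with h | h | h | h
  · exact h.2.1
  · exact h.2.2.1
  · obtain ⟨a, b, c, hL, h1, h2⟩ := h
    rw [h1, h2]; simp
  · obtain ⟨a, b, c, hL, h1, h2⟩ := h
    rw [h1, h2]; simp

/-- The colouring. -/
def col (p : VS k D) : Fin k := ⟨p.1.1, (mem_VS.1 p.2).1⟩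

theorem exists_adj {p : VS k D} {j : ℕ} (hj : j ∈ p.1.2) :
    ∃ q : VS k D, (G R).Adj p q ∧ q.1.1 = j := by
  have hv := mem_VS.1 p.2
  rcases lt_trichotomy p.1.1 j with h | h | h
  · obtain ⟨q, hq, hqj, hb⟩ := base_fwd R p.2 hj h
    refine ⟨⟨q, hq⟩, ⟨?_, Or.inl hb⟩, hqj⟩
    intro he
    have := congrArg (fun x : VS k D => x.1.1) he
    simp only at this
    omega
  · exact absurd (h ▸ hj) hv.2.2.1
  · obtain ⟨q, hq, hqj, hb⟩ := base_bwd R p.2 hj h
    refine ⟨⟨q, hq⟩, ⟨?_, Or.inr (Or.inl hb)⟩, hqj⟩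
    intro he
    have := congrArg (fun x : VS k D => x.1.1) he
    simp only at this
    omega

theorem nl : IsNeighborLocating (G R) (col (k := k) (D := D)) := by
  have hcode : ∀ (p : VS k D) (i : Fin k), (∃ w, (G R).Adj p w ∧ col w = i) ↔ i.val ∈ p.1.2 := by
    intro p i
    constructor
    · rintro ⟨w, hw, rfl⟩
      exact adj_mem R hw
    · intro hi
      obtain ⟨q, hq, hqi⟩ := exists_adj R hi
      exact ⟨q, hq, Fin.ext hqi⟩
  constructor
  · intro p q h he
    have h1 := adj_mem R h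
    have h2 : p.1.1 = q.1.1 := congrArg Fin.val he
    rw [← h2] at h1
    exact (mem_VS.1 p.2).2.2.1 h1
  · intro p q hpq hc he
    apply hpq
    have h2 : p.1.1 = q.1.1 := congrArg Fin.val hc
    apply Subtype.ext
    refine Prod.ext h2 ?_
    ext x
    have hx := fun i : Fin k => Set.ext_iff.1 he i
    simp only [Set.mem_ofPred_eq, hcode] at hx
    constructor
    · intro h
      exact (hx ⟨x, Finset.mem_range.1 ((mem_VS.1 p.2).2.1 h)⟩).1 h
    · intro h
      exact (hx ⟨x, Finset.mem_range.1 ((mem_VS.1 q.2).2.1 h)⟩).2 h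

/-- A neighbour joined by an additional edge. -/
def ExtNb (k : ℕ) (p q : ℕ × Finset ℕ) : Prop := Ext k p q ∨ Ext k q p

theorem ext_card {p q : ℕ × Finset ℕ} (h : ExtNb k p q) : p.2.card ≤ 2 := by
  rcases h with ⟨a, b, c, hL, h1, h2⟩ | ⟨a, b, c, hL, h1, h2⟩
  · rw [h1]; simp
  · rw [h2]; exact Finset.card_le_two

theorem pair_eq {b c b' c' : ℕ} (h : ({b, c} : Finset ℕ) = {b', c'}) :
    (b = b' ∧ c = c') ∨ (b = c' ∧ c = b') := by
  have h1 : b ∈ ({b', c'} : Finset ℕ) := h ▸ (by simp)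
  have h2 : c ∈ ({b', c'} : Finset ℕ) := h ▸ (by simp)
  have h3 : b' ∈ ({b, c} : Finset ℕ) := h ▸ (by simp)
  have h4 : c' ∈ ({b, c} : Finset ℕ) := h ▸ (by simp)
  simp only [Finset.mem_insert, Finset.mem_singleton] at h1 h2 h3 h4
  omega

theorem ext_unique (hk : 5 ≤ k) {p q q' : ℕ × Finset ℕ} (h : ExtNb k p q) (h' : ExtNb k p q') :
    q = q' := by
  rcases h with ⟨a, b, c, hL, h1, h2⟩ | ⟨a, b, c, hL, h1, h2⟩ <;>
  rcases h' with ⟨a', b', c', hL', h1', h2'⟩ | ⟨a', b', c', hL', h1', h2'⟩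
  · rw [h1, Prod.mk.injEq, Finset.singleton_inj] at h1'
    obtain ⟨rfl, rfl⟩ := h1'
    rw [h2, h2', L_fun hk hL hL']
  · exfalso
    rw [h1, Prod.mk.injEq] at h2'
    have h3 := congrArg Finset.card h2'.2
    rw [Finset.card_singleton, Finset.card_pair (L_ne hk hL').2.1] at h3
    omega
  · exfalso
    rw [h2, Prod.mk.injEq] at h1'
    have h3 := congrArg Finset.card h1'.2
    rw [Finset.card_singleton, Finset.card_pair (L_ne hk hL).2.1] at h3
    omega
  · rw [h2, Prod.mk.injEq] at h2'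
    obtain ⟨rfl, h3⟩ := h2'
    rcases pair_eq h3 with ⟨rfl, rfl⟩ | ⟨rfl, rfl⟩
    · rw [h1, h1']
    · exact absurd hL' (fun h => L_swap hk hL h)

open Classical in
theorem degree_le (hk : 5 ≤ k) (hD : 3 ≤ D) (p : VS k D) : (G R).degree p ≤ D := by
  have hv := mem_VS.1 p.2
  rw [← SimpleGraph.card_neighborFinset_eq_degree]
  have hsub : (G R).neighborFinset p ⊆
      (Finset.univ.filter fun q : VS k D => Base R p.1 q.1 ∨ Base R q.1 p.1) ∪
      (Finset.univ.filter fun q : VS k D => ExtNb k p.1 q.1) := by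
    intro q hq
    rw [SimpleGraph.mem_neighborFinset] at hq
    rw [Finset.mem_union, Finset.mem_filter, Finset.mem_filter]
    have := hq.2
    unfold ExtNb
    have hu := Finset.mem_univ q
    tauto
  have h1 : (Finset.univ.filter fun q : VS k D => Base R p.1 q.1 ∨ Base R q.1 p.1).card ≤
      p.1.2.card := by
    apply Finset.card_le_card_of_injOn (fun q => q.1.1)
    · intro q hq
      rw [Finset.mem_coe, Finset.mem_filter] at hq
      rcases hq.2 with h | h
      · exact h.2.1
      · exact h.2.2.1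
    · intro q hq q' hq' he
      rw [Finset.mem_coe, Finset.mem_filter] at hq hq'
      simp only at he
      apply Subtype.ext
      rcases hq.2 with h | h <;> rcases hq'.2 with h' | h'
      · exact base_unique_fwd R h h' he
      · exfalso
        have h3 := h.1
        have h4 := h'.1
        omega
      · exfalso
        have h3 := h.1
        have h4 := h'.1
        omega
      · exact base_unique_bwd R h h' he
  have h2 : (Finset.univ.filter fun q : VS k D => ExtNb k p.1 q.1).card ≤ 1 := by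
    rw [Finset.card_le_one]
    intro q hq q' hq'
    rw [Finset.mem_filter] at hq hq'
    exact Subtype.ext (ext_unique hk hq.2 hq'.2)
  have h3 : 3 ≤ p.1.2.card →
      (Finset.univ.filter fun q : VS k D => ExtNb k p.1 q.1).card = 0 := by
    intro h
    rw [Finset.card_eq_zero, Finset.filter_eq_empty_iff]
    intro q _ hq
    have := ext_card hq
    omega
  have h4 := (Finset.card_le_card hsub).trans (Finset.card_union_le _ _)
  by_cases h5 : 3 ≤ p.1.2.card
  · have := h3 h5
    omega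
  · omega

open Classical in
theorem le_degree (p : VS k D) : p.1.2.card ≤ (G R).degree p := by
  rw [← SimpleGraph.card_neighborFinset_eq_degree]
  refine le_trans (Finset.card_le_card ?_) (Finset.card_image_le
    (s := (G R).neighborFinset p) (f := fun q => q.1.1))
  intro j hj
  obtain ⟨q, hq, hqj⟩ := exists_adj R hj
  rw [Finset.mem_image]
  exact ⟨q, (SimpleGraph.mem_neighborFinset _ _ _).2 hq, hqj⟩

open Classical in
theorem maxDegree_eq (hk : 5 ≤ k) (hD : 3 ≤ D) (hDk : D + 2 ≤ k) : (G R).maxDegree = D := by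
  have h1 : (0, Finset.Icc 1 D) ∈ VS k D := by
    rw [mem_VS]
    refine ⟨by simp only; omega, ?_, by simp, ?_, ?_⟩
    · intro x hx
      rw [Finset.mem_Icc] at hx
      rw [Finset.mem_range]; omega
    · simp only [Nat.card_Icc]; omega
    · simp only [Nat.card_Icc]; omega
  apply le_antisymm
  · exact SimpleGraph.maxDegree_le_of_forall_degree_le _ _ (degree_le R hk hD)
  · have h2 := le_degree R ⟨_, h1⟩
    simp only [Nat.card_Icc, Nat.add_sub_cancel] at h2
    exact h2.trans (SimpleGraph.degree_le_maxDegree _ _)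

/-! ### The lower bound for the number of colours -/

theorem le_of_nl {V : Type} [Fintype V] (H : SimpleGraph V) [DecidableRel H.Adj] {m : ℕ}
    (c : V → Fin m) (hc : IsNeighborLocating H c) (hdeg : ∀ v, 1 ≤ H.degree v)
    (hmax : ∀ v, H.degree v ≤ D) : Fintype.card V ≤ (VS m D).card := by
  classical
  rw [← Finset.card_univ]
  apply Finset.card_le_card_of_injOn
    (fun v => ((c v).val, (H.neighborFinset v).image fun w => (c w).val))
  · intro v _
    rw [Finset.mem_coe, mem_VS]
    refine ⟨(c v).2, ?_, ?_, ?_, ?_⟩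
    · intro x hx
      obtain ⟨w, _, rfl⟩ := Finset.mem_image.1 hx
      exact Finset.mem_range.2 (c w).2
    · intro h
      obtain ⟨w, hw, hw2⟩ := Finset.mem_image.1 h
      rw [SimpleGraph.mem_neighborFinset] at hw
      exact hc.1 v w hw (Fin.ext hw2.symm)
    · rw [Nat.one_le_iff_ne_zero, ← Nat.pos_iff_ne_zero, Finset.card_pos, Finset.image_nonempty,
        ← Finset.card_pos, SimpleGraph.card_neighborFinset_eq_degree]
      exact hdeg v
    · refine Finset.card_image_le.trans ?_
      rw [SimpleGraph.card_neighborFinset_eq_degree]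
      exact hmax v
  · intro v _ w _ he
    by_contra hvw
    obtain ⟨h1, h2⟩ := Prod.mk.inj he
    apply hc.2 v w hvw (Fin.ext h1)
    ext i
    have h3 := Finset.ext_iff.1 h2 i.val
    simp only [Finset.mem_image, SimpleGraph.mem_neighborFinset] at h3
    simp only [Set.mem_ofPred_eq]
    constructor
    · rintro ⟨x, hx, rfl⟩
      obtain ⟨y, hy, hy2⟩ := h3.1 ⟨x, hx, rfl⟩
      exact ⟨y, hy, Fin.ext hy2⟩
    · rintro ⟨x, hx, rfl⟩
      obtain ⟨y, hy, hy2⟩ := h3.2 ⟨x, hx, rfl⟩
      exact ⟨y, hy, Fin.ext hy2⟩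

theorem card_VS_lt {m : ℕ} (hk : 5 ≤ k) (hD : 3 ≤ D) (hm : m < k) :
    (VS m D).card < (VS k D).card := by
  apply Finset.card_lt_card
  rw [Finset.ssubset_iff_of_subset]
  · refine ⟨(k - 1, {0}), ?_, ?_⟩
    · rw [mem_VS]
      refine ⟨by simp only; omega, ?_, ?_, by simp, by simp; omega⟩
      · intro x hx
        rw [Finset.mem_singleton] at hx
        rw [Finset.mem_range]; omega
      · simp only [Finset.mem_singleton]; omega
    · rw [mem_VS]
      rintro ⟨h, _⟩
      simp only at h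
      omega
  · intro p hp
    rw [mem_VS] at hp ⊢
    refine ⟨by omega, hp.2.1.trans (Finset.range_subset_range.2 hm.le), hp.2.2⟩

open Classical in
theorem chiNL_eq (hk : 5 ≤ k) (hD : 3 ≤ D) : chiNL (G R) = k := by
  apply le_antisymm
  · exact Nat.sInf_le ⟨col, nl R⟩
  · have hne : {k' | ∃ c : VS k D → Fin k', IsNeighborLocating (G R) c}.Nonempty :=
      ⟨k, col, nl R⟩
    apply le_csInf hne
    rintro m ⟨c, hc⟩
    by_contra hcon
    push Not at hcon
    have h1 := le_of_nl (G R) c hc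
      (fun v => (mem_VS.1 v.2).2.2.2.1.trans (le_degree R v)) (degree_le R hk hD)
    rw [Fintype.card_coe] at h1
    have h2 := card_VS_lt hk hD hcon
    omega

/-! ### Connectedness -/

/-- Reachability of raw vertices. -/
def Rch (p q : ℕ × Finset ℕ) : Prop :=
  ∃ (hp : p ∈ VS k D) (hq : q ∈ VS k D), (G R).Reachable ⟨p, hp⟩ ⟨q, hq⟩

theorem Rch.symm {R : Rings k D} {p q : ℕ × Finset ℕ} (h : Rch R p q) : Rch R q p := by
  obtain ⟨hp, hq, h⟩ := h
  exact ⟨hq, hp, h.symm⟩

theorem Rch.trans {R : Rings k D} {p q r : ℕ × Finset ℕ} (h : Rch R p q) (h' : Rch R q r) :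
    Rch R p r := by
  obtain ⟨hp, hq, h⟩ := h
  obtain ⟨hq', hr, h'⟩ := h'
  exact ⟨hp, hr, h.trans h'⟩

theorem Rch.rfl' {R : Rings k D} {p : ℕ × Finset ℕ} (hp : p ∈ VS k D) : Rch R p p :=
  ⟨hp, hp, SimpleGraph.Reachable.refl _⟩

theorem rch_of {p q : ℕ × Finset ℕ} (hp : p ∈ VS k D) (hq : q ∈ VS k D)
    (h : Base R p q ∨ Base R q p ∨ Ext k p q ∨ Ext k q p) : Rch R p q := by
  by_cases he : p = q
  · subst he; exact Rch.rfl' hp
  · refine ⟨hp, hq, SimpleGraph.Adj.reachable ⟨?_, h⟩⟩
    intro h'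
    exact he (congrArg Subtype.val h')

theorem erase_mem_VS {U : Finset ℕ} (hU : U ⊆ Finset.range k) (h2 : 2 ≤ U.card)
    (h3 : U.card ≤ D + 1) {i : ℕ} (hi : i ∈ U) : (i, U.erase i) ∈ VS k D := by
  rw [mem_VS]
  refine ⟨Finset.mem_range.1 (hU hi), (Finset.erase_subset _ _).trans hU,
    Finset.notMem_erase _ _, ?_, ?_⟩ <;> simp only [Finset.card_erase_of_mem hi] <;> omega

/-- The complete graph on `U` loses only the edge of the two smallest elements. -/
theorem base_of {U : Finset ℕ} {i j l : ℕ} (hi : i ∈ U) (hj : j ∈ U) (hl : l ∈ U) (hij : i < j)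
    (hlj : l < j) (hli : l ≠ i) : Base R (i, U.erase i) (j, U.erase j) := by
  refine ⟨hij, Finset.mem_erase.2 ⟨hij.ne', hj⟩, Finset.mem_erase.2 ⟨hij.ne, hi⟩, ?_⟩
  simp only
  rw [R.fix, Finset.erase_right_comm]
  intro h
  have h1 := (mem_A.1 h).1 (Finset.mem_erase.2 ⟨hlj.ne, Finset.mem_erase.2 ⟨hli, hl⟩⟩)
  have := Finset.mem_Ioo.1 h1
  omega

theorem comp_lt {U : Finset ℕ} (hU : U ⊆ Finset.range k) (h3 : 3 ≤ U.card) (h4 : U.card ≤ D + 1)
    {i j : ℕ} (hi : i ∈ U) (hj : j ∈ U) (hij : i < j) :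
    Rch R (i, U.erase i) (j, U.erase j) := by
  have hV : ∀ {x : ℕ}, x ∈ U → (x, U.erase x) ∈ VS k D := fun hx =>
    erase_mem_VS hU (by omega) h4 hx
  by_cases h : ∃ l ∈ U, l < j ∧ l ≠ i
  · obtain ⟨l, hl, hlj, hli⟩ := h
    exact rch_of R (hV hi) (hV hj) (Or.inl (base_of R hi hj hl hij hlj hli))
  · push Not at h
    obtain ⟨l, hl⟩ : ((U.erase i).erase j).Nonempty := by
      rw [← Finset.card_pos, Finset.card_erase_of_mem (Finset.mem_erase.2 ⟨hij.ne', hj⟩),
        Finset.card_erase_of_mem hi]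
      omega
    have hlj := (Finset.mem_erase.1 hl).1
    have hli := (Finset.mem_erase.1 (Finset.mem_erase.1 hl).2).1
    have hlU := (Finset.mem_erase.1 (Finset.mem_erase.1 hl).2).2
    have hjl : j < l := by
      by_contra hcon
      exact hli (h l hlU (by omega))
    have h1 : Rch R (i, U.erase i) (l, U.erase l) :=
      rch_of R (hV hi) (hV hlU) (Or.inl (base_of R hi hlU hj (by omega) hjl (by omega)))
    have h2 : Rch R (j, U.erase j) (l, U.erase l) :=
      rch_of R (hV hj) (hV hlU) (Or.inl (base_of R hj hlU hi hjl (by omega) (by omega)))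
    exact h1.trans h2.symm

theorem comp {U : Finset ℕ} (hU : U ⊆ Finset.range k) (h3 : 3 ≤ U.card) (h4 : U.card ≤ D + 1)
    {i j : ℕ} (hi : i ∈ U) (hj : j ∈ U) : Rch R (i, U.erase i) (j, U.erase j) := by
  rcases lt_trichotomy i j with h | h | h
  · exact comp_lt R hU h3 h4 hi hj h
  · subst h; exact Rch.rfl' (erase_mem_VS hU (by omega) h4 hi)
  · exact (comp_lt R hU h3 h4 hj hi h).symm

/-- The vertices of the complete graph with the smallest elements `i < j`. -/
theorem comp' {i j : ℕ} {s : Finset ℕ} (hij : i < j) (hjk : j < k) (hs : s ∈ A k D j) :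
    Rch R (i, insert j s) (j, insert i s) := by
  obtain ⟨hs1, hs2, hs3⟩ := mem_A.1 hs
  obtain ⟨hi, hj, hk', hD'⟩ := good_of_mem hij hs
  have hi' : i ∉ insert j s := by
    rw [Finset.mem_insert]; rintro (h | h)
    · omega
    · exact hi h
  have hj' : j ∉ insert i s := by
    rw [Finset.mem_insert]; rintro (h | h)
    · omega
    · exact hj h
  have hcard : (insert i (insert j s)).card = s.card + 2 := by
    rw [Finset.card_insert_of_notMem hi', Finset.card_insert_of_notMem hj]
  have hU : insert i (insert j s) ⊆ Finset.range k := by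
    intro x hx
    rw [Finset.mem_insert, Finset.mem_insert] at hx
    rw [Finset.mem_range]
    rcases hx with h | h | h
    · omega
    · omega
    · exact Finset.mem_range.1 (hk' h)
  have h := comp R hU (by omega) (by omega) (i := i) (j := j) (by simp) (by simp)
  rw [Finset.erase_insert hi'] at h
  rw [Finset.insert_comm, Finset.erase_insert hj'] at h
  exact h

theorem ring_step {i j : ℕ} {s : Finset ℕ} (hij : i < j) (hjk : j < k) (hs : s ∈ A k D j) :
    Rch R (i, insert j s) (i, insert j (R.g j s)) := by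
  obtain ⟨hi, hj, hk', hD'⟩ := good_of_mem hij hs
  have hg := g_mem R hs
  obtain ⟨hgi, hgj, hgk', hgD'⟩ := good_of_mem hij hg
  have h1 : Rch R (i, insert j s) (j, insert i (R.g j s)) := by
    apply rch_of
    · exact VS_of_good (by omega) hjk hij.ne ⟨hi, hj, hk', hD'⟩
    · exact VS_of_good hjk (by omega) hij.ne' ⟨hgj, hgi, hgk', hgD'⟩
    · left
      refine ⟨hij, Finset.mem_insert_self _ _, Finset.mem_insert_self _ _, ?_⟩
      simp only
      rw [Finset.erase_insert hgi, Finset.erase_insert hj]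
  exact h1.trans (comp' R hij hjk hg).symm

theorem ring {i j : ℕ} {s t : Finset ℕ} (hij : i < j) (hjk : j < k) (hs : s ∈ A k D j)
    (ht : t ∈ A k D j) : Rch R (i, insert j s) (i, insert j t) := by
  obtain ⟨n, _, hn⟩ := (R.cyc j).exists_pow_eq (Finset.mem_coe.2 hs) (Finset.mem_coe.2 ht)
  have : ∀ n : ℕ, (R.g j ^ n) s ∈ A k D j ∧
      Rch R (i, insert j s) (i, insert j ((R.g j ^ n) s)) := by
    intro n
    induction n with
    | zero =>
      obtain ⟨hi, hj, hk', hD'⟩ := good_of_mem hij hs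
      exact ⟨by simpa using hs,
        by simpa using Rch.rfl' (VS_of_good (by omega) hjk hij.ne ⟨hi, hj, hk', hD'⟩)⟩
    | succ n ih =>
      rw [pow_succ', Equiv.Perm.mul_apply]
      exact ⟨g_mem R ih.1, ih.2.trans (ring_step R hij hjk ih.1)⟩
  rw [← hn]
  exact (this n).2

theorem single_mem_A (hD : 3 ≤ D) {j c : ℕ} (h1 : j < c) (h2 : c < k) : {c} ∈ A k D j := by
  rw [mem_A]
  refine ⟨?_, by simp, by rw [Finset.card_singleton]; omega⟩
  intro x hx
  rw [Finset.mem_singleton] at hx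
  rw [Finset.mem_Ioo]; omega

theorem link (hk : 5 ≤ k) (hD : 3 ≤ D) {a b c : ℕ} (h : L k a b c) :
    Rch R (b, {a}) (a, {b, c}) := by
  obtain ⟨h1, h2, h3, h4⟩ := L_ne hk h
  have ha : a < k := h.1
  have hb : b < k := h.2.1
  apply rch_of
  · have := VS_of_good (k := k) (D := D) (i := b) (j := a) (s := ∅) hb ha (Ne.symm h1)
      ⟨by simp, by simp, by simp, by rw [Finset.card_empty]; omega⟩
    simpa using this
  · apply VS_of_good ha hb h1
    refine ⟨by simpa using h3, by simpa using h2, ?_, by rw [Finset.card_singleton]; omega⟩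
    intro x hx
    rw [Finset.mem_singleton] at hx
    rw [Finset.mem_range]; omega
  · right; right; left
    exact ⟨a, b, c, h, rfl, rfl⟩

theorem edge (hD : 3 ≤ D) {i j : ℕ} (hij : i < j) (hjk : j < k) : Rch R (i, {j}) (j, {i}) := by
  apply rch_of
  · have := VS_of_good (k := k) (D := D) (i := i) (j := j) (s := ∅) (by omega) hjk hij.ne
      ⟨by simp, by simp, by simp, by rw [Finset.card_empty]; omega⟩
    simpa using this
  · have := VS_of_good (k := k) (D := D) (i := j) (j := i) (s := ∅) hjk (by omega) hij.ne'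
      ⟨by simp, by simp, by simp, by rw [Finset.card_empty]; omega⟩
    simpa using this
  · left
    refine ⟨hij, by simp, by simp, ?_⟩
    simp only [Finset.erase_singleton]
    rw [R.fix]
    intro h
    have := (mem_A.1 h).2.1
    simp at this

theorem reach_all (hk : 5 ≤ k) (hD : 3 ≤ D) :
    ∀ p ∈ VS k D, Rch R (0, {1, 2}) p := by
  have hA12 : ({2} : Finset ℕ) ∈ A k D 1 := single_mem_A hD (by norm_num) (by omega)
  -- the ring of 0, 1
  have T01 : ∀ s ∈ A k D 1, Rch R (0, {1, 2}) (0, insert 1 s) := fun s hs =>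
    ring R (by norm_num) (by omega) hA12 hs
  have K01 : Rch R (0, {1, 2}) (0, {1}) := by
    have h1 := link R hk hD (a := 1) (b := 0) (c := 2) (by unfold L; omega)
    have h2 := comp' R (i := 0) (j := 1) (by norm_num) (by omega) hA12
    exact h2.trans h1.symm
  have K0j : ∀ j, 2 ≤ j → j < k → Rch R (0, {1, 2}) (0, {j}) := by
    intro j h2 hjk
    have h1 := link R hk hD (a := 0) (b := j) (c := 1) (by unfold L; omega)
    have h3 := T01 {j} (single_mem_A hD (by omega) hjk)
    rw [Finset.pair_comm] at h1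
    exact (h3.trans h1.symm).trans (edge R hD (by omega) hjk).symm
  have T0i : ∀ i, 1 ≤ i → i + 2 ≤ k → ∀ s ∈ A k D i, Rch R (0, {1, 2}) (0, insert i s) := by
    intro i h1 h2 s hs
    rcases Nat.eq_or_lt_of_le h1 with rfl | h1'
    · exact T01 s hs
    · have hA : ({k - 1} : Finset ℕ) ∈ A k D i := single_mem_A hD (by omega) (by omega)
      have h3 := link R hk hD (a := i) (b := 0) (c := k - 1) (by unfold L; omega)
      have h4 := comp' R (i := 0) (j := i) (by omega) (by omega) hA
      exact (((K0j i h1' (by omega)).trans h3).trans h4.symm).trans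
        (ring R (by omega) (by omega) hA hs)
  have K : ∀ i j, i < j → j < k → Rch R (0, {1, 2}) (i, {j}) := by
    intro i j hij hjk
    rcases Nat.eq_zero_or_pos i with rfl | hi
    · rcases Nat.eq_or_lt_of_le (Nat.succ_le_of_lt hij) with h | h
      · simp only [Nat.succ_eq_add_one, zero_add] at h
        rw [← h]; exact K01
      · exact K0j j h hjk
    · have hA : ({j} : Finset ℕ) ∈ A k D i := single_mem_A hD (by omega) hjk
      have h1 := T0i i hi (by omega) _ hA
      have h2 := link R hk hD (a := j) (b := i) (c := 0) (by unfold L; omega)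
      have hU : ({0, i, j} : Finset ℕ) ⊆ Finset.range k := by
        intro x hx
        simp only [Finset.mem_insert, Finset.mem_singleton] at hx
        rw [Finset.mem_range]; omega
      have hc : ({0, i, j} : Finset ℕ).card = 3 := by
        rw [Finset.card_insert_of_notMem, Finset.card_pair hij.ne]
        simp only [Finset.mem_insert, Finset.mem_singleton]; omega
      have h3 := comp R hU (by omega) (by omega) (i := 0) (j := j) (by simp) (by simp)
      have e1 : ({0, i, j} : Finset ℕ).erase 0 = insert i {j} := by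
        ext x
        simp only [Finset.mem_erase, Finset.mem_insert, Finset.mem_singleton]; omega
      have e2 : ({0, i, j} : Finset ℕ).erase j = {i, 0} := by
        ext x
        simp only [Finset.mem_erase, Finset.mem_insert, Finset.mem_singleton]; omega
      rw [e1, e2] at h3
      exact (h1.trans h3).trans h2.symm
  have T : ∀ i j, i < j → j + 2 ≤ k → ∀ s ∈ A k D j, Rch R (0, {1, 2}) (i, insert j s) := by
    intro i j hij hjk s hs
    rcases Nat.eq_zero_or_pos i with rfl | hi
    · exact T0i j (by omega) hjk s hs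
    · have hA : ({k - 1} : Finset ℕ) ∈ A k D j := single_mem_A hD (by omega) (by omega)
      have h1 := link R hk hD (a := i) (b := j) (c := k - 1) (by unfold L; omega)
      exact (((K i j hij (by omega)).trans (edge R hD hij (by omega))).trans h1).trans
        (ring R hij (by omega) hA hs)
  rintro ⟨x, S⟩ hp
  obtain ⟨h1, h2, h3, h4, h5⟩ := mem_VS.1 hp
  simp only at h1 h2 h3 h4 h5
  have hcard : (insert x S).card = S.card + 1 := Finset.card_insert_of_notMem h3
  have hU : insert x S ⊆ Finset.range k := by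
    intro y hy
    rcases Finset.mem_insert.1 hy with h | h
    · rw [h]; exact Finset.mem_range.2 h1
    · exact h2 h
  obtain ⟨U, hUdef⟩ : ∃ U, U = insert x S := ⟨_, rfl⟩
  rw [← hUdef] at hcard hU
  have hxU : x ∈ U := by rw [hUdef]; exact Finset.mem_insert_self _ _
  have hSU : S = U.erase x := by rw [hUdef, Finset.erase_insert h3]
  have hne : U.Nonempty := ⟨x, hxU⟩
  obtain ⟨i, hi, himin⟩ : ∃ i ∈ U, ∀ y ∈ U, i ≤ y :=
    ⟨U.min' hne, U.min'_mem hne, fun y hy => U.min'_le y hy⟩
  have hne2 : (U.erase i).Nonempty := by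
    rw [← Finset.card_pos, Finset.card_erase_of_mem hi]; omega
  obtain ⟨j, hj, hjmin⟩ : ∃ j ∈ U.erase i, ∀ y ∈ U.erase i, j ≤ y :=
    ⟨_, (U.erase i).min'_mem hne2, fun y hy => (U.erase i).min'_le y hy⟩
  have hjU := Finset.mem_of_mem_erase hj
  have hij : i < j := lt_of_le_of_ne (himin j hjU) (Finset.ne_of_mem_erase hj).symm
  have hjk : j < k := Finset.mem_range.1 (hU hjU)
  have hs : ∀ y ∈ (U.erase i).erase j, j < y ∧ y < k := by
    intro y hy
    have hy1 := Finset.mem_of_mem_erase hy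
    exact ⟨lt_of_le_of_ne (hjmin y hy1) (Finset.ne_of_mem_erase hy).symm,
      Finset.mem_range.1 (hU (Finset.mem_of_mem_erase hy1))⟩
  have hins : insert j ((U.erase i).erase j) = U.erase i := Finset.insert_erase hj
  have hins2 : insert i (U.erase i) = U := Finset.insert_erase hi
  have hc2 : ((U.erase i).erase j).card + 2 = U.card := by
    rw [Finset.card_erase_of_mem hj, Finset.card_erase_of_mem hi]
    have := Finset.card_pos.2 hne2
    rw [Finset.card_erase_of_mem hi] at this
    omega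
  rcases Finset.eq_empty_or_nonempty ((U.erase i).erase j) with h0 | hn
  · rw [h0] at hins
    rw [← hins] at hins2
    have hU2 : U = {i, j} := hins2.symm
    rw [hSU]
    rw [hU2] at hxU ⊢
    rw [Finset.mem_insert, Finset.mem_singleton] at hxU
    rcases hxU with rfl | rfl
    · have : ({x, j} : Finset ℕ).erase x = {j} := by
        ext y
        simp only [Finset.mem_erase, Finset.mem_insert, Finset.mem_singleton]; omega
      rw [this]
      exact K x j hij hjk
    · have : ({i, x} : Finset ℕ).erase x = {i} := by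
        ext y
        simp only [Finset.mem_erase, Finset.mem_insert, Finset.mem_singleton]; omega
      rw [this]
      exact (K i x hij hjk).trans (edge R hD hij hjk)
  · obtain ⟨y, hy⟩ := hn
    have hy2 := hs y hy
    have hsA : (U.erase i).erase j ∈ A k D j := by
      rw [mem_A]
      refine ⟨fun z hz => Finset.mem_Ioo.2 (hs z hz), Finset.card_pos.2 ⟨y, hy⟩, by omega⟩
    have h6 := T i j hij (by omega) _ hsA
    rw [hins] at h6
    have h7 : 0 < ((U.erase i).erase j).card := Finset.card_pos.2 ⟨y, hy⟩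
    have h8 := comp R hU (by omega) (by omega) hi hxU
    rw [hSU]
    exact h6.trans h8

theorem connected (hk : 5 ≤ k) (hD : 3 ≤ D) : (G R).Connected := by
  have h := reach_all R hk hD
  obtain ⟨h0, _, _⟩ := h (0, {1, 2}) (by
    rw [mem_VS]
    refine ⟨by simp only; omega, ?_, by simp, by simp, ?_⟩
    · intro x hx
      simp only [Finset.mem_insert, Finset.mem_singleton] at hx
      rw [Finset.mem_range]; omega
    · simp only; rw [Finset.card_pair (by norm_num)]; omega)
  have : Nonempty (VS k D) := ⟨⟨_, h0⟩⟩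
  refine SimpleGraph.Connected.mk ?_
  intro p q
  obtain ⟨_, _, h1⟩ := h p.1 p.2
  obtain ⟨_, _, h2⟩ := h q.1 q.2
  exact h1.symm.trans h2

open Classical in
/-- The bound is attained whenever `3 ≤ D ≤ k - 2`. -/
theorem main (k D : ℕ) (hk : 5 ≤ k) (hD : 3 ≤ D) (hDk : D ≤ k - 2) :
    ∃ (V : Type) (_ : Fintype V) (H : SimpleGraph V) (_ : DecidableRel H.Adj), H.Connected ∧
      chiNL H = k ∧ H.maxDegree = D ∧
      Fintype.card V = ∑ j ∈ Finset.Icc 1 D, k * (k - 1).choose j := by
  obtain ⟨R⟩ := exists_rings k D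
  refine ⟨VS k D, inferInstance, G R, inferInstance, connected R hk hD, chiNL_eq R hk hD, ?_, ?_⟩
  · exact maxDegree_eq R hk hD (by omega)
  · rw [Fintype.card_coe, card_VS]

end Q129.NLExtremal
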