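import Pool.Agent.Q129.NeighborLocating

set_option autoImplicit false

/-!
The maximum degree of a tree with a neighbor-locating `k`-colouring is at most `(k - 1) ^ 2`.
-/

namespace Q129.NLTree

open SimpleGraph Q129.NeighborLocating

variable {V : Type} [Fintype V] {k : ℕ}

open Classical in
/-- The set of colours in the neighbourhood, as a finset. -/
noncomputable def S (T : SimpleGraph V) (c : V → Fin k) (u : V) : Finset (Fin k) :=
  Finset.univ.filter fun i => ∃ w, T.Adj u w ∧ c w = i

open Classical in
theorem mem_S {T : SimpleGraph V} {c : V → Fin k} {u : V} {i : Fin k} :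
    i ∈ S T c u ↔ ∃ w, T.Adj u w ∧ c w = i := by
  simp [S]

theorem eq_of_slot {T : SimpleGraph V} {c : V → Fin k} (h : IsNeighborLocating T c) {u v : V}
    (hc : c u = c v) (hS : S T c u = S T c v) : u = v := by
  by_contra huv
  apply h.2 u v huv hc
  ext i
  rw [Set.mem_ofPred_eq, Set.mem_ofPred_eq, ← mem_S, ← mem_S, hS]

/-- The pairs `(i, j)` with `i ≠ κ`, `j ≠ i`. -/
def P (κ : Fin k) : Finset (Σ _ : Fin k, Fin k) :=
  (Finset.univ.erase κ).sigma fun i => Finset.univ.erase i

theorem card_P (κ : Fin k) : (P κ).card = (k - 1) * (k - 1) := by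
  rw [P, Finset.card_sigma]
  simp [Finset.card_erase_of_mem]

open Classical in
/-- A set of vertices with singleton slots. -/
theorem card_one {T : SimpleGraph V} {c : V → Fin k} (h : IsNeighborLocating T c) (κ : Fin k)
    (W : Finset V) (hW : ∀ u ∈ W, c u ≠ κ ∧ ∃ j, S T c u = {j}) :
    W.card ≤ (k - 1) * (k - 1) := by
  rw [← card_P κ]
  refine le_trans ?_ (Finset.card_image_le (s := P κ)
    (f := fun p : (Σ _ : Fin k, Fin k) => (p.1, ({p.2} : Finset (Fin k)))))
  apply Finset.card_le_card_of_injOn (fun u => (c u, S T c u))
  · intro u hu
    obtain ⟨h1, j, hj⟩ := hW u hu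
    rw [Finset.coe_image, Set.mem_image]
    refine ⟨⟨c u, j⟩, ?_, by simp [hj]⟩
    have hj' : j ∈ S T c u := by rw [hj]; simp
    obtain ⟨w, hw, hwj⟩ := mem_S.1 hj'
    simp only [P, Finset.coe_sigma, Set.mem_sigma_iff, Finset.mem_coe, Finset.mem_erase,
      Finset.mem_univ, and_true]
    exact ⟨h1, fun he => h.1 u w hw (by rw [hwj, he])⟩
  · intro u _ w _ he
    simp only [Prod.mk.injEq] at he
    exact eq_of_slot h he.1 he.2

open Classical in
/-- A set of vertices with slots containing `κ` of size at most two. -/
theorem card_two {T : SimpleGraph V} {c : V → Fin k} (h : IsNeighborLocating T c) (κ : Fin k)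
    (W : Finset V) (hW : ∀ u ∈ W, κ ∈ S T c u ∧ (S T c u).card ≤ 2) :
    W.card ≤ (k - 1) * (k - 1) := by
  rw [← card_P κ]
  refine le_trans ?_ (Finset.card_image_le (s := P κ)
    (f := fun p : (Σ _ : Fin k, Fin k) => (p.1, ({κ, p.2} : Finset (Fin k)))))
  apply Finset.card_le_card_of_injOn (fun u => (c u, S T c u))
  · intro u hu
    obtain ⟨h1, h2⟩ := hW u hu
    have hκ : c u ≠ κ := by
      obtain ⟨w, hw, hwj⟩ := mem_S.1 h1
      exact fun he => h.1 u w hw (by rw [hwj, he])
    have hex : ∃ j, S T c u = {κ, j} := by
      have h3 : ((S T c u).erase κ).card ≤ 1 := by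
        rw [Finset.card_erase_of_mem h1]; omega
      rcases Nat.le_one_iff_eq_zero_or_eq_one.1 h3 with h4 | h4
      · refine ⟨κ, ?_⟩
        rw [Finset.card_eq_zero] at h4
        rw [← Finset.insert_erase h1, h4]
        simp
      · obtain ⟨j, hj⟩ := Finset.card_eq_one.1 h4
        refine ⟨j, ?_⟩
        rw [← Finset.insert_erase h1, hj]
    obtain ⟨j, hj⟩ := hex
    rw [Finset.coe_image, Set.mem_image]
    refine ⟨⟨c u, j⟩, ?_, by simp [hj]⟩
    have hj' : j ∈ S T c u := by rw [hj]; simp
    obtain ⟨w, hw, hwj⟩ := mem_S.1 hj'
    simp only [P, Finset.coe_sigma, Set.mem_sigma_iff, Finset.mem_coe, Finset.mem_erase,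
      Finset.mem_univ, and_true]
    exact ⟨hκ, fun he => h.1 u w hw (by rw [hwj, he])⟩
  · intro u _ w _ he
    simp only [Prod.mk.injEq] at he
    exact eq_of_slot h he.1 he.2

open Classical in
theorem card_S_le {T : SimpleGraph V} (c : V → Fin k) (u : V) : (S T c u).card ≤ T.degree u := by
  rw [← T.card_neighborFinset_eq_degree u]
  refine le_trans (Finset.card_le_card ?_) (Finset.card_image_le (f := c))
  intro i hi
  obtain ⟨w, hw, rfl⟩ := mem_S.1 hi
  exact Finset.mem_image_of_mem _ ((T.mem_neighborFinset u w).2 hw)

open Classical in
/-- The main estimate. -/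
theorem degree_le {T : SimpleGraph V} (hT : T.IsTree) {c : V → Fin k}
    (h : IsNeighborLocating T c) (v : V) (hv : 2 ≤ T.degree v) :
    T.degree v ≤ (k - 1) * (k - 1) := by
  set κ := c v with hκ
  -- a colour different from κ exists, so leaves and supports are different
  have hconn := hT.1
  -- the sets
  set N := T.neighborFinset v with hN
  set A := N.filter fun u => (S T c u).card ≤ 2 with hA
  set B := N.filter fun u => ¬ (S T c u).card ≤ 2 with hB
  set Lk := Finset.univ.filter fun u => T.degree u = 1 ∧ c u = κ with hLk
  set Ln := Finset.univ.filter fun u => T.degree u = 1 ∧ c u ≠ κ with hLn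
  set X := Finset.univ.filter fun x => ∃ l, T.Adj x l ∧ T.degree l = 1 ∧ c l = κ with hX
  set XA := X.filter fun x => T.degree x = 2 ∧ S T c x = {κ} with hXA
  set XB := X.filter fun x => T.degree x = 2 ∧ S T c x ≠ {κ} with hXB
  set XC := X.filter fun x => 3 ≤ T.degree x with hXC
  have leaf_unique : ∀ l, T.degree l = 1 → ∀ x y, T.Adj l x → T.Adj l y → x = y := by
    intro l hl x y hx hy
    rw [← T.card_neighborFinset_eq_degree l, Finset.card_eq_one] at hl
    obtain ⟨z, hz⟩ := hl
    have h1 : x ∈ T.neighborFinset l := (T.mem_neighborFinset l x).2 hx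
    have h2 : y ∈ T.neighborFinset l := (T.mem_neighborFinset l y).2 hy
    rw [hz, Finset.mem_singleton] at h1 h2
    rw [h1, h2]
  have degpos : ∀ u, 1 ≤ T.degree u := by
    intro u
    have hnt : Nontrivial V := by
      rw [← T.card_neighborFinset_eq_degree v] at hv
      obtain ⟨w, hw⟩ := Finset.card_pos.1 (by omega : 0 < (T.neighborFinset v).card)
      exact ⟨v, w, (T.ne_of_adj ((T.mem_neighborFinset v w).1 hw))⟩
    exact hconn.preconnected.degree_pos_of_nontrivial u
  -- supports have degree at least two
  have hXdeg : ∀ x ∈ X, 2 ≤ T.degree x := by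
    intro x hx
    simp only [hX, Finset.mem_filter, Finset.mem_univ, true_and] at hx
    obtain ⟨l, hxl, hl, _⟩ := hx
    by_contra hcon
    have hx1 : T.degree x = 1 := by have := degpos x; omega
    have hclosed : ∀ a b : V, ∀ p : T.Walk a b, (a = x ∨ a = l) → (b = x ∨ b = l) := by
      intro a b p
      induction p with
      | nil => exact id
      | cons hadj q ih =>
        intro ha
        apply ih
        rcases ha with rfl | rfl
        · right; exact leaf_unique _ hx1 _ _ hadj hxl
        · left; exact leaf_unique _ hl _ _ hadj hxl.symm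
    obtain ⟨p⟩ := hconn.preconnected x v
    rcases hclosed x v p (Or.inl rfl) with rfl | rfl <;> omega
  -- κ-leaves inject into supports
  have hLX : Lk.card ≤ X.card := by
    have hne : ∀ l, T.degree l = 1 → ∃ x, T.Adj l x := by
      intro l hl
      rw [← T.card_neighborFinset_eq_degree l] at hl
      obtain ⟨w, hw⟩ := Finset.card_pos.1 (by omega : 0 < (T.neighborFinset l).card)
      exact ⟨w, (T.mem_neighborFinset l w).1 hw⟩
    let f : V → V := fun l => if hl : T.degree l = 1 then (hne l hl).choose else l
    have hf : ∀ l, T.degree l = 1 → T.Adj l (f l) := by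
      intro l hl
      simp only [f, hl, dif_pos]
      exact (hne l hl).choose_spec
    apply Finset.card_le_card_of_injOn f
    · intro l hl
      simp only [hLk, Finset.coe_filter, Finset.mem_univ, true_and, Set.mem_ofPred_eq] at hl
      simp only [hX, Finset.coe_filter, Finset.mem_univ, true_and, Set.mem_ofPred_eq]
      exact ⟨l, (hf l hl.1).symm, hl.1, hl.2⟩
    · intro l hl m hm he
      simp only [hLk, Finset.coe_filter, Finset.mem_univ, true_and, Set.mem_ofPred_eq] at hl hm
      apply eq_of_slot h (hl.2.trans hm.2.symm)
      ext i
      rw [mem_S, mem_S]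
      constructor
      · rintro ⟨w, hw, rfl⟩
        exact ⟨f m, hf m hm.1, by rw [← he, leaf_unique l hl.1 w _ hw (hf l hl.1)]⟩
      · rintro ⟨w, hw, rfl⟩
        exact ⟨f l, hf l hl.1, by rw [he, leaf_unique m hm.1 w _ hw (hf m hm.1)]⟩
  have hXsplit : X.card ≤ XA.card + XB.card + XC.card := by
    have : X ⊆ XA ∪ XB ∪ XC := by
      intro x hx
      have h2 := hXdeg x hx
      simp only [hXA, hXB, hXC, Finset.mem_union, Finset.mem_filter, hx, true_and]
      by_cases h3 : 3 ≤ T.degree x
      · exact Or.inr h3
      · left
        have : T.degree x = 2 := by omega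
        by_cases h4 : S T c x = {κ}
        · exact Or.inl ⟨this, h4⟩
        · exact Or.inr ⟨this, h4⟩
    refine (Finset.card_le_card this).trans ((Finset.card_union_le _ _).trans ?_)
    have := Finset.card_union_le XA XB
    omega
  -- first slot count
  have hone : Ln.card + XA.card ≤ (k - 1) * (k - 1) := by
    rw [← Finset.card_union_of_disjoint]
    · apply card_one h κ
      intro u hu
      rw [Finset.mem_union] at hu
      rcases hu with hu | hu
      · simp only [hLn, Finset.mem_filter, Finset.mem_univ, true_and] at hu
        refine ⟨hu.2, ?_⟩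
        have h1 := hu.1
        rw [← T.card_neighborFinset_eq_degree u, Finset.card_eq_one] at h1
        obtain ⟨z, hz⟩ := h1
        refine ⟨c z, ?_⟩
        ext i
        rw [mem_S, Finset.mem_singleton]
        constructor
        · rintro ⟨w, hw, rfl⟩
          have : w ∈ T.neighborFinset u := (T.mem_neighborFinset u w).2 hw
          rw [hz, Finset.mem_singleton] at this
          rw [this]
        · rintro rfl
          refine ⟨z, ?_, rfl⟩
          rw [← T.mem_neighborFinset, hz]
          simp
      · simp only [hXA, hX, Finset.mem_filter, Finset.mem_univ, true_and] at hu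
        refine ⟨?_, κ, hu.2.2⟩
        obtain ⟨⟨l, hl, _, hlκ⟩, _⟩ := hu
        exact fun he => h.1 u l hl (by rw [hlκ, he])
    · rw [Finset.disjoint_left]
      intro u hu hu'
      simp only [hLn, hXA, Finset.mem_filter, Finset.mem_univ, true_and] at hu hu'
      omega
  -- second slot count
  have htwo : A.card + XB.card ≤ (k - 1) * (k - 1) := by
    rw [← Finset.card_union_of_disjoint]
    · apply card_two h κ
      intro u hu
      rw [Finset.mem_union] at hu
      rcases hu with hu | hu
      · simp only [hA, hN, Finset.mem_filter, T.mem_neighborFinset] at hu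
        exact ⟨mem_S.2 ⟨v, hu.1.symm, rfl⟩, hu.2⟩
      · simp only [hXB, hX, Finset.mem_filter, Finset.mem_univ, true_and] at hu
        obtain ⟨⟨l, hl, _, hlκ⟩, h2, _⟩ := hu
        exact ⟨mem_S.2 ⟨l, hl, hlκ⟩, (card_S_le c u).trans h2.le⟩
    · rw [Finset.disjoint_left]
      intro u hu hu'
      simp only [hA, hN, Finset.mem_filter, T.mem_neighborFinset] at hu
      simp only [hXB, hX, Finset.mem_filter, Finset.mem_univ, true_and] at hu'
      obtain ⟨⟨l, hl, hl1, hlκ⟩, h2, h3⟩ := hu'
      apply h3
      have hvl : v ≠ l := by rintro rfl; omega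
      have hnb : T.neighborFinset u = {v, l} := by
        symm
        apply Finset.eq_of_subset_of_card_le
        · intro z hz
          rw [Finset.mem_insert, Finset.mem_singleton] at hz
          rw [T.mem_neighborFinset]
          rcases hz with rfl | rfl
          · exact hu.1.symm
          · exact hl
        · rw [T.card_neighborFinset_eq_degree u, h2, Finset.card_pair hvl]
      ext i
      rw [mem_S, Finset.mem_singleton]
      constructor
      · rintro ⟨w, hw, rfl⟩
        have : w ∈ T.neighborFinset u := (T.mem_neighborFinset u w).2 hw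
        rw [hnb, Finset.mem_insert, Finset.mem_singleton] at this
        rcases this with rfl | rfl
        · rfl
        · exact hlκ
      · rintro rfl
        exact ⟨l, hl, hlκ⟩
  -- degree of v
  have hdeg : T.degree v = A.card + B.card := by
    rw [← T.card_neighborFinset_eq_degree v, hA, hB, Finset.card_filter_add_card_filter_not]
  -- leaves
  have hleaf : (T.degree v : ℤ) + B.card + XC.card ≤ Lk.card + Ln.card := by
    have hsum : ∑ u, (T.degree u : ℤ) = 2 * (Fintype.card V : ℤ) - 2 := by
      have h1 := T.sum_degrees_eq_twice_card_edges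
      have h2 := hT.card_edgeFinset
      have h3 : (∑ u, T.degree u : ℕ) + 2 = 2 * Fintype.card V := by rw [h1, ← h2]; ring
      have h4 : ((∑ u, T.degree u : ℕ) : ℤ) + 2 = 2 * (Fintype.card V : ℤ) := by exact_mod_cast h3
      push_cast at h4
      linarith
    have hsum2 : ∑ u, ((T.degree u : ℤ) - 2) = -2 := by
      rw [Finset.sum_sub_distrib, hsum]
      simp
      ring
    have hterm : ∀ u : V, (if u = v then (T.degree v : ℤ) - 2 else 0) +
        (if u ∈ B then (1 : ℤ) else 0) + (if u ∈ XC then (1 : ℤ) else 0) -
        (if u ∈ Lk then (1 : ℤ) else 0) - (if u ∈ Ln then (1 : ℤ) else 0) ≤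
        (T.degree u : ℤ) - 2 := by
      intro u
      have hd := degpos u
      by_cases huv : u = v
      · subst huv
        have h1 : u ∉ B := by
          simp [hB, hN]
        have h2 : u ∉ XC := by
          simp only [hXC, hX, Finset.mem_filter, Finset.mem_univ, true_and, not_and]
          rintro ⟨l, hl, _, hlκ⟩
          exact absurd hlκ.symm (h.1 u l hl)
        have h3 : u ∉ Lk := by
          simp only [hLk, Finset.mem_filter, Finset.mem_univ, true_and, not_and]
          omega
        have h4 : u ∉ Ln := by
          simp only [hLn, Finset.mem_filter, Finset.mem_univ, true_and, not_and]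
          omega
        simp [h1, h2, h3, h4]
      · rw [if_neg huv]
        by_cases h1 : T.degree u = 1
        · have hB' : u ∉ B := by
            simp only [hB, Finset.mem_filter, not_and, not_not]
            intro _
            have := card_S_le (T := T) c u
            omega
          have hC' : u ∉ XC := by
            simp only [hXC, Finset.mem_filter, not_and]
            intro _
            omega
          by_cases h2 : c u = κ
          · have h3 : u ∈ Lk := by simp [hLk, h1, h2]
            have h4 : u ∉ Ln := by simp [hLn, h2]
            simp [h3, h4, hB', hC', h1]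
          · have h3 : u ∉ Lk := by simp [hLk, h2]
            have h4 : u ∈ Ln := by simp [hLn, h1, h2]
            simp [h3, h4, hB', hC', h1]
        · have h3 : u ∉ Lk := by simp [hLk, h1]
          have h4 : u ∉ Ln := by simp [hLn, h1]
          by_cases hBu : u ∈ B
          · have hBu' := hBu
            simp only [hB, hN, Finset.mem_filter, T.mem_neighborFinset] at hBu'
            have hcs := card_S_le (T := T) c u
            by_cases hCu : u ∈ XC
            · have hCu' := hCu
              simp only [hXC, hX, Finset.mem_filter, Finset.mem_univ, true_and] at hCu'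
              obtain ⟨⟨l, hl, hl1, hlκ⟩, h5⟩ := hCu'
              have hvl : v ≠ l := by rintro rfl; omega
              -- degree at least four
              have h6 : (S T c u).card + 1 ≤ T.degree u := by
                have h7 : (S T c u).card ≤ ((T.neighborFinset u).erase l).card := by
                  refine le_trans (Finset.card_le_card ?_) (Finset.card_image_le (f := c))
                  intro i hi
                  obtain ⟨w, hw, rfl⟩ := mem_S.1 hi
                  rw [Finset.mem_image]
                  by_cases hwl : w = l
                  · refine ⟨v, ?_, by rw [hwl, hlκ]⟩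
                    rw [Finset.mem_erase, T.mem_neighborFinset]
                    exact ⟨hvl, hBu'.1.symm⟩
                  · refine ⟨w, ?_, rfl⟩
                    rw [Finset.mem_erase, T.mem_neighborFinset]
                    exact ⟨hwl, hw⟩
                rw [Finset.card_erase_of_mem ((T.mem_neighborFinset u l).2 hl),
                  T.card_neighborFinset_eq_degree u] at h7
                omega
              have h8 : 4 ≤ T.degree u := by omega
              have h9 : (4 : ℤ) ≤ T.degree u := by exact_mod_cast h8
              rw [if_pos hBu, if_pos hCu, if_neg h3, if_neg h4]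
              linarith
            · have h9 : (3 : ℤ) ≤ T.degree u := by
                have : 3 ≤ T.degree u := by omega
                exact_mod_cast this
              rw [if_pos hBu, if_neg hCu, if_neg h3, if_neg h4]
              linarith
          · by_cases hCu : u ∈ XC
            · have h9 : (3 : ℤ) ≤ T.degree u := by
                have hCu' := hCu
                simp only [hXC, Finset.mem_filter] at hCu'
                exact_mod_cast hCu'.2
              rw [if_neg hBu, if_pos hCu, if_neg h3, if_neg h4]
              linarith
            · have h9 : (2 : ℤ) ≤ T.degree u := by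
                have : 2 ≤ T.degree u := by omega
                exact_mod_cast this
              rw [if_neg hBu, if_neg hCu, if_neg h3, if_neg h4]
              linarith
    have hall := Finset.sum_le_sum (s := Finset.univ) (fun u _ => hterm u)
    rw [hsum2] at hall
    simp only [Finset.sum_add_distrib, Finset.sum_sub_distrib, Finset.sum_ite_eq',
      Finset.mem_univ, if_true, Finset.sum_ite_mem, Finset.univ_inter, Finset.sum_const,
      nsmul_eq_mul, mul_one] at hall
    linarith
  have h1 : T.degree v + B.card + XC.card ≤ Lk.card + Ln.card := by exact_mod_cast hleaf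
  omega

/-- The set of the numbers of colours of neighbor-locating colourings is nonempty. -/
theorem exists_nl {V : Type} [Fintype V] (T : SimpleGraph V) :
    ∃ c : V → Fin (chiNL T), IsNeighborLocating T c := by
  have hne : {k | ∃ c : V → Fin k, IsNeighborLocating T c}.Nonempty := by
    refine ⟨Fintype.card V, Fintype.equivFin V, ?_, ?_⟩
    · intro u v h he
      exact h.ne ((Fintype.equivFin V).injective he)
    · intro u v h he
      exact absurd ((Fintype.equivFin V).injective he) h
  exact Nat.sInf_mem hne

theorem degree_le' {V : Type} [Fintype V] {k : ℕ} {T : SimpleGraph V} (hT : T.IsTree)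
    {c : V → Fin k} (h : IsNeighborLocating T c) (v : V) (i : Fintype (T.neighborSet v))
    (hv : 2 ≤ @SimpleGraph.degree V T v i) :
    @SimpleGraph.degree V T v i ≤ (k - 1) * (k - 1) := by
  classical
  obtain rfl : i = T.neighborSetFintype v := Subsingleton.elim _ _
  exact degree_le hT h v hv

theorem maxDegree_le {V : Type} [Fintype V] (T : SimpleGraph V) [DecidableRel T.Adj]
    (hT : T.IsTree) (hk : 2 ≤ chiNL T) : T.maxDegree ≤ (chiNL T - 1) ^ 2 := by
  apply T.maxDegree_le_of_forall_degree_le
  intro v
  obtain ⟨c, hc⟩ := exists_nl T
  rw [pow_two]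
  by_cases hv : 2 ≤ T.degree v
  · exact degree_le' hT hc v _ hv
  · have : 1 * 1 ≤ (chiNL T - 1) * (chiNL T - 1) := Nat.mul_le_mul (by omega) (by omega)
    omega

end Q129.NLTree
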