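import Mathlib

set_option autoImplicit false

/-!
A graph of diameter 24 with neighbor-locating chromatic number at most 4.
-/

namespace Q129.NeighborLocating

open SimpleGraph

/-- `c` is a neighbor-locating proper colouring of `G`: it is proper and two distinct vertices with
the same colour have different sets of colours in their neighbourhoods. -/
def IsNeighborLocating {V : Type} {k : ℕ} (G : SimpleGraph V) (c : V → Fin k) : Prop :=
  (∀ u v, G.Adj u v → c u ≠ c v) ∧
    ∀ u v, u ≠ v → c u = c v → {i | ∃ w, G.Adj u w ∧ c w = i} ≠ {i | ∃ w, G.Adj v w ∧ c w = i}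

/-- The neighbor-locating chromatic number. -/
noncomputable def chiNL {V : Type} (G : SimpleGraph V) : ℕ :=
  sInf {k | ∃ c : V → Fin k, IsNeighborLocating G c}

/-- Adjacency as a Boolean function: the path `0, …, 24` and the vertex `25` joined to
`2, 3, 4`. -/
def adjB (i j : Fin 26) : Bool :=
  (decide (i.val + 1 = j.val ∧ j.val < 25)) || (decide (j.val + 1 = i.val ∧ i.val < 25)) ||
  (decide (i.val = 25 ∧ (j.val = 2 ∨ j.val = 3 ∨ j.val = 4))) ||
  (decide (j.val = 25 ∧ (i.val = 2 ∨ i.val = 3 ∨ i.val = 4)))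

/-- The counterexample. -/
def ex : SimpleGraph (Fin 26) where
  Adj i j := adjB i j = true
  symm := ⟨fun i j h => by
    simp only [adjB, Bool.or_eq_true, decide_eq_true_eq] at h ⊢; tauto⟩
  loopless := ⟨fun i h => by
    simp only [adjB, Bool.or_eq_true, decide_eq_true_eq] at h; omega⟩

instance : DecidableRel ex.Adj := fun i j => inferInstanceAs (Decidable (adjB i j = true))

/-- The colouring. -/
def col : Fin 26 → Fin 4 :=
  ![0, 2, 0, 1, 2, 0, 1, 0, 1, 2, 0, 3, 0, 1, 3, 0, 3, 2, 1, 2, 1, 3, 1, 3, 2, 3]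

/-- The codes of the colour sets of the neighbourhoods. -/
def code (u : Fin 26) : Finset (Fin 4) := (Finset.univ.filter fun w => ex.Adj u w).image col

theorem code_inj : ∀ u v : Fin 26, u ≠ v → col u = col v → code u ≠ code v := by
  decide +kernel

theorem col_proper : ∀ u v : Fin 26, ex.Adj u v → col u ≠ col v := by
  decide +kernel

theorem ex_nl : IsNeighborLocating ex col := by
  refine ⟨col_proper, ?_⟩
  intro u v huv hc he
  apply code_inj u v huv hc
  ext i
  have := Set.ext_iff.1 he i
  simp only [Set.mem_ofPred_eq] at this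
  simp only [code, Finset.mem_image, Finset.mem_filter, Finset.mem_univ, true_and]
  exact this

theorem chiNL_ex : chiNL ex ≤ 4 := Nat.sInf_le ⟨col, ex_nl⟩

/-- The potential. -/
def pot (i : Fin 26) : ℕ := if i.val < 25 then i.val else 3

theorem pot_lip : ∀ i j : Fin 26, ex.Adj i j → pot j ≤ pot i + 1 := by
  decide +kernel

theorem pot_walk {i j : Fin 26} (p : ex.Walk i j) : pot j ≤ pot i + p.length := by
  induction p with
  | nil => simp
  | cons h q ih =>
    have := pot_lip _ _ h
    rw [Walk.length_cons]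
    omega

theorem adj_succ (i : ℕ) (h : i + 1 < 25) :
    ex.Adj (⟨i, by omega⟩ : Fin 26) ⟨i + 1, by omega⟩ := by
  change adjB _ _ = true
  simp [adjB, h]

theorem walk_add (d : ℕ) : ∀ i : ℕ, (h : i + d < 25) →
    ∃ p : ex.Walk (⟨i, by omega⟩ : Fin 26) ⟨i + d, by omega⟩, p.length = d := by
  induction d with
  | zero => intro i h; exact ⟨Walk.nil, rfl⟩
  | succ d ih =>
    intro i h
    obtain ⟨p, hp⟩ := ih i (by omega)
    refine ⟨p.concat (adj_succ (i + d) (by omega)), ?_⟩
    rw [Walk.length_concat, hp]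

theorem walk_le {i j : ℕ} (hij : i ≤ j) (hj : j < 25) :
    ∃ p : ex.Walk (⟨i, by omega⟩ : Fin 26) ⟨j, by omega⟩, p.length = j - i := by
  obtain ⟨d, rfl⟩ := Nat.exists_eq_add_of_le hij
  obtain ⟨p, hp⟩ := walk_add d i hj
  exact ⟨p, by omega⟩

theorem walk_path (i j : Fin 26) (hi : i.val < 25) (hj : j.val < 25) :
    ∃ p : ex.Walk i j, p.length ≤ 24 ∧ p.length ≤ (j.val - i.val) + (i.val - j.val) := by
  rcases le_total i.val j.val with h | h
  · obtain ⟨p, hp⟩ := walk_le h hj
    exact ⟨p, by omega, by omega⟩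
  · obtain ⟨p, hp⟩ := walk_le h hi
    refine ⟨p.reverse, ?_, ?_⟩ <;> rw [Walk.length_reverse] <;> omega

theorem walk_all (i j : Fin 26) : ∃ p : ex.Walk i j, p.length ≤ 24 := by
  by_cases hi : i.val < 25
  · by_cases hj : j.val < 25
    · obtain ⟨p, hp, _⟩ := walk_path i j hi hj
      exact ⟨p, hp⟩
    · have hj' : j = 25 := Fin.ext (by have := j.isLt; simp; omega)
      subst hj'
      obtain ⟨p, _, hp⟩ := walk_path i 3 hi (by decide)
      have ha : ex.Adj (3 : Fin 26) 25 := by decide +kernel
      refine ⟨p.concat ha, ?_⟩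
      rw [Walk.length_concat]
      have : ((3 : Fin 26) : ℕ) = 3 := rfl
      omega
  · have hi' : i = 25 := Fin.ext (by have := i.isLt; simp; omega)
    subst hi'
    have ha : ex.Adj (25 : Fin 26) 3 := by decide +kernel
    by_cases hj : j.val < 25
    · obtain ⟨p, _, hp⟩ := walk_path 3 j (by decide) hj
      refine ⟨Walk.cons ha p, ?_⟩
      rw [Walk.length_cons]
      have : ((3 : Fin 26) : ℕ) = 3 := rfl
      omega
    · have hj' : j = 25 := Fin.ext (by have := j.isLt; simp; omega)
      subst hj'
      exact ⟨Walk.nil, by simp⟩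

theorem ex_connected : ex.Connected :=
  ⟨fun i j => by obtain ⟨p, _⟩ := walk_all i j; exact ⟨p⟩⟩

theorem ex_diam : ex.diam = 24 := by
  apply le_antisymm
  · obtain ⟨i, j, hij⟩ := ex.exists_dist_eq_diam
    rw [← hij]
    obtain ⟨p, hp⟩ := walk_all i j
    exact (dist_le p).trans hp
  · have h1 : ex.ediam ≠ ⊤ := connected_iff_ediam_ne_top.1 ex_connected
    refine le_trans ?_ (dist_le_diam h1 (u := 0) (v := 24))
    obtain ⟨p, hp⟩ := ex_connected.exists_walk_length_eq_dist 0 24
    rw [← hp]
    have := pot_walk p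
    have h0 : pot 0 = 0 := rfl
    have h24 : pot 24 = 24 := rfl
    omega

/-- The path with 25 vertices has no neighbor-locating colouring with four colours. -/
theorem path_not {k : ℕ} (hk : k ≤ 4) (c : Fin 25 → Fin k) :
    ¬ IsNeighborLocating (pathGraph 25) c := by
  classical
  rintro ⟨hp, hl⟩
  let S : Fin 25 → Finset (Fin k) := fun u =>
    (Finset.univ.filter fun w => (pathGraph 25).Adj u w).image c
  have hdeg : ∀ u : Fin 25, (Finset.univ.filter fun w => (pathGraph 25).Adj u w).card ≤ 2 := by
    intro u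
    have hsub : ((Finset.univ.filter fun w => (pathGraph 25).Adj u w).image Fin.val) ⊆
        {u.val + 1, u.val - 1} := by
      intro x hx
      simp only [Finset.mem_image, Finset.mem_filter, Finset.mem_univ, true_and,
        pathGraph_adj] at hx
      obtain ⟨w, hw, rfl⟩ := hx
      simp only [Finset.mem_insert, Finset.mem_singleton]
      omega
    rw [← Finset.card_image_of_injective _ Fin.val_injective]
    exact (Finset.card_le_card hsub).trans Finset.card_le_two
  have hS2 : ∀ u, (S u).card ≤ 2 := fun u => Finset.card_image_le.trans (hdeg u)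
  have hSne : ∀ u, (S u).Nonempty := by
    intro u
    rw [Finset.image_nonempty]
    by_cases h : u.val + 1 < 25
    · exact ⟨⟨u.val + 1, h⟩, by simp [pathGraph_adj]⟩
    · refine ⟨⟨u.val - 1, by omega⟩, ?_⟩
      simp only [Finset.mem_filter, Finset.mem_univ, true_and, pathGraph_adj]
      omega
  have hSc : ∀ u, c u ∉ S u := by
    intro u hu
    simp only [S, Finset.mem_image, Finset.mem_filter, Finset.mem_univ, true_and] at hu
    obtain ⟨w, hw, he⟩ := hu
    exact hp u w hw he.symm
  let T : Finset (Fin k × Finset (Fin k)) :=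
    Finset.univ.filter fun p => p.1 ∉ p.2 ∧ p.2.card ≤ 2 ∧ p.2.Nonempty
  have hT : T.card ≤ 24 := by
    have : k = 0 ∨ k = 1 ∨ k = 2 ∨ k = 3 ∨ k = 4 := by omega
    rcases this with rfl | rfl | rfl | rfl | rfl <;> decide +kernel
  have hinj : Set.InjOn (fun u => (c u, S u)) (Finset.univ : Finset (Fin 25)) := by
    intro u _ v _ he
    by_contra huv
    simp only [Prod.mk.injEq] at he
    apply hl u v huv he.1
    ext i
    have := Finset.ext_iff.1 he.2 i
    simp only [S, Finset.mem_image, Finset.mem_filter, Finset.mem_univ, true_and] at this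
    simpa only [Set.mem_ofPred_eq] using this
  have hmap : ∀ u ∈ (Finset.univ : Finset (Fin 25)), (fun u => (c u, S u)) u ∈ T := by
    intro u _
    simp only [T, Finset.mem_filter, Finset.mem_univ, true_and]
    exact ⟨hSc u, hS2 u, hSne u⟩
  have := Finset.card_le_card_of_injOn _ hmap hinj
  simp only [Finset.card_univ, Fintype.card_fin] at this
  omega

theorem chiNL_path : 5 ≤ chiNL (pathGraph 25) := by
  have hne : {k | ∃ c : Fin 25 → Fin k, IsNeighborLocating (pathGraph 25) c}.Nonempty := by
    refine ⟨25, id, ?_, ?_⟩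
    · intro u v h he
      exact h.ne he
    · intro u v h he
      exact absurd he h
  by_contra hcon
  push Not at hcon
  obtain ⟨c, hc⟩ := Nat.sInf_mem hne
  exact path_not (Nat.le_of_lt_succ hcon) c hc

end Q129.NeighborLocating
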