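import Mathlib

set_option autoImplicit false

/-!
A kernel-friendly backtracking search showing that a finite graph is not `k`-colourable.
-/

namespace Q129.NoCol

/-- Backtracking: the list contains for every remaining vertex the earlier vertices from which its
colour has to differ; `asg` is the list of the colours assigned so far. -/
def search (k : ℕ) : List (List ℕ) → List ℕ → Bool
  | [], _ => true
  | ns :: rest, asg =>
    (List.range k).any fun a => (ns.all fun j => asg.getD j k != a) && search k rest (asg ++ [a])

theorem search_true {k : ℕ} {c : ℕ → ℕ} (hc : ∀ i, c i < k) : ∀ (rest : List (List ℕ)) (i : ℕ),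
    (∀ t, t < rest.length → ∀ j ∈ rest.getD t [], j < i + t ∧ c j ≠ c (i + t)) →
    search k rest ((List.range i).map c) = true := by
  intro rest
  induction rest with
  | nil => intro i _; rfl
  | cons ns rest ih =>
    intro i h
    rw [search, List.any_eq_true]
    refine ⟨c i, List.mem_range.2 (hc i), ?_⟩
    rw [Bool.and_eq_true]
    constructor
    · rw [List.all_eq_true]
      intro j hj
      obtain ⟨h1, h2⟩ := h 0 (by simp) j (by simpa using hj)
      rw [add_zero] at h1 h2
      have : ((List.range i).map c).getD j k = c j := by
        rw [List.getD_eq_getElem _ _ (by simpa using h1)]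
        simp
      rw [this]
      simpa using h2
    · have h3 : (List.range i).map c ++ [c i] = (List.range (i + 1)).map c := by
        rw [List.range_succ, List.map_append]; rfl
      rw [h3]
      apply ih
      intro t ht j hj
      have := h (t + 1) (by simpa using ht) j (by simpa using hj)
      rw [show i + (t + 1) = i + 1 + t by ring] at this
      exact this

/-- If the search fails then the graph is not `k`-colourable. -/
theorem not_colorable {n k : ℕ} (G : SimpleGraph (Fin n)) (nbs : List (List ℕ))
    (hlen : nbs.length = n)
    (hadj : ∀ t : Fin n, ∀ j ∈ nbs.getD t.val [], ∃ hj : j < n, j < t.val ∧ G.Adj ⟨j, hj⟩ t)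
    (hs : search k nbs [] = false) : ¬ G.Colorable k := by
  rintro ⟨C⟩
  rcases Nat.eq_zero_or_pos n with hn | hn
  · subst hn
    have : nbs = [] := List.length_eq_zero_iff.1 hlen
    rw [this] at hs
    simp [search] at hs
  · have hk : 0 < k := Fin.pos (C ⟨0, hn⟩)
    let c : ℕ → ℕ := fun i => if h : i < n then (C ⟨i, h⟩).val else 0
    have hc : ∀ i, c i < k := by
      intro i
      simp only [c]
      split_ifs
      · exact (C _).isLt
      · exact hk
    have := search_true hc nbs 0 (by
      intro t ht j hj
      rw [hlen] at ht
      obtain ⟨hjn, hjt, hadj'⟩ := hadj ⟨t, ht⟩ j hj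
      rw [zero_add]
      refine ⟨hjt, ?_⟩
      simp only [c, dif_pos hjn, dif_pos ht]
      intro he
      exact C.valid hadj' (Fin.ext he))
    rw [List.range_zero, List.map_nil] at this
    rw [this] at hs
    exact absurd hs (by decide)

end Q129.NoCol
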