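import Mathlib

set_option autoImplicit false

/-!
A graph that is not bipartite has a set of vertices (a shortest odd closed walk) which induces a
non-bipartite graph in which every vertex has at most two neighbours.
-/

namespace Q129.OddWalk

open SimpleGraph

variable {V : Type*} {G : SimpleGraph V}

/-- In a shortest odd closed walk from `v`, the neighbours of `v` on the walk are the second and
the last but one vertex. -/
theorem nbr_pos {n : ℕ} (hmin : ∀ (u : V) (w : G.Walk u u), Odd w.length → n ≤ w.length)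
    {v : V} (w : G.Walk v v) (hodd : Odd w.length) (hn : w.length = n) {k : ℕ}
    (hk : k ≤ n) (hadj : G.Adj v (w.getVert k)) : k = 1 ∨ k = n - 1 := by
  by_contra hcon
  push Not at hcon
  obtain ⟨hk1, hk2⟩ := hcon
  have hk0 : k ≠ 0 := by
    rintro rfl
    simp at hadj
  have hkn : k ≠ n := by
    rintro rfl
    rw [← hn, Walk.getVert_length] at hadj
    exact hadj.ne rfl
  have h1 := hmin v ((w.take k).concat hadj.symm)
  have h2 := hmin v ((w.drop k).cons hadj)
  have l1 : ((w.take k).concat hadj.symm).length = k + 1 := by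
    simp [Walk.length_concat]; omega
  have l2 : ((w.drop k).cons hadj).length = n - k + 1 := by
    simp [hn]
  rw [l1] at h1
  rw [l2] at h2
  rw [hn] at hodd
  rcases Nat.even_or_odd (k + 1) with he | ho
  · have : Odd (n - k + 1) := by
      obtain ⟨a, ha⟩ := he
      obtain ⟨b, hb⟩ := hodd
      exact ⟨b + 1 - a, by omega⟩
    have := h2 this
    omega
  · have := h1 ho
    omega

/-- A graph which is not 2-colourable has a set of vertices inducing a graph that is not
2-colourable and in which no vertex has three distinct neighbours. -/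
theorem exists_set (hG : ¬ G.Colorable 2) :
    ∃ s : Set V, ¬ (G.induce s).Colorable 2 ∧
      ∀ v a b c, v ∈ s → a ∈ s → b ∈ s → c ∈ s → G.Adj v a → G.Adj v b → G.Adj v c →
        a = b ∨ a = c ∨ b = c := by
  classical
  rw [two_colorable_iff_forall_loop_even] at hG
  push Not at hG
  obtain ⟨u0, w0, hw0⟩ := hG
  have hex : ∃ n : ℕ, ∃ (u : V) (w : G.Walk u u), w.length = n ∧ Odd w.length :=
    ⟨_, u0, w0, rfl, by simpa using hw0⟩
  obtain ⟨u, w, hn, hodd⟩ := Nat.find_spec hex
  set n := Nat.find hex with hndef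
  have hmin : ∀ (u : V) (w : G.Walk u u), Odd w.length → n ≤ w.length := fun u w h =>
    Nat.find_min' hex ⟨u, w, rfl, h⟩
  refine ⟨{x | x ∈ w.support}, ?_, ?_⟩
  · rw [two_colorable_iff_forall_loop_even]
    push Not
    refine ⟨_, w.induce {x | x ∈ w.support} (fun x hx => hx), ?_⟩
    have hlen : (w.induce {x | x ∈ w.support} (fun x hx => hx)).length = w.length := by
      have h1 : (w.induce {x | x ∈ w.support} (fun x hx => hx)).support.length =
          w.support.length := by
        rw [Walk.support_induce, List.length_attachWith]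
      rw [Walk.length_support, Walk.length_support] at h1
      omega
    rw [hlen]
    simpa using hodd
  · intro v a b c hv ha hb hc hva hvb hvc
    let w' := w.rotate v hv
    have hl : w'.length = n := by
      rw [← hn]; exact Walk.length_rotate _ _ _
    have hs : ∀ x, x ∈ w.support → x ∈ w'.support := by
      intro x hx
      exact (Walk.mem_support_rotate_iff w v hv).2 hx
    have key : ∀ x, x ∈ w.support → G.Adj v x → x = w'.getVert 1 ∨ x = w'.getVert (n - 1) := by
      intro x hx hvx
      obtain ⟨k, hk1, hk2⟩ := (Walk.mem_support_iff_exists_getVert).1 (hs x hx)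
      rw [← hk1] at hvx
      rcases nbr_pos hmin w' (by rw [hl, ← hn]; exact hodd) hl (by omega) hvx with rfl | h
      · exact Or.inl hk1.symm
      · subst h
        exact Or.inr hk1.symm
    rcases key a ha hva with h1 | h1 <;> rcases key b hb hvb with h2 | h2 <;>
      rcases key c hc hvc with h3 | h3 <;> simp [h1, h2, h3]

/-- The claw `K_{1,3}` with centre `0`. -/
def claw : SimpleGraph (Fin 4) where
  Adj i j := (i = 0 ∧ j ≠ 0) ∨ (i ≠ 0 ∧ j = 0)
  symm := ⟨by
    rintro i j (⟨h1, h2⟩ | ⟨h1, h2⟩)
    · exact Or.inr ⟨h2, h1⟩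
    · exact Or.inl ⟨h2, h1⟩⟩
  loopless := ⟨by
    rintro i (⟨h1, h2⟩ | ⟨h1, h2⟩)
    · exact h2 h1
    · exact h1 h2⟩

theorem claw_ne_bot : claw ≠ ⊥ := by
  intro h
  have h1 : claw.Adj 0 1 := Or.inl ⟨rfl, by decide⟩
  rw [h] at h1
  exact h1

theorem claw_colorable : claw.Colorable 2 := by
  refine ⟨Coloring.mk (fun i => if i = 0 then (0 : Fin 2) else 1) ?_⟩
  rintro i j (⟨h1, h2⟩ | ⟨h1, h2⟩)
  · simp [h1, h2]
  · simp [h1, h2]

theorem exists_clawfree (G : SimpleGraph V) (hG : ¬ G.Colorable 2) :
    ∃ s : Set V, ¬ claw.IsIndContained (G.induce s) ∧ ¬ (G.induce s).Colorable 2 := by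
  obtain ⟨s, hs1, hs2⟩ := exists_set hG
  refine ⟨s, ?_, hs1⟩
  rintro ⟨f⟩
  have hadj : ∀ i : Fin 4, i ≠ 0 → G.Adj (f 0) (f i) := by
    intro i hi
    have : (G.induce s).Adj (f 0) (f i) := f.map_rel_iff.2 (Or.inl ⟨rfl, hi⟩)
    exact this
  have hne : ∀ i j : Fin 4, i ≠ j → (f i : V) ≠ f j := by
    intro i j hij h
    exact hij (f.injective (Subtype.ext h))
  rcases hs2 (f 0) (f 1) (f 2) (f 3) (f 0).2 (f 1).2 (f 2).2 (f 3).2 (hadj 1 (by decide))
    (hadj 2 (by decide)) (hadj 3 (by decide)) with h | h | h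
  · exact hne _ _ (by decide) h
  · exact hne _ _ (by decide) h
  · exact hne _ _ (by decide) h

end Q129.OddWalk
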