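import Mathlib
import Pool.Agent.Q2.PM.Stm

/-! # PM: groups of order `2 ^ a * q` -/

namespace Q129.PM_A2

open Q2.PM Subgroup
open Q2.TN (IsPNil IsSyl IsChief Nm)

/-- normalizers grow in a `p`-group -/
theorem grow {p : ℕ} [Fact p.Prime] {G : Type} [Group G] [Finite G] (P D : Subgroup G) (hP : IsPGroup p P) (hD : D < P) :
    ∃ x ∈ P, x ∈ normalizer (D : Set G) ∧ x ∉ D := by
  have hnil : Group.IsNilpotent P := hP.isNilpotent
  have hlt : D.subgroupOf P < ⊤ := by
    rw [lt_top_iff_ne_top]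
    intro h
    rw [subgroupOf_eq_top] at h
    exact hD.not_ge h
  have h2 := Group.normalizerCondition_of_isNilpotent (D.subgroupOf P) hlt
  obtain ⟨x, hx1, hx2⟩ := SetLike.exists_of_lt h2
  refine ⟨x, x.2, ?_, fun h => hx2 (by rwa [mem_subgroupOf])⟩
  rw [mem_normalizer_iff] at hx1 ⊢
  intro y
  constructor
  · intro hy
    have := (hx1 ⟨y, hD.le hy⟩).1 (by rw [mem_subgroupOf]; exact hy)
    rw [mem_subgroupOf] at this
    exact this
  · intro hy
    have hyP : y ∈ P := by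
      have h3 : (x : G)⁻¹ * ((x : G) * y * (x : G)⁻¹) * x ∈ P :=
        P.mul_mem (P.mul_mem (P.inv_mem x.2) (hD.le hy)) x.2
      have h4 : (x : G)⁻¹ * ((x : G) * y * (x : G)⁻¹) * x = y := by group
      rwa [h4] at h3
    have := (hx1 ⟨y, hyP⟩).2 (by rw [mem_subgroupOf]; exact hy)
    rw [mem_subgroupOf] at this
    exact this

theorem two_pow_coprime {a q : ℕ} (hq : q.Prime) (hq2 : q ≠ 2) : Nat.Coprime (2 ^ a) q :=
  Nat.Coprime.pow_left _ ((Nat.coprime_primes Nat.prime_two hq).2 (Ne.symm hq2))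

/-- the order of a Sylow 2-subgroup -/
theorem card_syl {G : Type} [Group G] [Finite G] {a q : ℕ} (hq : q.Prime) (hq2 : q ≠ 2)
    (hc : Nat.card G = 2 ^ a * q) (S : Sylow 2 G) : Nat.card S = 2 ^ a := by
  have : Fact (Nat.Prime 2) := ⟨Nat.prime_two⟩
  rw [S.card_eq_multiplicity, hc, Nat.factorization_mul (by positivity) hq.ne_zero]
  congr 1
  rw [Finsupp.add_apply, Nat.factorization_pow, Finsupp.smul_apply, Nat.prime_two.factorization_self,
    Nat.factorization_eq_zero_of_not_dvd]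
  · simp
  · intro h
    exact hq2 ((Nat.prime_dvd_prime_iff_eq Nat.prime_two hq).1 h).symm

/-- an element of a 2-subgroup with `x ^ q = 1` is `1` -/
theorem eq_one {G : Type} [Group G] {q : ℕ} (hq : q.Prime) (hq2 : q ≠ 2) (S : Subgroup G) (hS : IsPGroup 2 S)
    (x : G) (hx : x ∈ S) (hxq : x ^ q = 1) : x = 1 := by
  obtain ⟨k, hk⟩ := hS ⟨x, hx⟩
  have h1 : x ^ 2 ^ k = 1 := congrArg Subtype.val hk
  have h2 := orderOf_dvd_of_pow_eq_one h1
  have h3 := orderOf_dvd_of_pow_eq_one hxq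
  have h4 : orderOf x ∣ 1 := by
    have := Nat.dvd_gcd h2 h3
    rwa [(two_pow_coprime hq hq2 : Nat.Coprime (2 ^ k) q).gcd_eq_one] at this
  exact orderOf_eq_one_iff.1 (Nat.dvd_one.1 h4)

theorem case_disj {G : Type} [Group G] [Finite G] (a q : ℕ) (hq : q.Prime) (hq2 : q ≠ 2)
    (hc : Nat.card G = 2 ^ a * q) (hn : Nat.card (Sylow 2 G) = q)
    (hd : ∀ S T : Sylow 2 G, S ≠ T → (S : Subgroup G) ⊓ T = ⊥) : ∃ N : Subgroup G, Gd N := by
  classical
  have : Fact (Nat.Prime 2) := ⟨Nat.prime_two⟩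
  have : Fact q.Prime := ⟨hq⟩
  have : Fintype G := Fintype.ofFinite G
  have : Fintype (Sylow 2 G) := Fintype.ofFinite _
  obtain ⟨x, hx⟩ := exists_prime_orderOf_dvd_card' (G := G) q (by rw [hc]; exact dvd_mul_left _ _)
  have hQc : Nat.card (zpowers x) = q := by rw [Nat.card_zpowers, hx]
  have hQp : ∀ z ∈ zpowers x, z ^ q = 1 := by
    intro z hz
    have h1 : (⟨z, hz⟩ : zpowers x) ^ Nat.card (zpowers x) = 1 := pow_card_eq_one'
    rw [hQc] at h1
    exact congrArg Subtype.val h1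
  set T : Finset G := (Finset.univ : Finset (Sylow 2 G)).biUnion
    (fun S => Finset.univ.filter (fun g => g ∈ S ∧ g ≠ 1)) with hT
  set Q : Finset G := Finset.univ.filter (fun g => g ∈ zpowers x) with hQ
  have hmT : ∀ g, g ∈ T ↔ ∃ S : Sylow 2 G, g ∈ S ∧ g ≠ 1 := by
    intro g
    rw [hT, Finset.mem_biUnion]
    simp
  have hmQ : ∀ g, g ∈ Q ↔ g ∈ zpowers x := by
    intro g
    rw [hQ, Finset.mem_filter]
    simp
  have hcS : ∀ S : Sylow 2 G, (Finset.univ.filter (fun g => g ∈ S ∧ g ≠ 1)).card = 2 ^ a - 1 := by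
    intro S
    have h1 : Finset.univ.filter (fun g => g ∈ S ∧ g ≠ 1) = (Finset.univ.filter (fun g => g ∈ S)).erase 1 := by
      ext g
      rw [Finset.mem_filter, Finset.mem_erase, Finset.mem_filter]
      tauto
    rw [h1, Finset.card_erase_of_mem (by rw [Finset.mem_filter]; exact ⟨Finset.mem_univ _, one_mem _⟩)]
    congr 1
    rw [← card_syl hq hq2 hc S, ← Fintype.card_subtype, Nat.card_eq_fintype_card]
    rfl
  have hTc : T.card = q * (2 ^ a - 1) := by
    rw [hT, Finset.card_biUnion]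
    · rw [Finset.sum_congr rfl (fun S _ => hcS S), Finset.sum_const, smul_eq_mul, Finset.card_univ,
        ← Nat.card_eq_fintype_card, hn]
    · intro S _ S' _ hne
      show Disjoint (Finset.univ.filter (fun g => g ∈ S ∧ g ≠ 1)) (Finset.univ.filter (fun g => g ∈ S' ∧ g ≠ 1))
      rw [Finset.disjoint_left]
      intro g hg hg'
      rw [Finset.mem_filter] at hg hg'
      have h1 : g ∈ (S : Subgroup G) ⊓ S' := ⟨hg.2.1, hg'.2.1⟩
      rw [hd S S' hne, mem_bot] at h1
      exact hg.2.2 h1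
  have hQcard : Q.card = q := by
    rw [← hQc, hQ, ← Fintype.card_subtype, Nat.card_eq_fintype_card]
  have hdis : Disjoint T Q := by
    rw [Finset.disjoint_left]
    intro g hg hg'
    obtain ⟨S, hgS, hg1⟩ := (hmT g).1 hg
    exact hg1 (eq_one hq hq2 S S.isPGroup' g hgS (hQp g ((hmQ g).1 hg')))
  have huniv : T ∪ Q = Finset.univ := by
    apply Finset.eq_univ_of_card
    rw [Finset.card_union_of_disjoint hdis, hTc, hQcard, ← Nat.card_eq_fintype_card, hc]
    have h2 : 1 ≤ 2 ^ a := Nat.one_le_two_pow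
    obtain ⟨m, hm⟩ := Nat.exists_eq_add_of_le h2
    rw [hm]
    have : 1 + m - 1 = m := by omega
    rw [this]
    ring
  refine ⟨zpowers x, ⟨?_⟩, ?_, Or.inr ?_⟩
  · intro z hz g
    have h1 : g * z * g⁻¹ ∈ T ∪ Q := by rw [huniv]; exact Finset.mem_univ _
    rcases Finset.mem_union.1 h1 with h | h
    · exfalso
      obtain ⟨S, hgS, hg1⟩ := (hmT _).1 h
      apply hg1
      apply eq_one hq hq2 S S.isPGroup' _ hgS
      rw [conj_pow, hQp z hz, mul_one, mul_inv_cancel]
    · exact (hmQ _).1 h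
  · intro h
    rw [h, Nat.card_eq_one_iff_unique.2 ⟨inferInstance, inferInstance⟩] at hQc
    exact hq.one_lt.ne hQc
  · rw [hQc]
    exact hq.odd_of_ne_two hq2

theorem case_int {G : Type} [Group G] [Finite G] (a q : ℕ) (hq : q.Prime) (hq2 : q ≠ 2)
    (hc : Nat.card G = 2 ^ a * q) (S₁ S₂ : Sylow 2 G) (hne : S₁ ≠ S₂)
    (hmax : ∀ S T : Sylow 2 G, S ≠ T → Nat.card ((S : Subgroup G) ⊓ T : Subgroup G) ≤
      Nat.card ((S₁ : Subgroup G) ⊓ S₂ : Subgroup G))
    (hD : (S₁ : Subgroup G) ⊓ S₂ ≠ ⊥) : ∃ N : Subgroup G, Gd N := by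
  have : Fact (Nat.Prime 2) := ⟨Nat.prime_two⟩
  have : Fact q.Prime := ⟨hq⟩
  set D : Subgroup G := (S₁ : Subgroup G) ⊓ S₂ with hDdef
  -- `q` divides the order of the normalizer
  have hlt : ∀ S T : Sylow 2 G, S ≠ T → ((S : Subgroup G) ⊓ T) < S := by
    intro S T hST
    refine lt_of_le_of_ne inf_le_left ?_
    intro h
    have h1 : (S : Subgroup G) ≤ T := by rw [← h]; exact inf_le_right
    apply hST
    apply Sylow.ext
    apply Subgroup.eq_of_le_of_card_ge h1
    rw [card_syl hq hq2 hc S, card_syl hq hq2 hc T]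
  have hlt1 : D < S₁ := hlt S₁ S₂ hne
  have hlt2 : D < S₂ := by
    have := hlt S₂ S₁ hne.symm
    rwa [inf_comm] at this
  have key : ∀ S : Sylow 2 G, D < S → ∀ S₃ : Sylow 2 G, normalizer (D : Set G) ≤ S₃ → S₃ = S := by
    intro S hDS S₃ hN
    by_contra hcon
    obtain ⟨x, hx, hxN, hxD⟩ := grow (p := 2) (S : Subgroup G) D S.isPGroup' hDS
    have h1 : D < (S₃ : Subgroup G) ⊓ S := by
      refine lt_of_le_of_ne (le_inf (le_normalizer.trans hN) hDS.le) ?_
      intro h
      apply hxD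
      rw [h]
      exact ⟨hN hxN, hx⟩
    have h2 := hmax S₃ S hcon
    have h3 : Nat.card D < Nat.card ((S₃ : Subgroup G) ⊓ S : Subgroup G) := by
      apply lt_of_le_of_ne (Subgroup.card_le_of_le h1.le)
      intro h
      exact h1.ne (Subgroup.eq_of_le_of_card_ge h1.le h.ge)
    omega
  have hqN : q ∣ Nat.card (normalizer (D : Set G)) := by
    by_contra hcon
    have h1 : Nat.card (normalizer (D : Set G)) ∣ 2 ^ a * q := hc ▸ Subgroup.card_subgroup_dvd_card _
    have h2 : Nat.Coprime (Nat.card (normalizer (D : Set G))) q :=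
      Nat.Coprime.symm ((Nat.Prime.coprime_iff_not_dvd hq).2 hcon)
    have h3 := h2.dvd_of_dvd_mul_right h1
    obtain ⟨j, _, hj⟩ := (Nat.dvd_prime_pow Nat.prime_two).1 h3
    have h4 : IsPGroup 2 (normalizer (D : Set G)) := IsPGroup.of_card hj
    obtain ⟨S₃, hS₃⟩ := h4.exists_le_sylow
    exact hne ((key S₁ hlt1 S₃ hS₃).symm.trans (key S₂ hlt2 S₃ hS₃))
  obtain ⟨x, hx⟩ := exists_prime_orderOf_dvd_card' (G := normalizer (D : Set G)) q hqN
  have hx' : orderOf (x : G) = q := by rw [Subgroup.orderOf_coe, hx]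
  have hcomp : IsComplement' (S₁ : Subgroup G) (zpowers (x : G)) := by
    apply isComplement'_of_coprime
    · rw [Nat.card_zpowers, hx', card_syl hq hq2 hc S₁, hc]
    · rw [Nat.card_zpowers, hx', card_syl hq hq2 hc S₁]
      exact two_pow_coprime hq hq2
  have hDN : ∀ z ∈ zpowers (x : G), ∀ d ∈ D, z * d * z⁻¹ ∈ D := by
    intro z hz d hd
    have h1 : z ∈ normalizer (D : Set G) := (zpowers_le.2 x.2) hz
    rw [mem_normalizer_iff] at h1
    exact (h1 d).1 hd
  refine ⟨(S₁ : Subgroup G).normalCore, inferInstance, ?_, Or.inl ?_⟩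
  · intro h
    apply hD
    rw [eq_bot_iff, ← h]
    intro d hd b
    obtain ⟨⟨s, z⟩, hsz⟩ := hcomp.existsUnique b |>.exists
    have h1 : (s : G) * z = b := hsz
    rw [← h1]
    have h2 : (s : G) * z * d * ((s : G) * z)⁻¹ = s * (z * d * (z : G)⁻¹) * (s : G)⁻¹ := by group
    rw [h2]
    have h3 : (z : G) * d * (z : G)⁻¹ ∈ (S₁ : Subgroup G) := (hDN z z.2 d hd).1
    exact mul_mem (mul_mem s.2 h3) (inv_mem s.2)
  · exact S₁.isPGroup'.to_le (normalCore_le _)

theorem a2 : S_A2 := by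
  intro G _ _ a q hq hq2 hc
  have : Fact (Nat.Prime 2) := ⟨Nat.prime_two⟩
  rcases Nat.eq_zero_or_pos a with ha | ha
  · subst ha
    refine ⟨⊤, inferInstance, ?_, Or.inr ?_⟩
    · intro h
      have h1 : Nat.card (⊤ : Subgroup G) = 1 := by rw [h]; exact Subgroup.card_bot
      rw [Subgroup.card_top, hc, pow_zero, one_mul] at h1
      exact hq.one_lt.ne h1.symm
    · rw [Subgroup.card_top, hc, pow_zero, one_mul]
      exact hq.odd_of_ne_two hq2
  by_cases hsub : Subsingleton (Sylow 2 G)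
  · obtain ⟨S⟩ : Nonempty (Sylow 2 G) := inferInstance
    refine ⟨S, Sylow.normal_of_subsingleton S, ?_, Or.inl S.isPGroup'⟩
    intro h
    have h1 := card_syl hq hq2 hc S
    have h2 : Nat.card (S : Subgroup G) = 1 := by rw [h]; exact Subgroup.card_bot
    have h3 : 2 ^ a = 1 := h1.symm.trans h2
    have h4 := Nat.one_lt_two_pow ha.ne'
    omega
  · have hn : Nat.card (Sylow 2 G) = q := by
      obtain ⟨S⟩ : Nonempty (Sylow 2 G) := inferInstance
      have h1 := S.card_dvd_index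
      have h2 : (S : Subgroup G).index = q := by
        have h3 := (S : Subgroup G).card_mul_index
        rw [hc] at h3
        have h4 : Nat.card (S : Subgroup G) = 2 ^ a := card_syl hq hq2 hc S
        rw [h4] at h3
        exact Nat.eq_of_mul_eq_mul_left (by positivity) h3
      rw [h2] at h1
      rcases (Nat.dvd_prime hq).1 h1 with h | h
      · exact absurd (Nat.card_eq_one_iff_unique.1 h).1 hsub
      · exact h
    rw [not_subsingleton_iff_nontrivial] at hsub
    obtain ⟨A, B, hAB⟩ := hsub.exists_pair_ne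
    have hne : Nonempty {p : Sylow 2 G × Sylow 2 G // p.1 ≠ p.2} := ⟨⟨(A, B), hAB⟩⟩
    obtain ⟨⟨⟨S₁, S₂⟩, h12⟩, hmax⟩ := Finite.exists_max
      (fun p : {p : Sylow 2 G × Sylow 2 G // p.1 ≠ p.2} => Nat.card ((p.1.1 : Subgroup G) ⊓ p.1.2 : Subgroup G))
    by_cases hD : (S₁ : Subgroup G) ⊓ S₂ = ⊥
    · apply case_disj a q hq hq2 hc hn
      intro S T hST
      have h1 := hmax ⟨(S, T), hST⟩
      have h2 : Nat.card ((S : Subgroup G) ⊓ T : Subgroup G) ≤ Nat.card ((S₁ : Subgroup G) ⊓ S₂ : Subgroup G) := h1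
      rw [hD, Subgroup.card_bot] at h2
      exact Subgroup.card_le_one_iff_eq_bot _ |>.1 h2
    · exact case_int a q hq hq2 hc S₁ S₂ h12 (fun S T hST => hmax ⟨(S, T), hST⟩) hD

end Q129.PM_A2
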