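import Mathlib

set_option autoImplicit false

/-!
The orthogonality graph of the 63 root lines of `E_7`: it is strongly regular with parameters
`(63, 30, 13, 15)`, has no independent set of size 8, and has a quantum 8-colouring in
dimension 8.
-/

namespace Q129.QuantumSRG

open SimpleGraph

/-- `G` has a quantum `c`-colouring in dimension `d`. -/
def HasQuantumColoring {V : Type} (G : SimpleGraph V) (c d : ℕ) : Prop :=
  ∃ P : V → Fin c → Matrix (Fin d) (Fin d) ℂ,
    (∀ v i, (P v i).IsHermitian ∧ P v i * P v i = P v i) ∧ (∀ v, ∑ i, P v i = 1) ∧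
      ∀ v w, G.Adj v w → ∀ i, P v i * P w i = 0

/-- The quantum chromatic number. -/
noncomputable def quantumChromaticNumber {V : Type} (G : SimpleGraph V) : ℕ :=
  sInf {c | ∃ d, 1 ≤ d ∧ HasQuantumColoring G c d}

/-- The rows of the adjacency matrix. -/
def rows : List ℕ :=
  [35888607147294846, 140735340904445, 9187343789583237243, 2147483639, 9187483427576709231,
  9223231299366453215, 36028249402245183, 6137694003558954026, 3075246418010753578,
  6148249474963425578, 3085801567292666026, 6148125620129940266, 3085678034576811178,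
  6137570468281095338, 3075122560605424426, 3276418426737011993, 5978578312682427033,
  3276459768575241497, 5978619435474277017, 3244793723544097433, 5946953609486052633,
  3244752602005820057, 5946912268905819417, 8670930245788264012, 8670883806818461260,
  8658967849540655564, 8658920829970127308, 552488230257813068, 552441790417233484,
  564451205898148300, 564404186589305292, 3689348819036877575, 5526817561494998151,
  3689376947207189255, 5526845489945988231, 3696526495795334279, 5533995012767658759,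
  3696554333199715463, 5534022940363010823, 7358376455289337938, 7358400315271542866,
  1864992833495005266, 1864966223316514898, 7377392508896118738, 7377358644509018066,
  1845935548210972626, 1845925430698051538, 2176398021182889569, 2182589988619182561,
  7046270327105003105, 7039374674491892193, 2180694362861068769, 2172108894020017761,
  7031418673785463265, 7028745145822977633, 3775817854873851188, 5361084741169359540,
  5267410198776337716, 3501999327380417204, 4835148927834182964, 2637392127144045236,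
  1505919345613264180, 821372384791833268]

/-- The root lines. -/
def vecs : List (List ℤ) :=
  [[0, 2, 0, 0, 0, 0, 0, 0], [0, 0, 2, 0, 0, 0, 0, 0], [0, 0, 0, 2, 0, 0, 0, 0], [0, 0, 0, 0, 2,
  0, 0, 0], [0, 0, 0, 0, 0, 2, 0, 0], [0, 0, 0, 0, 0, 0, 2, 0], [0, 0, 0, 0, 0, 0, 0, 2], [0, 1,
  0, 1, 0, 1, 0, 1], [0, 1, 0, 1, 0, 1, 0, -1], [0, 1, 0, 1, 0, -1, 0, 1], [0, 1, 0, 1, 0, -1, 0,
  -1], [0, 1, 0, -1, 0, 1, 0, 1], [0, 1, 0, -1, 0, 1, 0, -1], [0, 1, 0, -1, 0, -1, 0, 1], [0, 1,
  0, -1, 0, -1, 0, -1], [0, 0, 1, 1, 0, 0, 1, 1], [0, 0, 1, 1, 0, 0, 1, -1], [0, 0, 1, 1, 0, 0,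
  -1, 1], [0, 0, 1, 1, 0, 0, -1, -1], [0, 0, 1, -1, 0, 0, 1, 1], [0, 0, 1, -1, 0, 0, 1, -1], [0,
  0, 1, -1, 0, 0, -1, 1], [0, 0, 1, -1, 0, 0, -1, -1], [0, 1, 1, 0, 0, 1, 1, 0], [0, 1, 1, 0, 0,
  1, -1, 0], [0, 1, 1, 0, 0, -1, 1, 0], [0, 1, 1, 0, 0, -1, -1, 0], [0, 1, -1, 0, 0, 1, 1, 0], [0,
  1, -1, 0, 0, 1, -1, 0], [0, 1, -1, 0, 0, -1, 1, 0], [0, 1, -1, 0, 0, -1, -1, 0], [0, 0, 0, 0, 1,
  1, 1, 1], [0, 0, 0, 0, 1, 1, 1, -1], [0, 0, 0, 0, 1, 1, -1, 1], [0, 0, 0, 0, 1, 1, -1, -1], [0,
  0, 0, 0, 1, -1, 1, 1], [0, 0, 0, 0, 1, -1, 1, -1], [0, 0, 0, 0, 1, -1, -1, 1], [0, 0, 0, 0, 1,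
  -1, -1, -1], [0, 1, 0, 1, 1, 0, 1, 0], [0, 1, 0, 1, 1, 0, -1, 0], [0, 1, 0, 1, -1, 0, 1, 0], [0,
  1, 0, 1, -1, 0, -1, 0], [0, 1, 0, -1, 1, 0, 1, 0], [0, 1, 0, -1, 1, 0, -1, 0], [0, 1, 0, -1, -1,
  0, 1, 0], [0, 1, 0, -1, -1, 0, -1, 0], [0, 0, 1, 1, 1, 1, 0, 0], [0, 0, 1, 1, 1, -1, 0, 0], [0,
  0, 1, 1, -1, 1, 0, 0], [0, 0, 1, 1, -1, -1, 0, 0], [0, 0, 1, -1, 1, 1, 0, 0], [0, 0, 1, -1, 1,
  -1, 0, 0], [0, 0, 1, -1, -1, 1, 0, 0], [0, 0, 1, -1, -1, -1, 0, 0], [0, 1, 1, 0, 1, 0, 0, 1],
  [0, 1, 1, 0, 1, 0, 0, -1], [0, 1, 1, 0, -1, 0, 0, 1], [0, 1, 1, 0, -1, 0, 0, -1], [0, 1, -1, 0,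
  1, 0, 0, 1], [0, 1, -1, 0, 1, 0, 0, -1], [0, 1, -1, 0, -1, 0, 0, 1], [0, 1, -1, 0, -1, 0, 0,
  -1]]

/-- The signs of the octonion multiplication. -/
def signs : List (List ℤ) :=
  [[1, 1, 1, 1, 1, 1, 1, 1], [-1, 1, -1, 1, -1, 1, 1, -1], [-1, 1, 1, -1, -1, -1, 1, 1], [-1, -1,
  1, 1, -1, 1, -1, 1], [-1, 1, 1, 1, 1, -1, -1, -1], [-1, -1, 1, -1, 1, 1, 1, -1], [-1, -1, -1, 1,
  1, -1, 1, 1], [-1, 1, -1, -1, 1, 1, -1, 1]]

def adjB (i j : Fin 63) : Bool := (rows.getD i.val 0).testBit j.val

def vec (i : Fin 63) (a : Fin 8) : ℤ := (vecs.getD i.val []).getD a.val 0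

def sg (i a : Fin 8) : ℤ := (signs.getD i.val []).getD a.val 0

theorem adjB_symm : ∀ i j : Fin 63, adjB i j = true → adjB j i = true := by decide +kernel

theorem adjB_irrefl : ∀ i : Fin 63, adjB i i = false := by decide +kernel

/-- The graph. -/
def gr : SimpleGraph (Fin 63) where
  Adj i j := adjB i j = true
  symm := ⟨fun i j h => adjB_symm i j h⟩
  loopless := ⟨fun i h => by rw [adjB_irrefl i] at h; exact absurd h (by decide)⟩

instance : DecidableRel gr.Adj := fun i j => inferInstanceAs (Decidable (adjB i j = true))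

theorem ip_adj : ∀ i j : Fin 63, adjB i j = true → ∑ a, vec i a * vec j a = 0 := by
  decide +kernel

theorem ip_self : ∀ i : Fin 63, ∑ a, vec i a * vec i a = 4 := by
  decide +kernel

theorem ip_nonadj : ∀ i j : Fin 63, i ≠ j → adjB i j = false →
    ∑ a, vec i a * vec j a = 2 ∨ ∑ a, vec i a * vec j a = -2 := by
  decide +kernel

theorem vec_zero : ∀ i : Fin 63, vec i 0 = 0 := by decide +kernel

theorem count_deg : ∀ i : Fin 63, Nat.count (fun x => (rows.getD i.val 0).testBit x) 63 = 30 := by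
  decide +kernel

theorem count_common : ∀ i j : Fin 63, i ≠ j →
    Nat.count (fun x => (rows.getD i.val 0 &&& rows.getD j.val 0).testBit x) 63 =
      if adjB i j then 13 else 15 := by
  decide +kernel

theorem card_fin_filter (M : ℕ) (p : Fin 63 → Prop) [DecidablePred p]
    (hp : ∀ x : Fin 63, p x ↔ M.testBit x.val = true) :
    (Finset.univ.filter p).card = Nat.count (fun x => M.testBit x) 63 := by
  rw [Nat.count_eq_card_filter_range]
  apply Finset.card_bij (fun x _ => x.val)
  · intro x hx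
    simp only [Finset.mem_filter, Finset.mem_univ, true_and] at hx
    simp only [Finset.mem_filter, Finset.mem_range]
    exact ⟨x.isLt, (hp x).1 hx⟩
  · intro x _ y _ h
    exact Fin.ext h
  · intro y hy
    simp only [Finset.mem_filter, Finset.mem_range] at hy
    refine ⟨⟨y, hy.1⟩, ?_, rfl⟩
    simp only [Finset.mem_filter, Finset.mem_univ, true_and]
    exact (hp _).2 hy.2

theorem card_common (v w : Fin 63) (h : v ≠ w) :
    Fintype.card (gr.commonNeighbors v w) = if adjB v w then 13 else 15 := by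
  rw [← count_common v w h, ← Set.toFinset_card]
  rw [← card_fin_filter (rows.getD v.val 0 &&& rows.getD w.val 0)
    (fun x => gr.Adj v x ∧ gr.Adj w x)]
  · congr 1
    ext x
    simp [SimpleGraph.mem_commonNeighbors]
  · intro x
    rw [Nat.testBit_land, Bool.and_eq_true]
    rfl

theorem gr_srg : gr.IsSRGWith 63 30 13 15 where
  card := by simp
  regular := by
    intro v
    rw [← SimpleGraph.card_neighborFinset_eq_degree, ← count_deg v]
    rw [← card_fin_filter (rows.getD v.val 0) (fun x => gr.Adj v x)]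
    · congr 1
      ext x
      simp
    · intro x
      rfl
  of_adj := by
    intro v w h
    rw [card_common v w h.ne, if_pos (show adjB v w = true from h)]
  of_not_adj := by
    intro v w hvw h
    rw [card_common v w hvw, if_neg (show ¬ adjB v w = true from h)]

/-- An independent set has at most seven elements. -/
theorem indep_card (s : Finset (Fin 63)) (hs : ∀ i ∈ s, ∀ j ∈ s, i ≠ j → ¬ gr.Adj i j) :
    s.card ≤ 7 := by
  classical
  by_contra hcon
  push Not at hcon
  obtain ⟨t, hts, htc⟩ := Finset.exists_subset_card_eq (show 8 ≤ s.card by omega)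
  let e : Fin 8 ≃ t := (Finset.equivFinOfCardEq htc).symm
  let W : Matrix (Fin 8) (Fin 8) ℤ := fun i a => vec (e i) a
  have hW : W.det = 0 := Matrix.det_eq_zero_of_column_eq_zero 0 (fun i => vec_zero _)
  have hent : ∀ i j : Fin 8, i ≠ j →
      (W * W.transpose) i j = 2 ∨ (W * W.transpose) i j = -2 := by
    intro i j hij
    rw [Matrix.mul_apply]
    have hne : (e i : Fin 63) ≠ e j := fun h => hij (e.injective (Subtype.ext h))
    have hna := hs _ (hts (e i).2) _ (hts (e j).2) hne
    exact ip_nonadj _ _ hne (by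
      by_contra h
      exact hna (by change adjB _ _ = true; simpa using h))
  have hdiag : ∀ i : Fin 8, (W * W.transpose) i i = 4 := by
    intro i
    rw [Matrix.mul_apply]
    exact ip_self _
  -- halve the Gram matrix
  let N : Matrix (Fin 8) (Fin 8) ℤ := fun i j => (W * W.transpose) i j / 2
  have hN : W * W.transpose = (2 : ℤ) • N := by
    ext i j
    rw [Matrix.smul_apply, smul_eq_mul]
    change _ = 2 * ((W * W.transpose) i j / 2)
    by_cases hij : i = j
    · subst hij; rw [hdiag]; norm_num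
    · rcases hent i j hij with h | h <;> rw [h] <;> norm_num
  have hdet : N.det = 0 := by
    have h1 : (W * W.transpose).det = 0 := by rw [Matrix.det_mul, hW, zero_mul]
    rw [hN, Matrix.det_smul] at h1
    simpa using h1
  let K : Matrix (Fin 8) (Fin 8) (ZMod 2) := fun i j => if i = j then 0 else 1
  have hK : N.map (Int.castRingHom (ZMod 2)) = K := by
    ext i j
    rw [Matrix.map_apply]
    change (Int.castRingHom (ZMod 2)) ((W * W.transpose) i j / 2) = if i = j then 0 else 1
    by_cases hij : i = j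
    · subst hij; rw [hdiag, if_pos rfl]; decide
    · rw [if_neg hij]
      rcases hent i j hij with h | h <;> rw [h] <;> decide
  have hKdet : K.det = 0 := by
    rw [← hK]
    have := RingHom.map_det (Int.castRingHom (ZMod 2)) N
    rw [hdet, map_zero] at this
    exact this.symm
  have hKK : K * K = 1 := by
    decide +kernel
  have : (K * K).det = 1 := by rw [hKK, Matrix.det_one]
  rw [Matrix.det_mul, hKdet] at this
  simp at this

theorem not_colorable : ¬ gr.Colorable 8 := by
  classical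
  rintro ⟨C⟩
  have h := Finset.exists_lt_card_fiber_of_mul_lt_card_of_maps_to
    (s := (Finset.univ : Finset (Fin 63))) (t := (Finset.univ : Finset (Fin 8))) (f := C) (n := 7)
    (fun _ _ => Finset.mem_univ _) (by simp)
  obtain ⟨y, _, hy⟩ := h
  have := indep_card (Finset.univ.filter fun x => C x = y) (by
    intro i hi j hj _ hadj
    simp only [Finset.mem_filter, Finset.mem_univ, true_and] at hi hj
    exact C.valid hadj (hi.trans hj.symm))
  omega

/-- The vectors `e_i * v`. -/
def U (v : Fin 8 → ℤ) (i a : Fin 8) : ℤ := sg i a * v (i ^^^ a)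

theorem U_col (v : Fin 8 → ℤ) (a b : Fin 8) :
    ∑ i, U v i a * U v i b = if a = b then ∑ x, v x * v x else 0 := by
  fin_cases a <;> fin_cases b <;>
    simp [U, sg, signs, Fin.sum_univ_eight] <;> ring

theorem U_row (v w : Fin 8 → ℤ) (i : Fin 8) :
    ∑ x, U v i x * U w i x = ∑ x, v x * w x := by
  fin_cases i <;> simp [U, sg, signs, Fin.sum_univ_eight] <;> ring

/-- The integer matrices `(e_i v) (e_i v)ᵀ`. -/
def Q (v : Fin 8 → ℤ) (i : Fin 8) : Matrix (Fin 8) (Fin 8) ℤ :=
  fun a b => U v i a * U v i b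

theorem Q_mul (v w : Fin 8 → ℤ) (i : Fin 8) :
    Q v i * Q w i = (∑ x, v x * w x) • Matrix.of (fun a b => U v i a * U w i b) := by
  ext a b
  rw [Matrix.mul_apply, Matrix.smul_apply, Matrix.of_apply, smul_eq_mul, ← U_row v w i,
    Finset.sum_mul]
  apply Finset.sum_congr rfl
  intro x _
  simp only [Q]
  ring

theorem Q_sum (v : Fin 8 → ℤ) : ∑ i, Q v i = (∑ x, v x * v x) • (1 : Matrix (Fin 8) (Fin 8) ℤ) := by
  ext a b
  rw [Matrix.sum_apply, Matrix.smul_apply, Matrix.one_apply, smul_eq_mul]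
  simp only [Q]
  rw [U_col v a b]
  split_ifs <;> simp

/-- The projections. -/
noncomputable def P (v : Fin 63) (i : Fin 8) : Matrix (Fin 8) (Fin 8) ℂ :=
  (1 / 4 : ℂ) • (Q (vec v) i).map (Int.castRingHom ℂ)

theorem quantum : HasQuantumColoring gr 8 8 := by
  refine ⟨P, ?_, ?_, ?_⟩
  · intro v i
    constructor
    · ext a b
      rw [Matrix.conjTranspose_apply, P, Matrix.smul_apply, Matrix.smul_apply, Matrix.map_apply,
        Matrix.map_apply]
      simp [Q, mul_comm]
    · rw [P, Matrix.smul_mul, Matrix.mul_smul, ← Matrix.map_mul, Q_mul, ip_self, smul_smul]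
      ext a b
      simp only [Matrix.smul_apply, Matrix.map_apply, Matrix.of_apply, smul_eq_mul, Q,
        eq_intCast]
      push_cast
      ring
  · intro v
    simp only [P]
    rw [← Finset.smul_sum]
    ext a b
    rw [Matrix.smul_apply, Matrix.sum_apply]
    simp only [Matrix.map_apply]
    rw [← map_sum, ← Matrix.sum_apply, Q_sum, ip_self, Matrix.smul_apply, Matrix.one_apply,
      Matrix.one_apply]
    split_ifs <;> simp
  · intro v w h i
    rw [P, P, Matrix.smul_mul, Matrix.mul_smul, ← Matrix.map_mul, Q_mul, ip_adj v w h]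
    ext a b
    simp

theorem quantum_le : quantumChromaticNumber gr ≤ 8 := Nat.sInf_le ⟨8, by norm_num, quantum⟩

theorem nine_le : (9 : ℕ∞) ≤ gr.chromaticNumber := by
  by_contra hcon
  push Not at hcon
  have h8 : gr.chromaticNumber ≤ ((8 : ℕ) : ℕ∞) := by
    have : gr.chromaticNumber < (8 : ℕ∞) + 1 := by
      rw [show (8 : ℕ∞) + 1 = 9 by norm_num]; exact hcon
    exact Order.le_of_lt_add_one this
  exact not_colorable (SimpleGraph.chromaticNumber_le_iff_colorable.1 h8)

end Q129.QuantumSRG
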