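import Pool.Agent.Results.MP_c17804_co.CriticalJoins

set_option autoImplicit false

/-!
`10`-critical `K_9`-free graphs with few edges, by Hajos joins.
-/

namespace Q129.Schonheim

open SimpleGraph Pool.Agent.Results.MP_c17804_co.CriticalJoins

/-- A clique of a subgraph of a Hajos join lies in one of the two sides. -/
theorem cliqueFree_of_sides {V1 V2 M : Type} {T1 : SimpleGraph V1} {T2 : SimpleGraph V2}
    {x1 y1 : V1} {x2 y2 : V2} {f1 : V1 → M} {f2 : V2 → M} (g : Glue x1 x2 f1 f2)
    (h1 : T1.Adj x1 y1) (J : SimpleGraph M)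
    (hJ : J ≤ joinG T1 T2 x1 y1 x2 y2 f1 f2 g h1) (T1' : SimpleGraph V1) (T2' : SimpleGraph V2)
    (a1 : ∀ p q, J.Adj (f1 p) (f1 q) → T1'.Adj p q) (a2 : ∀ p q, J.Adj (f2 p) (f2 q) → T2'.Adj p q)
    {m : ℕ} (hm : 3 ≤ m) (c1 : T1'.CliqueFree m) (c2 : T2'.CliqueFree m) : J.CliqueFree m := by
  classical
  intro s hs
  -- one of the sides contains the clique
  have key : (∀ z ∈ s, ∃ p, f1 p = z) ∨ (∀ z ∈ s, ∃ q, f2 q = z) := by
    by_contra hcon
    push Not at hcon
    obtain ⟨⟨b, hb, hb'⟩, a, ha, ha'⟩ := hcon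
    obtain ⟨p, hp⟩ : ∃ p, f1 p = a := (g.cover a).resolve_right (fun ⟨q, hq⟩ => ha' q hq)
    obtain ⟨q, hq⟩ : ∃ q, f2 q = b := (g.cover b).resolve_left (fun ⟨q, hq⟩ => hb' q hq)
    have hab : a ≠ b := fun h => ha' q (hq.trans h.symm)
    have hJab := hJ (hs.isClique ha hb hab)
    have hab1 : a = f1 y1 ∧ b = f2 y2 := by
      rcases hJab with ⟨p', q', _, _, h3, h4⟩ | ⟨p', q', _, _, h3, h4⟩ | h | ⟨h3, h4⟩
      · exact absurd h4 (hb' q')
      · exact absurd h3 (ha' p')
      · exact h
      · exact absurd h3.symm (ha' y2)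
    obtain ⟨c, hc, hca, hcb⟩ : ∃ c ∈ s, c ≠ a ∧ c ≠ b := by
      by_contra hno
      push Not at hno
      have : s ⊆ {a, b} := by
        intro z hz
        rw [Finset.mem_insert, Finset.mem_singleton]
        by_cases hza : z = a
        · exact Or.inl hza
        · exact Or.inr (hno z hz hza)
      have := Finset.card_le_card this
      have h2 := Finset.card_le_two (a := a) (b := b)
      have h3 := hs.card_eq
      omega
    have hJcb := hJ (hs.isClique hc hb hcb)
    have hJca := hJ (hs.isClique hc ha hca)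
    -- c is adjacent to b, so it lies in the second side
    have hc2 : ∃ r, f2 r = c := by
      rcases hJcb with ⟨p', q', _, _, h3, h4⟩ | ⟨p', q', _, _, h3, h4⟩ | ⟨h3, h4⟩ | ⟨h3, h4⟩
      · exact absurd h4 (hb' q')
      · exact ⟨p', h3⟩
      · exact absurd (h3.trans hab1.1.symm) hca
      · exact ⟨y2, h3.symm⟩
    have hc1 : ∃ r, f1 r = c := by
      rcases hJca with ⟨p', q', _, _, h3, h4⟩ | ⟨p', q', _, _, h3, h4⟩ | ⟨h3, h4⟩ | ⟨h3, h4⟩
      · exact ⟨p', h3⟩
      · exact absurd h4 (ha' q')
      · exact ⟨y1, h3.symm⟩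
      · exact absurd (h3.trans hab1.2.symm) hcb
    obtain ⟨r, hr⟩ := hc1
    obtain ⟨r', hr'⟩ := hc2
    obtain ⟨hrx, hrx'⟩ := g.sep r r' (hr.trans hr'.symm)
    rw [hrx] at hr
    rw [hrx'] at hr'
    -- c = f1 x1 is adjacent to f1 y1
    rcases hJca with ⟨p', q', _, h2, h3, h4⟩ | ⟨p', q', _, _, h3, h4⟩ | ⟨h3, h4⟩ | ⟨h3, h4⟩
    · apply h2
      rw [g.inj1 (h3.trans hr.symm), g.inj1 (h4.trans hab1.1)]
    · exact absurd h4 (ha' q')
    · exact h1.ne (g.inj1 (hr.trans h3))
    · exact hcb (h3.trans hab1.2.symm)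
  have : Nonempty V1 := ⟨x1⟩
  have : Nonempty V2 := ⟨x2⟩
  rcases key with h | h
  · choose! k hk using h
    apply c1 (s.image k)
    constructor
    · intro u hu v hv huv
      rw [Finset.mem_coe, Finset.mem_image] at hu hv
      obtain ⟨z, hz, rfl⟩ := hu
      obtain ⟨w, hw, rfl⟩ := hv
      apply a1
      rw [hk z hz, hk w hw]
      exact hs.isClique hz hw (fun h => huv (by rw [h]))
    · rw [Finset.card_image_of_injOn, hs.card_eq]
      intro z hz w hw he
      rw [← hk z hz, ← hk w hw]
      exact congrArg f1 he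
  · choose! k hk using h
    apply c2 (s.image k)
    constructor
    · intro u hu v hv huv
      rw [Finset.mem_coe, Finset.mem_image] at hu hv
      obtain ⟨z, hz, rfl⟩ := hu
      obtain ⟨w, hw, rfl⟩ := hv
      apply a2
      rw [hk z hz, hk w hw]
      exact hs.isClique hz hw (fun h => huv (by rw [h]))
    · rw [Finset.card_image_of_injOn, hs.card_eq]
      intro z hz w hw he
      rw [← hk z hz, ← hk w hw]
      exact congrArg f2 he

theorem joinG_side1 {V1 V2 M : Type} {T1 : SimpleGraph V1} {T2 : SimpleGraph V2}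
    {x1 y1 : V1} {x2 y2 : V2} {f1 : V1 → M} {f2 : V2 → M} (g : Glue x1 x2 f1 f2)
    (h1 : T1.Adj x1 y1) (h2 : T2.Adj x2 y2) (p q : V1)
    (h : (joinG T1 T2 x1 y1 x2 y2 f1 f2 g h1).Adj (f1 p) (f1 q)) :
    (T1.deleteEdges {s(x1, y1)}).Adj p q := by
  rw [deleteEdges_adj, Set.mem_singleton_iff]
  rcases h with ⟨p', q', h3, h4, h5, h6⟩ | ⟨p', q', h3, _, h5, h6⟩ | ⟨h3, h4⟩ | ⟨h3, h4⟩
  · rw [← g.inj1 h5, ← g.inj1 h6]
    exact ⟨h3, h4⟩
  · have e1 := (g.sep _ _ h5.symm).2
    have e2 := (g.sep _ _ h6.symm).2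
    exact absurd (e1.trans e2.symm) h3.ne
  · exact absurd (g.sep _ _ h4).2 h2.ne'
  · exact absurd (g.sep _ _ h3).2 h2.ne'

theorem joinG_side2 {V1 V2 M : Type} {T1 : SimpleGraph V1} {T2 : SimpleGraph V2}
    {x1 y1 : V1} {x2 y2 : V2} {f1 : V1 → M} {f2 : V2 → M} (g : Glue x1 x2 f1 f2)
    (h1 : T1.Adj x1 y1) (p q : V2)
    (h : (joinG T1 T2 x1 y1 x2 y2 f1 f2 g h1).Adj (f2 p) (f2 q)) :
    (T2.deleteEdges {s(x2, y2)}).Adj p q := by
  rw [deleteEdges_adj, Set.mem_singleton_iff]
  rcases h with ⟨p', q', h3, h4, h5, h6⟩ | ⟨p', q', h3, h4, h5, h6⟩ | ⟨h3, h4⟩ | ⟨h3, h4⟩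
  · have e1 := (g.sep _ _ h5).1
    have e2 := (g.sep _ _ h6).1
    exact absurd (e1.trans e2.symm) h3.ne
  · rw [← g.inj2 h5, ← g.inj2 h6]
    exact ⟨h3, h4⟩
  · exact absurd (g.sep _ _ h3.symm).1 h1.ne'
  · exact absurd (g.sep _ _ h4.symm).1 h1.ne'

/-- The number of edges of a Hajos join. -/
theorem joinG_card {V1 V2 M : Type} [Finite V1] [Finite V2] {T1 : SimpleGraph V1}
    {T2 : SimpleGraph V2} {x1 y1 : V1} {x2 y2 : V2} {f1 : V1 → M} {f2 : V2 → M}
    (g : Glue x1 x2 f1 f2) (h1 : T1.Adj x1 y1) (h2 : T2.Adj x2 y2) :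
    (joinG T1 T2 x1 y1 x2 y2 f1 f2 g h1).edgeSet.ncard + 1 ≤
      T1.edgeSet.ncard + T2.edgeSet.ncard := by
  classical
  have hsub : (joinG T1 T2 x1 y1 x2 y2 f1 f2 g h1).edgeSet ⊆
      insert s(f1 y1, f2 y2) ((Sym2.map f1 '' (T1.edgeSet \ {s(x1, y1)})) ∪
        (Sym2.map f2 '' (T2.edgeSet \ {s(x2, y2)}))) := by
    intro e
    induction e using Sym2.ind with
    | _ z w =>
      intro h
      rw [mem_edgeSet] at h
      rcases h with ⟨p, q, h3, h4, rfl, rfl⟩ | ⟨p, q, h3, h4, rfl, rfl⟩ | ⟨rfl, rfl⟩ | ⟨rfl, rfl⟩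
      · right; left
        exact ⟨s(p, q), ⟨h3, h4⟩, rfl⟩
      · right; right
        exact ⟨s(p, q), ⟨h3, h4⟩, rfl⟩
      · left; rfl
      · left; exact Sym2.eq_swap
  have hf1 : (T1.edgeSet \ {s(x1, y1)}).Finite := Set.toFinite _
  have hf2 : (T2.edgeSet \ {s(x2, y2)}).Finite := Set.toFinite _
  have hle := Set.ncard_le_ncard hsub ((hf1.image _).union (hf2.image _) |>.insert _)
  have hins := Set.ncard_insert_le s(f1 y1, f2 y2)
    ((Sym2.map f1 '' (T1.edgeSet \ {s(x1, y1)})) ∪ (Sym2.map f2 '' (T2.edgeSet \ {s(x2, y2)})))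
  have hun := Set.ncard_union_le (Sym2.map f1 '' (T1.edgeSet \ {s(x1, y1)}))
    (Sym2.map f2 '' (T2.edgeSet \ {s(x2, y2)}))
  have hi1 := Set.ncard_image_le (f := Sym2.map f1) hf1
  have hi2 := Set.ncard_image_le (f := Sym2.map f2) hf2
  have hd1 := Set.ncard_sdiff_singleton_add_one ((mem_edgeSet T1).2 h1) (Set.toFinite _)
  have hd2 := Set.ncard_sdiff_singleton_add_one ((mem_edgeSet T2).2 h2) (Set.toFinite _)
  omega

/-- A glueing of two finite types along a point. -/
theorem exists_glue' (V1 V2 : Type) [Fintype V1] [Fintype V2] (x1 : V1) (x2 : V2) :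
    ∃ (M : Type) (_ : Fintype M) (f1 : V1 → M) (f2 : V2 → M), Glue x1 x2 f1 f2 ∧
      Fintype.card M + 1 = Fintype.card V1 + Fintype.card V2 := by
  classical
  refine ⟨V1 ⊕ {v : V2 // v ≠ x2}, inferInstance, fun p => Sum.inl p,
    fun v => if h : v = x2 then Sum.inl x1 else Sum.inr ⟨v, h⟩, ⟨?_, ?_, ?_, ?_, ?_⟩, ?_⟩
  · intro u v h
    exact Sum.inl_injective h
  · intro u v h
    simp only at h
    split_ifs at h with h1 h2 h2
    · rw [h1, h2]
    · exact congrArg Subtype.val (Sum.inr_injective h)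
  · simp
  · intro p v h
    split_ifs at h with h1
    · exact ⟨Sum.inl_injective h, h1⟩
  · intro z
    rcases z with p | ⟨v, hv⟩
    · exact Or.inl ⟨p, rfl⟩
    · refine Or.inr ⟨v, ?_⟩
      simp [hv]
  · rw [Fintype.card_sum]
    have : Fintype.card {v : V2 // v ≠ x2} = Fintype.card V2 - 1 := by
      rw [Fintype.card_subtype, Finset.filter_ne', Finset.card_erase_of_mem (Finset.mem_univ _),
        Finset.card_univ]
    have h3 : 0 < Fintype.card V2 := Fintype.card_pos_iff.2 ⟨x2⟩
    omega

/-- The adjacency of `K_4 ∨ C_5 ∨ C_5`. -/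
def adjL (i j : Fin 14) : Bool :=
  decide (i ≠ j) &&
  (decide (i.val < 4 ∨ j.val < 4 ∨ (i.val < 9 ∧ 9 ≤ j.val) ∨ (j.val < 9 ∧ 9 ≤ i.val)) ||
    decide ((j.val + 5 - i.val) % 5 = 1 ∨ (i.val + 5 - j.val) % 5 = 1))

/-- `K_4 ∨ C_5 ∨ C_5`. -/
def L : SimpleGraph (Fin 14) where
  Adj i j := adjL i j = true
  symm := ⟨by decide +kernel⟩
  loopless := ⟨by decide +kernel⟩

instance : DecidableRel L.Adj := fun i j => inferInstanceAs (Decidable (adjL i j = true))

/-- Codes of the colourings of `L` minus an edge. -/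
def tab : List (List ℕ) :=
  [[0, 38112806473769216, 38112806473768976, 38112806473761296, 38112806507131408,
  38112806503199248, 38112806424556048, 38112805417923088, 38112785285263888, 38147583110296080,
  38140367565238800, 38008426169905680, 36161246635242000, 2384249429963280], [38112806473769216,
  0, 38112806473769232, 38112806473765392, 38112806507196944, 38112806504247824,
  38112806441333264, 38112805686358544, 38112789580231184, 38147651829772816, 38141467076866576,
  38026018355950096, 36442721611952656, 6887849057333776], [38112806473768976, 38112806473769232,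
  0, 38112806473769488, 38112806507262480, 38112806505296400, 38112806458110480,
  38112805954794000, 38112793875198480, 38147720549249552, 38142566588494352, 38043610541994512,
  36724196588663312, 11391448684704272], [38112806473761296, 38112806473765392, 38112806473769488,
  0, 38112806507328016, 38112806506344976, 38112806474887696, 38112806223229456,
  38112798170165776, 38147789268726288, 38143666100122128, 38061202728038928, 37005671565373968,
  15895048312074768], [38112806507131408, 38112806507196944, 38112806507262480, 38112806507328016,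
  0, 38112806507393552, 0, 0, 38112802465133072, 38147858021757456, 38144765645304336,
  38078794947637776, 37287146575639056, 20398647972999696], [38112806503199248, 38112806504247824,
  38112806505296400, 38112806506344976, 38112806507393552, 0, 38112806508442128, 0, 0,
  38147926472798736, 38145864888496656, 38096386865246736, 37568621283914256, 24902247331934736],
  [38112806424556048, 38112806441333264, 38112806458110480, 38112806474887696, 0,
  38112806508442128, 0, 38112806491664912, 0, 38147990897308176, 38146960105157136,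
  38113974756323856, 37850091965657616, 29405842664337936], [38112805417923088, 38112805686358544,
  38112805954794000, 38112806223229456, 0, 0, 38112806491664912, 0, 38112806760100368,
  38147991400624656, 38146960608473616, 38113975259640336, 37850092468974096, 29405843167654416],
  [38112785285263888, 38112789580231184, 38112793875198480, 38112798170165776, 38112802465133072,
  0, 0, 38112806760100368, 0, 38147995427156496, 38146964635005456, 38113979286172176,
  37850096495505936, 29405847194186256], [38147583110296080, 38147651829772816, 38147720549249552,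
  38147789268726288, 38147858021757456, 38147926472798736, 38147990897308176, 38147991400624656,
  38147995427156496, 0, 38148064146633232, 0, 0, 33909446821556752], [38140367565238800,
  38141467076866576, 38142566588494352, 38143666100122128, 38144765645304336, 38145864888496656,
  38146960105157136, 38146960608473616, 38146964635005456, 38148064146633232, 0,
  38149163658261008, 0, 0], [38008426169905680, 38026018355950096, 38043610541994512,
  38061202728038928, 38078794947637776, 38096386865246736, 38113974756323856, 38113975259640336,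
  38113979286172176, 0, 38149163658261008, 0, 38131571472216592, 0], [36161246635242000,
  36442721611952656, 36724196588663312, 37005671565373968, 37287146575639056, 37568621283914256,
  37850091965657616, 37850092468974096, 37850096495505936, 0, 0, 38131571472216592, 0,
  38413046448927248], [2384249429963280, 6887849057333776, 11391448684704272, 15895048312074768,
  20398647972999696, 24902247331934736, 29405842664337936, 29405843167654416, 29405847194186256,
  33909446821556752, 0, 0, 38413046448927248, 0]]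

def colL (a b u : Fin 14) : ℕ := ((tab.getD a.val []).getD b.val 0 / 16 ^ u.val) % 16

theorem colL_lt : ∀ a b u : Fin 14, adjL a b = true → colL a b u < 9 := by decide +kernel

theorem colL_proper : ∀ a b : Fin 14, adjL a b = true → ∀ u v : Fin 14, adjL u v = true →
    colL a b u = colL a b v → (u = a ∧ v = b) ∨ (u = b ∧ v = a) := by decide +kernel

theorem five_cycle {α : Type} [DecidableEq α] (f : Fin 5 → α) (h01 : f 0 ≠ f 1)
    (h12 : f 1 ≠ f 2) (h23 : f 2 ≠ f 3) (h34 : f 3 ≠ f 4) (h40 : f 4 ≠ f 0) :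
    3 ≤ (Finset.univ.image f).card := by
  rw [Finset.le_card_iff_exists_subset_card]
  by_cases h2 : f 2 = f 0
  · by_cases h3 : f 3 = f 1
    · refine ⟨{f 0, f 1, f 4}, ?_, ?_⟩
      · intro x hx
        simp only [Finset.mem_insert, Finset.mem_singleton] at hx
        rcases hx with rfl | rfl | rfl <;> simp
      · rw [Finset.card_eq_three]
        exact ⟨f 0, f 1, f 4, h01, h40.symm, fun h => h34 (h3.trans h), rfl⟩
    · refine ⟨{f 0, f 1, f 3}, ?_, ?_⟩
      · intro x hx
        simp only [Finset.mem_insert, Finset.mem_singleton] at hx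
        rcases hx with rfl | rfl | rfl <;> simp
      · rw [Finset.card_eq_three]
        exact ⟨f 0, f 1, f 3, h01, fun h => h23 (h2.trans h), fun h => h3 h.symm, rfl⟩
  · refine ⟨{f 0, f 1, f 2}, ?_, ?_⟩
    · intro x hx
      simp only [Finset.mem_insert, Finset.mem_singleton] at hx
      rcases hx with rfl | rfl | rfl <;> simp
    · rw [Finset.card_eq_three]
      exact ⟨f 0, f 1, f 2, h01, fun h => h2 h.symm, h12, rfl⟩

def e0 (i : Fin 4) : Fin 14 := ⟨i.val, by omega⟩
def e1 (i : Fin 5) : Fin 14 := ⟨4 + i.val, by omega⟩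
def e2 (i : Fin 5) : Fin 14 := ⟨9 + i.val, by omega⟩

theorem a00 : ∀ i j : Fin 4, i ≠ j → adjL (e0 i) (e0 j) = true := by decide +kernel
theorem a10 : ∀ (j : Fin 5) (i : Fin 4), adjL (e1 j) (e0 i) = true := by decide +kernel
theorem a20 : ∀ (j : Fin 5) (i : Fin 4), adjL (e2 j) (e0 i) = true := by decide +kernel
theorem a21 : ∀ (j : Fin 5) (i : Fin 5), adjL (e2 j) (e1 i) = true := by decide +kernel

theorem L_not (c : Fin 14 → Fin 9) : ∃ u v, L.Adj u v ∧ c u = c v := by
  by_contra hcon
  push Not at hcon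
  have hc : ∀ u v : Fin 14, adjL u v = true → c u ≠ c v := hcon
  have h0 : (Finset.univ.image (c ∘ e0)).card = 4 := by
    rw [Finset.card_image_of_injective, Finset.card_univ, Fintype.card_fin]
    intro i j hij
    by_contra hne
    exact hc (e0 i) (e0 j) (a00 i j hne) hij
  have h1 : 3 ≤ (Finset.univ.image (c ∘ e1)).card :=
    five_cycle _ (hc _ _ (by decide +kernel)) (hc _ _ (by decide +kernel))
      (hc _ _ (by decide +kernel)) (hc _ _ (by decide +kernel)) (hc _ _ (by decide +kernel))
  have h2 : 3 ≤ (Finset.univ.image (c ∘ e2)).card :=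
    five_cycle _ (hc _ _ (by decide +kernel)) (hc _ _ (by decide +kernel))
      (hc _ _ (by decide +kernel)) (hc _ _ (by decide +kernel)) (hc _ _ (by decide +kernel))
  have d01 : Disjoint (Finset.univ.image (c ∘ e0)) (Finset.univ.image (c ∘ e1)) := by
    rw [Finset.disjoint_left]
    intro x hx hx'
    rw [Finset.mem_image] at hx hx'
    obtain ⟨i, _, rfl⟩ := hx
    obtain ⟨j, _, hj⟩ := hx'
    exact hc (e1 j) (e0 i) (a10 j i) hj
  have d02 : Disjoint (Finset.univ.image (c ∘ e0)) (Finset.univ.image (c ∘ e2)) := by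
    rw [Finset.disjoint_left]
    intro x hx hx'
    rw [Finset.mem_image] at hx hx'
    obtain ⟨i, _, rfl⟩ := hx
    obtain ⟨j, _, hj⟩ := hx'
    exact hc (e2 j) (e0 i) (a20 j i) hj
  have d12 : Disjoint (Finset.univ.image (c ∘ e1)) (Finset.univ.image (c ∘ e2)) := by
    rw [Finset.disjoint_left]
    intro x hx hx'
    rw [Finset.mem_image] at hx hx'
    obtain ⟨i, _, rfl⟩ := hx
    obtain ⟨j, _, hj⟩ := hx'
    exact hc (e2 j) (e1 i) (a21 j i) hj
  have hu := Finset.card_le_univ
    ((Finset.univ.image (c ∘ e0)) ∪ (Finset.univ.image (c ∘ e1)) ∪ (Finset.univ.image (c ∘ e2)))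
  rw [Finset.card_union_of_disjoint (Finset.disjoint_union_left.2 ⟨d02, d12⟩),
    Finset.card_union_of_disjoint d01, Fintype.card_fin] at hu
  omega

theorem L_cr : Cr 9 L := by
  refine ⟨L_not, ?_, ?_⟩
  · intro a b hab
    refine ⟨fun u => ⟨colL a b u, colL_lt a b u hab⟩, ?_⟩
    intro u v huv hs he
    have := colL_proper a b hab u v huv (congrArg Fin.val he)
    apply hs
    rcases this with ⟨rfl, rfl⟩ | ⟨rfl, rfl⟩
    · rfl
    · exact Sym2.eq_swap
  · have : ∀ v : Fin 14, ∃ u : Fin 14, adjL v u = true := by decide +kernel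
    exact this

theorem L_cliqueFree : L.CliqueFree 9 := by
  intro s hs
  -- at most four vertices in the first part, two in each cycle
  have h0 : (s.filter fun u => u.val < 4).card ≤ 4 := by
    have : (s.filter fun u => u.val < 4) ⊆ {0, 1, 2, 3} := by
      intro u hu
      rw [Finset.mem_filter] at hu
      have h2 := hu.2
      revert h2
      clear hu
      revert u
      decide +kernel
    exact (Finset.card_le_card this).trans (by decide)
  have hpart : ∀ p : Fin 14 → Prop, ∀ [DecidablePred p],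
      (∀ x y z : Fin 14, p x → p y → p z → ¬ (adjL x y = true ∧ adjL x z = true ∧
        adjL y z = true)) → (s.filter p).card ≤ 2 := by
    intro p _ hp
    by_contra hcon
    push Not at hcon
    obtain ⟨x, hx, y, hy, z, hz, hxy, hxz, hyz⟩ := Finset.two_lt_card.1 hcon
    rw [Finset.mem_filter] at hx hy hz
    exact hp x y z hx.2 hy.2 hz.2 ⟨hs.isClique hx.1 hy.1 hxy, hs.isClique hx.1 hz.1 hxz,
      hs.isClique hy.1 hz.1 hyz⟩
  have h1 := hpart (fun u => 4 ≤ u.val ∧ u.val < 9) (by decide +kernel)
  have h2 := hpart (fun u => 9 ≤ u.val) (by decide +kernel)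
  have hsub : s ⊆ (s.filter fun u => u.val < 4) ∪ (s.filter fun u => 4 ≤ u.val ∧ u.val < 9) ∪
      (s.filter fun u => 9 ≤ u.val) := by
    intro u hu
    simp only [Finset.mem_union, Finset.mem_filter, hu, true_and]
    omega
  have hc := Finset.card_le_card hsub
  have hc1 := Finset.card_union_le ((s.filter fun u => u.val < 4) ∪
    (s.filter fun u => 4 ≤ u.val ∧ u.val < 9)) (s.filter fun u => 9 ≤ u.val)
  have hc2 := Finset.card_union_le (s.filter fun u => u.val < 4)
    (s.filter fun u => 4 ≤ u.val ∧ u.val < 9)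
  have := hs.card_eq
  omega

theorem L_edges : L.edgeSet.ncard = 81 := by
  have h : L.edgeFinset.card = 81 := by
    have h1 := L.sum_degrees_eq_twice_card_edges
    have h2 : ∑ v, L.degree v = 162 := by
      simp only [SimpleGraph.degree, SimpleGraph.neighborFinset_eq_filter]
      decide +kernel
    omega
  rw [← h, ← SimpleGraph.coe_edgeFinset, Set.ncard_coe_finset]

theorem K10_edges : (⊤ : SimpleGraph (Fin 10)).edgeSet.ncard = 45 := by
  have h : (⊤ : SimpleGraph (Fin 10)).edgeFinset.card = 45 := by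
    rw [SimpleGraph.card_edgeFinset_top_eq_card_choose_two]
    decide
  rw [← h, ← SimpleGraph.coe_edgeFinset, Set.ncard_coe_finset]

/-- `K_10` minus two disjoint edges is `K_9`-free. -/
theorem K10_cliqueFree : ((⊤ : SimpleGraph (Fin 10)).deleteEdges
    {s(0, 1), s(2, 3)}).CliqueFree 9 := by
  intro s hs
  have h1 : ∀ x y : Fin 10, s(x, y) ∈ ({s(0, 1), s(2, 3)} : Set (Sym2 (Fin 10))) → x ≠ y →
      ¬ (x ∈ s ∧ y ∈ s) := by
    intro x y hxy hne hm
    have := hs.isClique hm.1 hm.2 hne
    rw [deleteEdges_adj] at this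
    exact this.2 hxy
  have h01 := h1 0 1 (by simp) (by decide)
  have h23 := h1 2 3 (by simp) (by decide)
  -- the complement has at least two elements
  have hc : (Finset.univ \ s).card = 1 := by
    rw [Finset.card_sdiff_of_subset (Finset.subset_univ s), hs.card_eq]
    simp
  obtain ⟨z, hz⟩ := Finset.card_eq_one.1 hc
  have hmem : ∀ x, x ∉ s → x = z := by
    intro x hx
    have : x ∈ Finset.univ \ s := by simp [hx]
    rw [hz, Finset.mem_singleton] at this
    exact this
  have hA : z = 0 ∨ z = 1 := by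
    by_cases h0 : (0 : Fin 10) ∈ s
    · have : (1 : Fin 10) ∉ s := fun h => h01 ⟨h0, h⟩
      exact Or.inr (hmem 1 this).symm
    · exact Or.inl (hmem 0 h0).symm
  have hB : z = 2 ∨ z = 3 := by
    by_cases h0 : (2 : Fin 10) ∈ s
    · have : (3 : Fin 10) ∉ s := fun h => h23 ⟨h0, h⟩
      exact Or.inr (hmem 3 this).symm
    · exact Or.inl (hmem 2 h0).symm
  rcases hA with rfl | rfl <;> rcases hB with h | h <;> exact absurd h (by decide)

/-- The chain: after `j` steps. -/
theorem chain (j : ℕ) : ∃ (V : Type) (_ : Fintype V) (G : SimpleGraph V) (x y : V),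
    G.Adj x y ∧ Cr 9 G ∧ Fintype.card V = 14 + 9 * j ∧ G.edgeSet.ncard ≤ 81 + 44 * j ∧
      (G.deleteEdges {s(x, y)}).CliqueFree 9 := by
  induction j with
  | zero =>
    refine ⟨Fin 14, inferInstance, L, 0, 1, by decide +kernel, L_cr, by simp, L_edges.le, ?_⟩
    exact L_cliqueFree.anti (deleteEdges_le _)
  | succ j ih =>
    obtain ⟨V, _, G, x, y, hxy, hcr, hcard, hed, hfree⟩ := ih
    obtain ⟨M, _, f1, f2, g, hM⟩ := exists_glue' V (Fin 10) x 0
    have h2 : (⊤ : SimpleGraph (Fin 10)).Adj 0 1 := by decide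
    let J := joinG G (⊤ : SimpleGraph (Fin 10)) x y 0 1 f1 f2 g hxy
    have h23 : J.Adj (f2 2) (f2 3) := by
      right; left
      refine ⟨2, 3, by decide, ?_, rfl, rfl⟩
      decide
    refine ⟨M, inferInstance, J, f2 2, f2 3, h23, join_cr (by norm_num) g hcr
      (top_cr (by norm_num)) hxy h2, ?_, ?_, ?_⟩
    · rw [Fintype.card_fin] at hM
      omega
    · have : J.edgeSet.ncard + 1 ≤ _ := joinG_card g hxy h2
      rw [K10_edges] at this
      omega
    · apply cliqueFree_of_sides g hxy (J.deleteEdges {s(f2 2, f2 3)}) (deleteEdges_le _)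
        (G.deleteEdges {s(x, y)}) ((⊤ : SimpleGraph (Fin 10)).deleteEdges {s(0, 1), s(2, 3)})
        _ _ (by norm_num) hfree K10_cliqueFree
      · intro p q h
        rw [deleteEdges_adj] at h
        exact joinG_side1 g hxy h2 p q h.1
      · intro p q h
        rw [deleteEdges_adj] at h
        have h3 := joinG_side2 g hxy p q h.1
        rw [deleteEdges_adj] at h3 ⊢
        refine ⟨h3.1, ?_⟩
        intro h4
        rw [Set.mem_insert_iff, Set.mem_singleton_iff] at h4
        rcases h4 with h4 | h4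
        · exact h3.2 h4
        · apply h.2
          rw [Set.mem_singleton_iff]
          have := congrArg (Sym2.map f2) h4
          exact this

/-- The final graphs. -/
theorem final (j : ℕ) : ∃ (V : Type) (_ : Fintype V) (G : SimpleGraph V),
    Cr 9 G ∧ Fintype.card V = 27 + 9 * j ∧ G.edgeSet.ncard ≤ 161 + 44 * j ∧ G.CliqueFree 9 := by
  obtain ⟨V, _, G, x, y, hxy, hcr, hcard, hed, hfree⟩ := chain j
  obtain ⟨M, _, f1, f2, g, hM⟩ := exists_glue' V (Fin 14) x 0
  have h2 : L.Adj 0 1 := by decide +kernel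
  refine ⟨M, inferInstance, joinG G L x y 0 1 f1 f2 g hxy, join_cr (by norm_num) g hcr
    L_cr hxy h2, ?_, ?_, ?_⟩
  · rw [Fintype.card_fin] at hM
    omega
  · have := joinG_card g hxy h2
    rw [L_edges] at this
    omega
  · apply cliqueFree_of_sides g hxy _ le_rfl (G.deleteEdges {s(x, y)}) L
      _ _ (by norm_num) hfree L_cliqueFree
    · intro p q h
      exact joinG_side1 g hxy h2 p q h
    · intro p q h
      have h3 := joinG_side2 g hxy p q h
      rw [deleteEdges_adj] at h3
      exact h3.1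

theorem cr_iso {q : ℕ} {V W : Type} {G : SimpleGraph V} {H : SimpleGraph W} (e : G ≃g H)
    (h : Cr q G) : Cr q H := by
  refine ⟨?_, ?_, ?_⟩
  · intro c
    obtain ⟨u, v, huv, he⟩ := h.1 (fun v => c (e v))
    exact ⟨e u, e v, e.map_adj_iff.2 huv, he⟩
  · intro a b hab
    obtain ⟨c, hc⟩ := h.2.1 (e.symm a) (e.symm b) (e.symm.map_adj_iff.2 hab)
    refine ⟨fun w => c (e.symm w), ?_⟩
    intro u v huv hs
    apply hc _ _ (e.symm.map_adj_iff.2 huv)
    intro h2
    apply hs
    have := congrArg (Sym2.map e) h2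
    simpa using this
  · intro v
    obtain ⟨u, hu⟩ := h.2.2 (e.symm v)
    refine ⟨e u, ?_⟩
    have := e.map_adj_iff.2 hu
    simpa using this

/-- The graphs on `Fin n`. -/
theorem main (j : ℕ) : ∃ G : SimpleGraph (Fin (27 + 9 * j)),
    IsCritical 10 G ∧ G.CliqueFree 9 ∧ G.edgeSet.ncard ≤ 161 + 44 * j := by
  obtain ⟨V, _, G, hcr, hcard, hed, hfree⟩ := final j
  let e : V ≃ Fin (27 + 9 * j) := Fintype.equivFinOfCardEq hcard
  let H : SimpleGraph (Fin (27 + 9 * j)) := G.map e.toEmbedding
  let i : G ≃g H := SimpleGraph.Iso.map e G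
  refine ⟨H, critical_of_cr (by norm_num) (cr_iso i hcr), ?_, ?_⟩
  · intro s hs
    have h2 := hfree (s.map e.symm.toEmbedding)
    apply h2
    constructor
    · intro u hu v hv huv
      rw [Finset.mem_coe, Finset.mem_map_equiv, Equiv.symm_symm] at hu hv
      have := hs.isClique hu hv (fun h => huv (e.injective h))
      exact i.map_adj_iff.1 this
    · rw [Finset.card_map, hs.card_eq]
  · have : H.edgeSet = Sym2.map e '' G.edgeSet := by
      ext x
      induction x using Sym2.ind with
      | _ a b =>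
        rw [mem_edgeSet]
        constructor
        · intro h
          have h3 : G.Adj (e.symm a) (e.symm b) := i.symm.map_adj_iff.2 h
          exact ⟨s(e.symm a, e.symm b), h3, by simp⟩
        · rintro ⟨y, hy, hy2⟩
          induction y using Sym2.ind with
          | _ u v =>
            rw [Sym2.map_mk, Sym2.eq_iff] at hy2
            have h3 : H.Adj (e u) (e v) := i.map_adj_iff.2 hy
            rcases hy2 with ⟨h4, h5⟩ | ⟨h4, h5⟩
            · rw [← h4, ← h5]; exact h3
            · rw [← h4, ← h5]; exact h3.symm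
    rw [this]
    exact (Set.ncard_image_le (Set.toFinite _)).trans hed

end Q129.Schonheim
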