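import Mathlib

set_option autoImplicit false

/-!
The chromatic number of the orthogonality graph on the vectors in `{-1,0,1}^n` with four nonzero
coordinates grows faster than linearly.
-/

namespace Q129.SignedJohnson

open Finset

/-- The vectors in `{-1,0,1}^n` with exactly `k` nonzero coordinates. -/
def Vert (n k : ℕ) : Type :=
  {v : Fin n → ℤ // (∀ i, v i = -1 ∨ v i = 0 ∨ v i = 1) ∧ (univ.filter fun i => v i ≠ 0).card = k}

/-- The graph `J_±(n,k,t)`. -/
def signedJohnson (n k : ℕ) (t : ℤ) : SimpleGraph (Vert n k) where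
  Adj u v := u ≠ v ∧ ∑ i, u.1 i * v.1 i = t
  symm := ⟨fun u v h => ⟨h.1.symm, by rw [← h.2]; exact sum_congr rfl fun i _ => mul_comm _ _⟩⟩
  loopless := ⟨fun _ h => h.1 rfl⟩

/-- The signs. -/
def eps : Fin 4 → ℤ := ![1, -1, 1, -1]

theorem eps_sq (p : Fin 4) : eps p = 1 ∨ eps p = -1 := by
  fin_cases p <;> simp [eps]

theorem eps_ne (p : Fin 4) : eps p ≠ 0 := by
  rcases eps_sq p with h | h <;> rw [h] <;> norm_num

variable {n : ℕ}

/-- The function with value `eps p` at `f p` and `0` elsewhere. -/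
def wf (f : Fin 4 → Fin n) (i : Fin n) : ℤ := ∑ p, if f p = i then eps p else 0

theorem wf_apply {f : Fin 4 → Fin n} (hf : Function.Injective f) (p : Fin 4) :
    wf f (f p) = eps p := by
  unfold wf
  rw [sum_eq_single p]
  · simp
  · intro q _ hq
    rw [if_neg (fun h => hq (hf h))]
  · simp

theorem wf_zero {f : Fin 4 → Fin n} {i : Fin n} (h : ∀ p, f p ≠ i) : wf f i = 0 :=
  sum_eq_zero fun p _ => if_neg (h p)

theorem exists_of_wf {f : Fin 4 → Fin n} {i : Fin n} (h : wf f i ≠ 0) : ∃ p, f p = i := by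
  by_contra hcon
  push Not at hcon
  exact h (wf_zero hcon)

/-- The vertex of an injective function. -/
def w (f : Fin 4 → Fin n) (hf : Function.Injective f) : Vert n 4 :=
  ⟨wf f, by
    constructor
    · intro i
      by_cases h : ∃ p, f p = i
      · obtain ⟨p, rfl⟩ := h
        rw [wf_apply hf]
        rcases eps_sq p with h | h <;> rw [h] <;> simp
      · push Not at h
        rw [wf_zero h]
        simp
    · have : (univ.filter fun i => wf f i ≠ 0) = univ.map ⟨f, hf⟩ := by
        ext i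
        simp only [mem_filter, mem_univ, true_and, mem_map, Function.Embedding.coeFn_mk]
        constructor
        · exact exists_of_wf
        · rintro ⟨p, rfl⟩
          rw [wf_apply hf]
          exact eps_ne p
      rw [this, card_map]
      simp⟩

/-- Counting functions with two prescribed values. -/
theorem card_two (r s : Fin 4) (hrs : r ≠ s) (a b : Fin n) :
    (univ.filter fun f : Fin 4 → Fin n => f r = a ∧ f s = b).card ≤ n ^ 2 := by
  have hsub : (univ.filter fun f : Fin 4 → Fin n => f r = a ∧ f s = b) ⊆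
      Fintype.piFinset (fun t => if t = r then {a} else if t = s then {b} else univ) := by
    intro f hf
    simp only [mem_filter, mem_univ, true_and] at hf
    rw [Fintype.mem_piFinset]
    intro t
    split_ifs with h1 h2
    · rw [h1, hf.1]; simp
    · rw [h2, hf.2]; simp
    · simp
  refine (card_le_card hsub).trans ?_
  rw [Fintype.card_piFinset, Fin.prod_univ_four]
  fin_cases r <;> fin_cases s <;> simp at hrs ⊢ <;> nlinarith

/-- Counting functions with three prescribed values. -/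
theorem card_three (r s t : Fin 4) (hrs : r ≠ s) (hrt : r ≠ t) (hst : s ≠ t) (a b c : Fin n) :
    (univ.filter fun f : Fin 4 → Fin n => f r = a ∧ f s = b ∧ f t = c).card ≤ n := by
  have hsub : (univ.filter fun f : Fin 4 → Fin n => f r = a ∧ f s = b ∧ f t = c) ⊆
      Fintype.piFinset (fun x => if x = r then {a} else if x = s then {b} else
        if x = t then {c} else univ) := by
    intro f hf
    simp only [mem_filter, mem_univ, true_and] at hf
    rw [Fintype.mem_piFinset]
    intro x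
    split_ifs with h1 h2 h3
    · rw [h1, hf.1]; simp
    · rw [h2, hf.2.1]; simp
    · rw [h3, hf.2.2]; simp
    · simp
  refine (card_le_card hsub).trans ?_
  rw [Fintype.card_piFinset, Fin.prod_univ_four]
  fin_cases r <;> fin_cases s <;> fin_cases t <;> simp at hrs hrt hst ⊢

/-- The number of rectangles in a bipartite relation. -/
theorem rectangles {α : Type} [DecidableEq α] (X Y : Finset α) (N : ℕ) (hX : X.card = N)
    (hY : Y.card = N) (E : α → α → Prop) [DecidableRel E] :
    (((X ×ˢ Y).filter fun p => E p.1 p.2).card) ^ 4 ≤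
      N ^ 4 * (((X ×ˢ X) ×ˢ (Y ×ˢ Y)).filter fun q => E q.1.1 q.2.1 ∧ E q.1.1 q.2.2 ∧
        E q.1.2 q.2.1 ∧ E q.1.2 q.2.2).card := by
  -- degrees and codegrees
  set d : α → ℕ := fun y => (X.filter fun x => E x y).card with hd
  set cd : α × α → ℕ := fun p => (Y.filter fun y => E p.1 y ∧ E p.2 y).card with hcd
  have h1 : ((X ×ˢ Y).filter fun p => E p.1 p.2).card = ∑ y ∈ Y, d y := by
    rw [card_filter, sum_product_right]
    apply sum_congr rfl
    intro y _
    rw [hd]
    simp only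
    rw [card_filter]
  have h2 : ∑ p ∈ X ×ˢ X, cd p = ∑ y ∈ Y, d y ^ 2 := by
    have : ∀ p, cd p = ∑ y ∈ Y, if E p.1 y ∧ E p.2 y then 1 else 0 := by
      intro p; rw [hcd]; simp only; rw [card_filter]
    simp only [this]
    rw [sum_comm]
    apply sum_congr rfl
    intro y _
    rw [hd, pow_two]
    simp only
    rw [← card_product, ← card_filter]
    congr 1
    ext p
    simp only [mem_filter, mem_product]
    tauto
  have h3 : (((X ×ˢ X) ×ˢ (Y ×ˢ Y)).filter fun q => E q.1.1 q.2.1 ∧ E q.1.1 q.2.2 ∧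
        E q.1.2 q.2.1 ∧ E q.1.2 q.2.2).card = ∑ p ∈ X ×ˢ X, cd p ^ 2 := by
    rw [card_filter, sum_product]
    apply sum_congr rfl
    intro p _
    rw [hcd, pow_two]
    simp only
    rw [← card_product, ← card_filter]
    congr 1
    ext q
    simp only [mem_filter, mem_product]
    tauto
  have c1 : (∑ y ∈ Y, d y) ^ 2 ≤ N * ∑ y ∈ Y, d y ^ 2 := by
    rw [← hY]; exact sq_sum_le_card_mul_sum_sq
  have c2 : (∑ p ∈ X ×ˢ X, cd p) ^ 2 ≤ (N * N) * ∑ p ∈ X ×ˢ X, cd p ^ 2 := by
    have : (X ×ˢ X).card = N * N := by rw [card_product, hX]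
    rw [← this]; exact sq_sum_le_card_mul_sum_sq
  rw [h1, h3]
  calc (∑ y ∈ Y, d y) ^ 4 = ((∑ y ∈ Y, d y) ^ 2) ^ 2 := by ring
    _ ≤ (N * ∑ y ∈ Y, d y ^ 2) ^ 2 := Nat.pow_le_pow_left c1 2
    _ = N ^ 2 * (∑ p ∈ X ×ˢ X, cd p) ^ 2 := by rw [h2]; ring
    _ ≤ N ^ 2 * ((N * N) * ∑ p ∈ X ×ˢ X, cd p ^ 2) := Nat.mul_le_mul_left _ c2
    _ = N ^ 4 * ∑ p ∈ X ×ˢ X, cd p ^ 2 := by ring

theorem inj4 {α : Type} {a b c d : α} (h1 : a ≠ b) (h2 : a ≠ c) (h3 : a ≠ d) (h4 : b ≠ c)
    (h5 : b ≠ d) (h6 : c ≠ d) : Function.Injective ![a, b, c, d] := by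
  intro p p' h
  fin_cases p <;> fin_cases p' <;> simp at h ⊢
  · exact h1 h
  · exact h2 h
  · exact h3 h
  · exact h1 h.symm
  · exact h4 h
  · exact h5 h
  · exact h2 h.symm
  · exact h4 h.symm
  · exact h6 h
  · exact h3 h.symm
  · exact h5 h.symm
  · exact h6 h.symm

/-- A vertex has four coordinates. -/
theorem enum (v : Vert n 4) : ∃ g : Fin 4 → Fin n, ∀ i, v.1 i ≠ 0 → ∃ p, g p = i := by
  let e := (univ.filter fun i => v.1 i ≠ 0).equivFinOfCardEq v.2.2
  refine ⟨fun p => (e.symm p : Fin n), ?_⟩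
  intro i hi
  refine ⟨e ⟨i, by simpa using hi⟩, ?_⟩
  simp

theorem val_sq (v : Vert n 4) {i : Fin n} (h : v.1 i ≠ 0) : v.1 i = 1 ∨ v.1 i = -1 := by
  rcases v.2.1 i with h1 | h1 | h1
  · exact Or.inr h1
  · exact absurd h1 h
  · exact Or.inl h1

variable {M : ℕ} {c : Vert n 4 → Fin M}

theorem sum_ne (hc : ∀ u v, (signedJohnson n 4 0).Adj u v → c u ≠ c v) {u v : Vert n 4}
    (h : c u = c v) (hne : u ≠ v) : ∑ i, u.1 i * v.1 i ≠ 0 :=
  fun h0 => hc u v ⟨hne, h0⟩ h

theorem meet (hc : ∀ u v, (signedJohnson n 4 0).Adj u v → c u ≠ c v) {u v : Vert n 4}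
    (h : c u = c v) : ∃ i, u.1 i ≠ 0 ∧ v.1 i ≠ 0 := by
  by_cases hne : u = v
  · subst hne
    have : (univ.filter fun i => u.1 i ≠ 0).Nonempty := by
      rw [← card_pos, u.2.2]; norm_num
    obtain ⟨i, hi⟩ := this
    simp only [mem_filter, mem_univ, true_and] at hi
    exact ⟨i, hi, hi⟩
  · obtain ⟨i, _, hi⟩ := exists_ne_zero_of_sum_ne_zero (sum_ne hc h hne)
    exact ⟨i, left_ne_zero_of_mul hi, right_ne_zero_of_mul hi⟩

open Classical in
/-- A class without a common coordinate contains few quadruples. -/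
theorem nonstar_card (hc : ∀ u v, (signedJohnson n 4 0).Adj u v → c u ≠ c v) (i : Fin M)
    (hi : ∀ j, ∃ v, c v = i ∧ v.1 j = 0) :
    (univ.filter fun f : Fin 4 → Fin n => ∃ hf : Function.Injective f, c (w f hf) = i).card ≤
      256 * n ^ 2 := by
  by_cases hne : ∃ (f : Fin 4 → Fin n) (hf : Function.Injective f), c (w f hf) = i
  · obtain ⟨f0, hf0, hi0⟩ := hne
    choose B hB using fun p => hi (f0 p)
    choose g hg using fun p => enum (B p)
    let T : Fin 4 × Fin 4 × Fin 4 × Fin 4 → Finset (Fin 4 → Fin n) := fun x =>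
      if x.2.1 = x.2.2.2 then ∅ else
        univ.filter fun f => f x.2.1 = f0 x.1 ∧ f x.2.2.2 = g x.1 x.2.2.1
    have hsub : (univ.filter fun f : Fin 4 → Fin n =>
        ∃ hf : Function.Injective f, c (w f hf) = i) ⊆ univ.biUnion T := by
      intro f hf
      simp only [mem_filter, mem_univ, true_and] at hf
      obtain ⟨hf, hfi⟩ := hf
      obtain ⟨j, hj1, hj2⟩ := meet hc (hfi.trans hi0.symm)
      obtain ⟨r, hr⟩ := exists_of_wf hj1
      obtain ⟨p, hp⟩ := exists_of_wf hj2
      obtain ⟨b, hb1, hb2⟩ := meet hc (hfi.trans (hB p).1.symm)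
      obtain ⟨s, hs⟩ := exists_of_wf hb1
      obtain ⟨t, ht⟩ := hg p b hb2
      rw [mem_biUnion]
      refine ⟨(p, r, t, s), mem_univ _, ?_⟩
      have hrs : r ≠ s := by
        rintro rfl
        apply hb2
        rw [← hs, hr, ← hp]
        exact (hB p).2
      simp only [T, if_neg hrs, mem_filter, mem_univ, true_and]
      exact ⟨hr.trans hp.symm, hs.trans ht.symm⟩
    refine (card_le_card hsub).trans ?_
    have := card_biUnion_le_card_mul (univ : Finset (Fin 4 × Fin 4 × Fin 4 × Fin 4)) T (n ^ 2) (by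
      intro x _
      by_cases hx : x.2.1 = x.2.2.2
      · simp [T, hx]
      · simp only [T, if_neg hx]
        exact card_two _ _ hx _ _)
    simpa using this
  · have : (univ.filter fun f : Fin 4 → Fin n =>
        ∃ hf : Function.Injective f, c (w f hf) = i) = ∅ := by
      apply filter_eq_empty_iff.2
      intro f _ hf
      exact hne ⟨f, hf⟩
    rw [this]
    simp

/-- Both signs occur at `a` relative to `j`. -/
def Mixed (c : Vert n 4 → Fin M) (i : Fin M) (j a : Fin n) : Prop :=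
  (∃ v, c v = i ∧ v.1 j * v.1 a = 1) ∧ ∃ v, c v = i ∧ v.1 j * v.1 a = -1

/-- The third element in the support. -/
theorem third (hc : ∀ u v, (signedJohnson n 4 0).Adj u v → c u ≠ c v) {u v : Vert n 4}
    (h : c u = c v) {j a : Fin n} (hja : j ≠ a) (h2 : (u.1 j * u.1 a) * (v.1 j * v.1 a) = -1) :
    ∃ b, b ≠ j ∧ b ≠ a ∧ u.1 b ≠ 0 ∧ v.1 b ≠ 0 := by
  by_contra hcon
  push Not at hcon
  have hne : u ≠ v := by
    rintro rfl
    have : (u.1 j * u.1 a) * (u.1 j * u.1 a) = -1 := h2
    nlinarith [mul_self_nonneg (u.1 j * u.1 a)]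
  apply sum_ne hc h hne
  rw [Fintype.sum_eq_add j a hja]
  · have e1 : u.1 j ≠ 0 := by intro h0; rw [h0] at h2; simp at h2
    have e2 : u.1 a ≠ 0 := by intro h0; rw [h0] at h2; simp at h2
    have e3 : v.1 j ≠ 0 := by intro h0; rw [h0] at h2; simp at h2
    have e4 : v.1 a ≠ 0 := by intro h0; rw [h0] at h2; simp at h2
    rcases val_sq u e1 with h5 | h5 <;> rcases val_sq u e2 with h6 | h6 <;>
      rcases val_sq v e3 with h7 | h7 <;> rcases val_sq v e4 with h8 | h8 <;>
      rw [h5, h6, h7, h8] at h2 ⊢ <;> revert h2 <;> norm_num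
  · intro x hx
    by_cases hu : u.1 x = 0
    · rw [hu, zero_mul]
    · rw [hcon x hx.1 hx.2 hu, mul_zero]

open Classical in
/-- In a star class few quadruples contain a mixed element. -/
theorem mixed_card (hc : ∀ u v, (signedJohnson n 4 0).Adj u v → c u ≠ c v) (i : Fin M)
    (j : Fin n) (hj : ∀ v, c v = i → v.1 j ≠ 0) :
    (univ.filter fun f : Fin 4 → Fin n => ∃ hf : Function.Injective f, c (w f hf) = i ∧
      ∃ s, Mixed c i j (f s)).card ≤ 512 * n ^ 2 := by
  have hex : ∀ a : Fin n, ∃ g : Fin 2 → Fin 4 → Fin n, Mixed c i j a →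
      ∀ (f : Fin 4 → Fin n) (hf : Function.Injective f), c (w f hf) = i → ∀ s, f s = a →
        ∃ r t : Fin 4, ∃ x : Fin 2, ∃ y : Fin 4, r ≠ s ∧ r ≠ t ∧ s ≠ t ∧ f r = j ∧
          f t = g x y := by
    intro a
    by_cases hm : Mixed c i j a
    · obtain ⟨⟨v, hv, hv1⟩, v', hv', hv1'⟩ := hm
      obtain ⟨g, hg⟩ := enum v
      obtain ⟨g', hg'⟩ := enum v'
      refine ⟨![g, g'], fun _ f hf hfi s hs => ?_⟩
      have hja : j ≠ a := by
        rintro rfl
        nlinarith [mul_self_nonneg (v'.1 j)]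
      obtain ⟨r, hr⟩ := exists_of_wf (hj _ hfi)
      have hrs : r ≠ s := by
        rintro rfl
        exact hja (hr.symm.trans hs)
      have hprod : (w f hf).1 j * (w f hf).1 a = 1 ∨ (w f hf).1 j * (w f hf).1 a = -1 := by
        have e1 : (w f hf).1 j = eps r := by rw [← hr]; exact wf_apply hf r
        have e2 : (w f hf).1 a = eps s := by rw [← hs]; exact wf_apply hf s
        rw [e1, e2]
        rcases eps_sq r with h | h <;> rcases eps_sq s with h' | h' <;> rw [h, h'] <;> norm_num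
      rcases hprod with hp | hp
      · obtain ⟨b, hb1, hb2, hb3, hb4⟩ := third hc (hfi.trans hv'.symm) hja
          (by rw [hp, hv1']; norm_num)
        obtain ⟨t, ht⟩ := exists_of_wf hb3
        obtain ⟨y, hy⟩ := hg' b hb4
        refine ⟨r, t, 1, y, hrs, ?_, ?_, hr, ?_⟩
        · rintro rfl; exact hb1 (ht.symm.trans hr)
        · rintro rfl; exact hb2 (ht.symm.trans hs)
        · simpa using ht.trans hy.symm
      · obtain ⟨b, hb1, hb2, hb3, hb4⟩ := third hc (hfi.trans hv.symm) hja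
          (by rw [hp, hv1]; norm_num)
        obtain ⟨t, ht⟩ := exists_of_wf hb3
        obtain ⟨y, hy⟩ := hg b hb4
        refine ⟨r, t, 0, y, hrs, ?_, ?_, hr, ?_⟩
        · rintro rfl; exact hb1 (ht.symm.trans hr)
        · rintro rfl; exact hb2 (ht.symm.trans hs)
        · simpa using ht.trans hy.symm
    · exact ⟨fun _ _ => a, fun h => absurd h hm⟩
  choose g hg using hex
  let T : Fin n × Fin 4 × Fin 4 × Fin 4 × Fin 2 × Fin 4 → Finset (Fin 4 → Fin n) := fun z =>
    if z.2.1 ≠ z.2.2.1 ∧ z.2.1 ≠ z.2.2.2.1 ∧ z.2.2.1 ≠ z.2.2.2.1 then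
      univ.filter fun f => f z.2.1 = j ∧ f z.2.2.1 = z.1 ∧
        f z.2.2.2.1 = g z.1 z.2.2.2.2.1 z.2.2.2.2.2
    else ∅
  have hsub : (univ.filter fun f : Fin 4 → Fin n => ∃ hf : Function.Injective f,
      c (w f hf) = i ∧ ∃ s, Mixed c i j (f s)) ⊆ univ.biUnion T := by
    intro f hf
    simp only [mem_filter, mem_univ, true_and] at hf
    obtain ⟨hf, hfi, s, hs⟩ := hf
    obtain ⟨r, t, x, y, h1, h2, h3, h4, h5⟩ := hg (f s) hs f hf hfi s rfl
    rw [mem_biUnion]
    refine ⟨(f s, r, s, t, x, y), mem_univ _, ?_⟩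
    simp only [T]
    rw [if_pos ⟨h1, h2, h3⟩, mem_filter]
    exact ⟨mem_univ _, h4, rfl, h5⟩
  refine (card_le_card hsub).trans ?_
  have := card_biUnion_le_card_mul
    (univ : Finset (Fin n × Fin 4 × Fin 4 × Fin 4 × Fin 2 × Fin 4)) T n (by
      intro z _
      simp only [T]
      split_ifs with hz
      · exact card_three _ _ _ hz.1 hz.2.1 hz.2.2 _ _ _
      · simp)
  refine this.trans (le_of_eq ?_)
  rw [card_univ]
  simp only [Fintype.card_prod, Fintype.card_fin]
  ring

/-- The signs in a star class. -/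
theorem good {i : Fin M} {j : Fin n} (hj : ∀ v, c v = i → v.1 j ≠ 0) {f : Fin 4 → Fin n}
    (hf : Function.Injective f) (hfi : c (w f hf) = i) (hm : ∀ s, ¬ Mixed c i j (f s)) :
    ∃ r, f r = j ∧ ∀ s, ((∃ v, c v = i ∧ v.1 j * v.1 (f s) = 1) ↔ eps r * eps s = 1) := by
  obtain ⟨r, hr⟩ := exists_of_wf (hj _ hfi)
  refine ⟨r, hr, fun s => ?_⟩
  have e1 : (w f hf).1 j = eps r := by rw [← hr]; exact wf_apply hf r
  have e2 : (w f hf).1 (f s) = eps s := wf_apply hf s
  constructor
  · intro hv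
    by_contra hne
    apply hm s
    refine ⟨hv, w f hf, hfi, ?_⟩
    rw [e1, e2]
    rcases eps_sq r with h | h <;> rcases eps_sq s with h' | h' <;> rw [h, h'] at hne ⊢ <;>
      revert hne <;> norm_num
  · intro h
    exact ⟨w f hf, hfi, by rw [e1, e2, h]⟩

open Classical in
/-- The main inequality. -/
theorem main_ineq {C : ℕ} (hM : M ≤ C * n)
    (hc : ∀ u v, (signedJohnson n 4 0).Adj u v → c u ≠ c v) {N : ℕ} (hN : 0 < N)
    (hNn : 4 * N ≤ n) :
    N ^ 4 ≤ ((2 ^ (2 * C + 1)) ^ 2) ^ 4 * (768 * C * n ^ 3 + 2 * N ^ 3) := by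
  have hn : 0 < n := by omega
  -- centres
  obtain ⟨ctr, hctr⟩ : ∃ ctr : Fin M → Fin n, ∀ i, (∃ j, ∀ v, c v = i → v.1 j ≠ 0) →
      ∀ v, c v = i → v.1 (ctr i) ≠ 0 := by
    refine ⟨fun i => if h : ∃ j, ∀ v, c v = i → v.1 j ≠ 0 then h.choose else ⟨0, hn⟩, ?_⟩
    intro i hi
    simp only [dif_pos hi]
    exact hi.choose_spec
  -- bad quadruples
  set Bad : Finset (Fin 4 → Fin n) := univ.filter fun f => ∃ hf : Function.Injective f,
    (∀ j, ∃ v, c v = c (w f hf) ∧ v.1 j = 0) ∨ ∃ s, Mixed c (c (w f hf)) (ctr (c (w f hf))) (f s)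
    ∧ (∃ j, ∀ v, c v = c (w f hf) → v.1 j ≠ 0) with hBad
  have hBadcard : Bad.card ≤ 768 * C * n ^ 3 := by
    let T : Fin M → Finset (Fin 4 → Fin n) := fun i =>
      if (∀ j, ∃ v, c v = i ∧ v.1 j = 0) then
        (univ.filter fun f : Fin 4 → Fin n => ∃ hf : Function.Injective f, c (w f hf) = i)
      else (univ.filter fun f : Fin 4 → Fin n => ∃ hf : Function.Injective f, c (w f hf) = i ∧
        ∃ s, Mixed c i (ctr i) (f s))
    have hsub : Bad ⊆ univ.biUnion T := by
      intro f hf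
      simp only [hBad, mem_filter, mem_univ, true_and] at hf
      obtain ⟨hf, hf'⟩ := hf
      rw [mem_biUnion]
      refine ⟨c (w f hf), mem_univ _, ?_⟩
      simp only [T]
      split_ifs with h1
      · rw [mem_filter]
        exact ⟨mem_univ _, hf, rfl⟩
      · rw [mem_filter]
        rcases hf' with h2 | ⟨s, h2, _⟩
        · exact absurd h2 h1
        · exact ⟨mem_univ _, hf, rfl, s, h2⟩
    have hT := card_biUnion_le_card_mul (univ : Finset (Fin M)) T (768 * n ^ 2) (by
      intro i _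
      simp only [T]
      split_ifs with h1
      · refine (nonstar_card hc i h1).trans ?_
        exact Nat.mul_le_mul_right _ (by norm_num)
      · push Not at h1
        refine (mixed_card hc i (ctr i) (hctr i h1)).trans ?_
        exact Nat.mul_le_mul_right _ (by norm_num))
    refine (card_le_card hsub).trans (hT.trans ?_)
    rw [card_univ, Fintype.card_fin]
    calc M * (768 * n ^ 2) ≤ (C * n) * (768 * n ^ 2) := Nat.mul_le_mul_right _ hM
      _ = 768 * C * n ^ 3 := by ring
  -- cheap centres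
  set cls : Fin n → Finset (Fin M) := fun x => univ.filter fun i => ctr i = x with hcls
  have hsum : ∑ x, (cls x).card = M := by
    have := card_eq_sum_card_fiberwise (f := ctr) (s := (univ : Finset (Fin M)))
      (t := (univ : Finset (Fin n))) (fun _ _ => mem_coe.2 (mem_univ _))
    rw [card_univ, Fintype.card_fin] at this
    exact this.symm
  set J : Finset (Fin n) := univ.filter fun x => (cls x).card ≤ 2 * C with hJ
  have hJcard : 2 * N ≤ J.card := by
    have h1 : (univ.filter fun x => ¬ (cls x).card ≤ 2 * C).card * (2 * C + 1) ≤ M := by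
      refine le_trans ?_ hsum.le
      rw [← smul_eq_mul, ← sum_const]
      refine (sum_le_sum (f := fun _ => 2 * C + 1) (g := fun x => (cls x).card) ?_).trans
        (sum_le_sum_of_subset (filter_subset _ _))
      intro x hx
      simp only [mem_filter, mem_univ, true_and, not_le] at hx
      exact hx
    have h2 : J.card + (univ.filter fun x => ¬ (cls x).card ≤ 2 * C).card = n := by
      rw [hJ, card_filter_add_card_filter_not, card_univ, Fintype.card_fin]
    set b := (univ.filter fun x => ¬ (cls x).card ≤ 2 * C).card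
    have h3 : b * (2 * C + 1) ≤ C * n := h1.trans hM
    have h4 : 2 * b ≤ n := by
      by_contra hcon
      push Not at hcon
      have : C * n ≤ C * (2 * b) := Nat.mul_le_mul_left _ hcon.le
      have h5 : b * (2 * C + 1) = C * (2 * b) + b := by ring
      omega
    omega
  -- encodings
  have henc : ∀ x : Fin n, ∃ e : Fin M → Fin (2 * C + 1), x ∈ J → Set.InjOn e (cls x) := by
    intro x
    by_cases hx : x ∈ J
    · simp only [hJ, mem_filter, mem_univ, true_and] at hx
      have : Fintype.card {i // i ∈ cls x} ≤ Fintype.card (Fin (2 * C + 1)) := by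
        rw [Fintype.card_coe, Fintype.card_fin]; omega
      obtain ⟨emb⟩ := Function.Embedding.nonempty_of_card_le this
      refine ⟨fun i => if h : i ∈ cls x then emb ⟨i, h⟩ else 0, fun _ => ?_⟩
      intro i hi i' hi' he
      rw [mem_coe] at hi hi'
      simp only [dif_pos hi, dif_pos hi'] at he
      exact congrArg Subtype.val (emb.injective he)
    · exact ⟨fun _ => 0, fun h => absurd h hx⟩
  choose e he using henc
  set sg : Fin n → Fin n → Finset (Fin (2 * C + 1)) := fun x y =>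
    ((cls x).filter fun i => ∃ v, c v = i ∧ v.1 x * v.1 y = 1).image (e x) with hsg
  have hsg_eq : ∀ x ∈ J, ∀ y y', sg x y = sg x y' → ∀ i ∈ cls x,
      ((∃ v, c v = i ∧ v.1 x * v.1 y = 1) → ∃ v, c v = i ∧ v.1 x * v.1 y' = 1) := by
    intro x hx y y' hyy i hi hv
    have : e x i ∈ sg x y := mem_image_of_mem _ (mem_filter.2 ⟨hi, hv⟩)
    rw [hyy, hsg, mem_image] at this
    obtain ⟨i', hi', he'⟩ := this
    rw [mem_filter] at hi'
    have := he x hx (mem_coe.2 hi'.1) (mem_coe.2 hi) he'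
    rw [← this]
    exact hi'.2
  -- the two sets
  obtain ⟨X, hXJ, hXc⟩ := exists_subset_card_eq (show N ≤ J.card by omega)
  obtain ⟨Y, hYJ, hYc⟩ := exists_subset_card_eq (s := J \ X) (n := N) (by
    rw [card_sdiff_of_subset hXJ]; omega)
  have hYJ' : Y ⊆ J := hYJ.trans sdiff_subset
  have hXY : ∀ x ∈ X, ∀ y ∈ Y, x ≠ y := by
    rintro x hx y hy rfl
    exact (mem_sdiff.1 (hYJ hy)).2 hx
  -- majority colour
  let κ : Fin n × Fin n → Finset (Fin (2 * C + 1)) × Finset (Fin (2 * C + 1)) := fun p =>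
    (sg p.1 p.2, sg p.2 p.1)
  obtain ⟨κ0, hκ0⟩ : ∃ κ0, N ^ 2 ≤ (2 ^ (2 * C + 1)) ^ 2 *
      ((X ×ˢ Y).filter fun p => κ p = κ0).card := by
    by_contra hcon
    push Not at hcon
    have h1 := card_eq_sum_card_fiberwise (f := κ) (s := X ×ˢ Y) (t := univ)
      (fun _ _ => mem_coe.2 (mem_univ _))
    rw [card_product, hXc, hYc] at h1
    have h2 : ∑ κ0, (2 ^ (2 * C + 1)) ^ 2 * ((X ×ˢ Y).filter fun p => κ p = κ0).card <
        ∑ κ0 : Finset (Fin (2 * C + 1)) × Finset (Fin (2 * C + 1)), N ^ 2 :=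
      sum_lt_sum_of_nonempty univ_nonempty (fun κ0 _ => hcon κ0)
    rw [← mul_sum, ← h1, sum_const, card_univ, smul_eq_mul, Fintype.card_prod,
      Fintype.card_finset, Fintype.card_fin] at h2
    have h3 : (2 ^ (2 * C + 1)) ^ 2 * (N * N) = 2 ^ (2 * C + 1) * 2 ^ (2 * C + 1) * N ^ 2 := by
      ring
    omega
  -- rectangles
  have hrect := rectangles X Y N hXc hYc (fun x y => κ (x, y) = κ0)
  set R := (((X ×ˢ X) ×ˢ (Y ×ˢ Y)).filter fun q => κ (q.1.1, q.2.1) = κ0 ∧
    κ (q.1.1, q.2.2) = κ0 ∧ κ (q.1.2, q.2.1) = κ0 ∧ κ (q.1.2, q.2.2) = κ0) with hR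
  have hRlow : N ^ 4 ≤ ((2 ^ (2 * C + 1)) ^ 2) ^ 4 * R.card := by
    have h1 : (N ^ 2) ^ 4 ≤ ((2 ^ (2 * C + 1)) ^ 2 *
      ((X ×ˢ Y).filter fun p => κ p = κ0).card) ^ 4 := Nat.pow_le_pow_left hκ0 4
    have h2 : ((2 ^ (2 * C + 1)) ^ 2 * ((X ×ˢ Y).filter fun p => κ p = κ0).card) ^ 4 ≤
        ((2 ^ (2 * C + 1)) ^ 2) ^ 4 * (N ^ 4 * R.card) := by
      rw [mul_pow]
      exact Nat.mul_le_mul_left _ hrect
    have h3 : N ^ 4 * N ^ 4 ≤ N ^ 4 * (((2 ^ (2 * C + 1)) ^ 2) ^ 4 * R.card) := by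
      calc N ^ 4 * N ^ 4 = (N ^ 2) ^ 4 := by ring
        _ ≤ _ := h1.trans h2
        _ = _ := by ring
    exact Nat.le_of_mul_le_mul_left h3 (by positivity)
  -- upper bound for the number of rectangles
  have hRup : R.card ≤ 768 * C * n ^ 3 + 2 * N ^ 3 := by
    have hsplit : R ⊆ (R.filter fun q => q.1.1 ≠ q.1.2 ∧ q.2.1 ≠ q.2.2) ∪
        ((((X ×ˢ X) ×ˢ (Y ×ˢ Y)).filter fun q => q.1.1 = q.1.2) ∪
        (((X ×ˢ X) ×ˢ (Y ×ˢ Y)).filter fun q => q.2.1 = q.2.2)) := by
      intro q hq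
      have hq' := (mem_filter.1 hq).1
      simp only [mem_union, mem_filter, hq, hq', true_and]
      tauto
    have hdeg1 : (((X ×ˢ X) ×ˢ (Y ×ˢ Y)).filter fun q => q.1.1 = q.1.2).card ≤ N ^ 3 := by
      have : (((X ×ˢ X) ×ˢ (Y ×ˢ Y)).filter fun q => q.1.1 = q.1.2).card ≤
          (X ×ˢ (Y ×ˢ Y)).card := by
        apply card_le_card_of_injOn (fun q => (q.1.1, q.2))
        · intro q hq
          rw [mem_coe, mem_filter, mem_product, mem_product] at hq
          rw [mem_coe, mem_product]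
          exact ⟨hq.1.1.1, hq.1.2⟩
        · intro q hq q' hq' h
          rw [mem_coe, mem_filter] at hq hq'
          simp only [Prod.mk.injEq] at h
          refine Prod.ext (Prod.ext h.1 ?_) h.2
          rw [← hq.2, ← hq'.2]; exact h.1
      refine this.trans (le_of_eq ?_)
      rw [card_product, card_product, hXc, hYc]; ring
    have hdeg2 : (((X ×ˢ X) ×ˢ (Y ×ˢ Y)).filter fun q => q.2.1 = q.2.2).card ≤ N ^ 3 := by
      have : (((X ×ˢ X) ×ˢ (Y ×ˢ Y)).filter fun q => q.2.1 = q.2.2).card ≤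
          ((X ×ˢ X) ×ˢ Y).card := by
        apply card_le_card_of_injOn (fun q => (q.1, q.2.1))
        · intro q hq
          rw [mem_coe, mem_filter, mem_product, mem_product, mem_product] at hq
          rw [mem_coe, mem_product, mem_product]
          exact ⟨hq.1.1, hq.1.2.1⟩
        · intro q hq q' hq' h
          rw [mem_coe, mem_filter] at hq hq'
          simp only [Prod.mk.injEq] at h
          refine Prod.ext h.1 (Prod.ext h.2 ?_)
          rw [← hq.2, ← hq'.2]; exact h.2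
      refine this.trans (le_of_eq ?_)
      rw [card_product, card_product, hXc, hYc]; ring
    have hmain : (R.filter fun q => q.1.1 ≠ q.1.2 ∧ q.2.1 ≠ q.2.2).card ≤ Bad.card := by
      apply card_le_card_of_injOn (fun q => ![q.1.1, q.1.2, q.2.1, q.2.2])
      · intro q hq
        rw [mem_coe, mem_filter, hR, mem_filter, mem_product, mem_product, mem_product] at hq
        obtain ⟨⟨⟨⟨hx1, hx2⟩, hy1, hy2⟩, k11, k12, k21, k22⟩, hxx, hyy⟩ := hq
        obtain ⟨⟨x1, x2⟩, y1, y2⟩ := q
        simp only at hx1 hx2 hy1 hy2 k11 k12 k21 k22 hxx hyy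
        rw [mem_coe, hBad, mem_filter]
        refine ⟨mem_univ _, ?_⟩
        have hinj : Function.Injective ![x1, x2, y1, y2] := by
          have a1 := hXY x1 hx1 y1 hy1
          have a2 := hXY x1 hx1 y2 hy2
          have a3 := hXY x2 hx2 y1 hy1
          have a4 := hXY x2 hx2 y2 hy2
          exact inj4 hxx a1 a2 a3 a4 hyy
        refine ⟨hinj, ?_⟩
        by_contra hcon
        rw [not_or] at hcon
        obtain ⟨hstar, hmix⟩ := hcon
        push Not at hstar
        obtain ⟨j0, hj0⟩ := hstar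
        set i := c (w ![x1, x2, y1, y2] hinj) with hi
        have hst := hctr i ⟨j0, hj0⟩
        obtain ⟨r, hr, hrs⟩ := good hst hinj rfl (fun s hs => hmix ⟨s, hs, j0, hj0⟩)
        have hicls : i ∈ cls (ctr i) := by simp [hcls]
        have q1 : sg x1 y1 = sg x1 y2 := congrArg Prod.fst (k11.trans k12.symm)
        have q2 : sg x2 y1 = sg x2 y2 := congrArg Prod.fst (k21.trans k22.symm)
        have q3 : sg y1 x1 = sg y1 x2 := congrArg Prod.snd (k11.trans k21.symm)
        have q4 : sg y2 x1 = sg y2 x2 := congrArg Prod.snd (k12.trans k22.symm)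
        have s0 := hrs 0
        have s1 := hrs 1
        have s2 := hrs 2
        have s3 := hrs 3
        fin_cases r
        · have hr' : x1 = ctr i := hr
          rw [← hr'] at hicls s0 s1 s2 s3
          have t1 := hsg_eq x1 (hXJ hx1) y1 y2 q1 i hicls (s2.2 (by simp [eps]))
          have t2 := s3.1 t1
          simp [eps] at t2
        · have hr' : x2 = ctr i := hr
          rw [← hr'] at hicls s0 s1 s2 s3
          have t1 := hsg_eq x2 (hXJ hx2) y2 y1 q2.symm i hicls (s3.2 (by simp [eps]))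
          have t2 := s2.1 t1
          simp [eps] at t2
        · have hr' : y1 = ctr i := hr
          rw [← hr'] at hicls s0 s1 s2 s3
          have t1 := hsg_eq y1 (hYJ' hy1) x1 x2 q3 i hicls (s0.2 (by simp [eps]))
          have t2 := s1.1 t1
          simp [eps] at t2
        · have hr' : y2 = ctr i := hr
          rw [← hr'] at hicls s0 s1 s2 s3
          have t1 := hsg_eq y2 (hYJ' hy2) x2 x1 q4.symm i hicls (s1.2 (by simp [eps]))
          have t2 := s0.1 t1
          simp [eps] at t2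
      · intro q _ q' _ h
        have h0 := congrFun h 0
        have h1 := congrFun h 1
        have h2 := congrFun h 2
        have h3 := congrFun h 3
        exact Prod.ext (Prod.ext h0 h1) (Prod.ext h2 h3)
    have h1 := card_le_card hsplit
    have h2 := card_union_le (R.filter fun q => q.1.1 ≠ q.1.2 ∧ q.2.1 ≠ q.2.2)
      ((((X ×ˢ X) ×ˢ (Y ×ˢ Y)).filter fun q => q.1.1 = q.1.2) ∪
        (((X ×ˢ X) ×ˢ (Y ×ˢ Y)).filter fun q => q.2.1 = q.2.2))
    have h3 := card_union_le (((X ×ˢ X) ×ˢ (Y ×ˢ Y)).filter fun q => q.1.1 = q.1.2)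
      (((X ×ˢ X) ×ˢ (Y ×ˢ Y)).filter fun q => q.2.1 = q.2.2)
    omega
  exact hRlow.trans (Nat.mul_le_mul_left _ hRup)

/-- No colouring with `C * n` colours for large `n`. -/
theorem not_colorable (C : ℕ) : ∃ n0 : ℕ, ∀ n, n0 ≤ n →
    ¬ (signedJohnson n 4 0).Colorable (C * n) := by
  set K := ((2 ^ (2 * C + 1)) ^ 2) ^ 4 with hK
  refine ⟨4 * (K * (768 * 512 * C + 2) + 1) + 4, fun n hn => ?_⟩
  rintro ⟨col⟩
  set N := n / 4 with hN
  have h1 : 4 * N ≤ n := Nat.mul_div_le n 4
  have h2 : K * (768 * 512 * C + 2) + 1 ≤ N := by omega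
  have h3 : 0 < N := by omega
  have h4 : n ≤ 8 * N := by omega
  have h5 := main_ineq (c := fun v => col v) le_rfl (fun u v h => col.valid h) h3 h1
  rw [← hK] at h5
  have h6 : n ^ 3 ≤ 512 * N ^ 3 := by
    calc n ^ 3 ≤ (8 * N) ^ 3 := Nat.pow_le_pow_left h4 3
      _ = 512 * N ^ 3 := by ring
  have h7 : K * (768 * C * n ^ 3 + 2 * N ^ 3) ≤ K * (768 * 512 * C + 2) * N ^ 3 := by
    calc K * (768 * C * n ^ 3 + 2 * N ^ 3) ≤ K * (768 * C * (512 * N ^ 3) + 2 * N ^ 3) := by
          gcongr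
      _ = K * (768 * 512 * C + 2) * N ^ 3 := by ring
  have h8 : N * N ^ 3 ≤ K * (768 * 512 * C + 2) * N ^ 3 := by
    calc N * N ^ 3 = N ^ 4 := by ring
      _ ≤ _ := h5.trans h7
  have h9 := Nat.le_of_mul_le_mul_right h8 (by positivity)
  omega

end Q129.SignedJohnson
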