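import Mathlib

set_option autoImplicit false

namespace Pool.Agent.Q129.SubChk

/-- Evaluate a natural number before passing it on (kernel evaluation order). -/
def frc {α : Type} (n : ℕ) (k : ℕ → α) : α :=
  Nat.rec (k 0) (fun m _ => k (Nat.succ m)) n

theorem frc_eq {α : Type} (n : ℕ) (k : ℕ → α) : frc n k = k n := by
  cases n <;> rfl

/-- Reads the code of a cluster (base 32 digits, ended by 0). Each digit `2 v + flag + 1` adds
the vertex `v`; `flag = 1` starts a new component. Every needed pair must be known.
Returns the list of vertices, their mask and the rest of the code. -/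
def clRun (A B : ℕ) : ℕ → ℕ → ℕ → ℕ → List ℕ → Option (List ℕ × ℕ × ℕ)
  | 0, _, _, _, _ => none
  | f + 1, s, cur, oth, L =>
    frc (Nat.mod s 32) fun d =>
    frc (Nat.div s 32) fun s' =>
    frc (Nat.lor cur oth) fun o =>
    cond (Nat.beq d 0) (some (L, o, s'))
      (frc (Nat.div (Nat.sub d 1) 2) fun v =>
       frc (Nat.pow 2 v) fun pv =>
       frc (Nat.shiftRight B (Nat.mul 16 v)) fun rb =>
        cond (Nat.beq (Nat.land o pv) 0)
          (cond (Nat.beq (Nat.mod (Nat.sub d 1) 2) 1)
            (cond (Nat.beq (Nat.land rb o) o)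
              (clRun A B f s' pv o (v :: L)) none)
            (cond (Nat.beq (Nat.land (Nat.shiftRight A (Nat.mul 16 v)) cur) cur &&
                Nat.beq (Nat.land rb oth) oth)
              (clRun A B f s' (Nat.lor cur pv) oth (v :: L)) none))
          none)

/-- Mask of a pair. -/
def pm (i j : ℕ) : ℕ :=
  Nat.lor (Nat.pow 2 (Nat.add (Nat.mul 16 i) j)) (Nat.pow 2 (Nat.add (Nat.mul 16 j) i))

/-- Loads the next chunk of the code when the current one is used up. -/
def nxt (s : ℕ) (cs : List ℕ) (k : ℕ → List ℕ → Option (ℕ × List ℕ)) : Option (ℕ × List ℕ) :=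
  cond (Nat.beq s 1)
    (match cs with
      | [] => none
      | c :: cs' => k c cs')
    (k s cs)

/-- Treats a leaf. -/
def lfc (leaf : ℕ → ℕ → ℕ → Option ℕ) (A B s : ℕ) (cs : List ℕ) : Option (ℕ × List ℕ) :=
  match leaf A B (Nat.div s 2) with
    | some s' => some (s', cs)
    | none => none

/-- Walks through a decision tree. -/
def chk (leaf : ℕ → ℕ → ℕ → Option ℕ) :
    List (ℕ × ℕ) → ℕ → ℕ → ℕ → List ℕ → Option (ℕ × List ℕ)
  | [], A, B, s, cs => nxt s cs fun s cs =>
      cond (Nat.beq (Nat.mod s 2) 1) (lfc leaf A B s cs) none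
  | p :: ord', A, B, s, cs => nxt s cs fun s cs =>
      cond (Nat.beq (Nat.mod s 2) 1) (lfc leaf A B s cs)
        (frc (Nat.div s 2) fun s2 =>
          frc (Nat.lor A (pm p.1 p.2)) fun A' =>
          frc (Nat.lor B (pm p.1 p.2)) fun B' =>
          match chk leaf ord' A' B s2 cs with
            | none => none
            | some r => chk leaf ord' A B' r.1 r.2)

theorem nxt_some {s : ℕ} {cs : List ℕ} {k : ℕ → List ℕ → Option (ℕ × List ℕ)} {r : ℕ × List ℕ}
    (h : nxt s cs k = some r) : ∃ s' cs', k s' cs' = some r := by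
  unfold nxt at h
  cases hb : Nat.beq s 1 with
  | false => rw [hb] at h; exact ⟨s, cs, h⟩
  | true =>
    rw [hb] at h
    cases cs with
    | nil => simp at h
    | cons c cs' => exact ⟨c, cs', h⟩

theorem lfc_some {leaf : ℕ → ℕ → ℕ → Option ℕ} {A B s : ℕ} {cs : List ℕ} {r : ℕ × List ℕ}
    (h : lfc leaf A B s cs = some r) : ∃ s', leaf A B (Nat.div s 2) = some s' := by
  unfold lfc at h
  cases hl : leaf A B (Nat.div s 2) with
  | none => rw [hl] at h; simp at h
  | some s' => exact ⟨s', rfl⟩

/-- The known adjacencies and non-adjacencies are correct. -/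
def Con (A B : ℕ) (adj : ℕ → ℕ → Prop) : Prop :=
  (∀ i j, j < 16 → A.testBit (16 * i + j) = true → adj i j) ∧
  (∀ i j, j < 16 → B.testBit (16 * i + j) = true → ¬ adj i j)

theorem pm_testBit (i j x y : ℕ) (hi : i < 16) (hj : j < 16) (hy : y < 16)
    (h : (pm i j).testBit (16 * x + y) = true) : (x = i ∧ y = j) ∨ (x = j ∧ y = i) := by
  have h1 : pm i j = 2 ^ (16 * i + j) ||| 2 ^ (16 * j + i) := rfl
  rw [h1, Nat.testBit_or, Nat.testBit_two_pow, Nat.testBit_two_pow] at h
  simp only [Bool.or_eq_true, decide_eq_true_eq] at h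
  omega

theorem Con.addA {A B : ℕ} {adj : ℕ → ℕ → Prop} (hs : ∀ x y, adj x y → adj y x)
    (h : Con A B adj) (i j : ℕ) (hi : i < 16) (hj : j < 16) (hij : adj i j) :
    Con (Nat.lor A (pm i j)) B adj := by
  refine ⟨?_, h.2⟩
  intro x y hy hb
  have h1 : Nat.lor A (pm i j) = A ||| pm i j := rfl
  rw [h1, Nat.testBit_or, Bool.or_eq_true] at hb
  rcases hb with hb | hb
  · exact h.1 x y hy hb
  · rcases pm_testBit i j x y hi hj hy hb with ⟨rfl, rfl⟩ | ⟨rfl, rfl⟩
    · exact hij
    · exact hs _ _ hij

theorem Con.addB {A B : ℕ} {adj : ℕ → ℕ → Prop} (hs : ∀ x y, adj x y → adj y x)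
    (h : Con A B adj) (i j : ℕ) (hi : i < 16) (hj : j < 16) (hij : ¬ adj i j) :
    Con A (Nat.lor B (pm i j)) adj := by
  refine ⟨h.1, ?_⟩
  intro x y hy hb
  have h1 : Nat.lor B (pm i j) = B ||| pm i j := rfl
  rw [h1, Nat.testBit_or, Bool.or_eq_true] at hb
  rcases hb with hb | hb
  · exact h.2 x y hy hb
  · rcases pm_testBit i j x y hi hj hy hb with ⟨rfl, rfl⟩ | ⟨rfl, rfl⟩
    · exact hij
    · exact fun h => hij (hs _ _ h)

theorem chk_sound {adj : ℕ → ℕ → Prop} (hs : ∀ x y, adj x y → adj y x) (G : Prop)
    (leaf : ℕ → ℕ → ℕ → Option ℕ)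
    (hleaf : ∀ A B s s', leaf A B s = some s' → Con A B adj → G) :
    ∀ (ord : List (ℕ × ℕ)), (∀ p ∈ ord, p.1 < 16 ∧ p.2 < 16) →
      ∀ (A B s : ℕ) (cs : List ℕ) (r : ℕ × List ℕ), chk leaf ord A B s cs = some r →
        Con A B adj → G := by
  intro ord
  induction ord with
  | nil =>
    intro _ A B s cs r h hc
    rw [chk] at h
    obtain ⟨s, cs, h⟩ := nxt_some h
    cases hb : Nat.beq (Nat.mod s 2) 1 with
    | false => rw [hb] at h; simp at h
    | true =>
      rw [hb] at h
      obtain ⟨s', hl⟩ := lfc_some h
      exact hleaf A B _ s' hl hc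
  | cons p ord' ih =>
    intro hord A B s cs r h hc
    have hij := hord p (by simp)
    have hord' : ∀ p ∈ ord', p.1 < 16 ∧ p.2 < 16 := fun p hp => hord p (by simp [hp])
    rw [chk] at h
    obtain ⟨s, cs, h⟩ := nxt_some h
    cases hb : Nat.beq (Nat.mod s 2) 1 with
    | true =>
      rw [hb] at h
      obtain ⟨s', hl⟩ := lfc_some h
      exact hleaf A B _ s' hl hc
    | false =>
      rw [hb] at h
      simp only [frc_eq, cond_false] at h
      by_cases hadj : adj p.1 p.2
      · cases h1 : chk leaf ord' (Nat.lor A (pm p.1 p.2)) B (Nat.div s 2) cs with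
        | none => rw [h1] at h; simp at h
        | some r1 => exact ih hord' _ _ _ _ _ h1 (hc.addA hs p.1 p.2 hij.1 hij.2 hadj)
      · cases h1 : chk leaf ord' (Nat.lor A (pm p.1 p.2)) B (Nat.div s 2) cs with
        | none => rw [h1] at h; simp at h
        | some r1 =>
          rw [h1] at h
          exact ih hord' _ _ _ _ _ h (hc.addB hs p.1 p.2 hij.1 hij.2 hadj)

/-- A list of vertices inducing a disjoint union of cliques (no induced path on 3 vertices). -/
def ClL (adj : ℕ → ℕ → Prop) (L : List ℕ) : Prop :=
  ∀ x ∈ L, ∀ y ∈ L, ∀ z ∈ L, adj x y → adj y z → x ≠ z → adj x z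

/-- Invariant of `clRun`. -/
structure Inv (adj : ℕ → ℕ → Prop) (cur oth : ℕ) (L : List ℕ) : Prop where
  mem : ∀ x, x ∈ L ↔ (cur.testBit x = true ∨ oth.testBit x = true)
  nodup : L.Nodup
  lt : ∀ x ∈ L, x < 16
  clique : ∀ x y, cur.testBit x = true → cur.testBit y = true → x ≠ y → adj x y
  clus : ∀ x y z, oth.testBit x = true → oth.testBit y = true → oth.testBit z = true →
    adj x y → adj y z → x ≠ z → adj x z
  sep : ∀ x y, cur.testBit x = true → oth.testBit y = true → ¬ adj x y

theorem Inv.toCl {adj : ℕ → ℕ → Prop} (hs : ∀ x y, adj x y → adj y x) {cur oth : ℕ} {L : List ℕ}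
    (h : Inv adj cur oth L) : ClL adj L := by
  intro x hx y hy z hz hxy hyz hne
  rw [h.mem] at hx hy hz
  rcases hx with hx | hx <;> rcases hy with hy | hy <;> rcases hz with hz | hz
  · exact h.clique x z hx hz hne
  · exact absurd hyz (h.sep y z hy hz)
  · exact absurd hxy (h.sep x y hx hy)
  · exact absurd hxy (h.sep x y hx hy)
  · exact absurd (hs _ _ hxy) (h.sep y x hy hx)
  · exact absurd (hs _ _ hxy) (h.sep y x hy hx)
  · exact absurd (hs _ _ hyz) (h.sep z y hz hy)
  · exact h.clus x y z hx hy hz hxy hyz hne

theorem land_self_testBit {a b : ℕ} (h : Nat.beq (Nat.land a b) b = true) (x : ℕ)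
    (hx : b.testBit x = true) : a.testBit x = true := by
  have h1 : a &&& b = b := Nat.eq_of_beq_eq_true h
  have h2 : (a &&& b).testBit x = true := by rw [h1]; exact hx
  rw [Nat.testBit_and, Bool.and_eq_true] at h2
  exact h2.1

theorem land_pow_zero {o v : ℕ} (h : Nat.beq (Nat.land o (Nat.pow 2 v)) 0 = true) :
    o.testBit v = false := by
  have h1 : o &&& 2 ^ v = 0 := Nat.eq_of_beq_eq_true h
  have h2 : (o &&& 2 ^ v).testBit v = false := by rw [h1]; simp
  rw [Nat.testBit_and, Nat.testBit_two_pow_self, Bool.and_true] at h2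
  exact h2

theorem clRun_sound {A B : ℕ} {adj : ℕ → ℕ → Prop} (hs : ∀ x y, adj x y → adj y x)
    (hc : Con A B adj) : ∀ (f s cur oth : ℕ) (L : List ℕ), Inv adj cur oth L →
    ∀ (L' : List ℕ) (m s' : ℕ), clRun A B f s cur oth L = some (L', m, s') →
      ClL adj L' ∧ L'.Nodup ∧ (∀ x, x ∈ L' ↔ m.testBit x = true) ∧ (∀ x ∈ L', x < 16) := by
  intro f
  induction f with
  | zero =>
    intro s cur oth L _ L' m s' h
    simp [clRun] at h
  | succ f ih =>
    intro s cur oth L hI L' m s' h
    rw [clRun] at h
    simp only [frc_eq] at h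
    cases hd : Nat.beq (Nat.mod s 32) 0 with
    | true =>
      rw [hd] at h
      simp only [cond_true, Option.some.injEq, Prod.mk.injEq] at h
      obtain ⟨rfl, rfl, rfl⟩ := h
      refine ⟨hI.toCl hs, hI.nodup, ?_, hI.lt⟩
      intro x
      rw [hI.mem]
      have h1 : Nat.lor cur oth = cur ||| oth := rfl
      rw [h1, Nat.testBit_or, Bool.or_eq_true]
    | false =>
      rw [hd] at h
      simp only [cond_false] at h
      have hvlt : Nat.div (Nat.sub (Nat.mod s 32) 1) 2 < 16 := by
        have h1 : Nat.mod s 32 < 32 := Nat.mod_lt _ (by norm_num)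
        have h2 : Nat.div (Nat.sub (Nat.mod s 32) 1) 2 = (Nat.mod s 32 - 1) / 2 := rfl
        rw [h2]; omega
      set v := Nat.div (Nat.sub (Nat.mod s 32) 1) 2 with hv
      cases ho : Nat.beq (Nat.land (Nat.lor cur oth) (Nat.pow 2 v)) 0 with
      | false => rw [ho] at h; simp at h
      | true =>
        rw [ho] at h
        simp only [cond_true] at h
        have hov := land_pow_zero ho
        have hov2 : (cur ||| oth).testBit v = false := hov
        rw [Nat.testBit_or, Bool.or_eq_false_iff] at hov2
        have hvL : v ∉ L := by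
          rw [hI.mem]; rw [hov2.1, hov2.2]; simp
        have hpow : ∀ x, (Nat.pow 2 v).testBit x = true ↔ x = v := by
          intro x
          have h1 : Nat.pow 2 v = 2 ^ v := rfl
          rw [h1, Nat.testBit_two_pow, decide_eq_true_eq]
          exact eq_comm
        have hshB : ∀ x, x < 16 → (Nat.shiftRight B (Nat.mul 16 v)).testBit x = true →
            ¬ adj v x := by
          intro x hx hb
          have h1 : Nat.shiftRight B (Nat.mul 16 v) = B >>> (16 * v) := rfl
          rw [h1, Nat.testBit_shiftRight] at hb
          exact hc.2 v x hx hb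
        have hshA : ∀ x, x < 16 → (Nat.shiftRight A (Nat.mul 16 v)).testBit x = true →
            adj v x := by
          intro x hx hb
          have h1 : Nat.shiftRight A (Nat.mul 16 v) = A >>> (16 * v) := rfl
          rw [h1, Nat.testBit_shiftRight] at hb
          exact hc.1 v x hx hb
        have hlorO : ∀ x, (Nat.lor cur oth).testBit x = true ↔
            (cur.testBit x = true ∨ oth.testBit x = true) := by
          intro x
          have h1 : Nat.lor cur oth = cur ||| oth := rfl
          rw [h1, Nat.testBit_or, Bool.or_eq_true]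
        cases hfl : Nat.beq (Nat.mod (Nat.sub (Nat.mod s 32) 1) 2) 1 with
        | true =>
          rw [hfl] at h
          simp only [cond_true] at h
          cases hB : Nat.beq (Nat.land (Nat.shiftRight B (Nat.mul 16 v)) (Nat.lor cur oth))
              (Nat.lor cur oth) with
          | false => rw [hB] at h; simp at h
          | true =>
            rw [hB] at h
            simp only [cond_true] at h
            refine ih _ _ _ _ ?_ L' m s' h
            refine ⟨?_, ?_, ?_, ?_, ?_, ?_⟩
            · intro x
              rw [List.mem_cons, hpow, hlorO, ← hI.mem]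
            · exact List.nodup_cons.2 ⟨hvL, hI.nodup⟩
            · intro x hx
              rcases List.mem_cons.1 hx with rfl | hx
              · exact hvlt
              · exact hI.lt x hx
            · intro x y hx hy hne
              rw [hpow] at hx hy
              exact absurd (hx.trans hy.symm) hne
            · intro x y z hx hy hz
              rw [hlorO, ← hI.mem] at hx hy hz
              exact hI.toCl hs x hx y hy z hz
            · intro x y hx hy
              rw [hpow] at hx
              subst hx
              have hy2 := hy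
              rw [hlorO, ← hI.mem] at hy2
              exact hshB y (hI.lt y hy2) (land_self_testBit hB y hy)
        | false =>
          rw [hfl] at h
          simp only [cond_false] at h
          cases hAB : (Nat.beq (Nat.land (Nat.shiftRight A (Nat.mul 16 v)) cur) cur &&
                Nat.beq (Nat.land (Nat.shiftRight B (Nat.mul 16 v)) oth) oth) with
          | false => rw [hAB] at h; simp at h
          | true =>
            rw [hAB] at h
            simp only [cond_true] at h
            rw [Bool.and_eq_true] at hAB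
            have hcurlt : ∀ x, cur.testBit x = true → x < 16 := fun x hx =>
              hI.lt x ((hI.mem x).2 (Or.inl hx))
            have hothlt : ∀ x, oth.testBit x = true → x < 16 := fun x hx =>
              hI.lt x ((hI.mem x).2 (Or.inr hx))
            have hlorC : ∀ x, (Nat.lor cur (Nat.pow 2 v)).testBit x = true ↔
                (cur.testBit x = true ∨ x = v) := by
              intro x
              have h1 : Nat.lor cur (Nat.pow 2 v) = cur ||| Nat.pow 2 v := rfl
              rw [h1, Nat.testBit_or, Bool.or_eq_true, hpow]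
            refine ih _ _ _ _ ?_ L' m s' h
            refine ⟨?_, ?_, ?_, ?_, ?_, ?_⟩
            · intro x
              rw [List.mem_cons, hlorC, hI.mem]
              tauto
            · exact List.nodup_cons.2 ⟨hvL, hI.nodup⟩
            · intro x hx
              rcases List.mem_cons.1 hx with rfl | hx
              · exact hvlt
              · exact hI.lt x hx
            · intro x y hx hy hne
              rw [hlorC] at hx hy
              rcases hx with hx | hx <;> rcases hy with hy | hy
              · exact hI.clique x y hx hy hne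
              · subst hy
                exact hs _ _ (hshA x (hcurlt x hx) (land_self_testBit hAB.1 x hx))
              · subst hx
                exact hshA y (hcurlt y hy) (land_self_testBit hAB.1 y hy)
              · exact absurd (hx.trans hy.symm) hne
            · exact hI.clus
            · intro x y hx hy
              rw [hlorC] at hx
              rcases hx with hx | hx
              · exact hI.sep x y hx hy
              · subst hx
                exact hshB y (hothlt y hy) (land_self_testBit hAB.2 y hy)

theorem clRun_sound0 {A B : ℕ} {adj : ℕ → ℕ → Prop} (hs : ∀ x y, adj x y → adj y x)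
    (hc : Con A B adj) (f s : ℕ) (L' : List ℕ) (m s' : ℕ)
    (h : clRun A B f s 0 0 [] = some (L', m, s')) :
      ClL adj L' ∧ L'.Nodup ∧ (∀ x, x ∈ L' ↔ m.testBit x = true) ∧ (∀ x ∈ L', x < 16) := by
  refine clRun_sound hs hc f s 0 0 [] ?_ L' m s' h
  refine ⟨?_, List.nodup_nil, ?_, ?_, ?_, ?_⟩ <;> intros <;> simp_all

end Pool.Agent.Q129.SubChk
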