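import Pool.Agent.Q129.SubChk

set_option autoImplicit false

namespace Pool.Agent.Q129.SubLeaf

open Pool.Agent.Q129.SubChk

/-- Parameters of a decision problem. -/
structure Prm where
  n : ℕ
  m0 : ℕ
  g : ℕ
  K : ℕ
  forb : ℕ
  sorted : ℕ
  u012 : Bool
  iso : Bool
  exc : List (List (ℕ × ℕ))

/-- Reads `K` clusters, returns the union mask. -/
def covRun (A B : ℕ) : ℕ → ℕ → ℕ → Option (ℕ × ℕ)
  | 0, s, acc => some (acc, s)
  | K + 1, s, acc =>
    match clRun A B 20 s 0 0 [] with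
      | none => none
      | some r => frc (Nat.lor acc r.2.1) fun acc' => covRun A B K r.2.2 acc'

/-- The bit of a pair. -/
def bt (X i j : ℕ) : Bool :=
  Nat.beq (Nat.mod (Nat.shiftRight X (Nat.add (Nat.mul 16 i) j)) 2) 1

/-- The pair `x y` is known to have adjacency `e`. -/
def kn (A B : ℕ) (e : Bool) (x y : ℕ) : Bool := cond e (bt A x y) (bt B x y)

def leafClu (P : Prm) (A B s : ℕ) : Option ℕ :=
  match clRun A B 20 s 0 0 [] with
    | none => none
    | some r => cond (Nat.ble P.g r.1.length && r.1.all fun x => Nat.blt x P.n) (some r.2.2) none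

def leafCov (P : Prm) (A B s : ℕ) : Option ℕ :=
  match covRun A B P.K s 0 with
    | none => none
    | some r => frc (Nat.sub (Nat.pow 2 P.n) 1) fun full =>
        cond (Nat.beq (Nat.land r.1 full) full) (some r.2) none

def leafViol (P : Prm) (A B s : ℕ) : Option ℕ :=
  frc (Nat.mod s 16) fun a =>
  frc (Nat.mod (Nat.div s 16) 16) fun t =>
  frc (Nat.sub (Nat.pow 2 t) 1) fun low =>
  frc (Nat.land (Nat.shiftRight A (Nat.mul 16 a)) low) fun ra =>
  frc (Nat.land (Nat.shiftRight B (Nat.mul 16 a)) low) fun rb =>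
  cond (bt P.sorted 0 a && Nat.blt t P.m0 &&
      Nat.beq (Nat.land (Nat.shiftRight A (Nat.mul 16 (Nat.succ a))) low) ra &&
      Nat.beq (Nat.land (Nat.shiftRight B (Nat.mul 16 (Nat.succ a))) low) rb &&
      Nat.beq (Nat.lor ra rb) low && bt A a t && bt B (Nat.succ a) t)
    (some (Nat.div s 256)) none

def leafPat (P : Prm) (A B s : ℕ) : Option ℕ :=
  frc (Nat.mod s 8) fun t =>
  frc (Nat.mod (Nat.div s 8) 16) fun a =>
  frc (Nat.mod (Nat.div s 128) 16) fun b =>
  frc (Nat.mod (Nat.div s 2048) 16) fun c =>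
  frc (Nat.mod (Nat.div s 32768) 16) fun d =>
  cond (bt P.forb 0 t && Nat.blt a P.n && Nat.blt b P.n && Nat.blt c P.n && Nat.blt d P.n &&
      !(Nat.beq a b) && !(Nat.beq a c) && !(Nat.beq a d) && !(Nat.beq b c) && !(Nat.beq b d) &&
      !(Nat.beq c d) &&
      kn A B (Nat.ble 1 t) a b && kn A B (Nat.ble 3 t) a c && kn A B (Nat.beq t 4) a d &&
      kn A B (Nat.ble 3 t) b c && kn A B (Nat.beq t 4) b d &&
      kn A B (Nat.beq t 2 || Nat.beq t 4) c d)
    (some (Nat.div s 524288)) none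

def leaf012 (P : Prm) (B s : ℕ) : Option ℕ :=
  frc (Nat.mod s 16) fun a =>
  cond (P.u012 && Nat.ble 6 a && Nat.blt a 10 && bt B a 0 && bt B a 1 && bt B a 2)
    (some (Nat.div s 16)) none

def rowsOK (A B : ℕ) : ℕ → List (ℕ × ℕ) → Bool
  | _, [] => true
  | q, r :: rs =>
    Nat.beq (Nat.land (Nat.shiftRight A (Nat.mul 16 q)) r.1) r.1 &&
    Nat.beq (Nat.land (Nat.shiftRight B (Nat.mul 16 q)) r.2) r.2 && rowsOK A B (Nat.succ q) rs

def leafExc (P : Prm) (A B s : ℕ) : Option ℕ :=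
  match P.exc[Nat.mod s 16]? with
    | none => none
    | some rows => cond (rowsOK A B 6 rows) (some (Nat.div s 16)) none

/-- Adjacency masks of the three exceptional graphs on six vertices. -/
def rmk : List ℕ := [33950764600, 33883073848, 16372174384]

/-- The adjacency of the three exceptional graphs on six vertices. -/
def rm (i x y : ℕ) : Bool :=
  Nat.beq (Nat.mod (Nat.shiftRight (rmk.getD i 0) (Nat.add (Nat.mul 6 x) y)) 2) 1

/-- The pairs of six vertices. -/
def pr6 : List (ℕ × ℕ) :=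
  [(1, 0), (2, 0), (2, 1), (3, 0), (3, 1), (3, 2), (4, 0), (4, 1), (4, 2), (4, 3),
    (5, 0), (5, 1), (5, 2), (5, 3), (5, 4)]

def leafIso (P : Prm) (A B s : ℕ) : Option ℕ :=
  frc (Nat.mod s 4) fun i =>
  frc (Nat.mod (Nat.div s 4) 16) fun a =>
  frc (Nat.mod (Nat.div s 64) 16) fun b =>
  frc (Nat.mod (Nat.div s 1024) 16) fun c =>
  frc (Nat.mod (Nat.div s 16384) 16) fun d =>
  frc (Nat.mod (Nat.div s 262144) 16) fun e =>
  frc (Nat.mod (Nat.div s 4194304) 16) fun f =>
  cond (P.iso && Nat.blt i 3 && decide ([a, b, c, d, e, f].Nodup) &&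
      ([a, b, c, d, e, f].all fun x => Nat.blt x P.n) &&
      (pr6.all fun p => kn A B (rm i p.1 p.2) ([a, b, c, d, e, f].getD p.1 0)
        ([a, b, c, d, e, f].getD p.2 0)))
    (some (Nat.div s 67108864)) none

/-- The leaf checker. -/
def leafF (P : Prm) (A B s : ℕ) : Option ℕ :=
  frc (Nat.mod s 8) fun k =>
  frc (Nat.div s 8) fun p =>
  cond (Nat.beq k 1) (leafClu P A B p)
    (cond (Nat.beq k 2) (leafCov P A B p)
      (cond (Nat.beq k 0) (leafViol P A B p)
        (cond (Nat.beq k 3) (leafPat P A B p)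
          (cond (Nat.beq k 4) (leaf012 P B p)
            (cond (Nat.beq k 5) (leafExc P A B p)
              (cond (Nat.beq k 6) (leafIso P A B p) none))))))

/-! ### Meaning -/

def GViol (P : Prm) (adj : ℕ → ℕ → Prop) : Prop :=
  ∃ a, P.sorted.testBit a = true ∧ ∃ t < P.m0, (∀ s < t, (adj a s ↔ adj (a + 1) s)) ∧
    adj a t ∧ ¬ adj (a + 1) t

def GClu (P : Prm) (adj : ℕ → ℕ → Prop) : Prop :=
  ∃ L : List ℕ, L.Nodup ∧ (∀ x ∈ L, x < P.n) ∧ P.g ≤ L.length ∧ ClL adj L

def GCov (P : Prm) (adj : ℕ → ℕ → Prop) : Prop :=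
  ∃ Ms : List (List ℕ), Ms.length = P.K ∧ (∀ L ∈ Ms, ClL adj L) ∧ ∀ i < P.n, ∃ L ∈ Ms, i ∈ L

def Pat (adj : ℕ → ℕ → Prop) (t a b c d : ℕ) : Prop :=
  (adj a b ↔ 1 ≤ t) ∧ (adj a c ↔ 3 ≤ t) ∧ (adj a d ↔ t = 4) ∧ (adj b c ↔ 3 ≤ t) ∧
    (adj b d ↔ t = 4) ∧ (adj c d ↔ (t = 2 ∨ t = 4))

def GPat (P : Prm) (adj : ℕ → ℕ → Prop) : Prop :=
  ∃ t a b c d, P.forb.testBit t = true ∧ [a, b, c, d].Nodup ∧
    (∀ x ∈ [a, b, c, d], x < P.n) ∧ Pat adj t a b c d

def G012 (P : Prm) (adj : ℕ → ℕ → Prop) : Prop :=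
  P.u012 = true ∧ ∃ a, 6 ≤ a ∧ a < 10 ∧ ¬ adj a 0 ∧ ¬ adj a 1 ∧ ¬ adj a 2

def RowsP (adj : ℕ → ℕ → Prop) : ℕ → List (ℕ × ℕ) → Prop
  | _, [] => True
  | q, r :: rs => (∀ s < 16, (r.1.testBit s = true → adj q s) ∧ (r.2.testBit s = true → ¬ adj q s)) ∧
      RowsP adj (q + 1) rs

def GExc (P : Prm) (adj : ℕ → ℕ → Prop) : Prop := ∃ rows ∈ P.exc, RowsP adj 6 rows

def GIso (P : Prm) (adj : ℕ → ℕ → Prop) : Prop :=
  P.iso = true ∧ ∃ i < 3, ∃ l : List ℕ, l.length = 6 ∧ l.Nodup ∧ (∀ x ∈ l, x < P.n) ∧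
    ∀ p ∈ pr6, (adj (l.getD p.1 0) (l.getD p.2 0) ↔ rm i p.1 p.2 = true)

def Goal (P : Prm) (adj : ℕ → ℕ → Prop) : Prop :=
  GViol P adj ∨ GClu P adj ∨ GCov P adj ∨ GPat P adj ∨ G012 P adj ∨ GExc P adj ∨ GIso P adj

theorem bt_eq (X i j : ℕ) : bt X i j = X.testBit (16 * i + j) := by
  have h1 : bt X i j = Nat.beq ((X >>> (16 * i + j)) % 2) 1 := rfl
  rw [h1, Nat.testBit_eq_decide_div_mod_eq, Nat.shiftRight_eq_div_pow]
  rcases Nat.mod_two_eq_zero_or_one (X / 2 ^ (16 * i + j)) with h | h <;> rw [h] <;> rfl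

theorem covRun_sound {A B : ℕ} {adj : ℕ → ℕ → Prop} (hs : ∀ x y, adj x y → adj y x)
    (hc : Con A B adj) : ∀ (K s acc m s' : ℕ), covRun A B K s acc = some (m, s') →
      ∃ Ms : List (List ℕ), Ms.length = K ∧ (∀ L ∈ Ms, ClL adj L) ∧
        ∀ x, m.testBit x = true → acc.testBit x = true ∨ ∃ L ∈ Ms, x ∈ L := by
  intro K
  induction K with
  | zero =>
    intro s acc m s' h
    rw [covRun] at h
    simp only [Option.some.injEq, Prod.mk.injEq] at h
    obtain ⟨rfl, rfl⟩ := h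
    exact ⟨[], rfl, by simp, fun x hx => Or.inl hx⟩
  | succ K ih =>
    intro s acc m s' h
    rw [covRun] at h
    cases hr : clRun A B 20 s 0 0 [] with
    | none => rw [hr] at h; simp at h
    | some r =>
      obtain ⟨L, m1, s1⟩ := r
      rw [hr] at h
      simp only [frc_eq] at h
      obtain ⟨h1, -, h3, -⟩ := clRun_sound0 hs hc _ _ _ _ _ hr
      obtain ⟨Ms, hl, hcl, hm⟩ := ih _ _ _ _ h
      refine ⟨L :: Ms, by simp [hl], ?_, ?_⟩
      · intro L' hL'
        rcases List.mem_cons.1 hL' with rfl | hL'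
        · exact h1
        · exact hcl L' hL'
      · intro x hx
        rcases hm x hx with h4 | ⟨L', hL', hx'⟩
        · have h5 : Nat.lor acc m1 = acc ||| m1 := rfl
          rw [h5, Nat.testBit_or, Bool.or_eq_true] at h4
          rcases h4 with h4 | h4
          · exact Or.inl h4
          · exact Or.inr ⟨L, by simp, (h3 x).2 h4⟩
        · exact Or.inr ⟨L', by simp [hL'], hx'⟩

theorem leafClu_sound {P : Prm} {A B s s' : ℕ} {adj : ℕ → ℕ → Prop}
    (hs : ∀ x y, adj x y → adj y x) (hc : Con A B adj) (h : leafClu P A B s = some s') :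
    GClu P adj := by
  unfold leafClu at h
  cases hr : clRun A B 20 s 0 0 [] with
  | none => rw [hr] at h; simp at h
  | some r =>
    obtain ⟨L, m1, s1⟩ := r
    rw [hr] at h
    obtain ⟨h1, h2, -, -⟩ := clRun_sound0 hs hc _ _ _ _ _ hr
    cases hb : (Nat.ble P.g L.length && L.all fun x => Nat.blt x P.n) with
    | false => simp only [hb, cond_false] at h; simp at h
    | true =>
      rw [Bool.and_eq_true] at hb
      refine ⟨L, h2, ?_, Nat.le_of_ble_eq_true hb.1, h1⟩
      intro x hx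
      have h3 := List.all_eq_true.1 hb.2 x hx
      exact Nat.le_of_ble_eq_true h3

theorem leafCov_sound {P : Prm} {A B s s' : ℕ} {adj : ℕ → ℕ → Prop}
    (hs : ∀ x y, adj x y → adj y x) (hc : Con A B adj) (h : leafCov P A B s = some s') :
    GCov P adj := by
  unfold leafCov at h
  cases hr : covRun A B P.K s 0 with
  | none => rw [hr] at h; simp at h
  | some r =>
    obtain ⟨m, s1⟩ := r
    rw [hr] at h
    simp only [frc_eq] at h
    obtain ⟨Ms, h1, h2, h3⟩ := covRun_sound hs hc _ _ _ _ _ hr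
    cases hb : Nat.beq (Nat.land m (Nat.sub (Nat.pow 2 P.n) 1)) (Nat.sub (Nat.pow 2 P.n) 1) with
    | false => rw [hb] at h; simp at h
    | true =>
      refine ⟨Ms, h1, h2, ?_⟩
      intro i hi
      have h4 : (Nat.sub (Nat.pow 2 P.n) 1).testBit i = true := by
        have h5 : Nat.sub (Nat.pow 2 P.n) 1 = 2 ^ P.n - 1 := rfl
        rw [h5, Nat.testBit_two_pow_sub_one]
        simpa using hi
      rcases h3 i (land_self_testBit hb i h4) with h6 | h6
      · simp at h6
      · exact h6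

theorem leafViol_sound {P : Prm} {A B s s' : ℕ} {adj : ℕ → ℕ → Prop} (hP : P.m0 ≤ 16)
    (hc : Con A B adj) (h : leafViol P A B s = some s') : GViol P adj := by
  unfold leafViol at h
  simp only [frc_eq] at h
  set a := Nat.mod s 16 with ha
  set t := Nat.mod (Nat.div s 16) 16 with ht
  set low := Nat.sub (Nat.pow 2 t) 1 with hlow
  set ra := Nat.land (Nat.shiftRight A (Nat.mul 16 a)) low with hra
  set rb := Nat.land (Nat.shiftRight B (Nat.mul 16 a)) low with hrb
  cases hb : (bt P.sorted 0 a && Nat.blt t P.m0 &&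
      Nat.beq (Nat.land (Nat.shiftRight A (Nat.mul 16 (Nat.succ a))) low) ra &&
      Nat.beq (Nat.land (Nat.shiftRight B (Nat.mul 16 (Nat.succ a))) low) rb &&
      Nat.beq (Nat.lor ra rb) low && bt A a t && bt B (Nat.succ a) t) with
  | false => rw [hb] at h; simp at h
  | true =>
    simp only [Bool.and_eq_true] at hb
    obtain ⟨⟨⟨⟨⟨⟨h1, h2⟩, h3⟩, h4⟩, h5⟩, h6⟩, h7⟩ := hb
    have htm : t < P.m0 := Nat.le_of_ble_eq_true h2
    rw [bt_eq] at h1 h6 h7
    refine ⟨a, by simpa using h1, t, htm, ?_, hc.1 a t (by omega) h6,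
      hc.2 (a + 1) t (by omega) h7⟩
    intro s hst
    have hl : low.testBit s = true := by
      have h8 : low = 2 ^ t - 1 := rfl
      rw [h8, Nat.testBit_two_pow_sub_one]
      simpa using hst
    have h9 : (ra ||| rb) = low := Nat.eq_of_beq_eq_true h5
    have h10 : ((A >>> (16 * (a + 1))) &&& low) = ra := Nat.eq_of_beq_eq_true h3
    have h11 : ((B >>> (16 * (a + 1))) &&& low) = rb := Nat.eq_of_beq_eq_true h4
    have h12 : ra = ((A >>> (16 * a)) &&& low) := rfl
    have h13 : rb = ((B >>> (16 * a)) &&& low) := rfl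
    rw [← h9, Nat.testBit_or, Bool.or_eq_true] at hl
    rcases hl with hl | hl
    · have h14 := hl
      rw [h12, Nat.testBit_and, Nat.testBit_shiftRight, Bool.and_eq_true] at h14
      rw [← h10, Nat.testBit_and, Nat.testBit_shiftRight, Bool.and_eq_true] at hl
      have h15 := hc.1 a s (by omega) h14.1
      have h16 := hc.1 (a + 1) s (by omega) hl.1
      exact ⟨fun _ => h16, fun _ => h15⟩
    · have h14 := hl
      rw [h13, Nat.testBit_and, Nat.testBit_shiftRight, Bool.and_eq_true] at h14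
      rw [← h11, Nat.testBit_and, Nat.testBit_shiftRight, Bool.and_eq_true] at hl
      have h15 := hc.2 a s (by omega) h14.1
      have h16 := hc.2 (a + 1) s (by omega) hl.1
      exact ⟨fun h => absurd h h15, fun h => absurd h h16⟩

theorem kn_sound {A B x y : ℕ} {adj : ℕ → ℕ → Prop} {e : Bool} (hc : Con A B adj) (hy : y < 16)
    (h : kn A B e x y = true) : adj x y ↔ e = true := by
  unfold kn at h
  cases e with
  | true =>
    simp only [cond_true, bt_eq] at h
    exact ⟨fun _ => rfl, fun _ => hc.1 x y hy h⟩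
  | false =>
    simp only [cond_false, bt_eq] at h
    exact ⟨fun h' => absurd h' (hc.2 x y hy h), fun h' => by simp at h'⟩

theorem not_beq {a b : ℕ} (h : (!(Nat.beq a b)) = true) : a ≠ b := by
  intro hab
  subst hab
  simp at h

theorem leafPat_sound {P : Prm} {A B s s' : ℕ} {adj : ℕ → ℕ → Prop} (hn : P.n ≤ 16)
    (hc : Con A B adj) (h : leafPat P A B s = some s') : GPat P adj := by
  unfold leafPat at h
  simp only [frc_eq] at h
  set t := Nat.mod s 8
  set a := Nat.mod (Nat.div s 8) 16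
  set b := Nat.mod (Nat.div s 128) 16
  set c := Nat.mod (Nat.div s 2048) 16
  set d := Nat.mod (Nat.div s 32768) 16
  cases hb : (bt P.forb 0 t && Nat.blt a P.n && Nat.blt b P.n && Nat.blt c P.n && Nat.blt d P.n &&
      !(Nat.beq a b) && !(Nat.beq a c) && !(Nat.beq a d) && !(Nat.beq b c) && !(Nat.beq b d) &&
      !(Nat.beq c d) &&
      kn A B (Nat.ble 1 t) a b && kn A B (Nat.ble 3 t) a c && kn A B (Nat.beq t 4) a d &&
      kn A B (Nat.ble 3 t) b c && kn A B (Nat.beq t 4) b d &&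
      kn A B (Nat.beq t 2 || Nat.beq t 4) c d) with
  | false => rw [hb] at h; simp at h
  | true =>
    simp only [Bool.and_eq_true] at hb
    obtain ⟨⟨⟨⟨⟨⟨⟨⟨⟨⟨⟨⟨⟨⟨⟨⟨h1, ha⟩, hb'⟩, hc'⟩, hd⟩, hab⟩, hac⟩, had⟩, hbc⟩, hbd⟩, hcd⟩, e1⟩, e2⟩,
      e3⟩, e4⟩, e5⟩, e6⟩ := hb
    have ha : a < P.n := Nat.le_of_ble_eq_true ha
    have hb' : b < P.n := Nat.le_of_ble_eq_true hb'
    have hc' : c < P.n := Nat.le_of_ble_eq_true hc'
    have hd : d < P.n := Nat.le_of_ble_eq_true hd
    have hab := not_beq hab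
    have hac := not_beq hac
    have had := not_beq had
    have hbc := not_beq hbc
    have hbd := not_beq hbd
    have hcd := not_beq hcd
    have ble1 : (Nat.ble 1 t = true) ↔ 1 ≤ t := ⟨Nat.le_of_ble_eq_true, Nat.ble_eq_true_of_le⟩
    have ble3 : (Nat.ble 3 t = true) ↔ 3 ≤ t := ⟨Nat.le_of_ble_eq_true, Nat.ble_eq_true_of_le⟩
    have beq4 : (Nat.beq t 4 = true) ↔ t = 4 := ⟨Nat.eq_of_beq_eq_true, fun h => by rw [h]; rfl⟩
    have beq24 : ((Nat.beq t 2 || Nat.beq t 4) = true) ↔ (t = 2 ∨ t = 4) := by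
      rw [Bool.or_eq_true, beq4]
      have : (Nat.beq t 2 = true) ↔ t = 2 := ⟨Nat.eq_of_beq_eq_true, fun h => by rw [h]; rfl⟩
      rw [this]
    rw [bt_eq] at h1
    refine ⟨t, a, b, c, d, by simpa using h1, ?_, ?_, ?_⟩
    · simp only [List.nodup_cons, List.mem_cons, List.not_mem_nil, or_false, not_or,
        not_false_eq_true, List.nodup_nil, and_true]
      exact ⟨⟨hab, hac, had⟩, ⟨hbc, hbd⟩, hcd⟩
    · intro x hx
      simp only [List.mem_cons, List.not_mem_nil, or_false] at hx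
      rcases hx with rfl | rfl | rfl | rfl <;> assumption
    · exact ⟨(kn_sound hc (by omega) e1).trans ble1, (kn_sound hc (by omega) e2).trans ble3,
        (kn_sound hc (by omega) e3).trans beq4, (kn_sound hc (by omega) e4).trans ble3,
        (kn_sound hc (by omega) e5).trans beq4, (kn_sound hc (by omega) e6).trans beq24⟩

theorem leaf012_sound {P : Prm} {A B s s' : ℕ} {adj : ℕ → ℕ → Prop}
    (hc : Con A B adj) (h : leaf012 P B s = some s') : G012 P adj := by
  unfold leaf012 at h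
  simp only [frc_eq] at h
  set a := Nat.mod s 16
  cases hb : (P.u012 && Nat.ble 6 a && Nat.blt a 10 && bt B a 0 && bt B a 1 && bt B a 2) with
  | false => rw [hb] at h; simp at h
  | true =>
    simp only [Bool.and_eq_true, bt_eq] at hb
    obtain ⟨⟨⟨⟨⟨h1, h2⟩, h3⟩, h4⟩, h5⟩, h6⟩ := hb
    exact ⟨h1, a, Nat.le_of_ble_eq_true h2, Nat.le_of_ble_eq_true h3, hc.2 a 0 (by omega) h4,
      hc.2 a 1 (by omega) h5, hc.2 a 2 (by omega) h6⟩

theorem rowsOK_sound {A B : ℕ} {adj : ℕ → ℕ → Prop} (hc : Con A B adj) :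
    ∀ (rows : List (ℕ × ℕ)) (q : ℕ), rowsOK A B q rows = true → RowsP adj q rows := by
  intro rows
  induction rows with
  | nil => intro q _; exact trivial
  | cons r rs ih =>
    intro q h
    rw [rowsOK] at h
    simp only [Bool.and_eq_true] at h
    refine ⟨?_, ih (q + 1) h.2⟩
    intro s hs
    refine ⟨fun h1 => ?_, fun h1 => ?_⟩
    · have h2 := land_self_testBit h.1.1 s h1
      have h3 : Nat.shiftRight A (Nat.mul 16 q) = A >>> (16 * q) := rfl
      rw [h3, Nat.testBit_shiftRight] at h2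
      exact hc.1 q s hs h2
    · have h2 := land_self_testBit h.1.2 s h1
      have h3 : Nat.shiftRight B (Nat.mul 16 q) = B >>> (16 * q) := rfl
      rw [h3, Nat.testBit_shiftRight] at h2
      exact hc.2 q s hs h2

theorem leafExc_sound {P : Prm} {A B s s' : ℕ} {adj : ℕ → ℕ → Prop}
    (hc : Con A B adj) (h : leafExc P A B s = some s') : GExc P adj := by
  unfold leafExc at h
  cases he : P.exc[Nat.mod s 16]? with
  | none => rw [he] at h; simp at h
  | some rows =>
    rw [he] at h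
    cases hb : rowsOK A B 6 rows with
    | false => simp only [hb, cond_false] at h; simp at h
    | true => exact ⟨rows, List.mem_of_getElem? he, rowsOK_sound hc rows 6 hb⟩

theorem leafIso_sound {P : Prm} {A B s s' : ℕ} {adj : ℕ → ℕ → Prop} (hn : P.n ≤ 16)
    (hc : Con A B adj) (h : leafIso P A B s = some s') : GIso P adj := by
  unfold leafIso at h
  simp only [frc_eq] at h
  set i := Nat.mod s 4
  set a := Nat.mod (Nat.div s 4) 16
  set b := Nat.mod (Nat.div s 64) 16
  set c := Nat.mod (Nat.div s 1024) 16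
  set d := Nat.mod (Nat.div s 16384) 16
  set e := Nat.mod (Nat.div s 262144) 16
  set f := Nat.mod (Nat.div s 4194304) 16
  cases hb : (P.iso && Nat.blt i 3 && decide ([a, b, c, d, e, f].Nodup) &&
      ([a, b, c, d, e, f].all fun x => Nat.blt x P.n) &&
      (pr6.all fun p => kn A B (rm i p.1 p.2) ([a, b, c, d, e, f].getD p.1 0)
        ([a, b, c, d, e, f].getD p.2 0))) with
  | false => rw [hb] at h; simp at h
  | true =>
    simp only [Bool.and_eq_true, decide_eq_true_eq] at hb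
    obtain ⟨⟨⟨⟨h1, h2⟩, h3⟩, h4⟩, h5⟩ := hb
    refine ⟨h1, i, Nat.le_of_ble_eq_true h2, [a, b, c, d, e, f], rfl, h3, ?_, ?_⟩
    · intro x hx
      exact Nat.le_of_ble_eq_true (List.all_eq_true.1 h4 x hx)
    · intro p hp
      have h6 := List.all_eq_true.1 h5 p hp
      have h7 : ([a, b, c, d, e, f].getD p.2 0) < 16 := by
        have h8 : p.2 < 6 := by
          have : ∀ p ∈ pr6, p.2 < 6 := by decide
          exact this p hp
        have h9 : ([a, b, c, d, e, f].getD p.2 0) ∈ [a, b, c, d, e, f] := by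
          rw [List.getD_eq_getElem _ _ (by simpa using h8)]
          exact List.getElem_mem _
        have h10 := Nat.le_of_ble_eq_true (List.all_eq_true.1 h4 _ h9)
        omega
      exact kn_sound hc h7 h6

theorem leafF_sound (P : Prm) (hn : P.n ≤ 16) (hm : P.m0 ≤ 16) {adj : ℕ → ℕ → Prop}
    (hs : ∀ x y, adj x y → adj y x) (A B s s' : ℕ) (h : leafF P A B s = some s')
    (hc : Con A B adj) : Goal P adj := by
  unfold leafF at h
  simp only [frc_eq] at h
  unfold Goal
  cases h1 : Nat.beq (Nat.mod s 8) 1 with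
  | true => rw [h1] at h; exact Or.inr (Or.inl (leafClu_sound hs hc h))
  | false =>
  rw [h1] at h
  cases h2 : Nat.beq (Nat.mod s 8) 2 with
  | true => rw [h2] at h; exact Or.inr (Or.inr (Or.inl (leafCov_sound hs hc h)))
  | false =>
  rw [h2] at h
  cases h3 : Nat.beq (Nat.mod s 8) 0 with
  | true => rw [h3] at h; exact Or.inl (leafViol_sound hm hc h)
  | false =>
  rw [h3] at h
  cases h4 : Nat.beq (Nat.mod s 8) 3 with
  | true => rw [h4] at h; exact Or.inr (Or.inr (Or.inr (Or.inl (leafPat_sound hn hc h))))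
  | false =>
  rw [h4] at h
  cases h5 : Nat.beq (Nat.mod s 8) 4 with
  | true =>
    rw [h5] at h
    exact Or.inr (Or.inr (Or.inr (Or.inr (Or.inl (leaf012_sound hc h)))))
  | false =>
  rw [h5] at h
  cases h6 : Nat.beq (Nat.mod s 8) 5 with
  | true =>
    rw [h6] at h
    exact Or.inr (Or.inr (Or.inr (Or.inr (Or.inr (Or.inl (leafExc_sound hc h))))))
  | false =>
  rw [h6] at h
  cases h7 : Nat.beq (Nat.mod s 8) 6 with
  | true =>
    rw [h7] at h
    exact Or.inr (Or.inr (Or.inr (Or.inr (Or.inr (Or.inr (leafIso_sound hn hc h))))))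
  | false =>
  rw [h7] at h
  simp at h

/-- The whole run. -/
def run (P : Prm) (ord : List (ℕ × ℕ)) (A B : ℕ) (cs : List ℕ) : Bool :=
  Nat.ble P.n 16 && Nat.ble P.m0 16 && (ord.all fun p => Nat.blt p.1 16 && Nat.blt p.2 16) &&
    (chk (leafF P) ord A B 1 cs).isSome

theorem run_sound (P : Prm) (ord : List (ℕ × ℕ)) (A B : ℕ) (cs : List ℕ)
    (h : run P ord A B cs = true) {adj : ℕ → ℕ → Prop} (hs : ∀ x y, adj x y → adj y x)
    (hc : Con A B adj) : Goal P adj := by
  unfold run at h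
  simp only [Bool.and_eq_true] at h
  obtain ⟨⟨⟨h1, h2⟩, h3⟩, h4⟩ := h
  obtain ⟨r, hr⟩ := Option.isSome_iff_exists.1 h4
  refine chk_sound hs (Goal P adj) (leafF P) ?_ ord ?_ A B 1 cs r hr hc
  · intro A B s s' h hc
    exact leafF_sound P (Nat.le_of_ble_eq_true h1) (Nat.le_of_ble_eq_true h2) hs A B s s' h hc
  · intro p hp
    have h5 := List.all_eq_true.1 h3 p hp
    rw [Bool.and_eq_true] at h5
    exact ⟨Nat.le_of_ble_eq_true h5.1, Nat.le_of_ble_eq_true h5.2⟩

end Pool.Agent.Q129.SubLeaf
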