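import Pool.Agent.Q129.SubZ

set_option autoImplicit false

namespace Pool.Agent.Q129.SubMain

open Pool.Agent.Q129.SubChk Pool.Agent.Q129.SubLeaf Pool.Agent.Q129.SubV Pool.Agent.Q129.SubW
open Pool.Agent.Q129.SubData Pool.Agent.Q129.SubX Pool.Agent.Q129.SubY Pool.Agent.Q129.SubZ

theorem getD_R {i : ℕ} {G : SimpleGraph V} {r q : List V} (hr : IsR G i r) {s : ℕ} (hs : s < 6) :
    (r ++ q).getD s 0 = r.getD s 0 :=
  List.getD_append _ _ _ _ (by rw [hr.1]; exact hs)

theorem getD_A2 {i : ℕ} {G : SimpleGraph V} {r A2 A1 : List V} (hr : IsR G i r)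
    (hA2 : A2.length = 4) {s : ℕ} (hs : s < 4) :
    (r ++ (A2 ++ A1)).getD (6 + s) 0 = A2.getD s 0 :=
  getD_mid hr.1 (by omega)

theorem getD_A1 {i : ℕ} {G : SimpleGraph V} {r A2 A1 : List V} (hr : IsR G i r)
    (hA2 : A2.length = 4) (hA1 : A1.length = 4) {s : ℕ} (hs : s < 4) :
    (r ++ (A2 ++ A1)).getD (10 + s) 0 = A1.getD s 0 := by
  have h := getD_mid (r := r ++ A2) (A := A1) (q := []) (n := 10) (x := s)
    (by rw [List.length_append, hr.1, hA2]) (by omega)
  rw [List.append_nil, List.append_assoc] at h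
  exact h

/-- Rows of `A` towards `r`, given by a function. -/
theorem sndRow {G : SimpleGraph V} {l : List V} {a m b k : ℕ} {f : ℕ → ℕ → Bool}
    (h : ∀ x < m, ∀ y < k, (G.Adj (l.getD (a + x) 0) (l.getD (b + y) 0) ↔ f x y = true)) :
    Snd (eOr (eB a m b k f) (eB b k a m fun x y => f y x)) (adjL G l) := by
  refine Snd.or (Snd.block fun x hx y hy _ => h x hx y hy) (Snd.block ?_)
  intro x hx y hy _
  rw [← h y hy x hx]
  exact G.adj_comm _ _

/-- The last stages. -/
theorem glue {P : Prm} {ord : List (ℕ × ℕ)} {Am Bm : ℕ} {cs : List ℕ} {i : ℕ} {sm : ℕ}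
    {e : ℕ → ℕ → Option Bool}
    (h : run P ord Am Bm cs = true) (hn : P.n = 14) (hP : P.m0 = 6) (hi : i < 3)
    (hsm : P.sorted = sm * 1024) (hsm8 : sm < 8)
    (hok : okMask Am Bm (eOr e (eOr (eB 0 6 0 6 (rm i))
      (eOr (eB 6 4 6 4 (tp 4)) (eB 10 4 10 4 (tp 4))))) = true)
    (hg : P.g = 5) (hK : P.K = 4) (hforb : P.forb = 0) (hexc : P.exc = [])
    (hu : P.u012 = false) (hiso : P.iso = false)
    (G : SimpleGraph V) {r A2 A1 : List V} (hr : IsR G i r) (hA2 : TyL G 4 A2)
    (hA1 : TyL G 4 A1) (hnd : (r ++ (A2 ++ A1)).Nodup)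
    (hs : ∀ k < 3, sm.testBit k = true → kv G r (A1.getD k 0) ≤ kv G r (A1.getD (k + 1) 0))
    (he : Snd e (adjL G (r ++ (A2 ++ A1)))) :
    HasCl G Finset.univ 5 ∨ Cov G 4 ((Finset.univ : Finset V) : Set V) := by
  have hlen : (r ++ (A2 ++ A1)).length = 14 := by
    rw [List.length_append, List.length_append, hr.1, hA2.1, hA1.1]
  have hS : ∀ x : V, x ∈ r ++ (A2 ++ A1) ↔ x ∈ (Finset.univ : Finset V) := by
    intro x
    have h1 : (r ++ (A2 ++ A1)).toFinset = Finset.univ := by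
      rw [← Finset.card_eq_iff_eq_univ, List.toFinset_card_of_nodup hnd, hlen]
      rfl
    rw [← h1, List.mem_toFinset]
  have hsA1 : Snd (eB 10 4 10 4 (tp 4)) (adjL G (r ++ (A2 ++ A1))) := by
    have h1 := sndA (r := r ++ A2) (A := A1) (q := []) (n := 10)
      (by rw [List.length_append, hr.1, hA2.1]) hA1
    rw [List.append_nil, List.append_assoc] at h1
    exact h1
  have hcon := con_okMask hok (he.or ((sndR (q := A2 ++ A1) hr hi).or
    ((sndA (q := A1) hr.1 hA2).or hsA1)))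
  rcases apply_run h G hnd (hlen.trans hn.symm) (by rw [hP, hr.1]) (by
    intro k hk
    rw [hsm, show (1024 : ℕ) = 2 ^ 10 by norm_num, Nat.testBit_mul_two_pow] at hk
    simp only [Bool.and_eq_true, decide_eq_true_eq] at hk
    obtain ⟨hk1, hk2⟩ := hk
    have hk3 : k - 10 < 3 := bit_lt (n := 3) (by omega) hk2
    have h4 := hs (k - 10) hk3 hk2
    have h5 := getD_A1 (A1 := A1) hr hA2.1 hA1.1 (s := k - 10) (by omega)
    have h6 := getD_A1 (A1 := A1) hr hA2.1 hA1.1 (s := k - 10 + 1) (by omega)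
    rw [show 10 + (k - 10) = k by omega] at h5
    rw [show 10 + (k - 10 + 1) = k + 1 by omega] at h6
    rw [h5, h6]
    exact h4) hcon hS with h5 | h5 | h5 | h5 | h5 | h5
  · rw [hg] at h5
    exact Or.inl h5.2
  · rw [hK] at h5
    exact Or.inr h5
  · obtain ⟨t, _, _, _, _, h6, -⟩ := h5
    rw [hforb] at h6
    simp at h6
  · obtain ⟨h6, -⟩ := h5
    rw [hu] at h6
    simp at h6
  · obtain ⟨rows, h6, -⟩ := h5
    rw [hexc] at h6
    simp at h6
  · rw [hiso] at h5
    simp at h5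

def g2 (e q s : ℕ) : Bool := ((L5.getD e []).getD q 0).testBit s

def eG2 (e f : ℕ) : ℕ → ℕ → Option Bool :=
  eOr (eOr (eB 6 4 0 6 (g2 e)) (eB 0 6 6 4 fun x y => g2 e y x))
    (eOr (eB 10 4 0 6 (g2 f)) (eB 0 6 10 4 fun x y => g2 f y x))

theorem sndG2 {G : SimpleGraph V} {r A2 A1 : List V} {i e f : ℕ} (hr : IsR G i r)
    (hA2 : A2.length = 4) (hA1 : A1.length = 4) (he : Ex1 G r A2 e) (hf : Ex1 G r A1 f) :
    Snd (eG2 e f) (adjL G (r ++ (A2 ++ A1))) := by
  refine Snd.or (sndRow ?_) (sndRow ?_)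
  · intro x hx y hy
    rw [getD_A2 hr hA2 hx, Nat.zero_add, getD_R hr hy]
    exact he x hx y hy
  · intro x hx y hy
    rw [getD_A1 hr hA2 hA1 hx, Nat.zero_add, getD_R hr hy]
    exact hf x hx y hy

theorem glue2 (G : SimpleGraph V) {r A2 A1 : List V} {e f : ℕ} (he : e < 5) (hf : f < 5)
    (hr : IsR G 1 r) (hA2 : TyL G 4 A2) (hA1 : TyL G 4 A1) (hnd : (r ++ (A2 ++ A1)).Nodup)
    (h2 : Ex1 G r A2 e) (h1 : Ex1 G r A1 f) :
    HasCl G Finset.univ 5 ∨ Cov G 4 ((Finset.univ : Finset V) : Set V) := by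
  have hsnd := sndG2 hr hA2.1 hA1.1 h2 h1
  have hs : ∀ k < 3, (0 : ℕ).testBit k = true →
      kv G r (A1.getD k 0) ≤ kv G r (A1.getD (k + 1) 0) := by
    intro k _ hk
    simp at hk
  interval_cases e <;> interval_cases f
  · exact glue runG2_00 rfl rfl (by decide) rfl (by decide) (by decide +kernel) rfl rfl rfl rfl
      rfl rfl G hr hA2 hA1 hnd hs hsnd
  · exact glue runG2_01 rfl rfl (by decide) rfl (by decide) (by decide +kernel) rfl rfl rfl rfl
      rfl rfl G hr hA2 hA1 hnd hs hsnd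
  · exact glue runG2_02 rfl rfl (by decide) rfl (by decide) (by decide +kernel) rfl rfl rfl rfl
      rfl rfl G hr hA2 hA1 hnd hs hsnd
  · exact glue runG2_03 rfl rfl (by decide) rfl (by decide) (by decide +kernel) rfl rfl rfl rfl
      rfl rfl G hr hA2 hA1 hnd hs hsnd
  · exact glue runG2_04 rfl rfl (by decide) rfl (by decide) (by decide +kernel) rfl rfl rfl rfl
      rfl rfl G hr hA2 hA1 hnd hs hsnd
  · exact glue runG2_10 rfl rfl (by decide) rfl (by decide) (by decide +kernel) rfl rfl rfl rfl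
      rfl rfl G hr hA2 hA1 hnd hs hsnd
  · exact glue runG2_11 rfl rfl (by decide) rfl (by decide) (by decide +kernel) rfl rfl rfl rfl
      rfl rfl G hr hA2 hA1 hnd hs hsnd
  · exact glue runG2_12 rfl rfl (by decide) rfl (by decide) (by decide +kernel) rfl rfl rfl rfl
      rfl rfl G hr hA2 hA1 hnd hs hsnd
  · exact glue runG2_13 rfl rfl (by decide) rfl (by decide) (by decide +kernel) rfl rfl rfl rfl
      rfl rfl G hr hA2 hA1 hnd hs hsnd
  · exact glue runG2_14 rfl rfl (by decide) rfl (by decide) (by decide +kernel) rfl rfl rfl rfl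
      rfl rfl G hr hA2 hA1 hnd hs hsnd
  · exact glue runG2_20 rfl rfl (by decide) rfl (by decide) (by decide +kernel) rfl rfl rfl rfl
      rfl rfl G hr hA2 hA1 hnd hs hsnd
  · exact glue runG2_21 rfl rfl (by decide) rfl (by decide) (by decide +kernel) rfl rfl rfl rfl
      rfl rfl G hr hA2 hA1 hnd hs hsnd
  · exact glue runG2_22 rfl rfl (by decide) rfl (by decide) (by decide +kernel) rfl rfl rfl rfl
      rfl rfl G hr hA2 hA1 hnd hs hsnd
  · exact glue runG2_23 rfl rfl (by decide) rfl (by decide) (by decide +kernel) rfl rfl rfl rfl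
      rfl rfl G hr hA2 hA1 hnd hs hsnd
  · exact glue runG2_24 rfl rfl (by decide) rfl (by decide) (by decide +kernel) rfl rfl rfl rfl
      rfl rfl G hr hA2 hA1 hnd hs hsnd
  · exact glue runG2_30 rfl rfl (by decide) rfl (by decide) (by decide +kernel) rfl rfl rfl rfl
      rfl rfl G hr hA2 hA1 hnd hs hsnd
  · exact glue runG2_31 rfl rfl (by decide) rfl (by decide) (by decide +kernel) rfl rfl rfl rfl
      rfl rfl G hr hA2 hA1 hnd hs hsnd
  · exact glue runG2_32 rfl rfl (by decide) rfl (by decide) (by decide +kernel) rfl rfl rfl rfl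
      rfl rfl G hr hA2 hA1 hnd hs hsnd
  · exact glue runG2_33 rfl rfl (by decide) rfl (by decide) (by decide +kernel) rfl rfl rfl rfl
      rfl rfl G hr hA2 hA1 hnd hs hsnd
  · exact glue runG2_34 rfl rfl (by decide) rfl (by decide) (by decide +kernel) rfl rfl rfl rfl
      rfl rfl G hr hA2 hA1 hnd hs hsnd
  · exact glue runG2_40 rfl rfl (by decide) rfl (by decide) (by decide +kernel) rfl rfl rfl rfl
      rfl rfl G hr hA2 hA1 hnd hs hsnd
  · exact glue runG2_41 rfl rfl (by decide) rfl (by decide) (by decide +kernel) rfl rfl rfl rfl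
      rfl rfl G hr hA2 hA1 hnd hs hsnd
  · exact glue runG2_42 rfl rfl (by decide) rfl (by decide) (by decide +kernel) rfl rfl rfl rfl
      rfl rfl G hr hA2 hA1 hnd hs hsnd
  · exact glue runG2_43 rfl rfl (by decide) rfl (by decide) (by decide +kernel) rfl rfl rfl rfl
      rfl rfl G hr hA2 hA1 hnd hs hsnd
  · exact glue runG2_44 rfl rfl (by decide) rfl (by decide) (by decide +kernel) rfl rfl rfl rfl
      rfl rfl G hr hA2 hA1 hnd hs hsnd

def g3 (q s : ℕ) : Bool := (([52, 50, 15] : List ℕ).getD q 0).testBit s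

def eG3 : ℕ → ℕ → Option Bool :=
  eOr (eOr (eB 6 3 0 6 g3) (eB 0 6 6 3 fun x y => g3 y x))
    (eOr (eB 9 1 1 3 fun _ _ => true) (eB 1 3 9 1 fun _ _ => true))

theorem glue3 (G : SimpleGraph V) {r A2 A1 : List V}
    (hr : IsR G 2 r) (hA2 : TyL G 4 A2) (hA1 : TyL G 4 A1) (hnd : (r ++ (A2 ++ A1)).Nodup)
    (h2 : Ex2 G r A2) :
    HasCl G Finset.univ 5 ∨ Cov G 4 ((Finset.univ : Finset V) : Set V) := by
  obtain ⟨B1, h3, h4, h5⟩ := sortTy G r (by norm_num) hA1
  have hnd' : (r ++ (A2 ++ B1)).Nodup :=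
    (((h3.symm.append_left A2).append_left r).nodup_iff).1 hnd
  have hsnd : Snd eG3 (adjL G (r ++ (A2 ++ B1))) := by
    refine Snd.or (sndRow ?_) (sndRow ?_)
    · intro x hx y hy
      rw [getD_A2 hr hA2.1 (by omega), Nat.zero_add, getD_R hr hy]
      exact h2.1 x hx y hy
    · intro x hx y hy
      rw [show 9 + x = 6 + 3 by omega, getD_A2 hr hA2.1 (by omega), getD_R hr (by omega)]
      exact ⟨fun _ => rfl, fun _ => h2.2 _ (by omega) (by omega)⟩
  exact glue runG3 rfl rfl (by decide) (sm := 7) rfl (by decide) (by decide +kernel) rfl rfl rfl rfl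
    rfl rfl G hr hA2 h4 hnd' (fun k hk _ => h5 k (by interval_cases k <;> decide)) hsnd

/-- Two vertices away from the three independent vertices. -/
theorem glue012 {G : SimpleGraph V} {i : ℕ} {r A2 A1 : List V} (hr : IsR G i r) (hi : i < 3)
    (hne : i ≠ 1) (hnd : (r ++ (A2 ++ A1)).Nodup) (h2 : U012 G r A2) (h1 : U012 G r A1) :
    HasCl G Finset.univ 5 := by
  obtain ⟨a, ha, ha0, ha1, ha2⟩ := h2
  obtain ⟨w, hw, hw0, hw1, hw2⟩ := h1
  rw [List.nodup_append] at hnd
  obtain ⟨hrn, hAn, hrA⟩ := hnd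
  rw [List.nodup_append] at hAn
  obtain ⟨-, -, hAA⟩ := hAn
  have haw : a ≠ w := hAA a ha w hw
  have hmem : ∀ k < 6, r.getD k 0 ∈ r := fun k hk => getD_mem (by rw [hr.1]; exact hk)
  have hra : ∀ k < 6, r.getD k 0 ≠ a := fun k hk =>
    hrA _ (hmem k hk) a (List.mem_append_left _ ha)
  have hrw : ∀ k < 6, r.getD k 0 ≠ w := fun k hk =>
    hrA _ (hmem k hk) w (List.mem_append_right _ hw)
  have hrr : ∀ x < 6, ∀ y < 6, x ≠ y → r.getD x 0 ≠ r.getD y 0 := by
    intro x hx y hy hxy h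
    exact hxy (getD_inj hrn (by rw [hr.1]; exact hx) (by rw [hr.1]; exact hy) h)
  have hind : ∀ x < 3, ∀ y < 3, x ≠ y → ¬ G.Adj (r.getD x 0) (r.getD y 0) := by
    intro x hx y hy hxy h
    rw [isR_adj hr hi x y (by omega) (by omega) hxy] at h
    revert h
    interval_cases i <;> interval_cases x <;> interval_cases y <;>
      first | exact absurd rfl hxy | exact absurd rfl hne | decide
  refine ⟨[r.getD 0 0, r.getD 1 0, r.getD 2 0, a, w], ?_, rfl, fun _ _ => Finset.mem_univ _, ?_⟩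
  · simp only [List.nodup_cons, List.mem_cons, List.not_mem_nil, or_false, not_or,
      not_false_eq_true, List.nodup_nil, and_true]
    exact ⟨⟨hrr 0 (by norm_num) 1 (by norm_num) (by norm_num),
      hrr 0 (by norm_num) 2 (by norm_num) (by norm_num), hra 0 (by norm_num), hrw 0 (by norm_num)⟩,
      ⟨hrr 1 (by norm_num) 2 (by norm_num) (by norm_num), hra 1 (by norm_num), hrw 1 (by norm_num)⟩,
      ⟨hra 2 (by norm_num), hrw 2 (by norm_num)⟩, haw⟩
  · have hadj : ∀ x ∈ [r.getD 0 0, r.getD 1 0, r.getD 2 0, a, w],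
        ∀ y ∈ [r.getD 0 0, r.getD 1 0, r.getD 2 0, a, w], G.Adj x y →
        (x = a ∧ y = w) ∨ (x = w ∧ y = a) := by
      intro x hx y hy hxy
      simp only [List.mem_cons, List.not_mem_nil, or_false] at hx hy
      rcases hx with rfl | rfl | rfl | rfl | rfl <;> rcases hy with rfl | rfl | rfl | rfl | rfl <;>
        first
          | exact absurd hxy (G.irrefl)
          | exact Or.inl ⟨rfl, rfl⟩
          | exact Or.inr ⟨rfl, rfl⟩
          | exact absurd hxy (hind _ (by norm_num) _ (by norm_num) (by norm_num))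
          | exact absurd hxy ha0
          | exact absurd hxy ha1
          | exact absurd hxy ha2
          | exact absurd hxy hw0
          | exact absurd hxy hw1
          | exact absurd hxy hw2
          | exact absurd hxy.symm ha0
          | exact absurd hxy.symm ha1
          | exact absurd hxy.symm ha2
          | exact absurd hxy.symm hw0
          | exact absurd hxy.symm hw1
          | exact absurd hxy.symm hw2
    intro x hx y hy z hz hxy hyz hxz
    exfalso
    rcases hadj x hx y hy hxy with ⟨h1, h2⟩ | ⟨h1, h2⟩ <;>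
      rcases hadj y hy z hz hyz with ⟨h3, h4⟩ | ⟨h3, h4⟩
    · exact haw (h3.symm.trans h2)
    · exact hxz (h1.trans h4.symm)
    · exact hxz (h1.trans h4.symm)
    · exact haw (h2.symm.trans h3)

/-- Every graph on fourteen vertices has a cover by four clusters. -/
theorem main14 (G : SimpleGraph V) : Cov G 4 ((Finset.univ : Finset V) : Set V) := by
  classical
  by_contra hno
  have hcu : (Finset.univ : Finset V).card = 14 := rfl
  have h5 : ¬ HasCl G Finset.univ 5 := fun h => hno (cov_of_hasCl h fun T _ hT =>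
    cov9 G T (by omega))
  -- removing a clique or cluster `L` on four vertices leaves a set that is not 3-coverable
  have hrem : ∀ L : List V, L.Nodup → L.length = 4 → Cl G (ls L) →
      (Finset.univ \ L.toFinset).card = 10 ∧
      ¬ Cov G 3 ((Finset.univ \ L.toFinset : Finset V) : Set V) := by
    intro L h1 h2 h3
    refine ⟨?_, ?_⟩
    · rw [Finset.card_sdiff_of_subset (Finset.subset_univ _), List.toFinset_card_of_nodup h1, h2,
        hcu]
    · intro h4
      refine hno (Cov.cons (T := ls L) (Cov.mono h4 ?_) h3)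
      intro x hx
      rw [Finset.mem_coe, Finset.mem_sdiff, List.mem_toFinset]
      exact ⟨Finset.mem_univ _, fun h => hx.2 h⟩
  obtain ⟨T, -, hT2⟩ := Finset.exists_subset_card_eq (show 10 ≤ (Finset.univ : Finset V).card by
    omega)
  obtain ⟨B, hB1, hB2, -, hB4⟩ := cl10 G T hT2
  obtain ⟨hQ1, hQ2⟩ := hrem B hB1 hB2 hB4
  obtain ⟨A1, hA11, -, hA13, hA14⟩ := k4_of_not_cov hQ1 hQ2
  obtain ⟨hQ3, hQ4⟩ := hrem A1 hA11 hA13.1 hA14
  obtain ⟨A2, hA21, hA22, hA23, hA24⟩ := k4_of_not_cov hQ3 hQ4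
  obtain ⟨hQ5, hQ6⟩ := hrem A2 hA21 hA23.1 hA24
  -- the remaining six vertices
  have hdisj : ∀ x ∈ A2, x ∉ A1 := by
    intro x hx
    have h := hA22 x hx
    rw [Finset.mem_sdiff, List.mem_toFinset] at h
    exact h.2
  have hR1 : ((Finset.univ \ A1.toFinset) \ A2.toFinset).card = 6 := by
    rw [Finset.card_sdiff_of_subset (by
      intro x hx
      exact hA22 x (List.mem_toFinset.1 hx)), List.toFinset_card_of_nodup hA21, hA23.1, hQ3]
  rcases cov6 G _ hR1 with h6 | ⟨i, hi, r, hr, hrS⟩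
  · apply hQ4
    refine Cov.cons (T := ls A2) (Cov.mono h6 ?_) hA24
    intro x hx
    rw [Finset.mem_coe, Finset.mem_sdiff, List.mem_toFinset]
    exact ⟨Finset.mem_coe.1 hx.1, fun h => hx.2 h⟩
  have hrmem := enum6 hR1 hr hrS
  obtain ⟨hnd2, hmem2⟩ := join_enum hA21 hr.2.1 hA22 hrmem
  have hrmem' : ∀ x, x ∈ r ↔ x ∈ (Finset.univ \ A2.toFinset) \ A1.toFinset := by
    intro x
    rw [hrmem x]
    simp only [Finset.mem_sdiff, Finset.mem_univ, true_and]
    exact and_comm
  have hA12 : ∀ x ∈ A1, x ∈ (Finset.univ : Finset V) \ A2.toFinset := by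
    intro x hx
    rw [Finset.mem_sdiff, List.mem_toFinset]
    exact ⟨Finset.mem_univ _, fun h => hdisj x h hx⟩
  obtain ⟨hnd1, hmem1⟩ := join_enum hA11 hr.2.1 hA12 hrmem'
  have hndall : (r ++ (A2 ++ A1)).Nodup := by
    rw [← List.append_assoc, List.nodup_append]
    refine ⟨hnd2, hA11, ?_⟩
    intro a ha b hb hab
    subst hab
    rcases List.mem_append.1 ha with h | h
    · exact (List.nodup_append.1 hnd1).2.2 a h a hb rfl
    · exact hdisj a h hb
  have hndall' : (r ++ (A1 ++ A2)).Nodup :=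
    ((List.perm_append_comm.append_left r).nodup_iff).1 hndall
  have hn2 := no5 hQ3 hQ4
  have hn1 := no5 hQ5 hQ6
  interval_cases i
  · exact h5 (glue012 hr (by norm_num) (by norm_num) hndall
      (stageF0 G _ hr hA23 hnd2 hmem2 hn2 hQ4) (stageF0 G _ hr hA13 hnd1 hmem1 hn1 hQ6))
  · obtain ⟨B2, hB21, hB22, e, he, hB23⟩ := stageF1 G _ hr hA23 hnd2 hmem2 hn2 hQ4
    obtain ⟨B1, hB11, hB12, f, hf, hB13⟩ := stageF1 G _ hr hA13 hnd1 hmem1 hn1 hQ6
    have hnd3 : (r ++ (B2 ++ B1)).Nodup :=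
      (((hB21.append hB11).append_left r).nodup_iff).2 hndall
    rcases glue2 G he hf hr hB22 hB12 hnd3 hB23 hB13 with h | h
    · exact h5 h
    · exact hno h
  · rcases stageF2 G _ hr hA23 hnd2 hmem2 hn2 hQ4 with hu2 | ⟨B2, hB21, hB22, hB23⟩
    · rcases stageF2 G _ hr hA13 hnd1 hmem1 hn1 hQ6 with hu1 | ⟨B1, hB11, hB12, hB13⟩
      · exact h5 (glue012 hr (by norm_num) (by norm_num) hndall hu2 hu1)
      · have hnd3 : (r ++ (B1 ++ A2)).Nodup :=
          (((hB11.append_right A2).append_left r).nodup_iff).2 hndall'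
        rcases glue3 G hr hB12 hA23 hnd3 hB13 with h | h
        · exact h5 h
        · exact hno h
    · have hnd3 : (r ++ (B2 ++ A1)).Nodup :=
        (((hB21.append_right A1).append_left r).nodup_iff).2 hndall
      rcases glue3 G hr hB22 hA13 hnd3 hB23 with h | h
      · exact h5 h
      · exact hno h

end Pool.Agent.Q129.SubMain
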