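import Pool.Agent.Q129.SubLeaf

set_option autoImplicit false

namespace Pool.Agent.Q129.SubV

open Pool.Agent.Q129.SubChk Pool.Agent.Q129.SubLeaf

abbrev V := Fin 14

/-- `S` induces a disjoint union of cliques. -/
def Cl (G : SimpleGraph V) (S : Set V) : Prop :=
  ∀ a ∈ S, ∀ b ∈ S, ∀ c ∈ S, G.Adj a b → G.Adj b c → a ≠ c → G.Adj a c

/-- `S` can be covered by `k` such sets. -/
def Cov (G : SimpleGraph V) (k : ℕ) (S : Set V) : Prop :=
  ∃ Ms : List (Set V), Ms.length = k ∧ (∀ M ∈ Ms, Cl G M) ∧ ∀ x ∈ S, ∃ M ∈ Ms, x ∈ M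

/-- The vertices of a list. -/
def ls (l : List V) : Set V := {x | x ∈ l}

theorem Cl.mono {G : SimpleGraph V} {S T : Set V} (h : Cl G T) (hST : S ⊆ T) : Cl G S :=
  fun a ha b hb c hc => h a (hST ha) b (hST hb) c (hST hc)

theorem Cov.mono {G : SimpleGraph V} {k : ℕ} {S T : Set V} (h : Cov G k T) (hST : S ⊆ T) :
    Cov G k S := by
  obtain ⟨Ms, h1, h2, h3⟩ := h
  exact ⟨Ms, h1, h2, fun x hx => h3 x (hST hx)⟩

theorem Cov.cons {G : SimpleGraph V} {k : ℕ} {S T : Set V} (h : Cov G k (S \ T)) (hT : Cl G T) :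
    Cov G (k + 1) S := by
  obtain ⟨Ms, h1, h2, h3⟩ := h
  refine ⟨T :: Ms, by simp [h1], ?_, ?_⟩
  · intro M hM
    rcases List.mem_cons.1 hM with rfl | hM
    · exact hT
    · exact h2 M hM
  · intro x hx
    by_cases hxT : x ∈ T
    · exact ⟨T, by simp, hxT⟩
    · obtain ⟨M, hM, hxM⟩ := h3 x ⟨hx, hxT⟩
      exact ⟨M, by simp [hM], hxM⟩

theorem Cl.cov {G : SimpleGraph V} {S : Set V} (h : Cl G S) (k : ℕ) : Cov G (k + 1) S := by
  refine ⟨List.replicate (k + 1) S, by simp, ?_, ?_⟩
  · intro M hM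
    rw [List.eq_of_mem_replicate hM]
    exact h
  · intro x hx
    exact ⟨S, by simp, hx⟩

/-- Adjacency of positions in a list. -/
def adjL (G : SimpleGraph V) (l : List V) (i j : ℕ) : Prop := G.Adj (l.getD i 0) (l.getD j 0)

theorem adjL_symm (G : SimpleGraph V) (l : List V) : ∀ x y, adjL G l x y → adjL G l y x :=
  fun _ _ h => G.adj_symm h

theorem getD_mem {l : List V} {i : ℕ} (h : i < l.length) : l.getD i 0 ∈ l := by
  rw [List.getD_eq_getElem _ _ h]
  exact List.getElem_mem _

theorem getD_inj {l : List V} (hl : l.Nodup) {i j : ℕ} (hi : i < l.length) (hj : j < l.length)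
    (h : l.getD i 0 = l.getD j 0) : i = j := by
  rw [List.getD_eq_getElem _ _ hi, List.getD_eq_getElem _ _ hj] at h
  exact (hl.getElem_inj_iff).1 h

theorem exists_getD {l : List V} {x : V} (h : x ∈ l) : ∃ i < l.length, l.getD i 0 = x := by
  obtain ⟨i, hi, rfl⟩ := List.mem_iff_getElem.1 h
  exact ⟨i, hi, List.getD_eq_getElem _ _ hi⟩

theorem cl_map {G : SimpleGraph V} {l : List V} {L : List ℕ} (h : ClL (adjL G l) L) :
    Cl G (ls (L.map fun i => l.getD i 0)) := by
  intro a ha b hb c hc hab hbc hac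
  simp only [ls, Set.mem_ofPred_eq, List.mem_map] at ha hb hc
  obtain ⟨x, hx, rfl⟩ := ha
  obtain ⟨y, hy, rfl⟩ := hb
  obtain ⟨z, hz, rfl⟩ := hc
  exact h x hx y hy z hz hab hbc (fun h => hac (by rw [h]))

theorem nodup_map {l : List V} (hl : l.Nodup) {L : List ℕ} (hL : L.Nodup)
    (h : ∀ x ∈ L, x < l.length) : (L.map fun i => l.getD i 0).Nodup := by
  refine List.Nodup.map_on ?_ hL
  intro x hx y hy hxy
  exact getD_inj hl (h x hx) (h y hy) hxy

theorem sub_map {l : List V} {L : List ℕ} (h : ∀ x ∈ L, x < l.length) :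
    ∀ y ∈ (L.map fun i => l.getD i 0), y ∈ l := by
  intro y hy
  obtain ⟨x, hx, rfl⟩ := List.mem_map.1 hy
  exact getD_mem (h x hx)

/-- Binary key of a vertex. -/
def key (b : ℕ → Bool) : ℕ → ℕ
  | 0 => 0
  | s + 1 => 2 * key b s + (b s).toNat

theorem key_lt (b c : ℕ → Bool) (t : ℕ) (h : ∀ s < t, b s = c s) (hb : b t = true)
    (hc : c t = false) : ∀ m, t < m → key c m < key b m := by
  have heq : ∀ s, s ≤ t → key b s = key c s := by
    intro s
    induction s with
    | zero => intro _; rfl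
    | succ s ih =>
      intro hs
      rw [key, key, ih (by omega), h s (by omega)]
  intro m
  induction m with
  | zero => intro h; omega
  | succ m ih =>
    intro hm
    rw [key, key]
    by_cases h1 : t = m
    · subst h1
      rw [heq t le_rfl, hb, hc]
      simp
    · have h2 := ih (by omega)
      have h3 : (c m).toNat ≤ 1 := Bool.toNat_le _
      omega

/-- Key of a vertex with respect to a list. -/
noncomputable def kv (G : SimpleGraph V) (p : List V) (v : V) : ℕ :=
  key (fun s => @decide (G.Adj v (p.getD s 0)) (Classical.propDecidable _)) p.length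

theorem noViol {G : SimpleGraph V} {P : Prm} {p q : List V} (hp : p.length = P.m0)
    (hs : ∀ a, P.sorted.testBit a = true → kv G p ((p ++ q).getD a 0) ≤ kv G p ((p ++ q).getD (a + 1) 0)) :
    ¬ GViol P (adjL G (p ++ q)) := by
  rintro ⟨a, ha, t, ht, h1, h2, h3⟩
  have h4 := hs a ha
  have hget : ∀ s < P.m0, (p ++ q).getD s 0 = p.getD s 0 := by
    intro s hs
    exact List.getD_append _ _ _ _ (by omega)
  have h5 := key_lt (fun s => @decide (G.Adj ((p ++ q).getD a 0) (p.getD s 0)) (Classical.propDecidable _))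
    (fun s => @decide (G.Adj ((p ++ q).getD (a + 1) 0) (p.getD s 0)) (Classical.propDecidable _)) t ?_ ?_ ?_
    p.length (by omega)
  · exact absurd h4 (by unfold kv; omega)
  · intro s hs
    have h6 := h1 s hs
    unfold adjL at h6
    rw [hget s (by omega)] at h6
    exact decide_eq_decide.2 h6
  · unfold adjL at h2
    rw [hget t ht] at h2
    simpa using h2
  · unfold adjL at h3
    rw [hget t ht] at h3
    simpa using h3

theorem noClu {P : Prm} {adj : ℕ → ℕ → Prop} (h : P.n < P.g) : ¬ GClu P adj := by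
  rintro ⟨L, h1, h2, h3, -⟩
  have h4 : L.length ≤ (List.range P.n).length := by
    apply List.Subperm.length_le
    exact List.subperm_of_subset h1 (fun x hx => List.mem_range.2 (h2 x hx))
  rw [List.length_range] at h4
  omega

/-- Sorting a list by the key. -/
theorem exists_sorted (G : SimpleGraph V) (p : List V) (q : List V) :
    ∃ q' : List V, q'.Perm q ∧ q'.Pairwise (fun a b => kv G p a ≤ kv G p b) := by
  classical
  refine ⟨q.insertionSort (fun a b => kv G p a ≤ kv G p b), List.perm_insertionSort _ _, ?_⟩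
  have : Std.Total (fun a b : V => kv G p a ≤ kv G p b) := ⟨fun a b => le_total _ _⟩
  have : IsTrans V (fun a b : V => kv G p a ≤ kv G p b) := ⟨fun a b c h1 h2 => le_trans h1 h2⟩
  exact List.pairwise_insertionSort _ _

/-- Enumeration of a set with a given start, the rest being sorted. -/
theorem enumRest (G : SimpleGraph V) (S : Finset V) (p : List V) (hp : p.Nodup)
    (hsub : ∀ x ∈ p, x ∈ S) : ∃ q : List V, (p ++ q).Nodup ∧ (∀ x, x ∈ p ++ q ↔ x ∈ S) ∧
      q.Pairwise (fun a b => kv G p a ≤ kv G p b) ∧ (p ++ q).length = S.card := by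
  classical
  obtain ⟨q, hq1, hq2⟩ := exists_sorted G p (S \ p.toFinset).toList
  have hmem : ∀ x, x ∈ q ↔ x ∈ S ∧ x ∉ p := by
    intro x
    rw [hq1.mem_iff, Finset.mem_toList, Finset.mem_sdiff, List.mem_toFinset]
  have hnd : (p ++ q).Nodup := by
    rw [List.nodup_append]
    refine ⟨hp, hq1.nodup_iff.2 (Finset.nodup_toList _), ?_⟩
    intro a ha b hb hab
    subst hab
    exact ((hmem a).1 hb).2 ha
  have hmem2 : ∀ x, x ∈ p ++ q ↔ x ∈ S := by
    intro x
    rw [List.mem_append, hmem]
    constructor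
    · rintro (h | h)
      · exact hsub x h
      · exact h.1
    · intro h
      by_cases hx : x ∈ p
      · exact Or.inl hx
      · exact Or.inr ⟨h, hx⟩
  refine ⟨q, hnd, hmem2, hq2, ?_⟩
  rw [← List.toFinset_card_of_nodup hnd]
  congr 1
  ext x
  rw [List.mem_toFinset, hmem2]

/-- Pairwise sorted lists: consecutive entries. -/
theorem sorted_get {r : V → V → Prop} {q : List V} (h : q.Pairwise r) (p : List V) (a : ℕ)
    (h1 : p.length ≤ a) (h2 : a + 1 < (p ++ q).length) :
    r ((p ++ q).getD a 0) ((p ++ q).getD (a + 1) 0) := by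
  rw [List.length_append] at h2
  rw [List.getD_append_right _ _ _ _ h1, List.getD_append_right _ _ _ _ (by omega)]
  rw [List.getD_eq_getElem _ _ (by omega), List.getD_eq_getElem _ _ (by omega)]
  exact List.pairwise_iff_getElem.1 h _ _ _ _ (by omega)

/-- The consistency of the starting masks. -/
theorem con_of {A B : ℕ} {adj : ℕ → ℕ → Prop} (e : ℕ → ℕ → Option Bool)
    (hA : A < 2 ^ 256) (hB : B < 2 ^ 256)
    (hchk : ∀ i < 16, ∀ j < 16, (A.testBit (16 * i + j) = true → e i j = some true) ∧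
      (B.testBit (16 * i + j) = true → e i j = some false))
    (he : ∀ i j b, e i j = some b → (adj i j ↔ b = true)) : Con A B adj := by
  have hbig : ∀ X, X < 2 ^ 256 → ∀ i j, X.testBit (16 * i + j) = true → i < 16 := by
    intro X hX i j h
    by_contra hi
    rw [Nat.testBit_lt_two_pow (lt_of_lt_of_le hX (Nat.pow_le_pow_right (by norm_num)
      (by omega)))] at h
    simp at h
  refine ⟨?_, ?_⟩
  · intro i j hj h
    exact (he i j true ((hchk i (hbig A hA i j h) j hj).1 h)).2 rfl
  · intro i j hj h hadj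
    have := (he i j false ((hchk i (hbig B hB i j h) j hj).2 h)).1 hadj
    simp at this

end Pool.Agent.Q129.SubV
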