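import Pool.Agent.Q129.SubV

set_option autoImplicit false

namespace Pool.Agent.Q129.SubW

open Pool.Agent.Q129.SubChk Pool.Agent.Q129.SubLeaf Pool.Agent.Q129.SubV

def HasCl (G : SimpleGraph V) (S : Finset V) (k : ℕ) : Prop :=
  ∃ L : List V, L.Nodup ∧ L.length = k ∧ (∀ x ∈ L, x ∈ S) ∧ Cl G (ls L)

def PatV (G : SimpleGraph V) (t : ℕ) (a b c d : V) : Prop :=
  (G.Adj a b ↔ 1 ≤ t) ∧ (G.Adj a c ↔ 3 ≤ t) ∧ (G.Adj a d ↔ t = 4) ∧ (G.Adj b c ↔ 3 ≤ t) ∧
    (G.Adj b d ↔ t = 4) ∧ (G.Adj c d ↔ (t = 2 ∨ t = 4))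

def IsR (G : SimpleGraph V) (i : ℕ) (r : List V) : Prop :=
  r.length = 6 ∧ r.Nodup ∧ ∀ p ∈ pr6, (G.Adj (r.getD p.1 0) (r.getD p.2 0) ↔ rm i p.1 p.2 = true)

theorem HasCl.mono {G : SimpleGraph V} {S T : Finset V} {k : ℕ} (h : HasCl G S k) (hST : S ⊆ T) :
    HasCl G T k := by
  obtain ⟨L, h1, h2, h3, h4⟩ := h
  exact ⟨L, h1, h2, fun x hx => hST (h3 x hx), h4⟩

theorem Cl.hasCl {G : SimpleGraph V} {S : Finset V} (h : Cl G (S : Set V)) {k : ℕ}
    (hk : k ≤ S.card) : HasCl G S k := by
  refine ⟨S.toList.take k, (List.take_sublist _ _).nodup (Finset.nodup_toList _), ?_, ?_, ?_⟩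
  · rw [List.length_take, Finset.length_toList]
    omega
  · intro x hx
    exact Finset.mem_toList.1 (List.mem_of_mem_take hx)
  · refine Cl.mono h ?_
    intro x hx
    exact Finset.mem_coe.2 (Finset.mem_toList.1 (List.mem_of_mem_take hx))

theorem cov_zero {G : SimpleGraph V} {S : Finset V} (hS : 0 < S.card)
    (h : Cov G 0 (S : Set V)) : False := by
  obtain ⟨Ms, h1, -, h3⟩ := h
  obtain ⟨x, hx⟩ := Finset.card_pos.1 hS
  obtain ⟨M, hM, -⟩ := h3 x hx
  rw [List.length_eq_zero_iff] at h1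
  subst h1
  simp at hM

theorem coe_ls {S : Finset V} {l : List V} (hS : ∀ x, x ∈ l ↔ x ∈ S) :
    ls l = (S : Set V) := by
  ext x
  rw [Finset.mem_coe, ← hS x]
  exact Iff.rfl

theorem pr6_lt : ∀ p ∈ pr6, p.1 < 6 ∧ p.2 < 6 := by decide

theorem apply_run {P : Prm} {ord : List (ℕ × ℕ)} {A B : ℕ} {cs : List ℕ}
    (h : run P ord A B cs = true) (G : SimpleGraph V) {p q : List V}
    (hnd : (p ++ q).Nodup) (hlen : (p ++ q).length = P.n) (hp : p.length = P.m0)
    (hs : ∀ a, P.sorted.testBit a = true →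
      kv G p ((p ++ q).getD a 0) ≤ kv G p ((p ++ q).getD (a + 1) 0))
    (hc : Con A B (adjL G (p ++ q))) {S : Finset V} (hS : ∀ x, x ∈ p ++ q ↔ x ∈ S) :
    (P.g ≤ P.n ∧ HasCl G S P.g) ∨ Cov G P.K (S : Set V) ∨
    (∃ t a b c d, P.forb.testBit t = true ∧ [a, b, c, d].Nodup ∧ (∀ x ∈ [a, b, c, d], x ∈ S) ∧
      PatV G t a b c d) ∨
    G012 P (adjL G (p ++ q)) ∨ GExc P (adjL G (p ++ q)) ∨
    (P.iso = true ∧ ∃ i < 3, ∃ r, IsR G i r ∧ ∀ x ∈ r, x ∈ S) := by
  have hg := run_sound P ord A B cs h (adjL_symm G (p ++ q)) hc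
  rcases hg with h | h | h | h | h | h | h
  · exact absurd h (noViol hp hs)
  · left
    obtain ⟨L, h1, h2, h3, h4⟩ := h
    have hle : P.g ≤ P.n := by
      by_contra hcon
      exact noClu (Nat.lt_of_not_le hcon) ⟨L, h1, h2, h3, h4⟩
    refine ⟨hle, ((L.map fun i => (p ++ q).getD i 0).take P.g), ?_, ?_, ?_, ?_⟩
    · exact (List.take_sublist _ _).nodup (nodup_map hnd h1 (fun x hx => by
        rw [hlen]; exact h2 x hx))
    · rw [List.length_take, List.length_map]
      omega
    · intro x hx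
      exact (hS x).1 (sub_map (fun x hx => by rw [hlen]; exact h2 x hx) x
        (List.mem_of_mem_take hx))
    · exact Cl.mono (cl_map h4) (fun x hx => List.mem_of_mem_take hx)
  · right; left
    obtain ⟨Ms, h1, h2, h3⟩ := h
    refine ⟨Ms.map fun L => ls (L.map fun i => (p ++ q).getD i 0), by simp [h1], ?_, ?_⟩
    · intro M hM
      obtain ⟨L, hL, rfl⟩ := List.mem_map.1 hM
      exact cl_map (h2 L hL)
    · intro x hx
      obtain ⟨i, hi, rfl⟩ := exists_getD ((hS x).2 (Finset.mem_coe.1 hx))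
      obtain ⟨L, hL, hiL⟩ := h3 i (by omega)
      exact ⟨_, List.mem_map.2 ⟨L, hL, rfl⟩, List.mem_map.2 ⟨i, hiL, rfl⟩⟩
  · right; right; left
    obtain ⟨t, a, b, c, d, h1, h2, h3, h4⟩ := h
    refine ⟨t, (p ++ q).getD a 0, (p ++ q).getD b 0, (p ++ q).getD c 0, (p ++ q).getD d 0, h1,
      ?_, ?_, h4⟩
    · have := nodup_map hnd h2 (fun x hx => by rw [hlen]; exact h3 x hx)
      exact this
    · intro x hx
      have h5 : x ∈ ([a, b, c, d].map fun i => (p ++ q).getD i 0) := hx
      exact (hS x).1 (sub_map (fun x hx => by rw [hlen]; exact h3 x hx) x h5)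
  · right; right; right; left
    exact h
  · right; right; right; right; left
    exact h
  · right; right; right; right; right
    obtain ⟨h0, i, hi, l, h1, h2, h3, h4⟩ := h
    refine ⟨h0, i, hi, l.map fun i => (p ++ q).getD i 0, ⟨by simp [h1], ?_, ?_⟩, ?_⟩
    · exact nodup_map hnd h2 (fun x hx => by rw [hlen]; exact h3 x hx)
    · intro pp hpp
      have h5 := h4 pp hpp
      have hb : pp.1 < 6 ∧ pp.2 < 6 := pr6_lt pp hpp
      have h6 : ∀ k, k < 6 → (l.map fun i => (p ++ q).getD i 0).getD k 0 =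
          (p ++ q).getD (l.getD k 0) 0 := by
        intro k hk
        rw [List.getD_eq_getElem _ _ (by simp [h1, hk]), List.getElem_map,
          List.getD_eq_getElem l _ (by omega)]
      rw [h6 _ hb.1, h6 _ hb.2]
      exact h5
    · intro x hx
      exact (hS x).1 (sub_map (fun x hx => by rw [hlen]; exact h3 x hx) x hx)

/-! ### Soundness of prescribed adjacencies -/

def Snd (e : ℕ → ℕ → Option Bool) (adj : ℕ → ℕ → Prop) : Prop :=
  ∀ i j b, e i j = some b → (adj i j ↔ b = true)

def eOr (e f : ℕ → ℕ → Option Bool) (i j : ℕ) : Option Bool :=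
  match e i j with
    | some b => some b
    | none => f i j

theorem Snd.or {e f : ℕ → ℕ → Option Bool} {adj : ℕ → ℕ → Prop} (he : Snd e adj)
    (hf : Snd f adj) : Snd (eOr e f) adj := by
  intro i j b h
  unfold eOr at h
  cases hei : e i j with
  | some c =>
    rw [hei] at h
    simp only [Option.some.injEq] at h
    subst h
    exact he i j c hei
  | none =>
    rw [hei] at h
    exact hf i j b h

/-- A block of adjacencies `x ∈ [a, a+m)`, `y ∈ [b, b+k)` given by `f`. -/
def eB (a m b k : ℕ) (f : ℕ → ℕ → Bool) (x y : ℕ) : Option Bool :=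
  if a ≤ x ∧ x < a + m ∧ b ≤ y ∧ y < b + k ∧ x ≠ y then some (f (x - a) (y - b)) else none

theorem Snd.block {a m b k : ℕ} {f : ℕ → ℕ → Bool} {adj : ℕ → ℕ → Prop}
    (h : ∀ x < m, ∀ y < k, a + x ≠ b + y → (adj (a + x) (b + y) ↔ f x y = true)) :
    Snd (eB a m b k f) adj := by
  intro i j c hc
  unfold eB at hc
  split_ifs at hc with h1
  simp only [Option.some.injEq] at hc
  have h2 := h (i - a) (by omega) (j - b) (by omega) (by omega)
  rw [show a + (i - a) = i by omega, show b + (j - b) = j by omega] at h2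
  rw [h2, hc]

/-- The checking of the starting masks as one Boolean. -/
def okMask (A B : ℕ) (e : ℕ → ℕ → Option Bool) : Bool :=
  Nat.blt A (2 ^ 256) && Nat.blt B (2 ^ 256) &&
    (List.range 16).all fun i => (List.range 16).all fun j =>
      (!(A.testBit (16 * i + j)) || e i j == some true) &&
        (!(B.testBit (16 * i + j)) || e i j == some false)

theorem con_okMask {A B : ℕ} {e : ℕ → ℕ → Option Bool} {adj : ℕ → ℕ → Prop}
    (h : okMask A B e = true) (he : Snd e adj) : Con A B adj := by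
  unfold okMask at h
  simp only [Bool.and_eq_true] at h
  obtain ⟨⟨h1, h2⟩, h3⟩ := h
  refine con_of e (Nat.le_of_ble_eq_true h1) (Nat.le_of_ble_eq_true h2) ?_ he
  intro i hi j hj
  have h4 := List.all_eq_true.1 (List.all_eq_true.1 h3 i (List.mem_range.2 hi)) j
    (List.mem_range.2 hj)
  simp only [Bool.and_eq_true, Bool.or_eq_true, Bool.not_eq_true', beq_iff_eq] at h4
  refine ⟨fun h => ?_, fun h => ?_⟩
  · rcases h4.1 with h5 | h5
    · rw [h] at h5; simp at h5
    · exact h5
  · rcases h4.2 with h5 | h5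
    · rw [h] at h5; simp at h5
    · exact h5

/-! ### Classification of clusters on four vertices -/

/-- Adjacency in the cluster of type `t` on positions `0,1,2,3`. -/
def tp (t x y : ℕ) : Bool :=
  match x, y with
    | 0, 1 => decide (1 ≤ t)
    | 1, 0 => decide (1 ≤ t)
    | 0, 2 => decide (3 ≤ t)
    | 2, 0 => decide (3 ≤ t)
    | 0, 3 => decide (t = 4)
    | 3, 0 => decide (t = 4)
    | 1, 2 => decide (3 ≤ t)
    | 2, 1 => decide (3 ≤ t)
    | 1, 3 => decide (t = 4)
    | 3, 1 => decide (t = 4)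
    | 2, 3 => decide (t = 2 ∨ t = 4)
    | 3, 2 => decide (t = 2 ∨ t = 4)
    | _, _ => false

def TyL (G : SimpleGraph V) (t : ℕ) (A : List V) : Prop :=
  A.length = 4 ∧ ∀ x < 4, ∀ y < 4, x ≠ y → (G.Adj (A.getD x 0) (A.getD y 0) ↔ tp t x y = true)

theorem patV_tyL {G : SimpleGraph V} {t : ℕ} {a b c d : V} (h : PatV G t a b c d) :
    TyL G t [a, b, c, d] := by
  obtain ⟨h1, h2, h3, h4, h5, h6⟩ := h
  refine ⟨rfl, ?_⟩
  intro x hx y hy hxy
  interval_cases x <;> interval_cases y <;>
    first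
      | exact absurd rfl hxy
      | (simp only [tp, decide_eq_true_eq]; assumption)
      | (simp only [tp, decide_eq_true_eq]; rw [G.adj_comm]; assumption)

/-- Six bits to an adjacency. -/
def fb (e01 e02 e03 e12 e13 e23 : Bool) (x y : ℕ) : Bool :=
  match x, y with
    | 0, 1 => e01
    | 1, 0 => e01
    | 0, 2 => e02
    | 2, 0 => e02
    | 0, 3 => e03
    | 3, 0 => e03
    | 1, 2 => e12
    | 2, 1 => e12
    | 1, 3 => e13
    | 3, 1 => e13
    | 2, 3 => e23
    | 3, 2 => e23
    | _, _ => false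

def perms4 : List (List ℕ) :=
  (List.range 4).flatMap fun a => (List.range 4).flatMap fun b => (List.range 4).flatMap fun c =>
    (List.range 4).flatMap fun d => if [a, b, c, d].Nodup then [[a, b, c, d]] else []

noncomputable def dd (G : SimpleGraph V) (a b : V) : Bool :=
  @decide (G.Adj a b) (Classical.propDecidable _)

theorem dd_iff {G : SimpleGraph V} {a b : V} : dd G a b = true ↔ G.Adj a b := by
  unfold dd
  exact @decide_eq_true_iff _ (Classical.propDecidable _)

def cluB (e01 e02 e03 e12 e13 e23 : Bool) : Bool :=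
  (List.range 4).all fun x => (List.range 4).all fun y => (List.range 4).all fun z =>
    !(fb e01 e02 e03 e12 e13 e23 x y && fb e01 e02 e03 e12 e13 e23 y z && !(x == z)) ||
      fb e01 e02 e03 e12 e13 e23 x z

def schB (e01 e02 e03 e12 e13 e23 : Bool) : Bool :=
  perms4.any fun s => (List.range 5).any fun t => (List.range 4).all fun x =>
    (List.range 4).all fun y => (x == y) ||
      fb e01 e02 e03 e12 e13 e23 (s.getD x 0) (s.getD y 0) == tp t x y

theorem class4 : ∀ e01 e02 e03 e12 e13 e23 : Bool,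
    (!(cluB e01 e02 e03 e12 e13 e23) || schB e01 e02 e03 e12 e13 e23) = true := by
  decide +kernel

theorem perms4_spec : ∀ s ∈ perms4, s.length = 4 ∧ s.Nodup ∧ ∀ x ∈ s, x < 4 := by
  decide

theorem fb_spec {G : SimpleGraph V} {a b c d : V} (x y : ℕ) (hx : x < 4) (hy : y < 4)
    (hxy : x ≠ y) :
    (fb (dd G a b) (dd G a c) (dd G a d) (dd G b c) (dd G b d) (dd G c d) x y = true ↔
      G.Adj ([a, b, c, d].getD x 0) ([a, b, c, d].getD y 0)) := by
  interval_cases x <;> interval_cases y <;>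
    first
      | exact absurd rfl hxy
      | exact dd_iff
      | (rw [G.adj_comm]; exact dd_iff)

/-- Every cluster on four vertices can be ordered as one of the five types. -/
theorem exists_type {G : SimpleGraph V} {L : List V} (hL : L.length = 4) (hnd : L.Nodup)
    (hcl : Cl G (ls L)) : ∃ t < 5, ∃ A : List V, A.Nodup ∧ (∀ x, x ∈ A → x ∈ L) ∧ TyL G t A := by
  classical
  obtain ⟨a, b, c, d, rfl⟩ : ∃ a b c d, L = [a, b, c, d] := by
    match L, hL with
    | [a, b, c, d], _ => exact ⟨a, b, c, d, rfl⟩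
  have h := class4 (dd G a b) (dd G a c) (dd G a d) (dd G b c) (dd G b d) (dd G c d)
  rw [Bool.or_eq_true] at h
  have hspec := fun x y hx hy hxy => @fb_spec G a b c d x y hx hy hxy
  have hself : ∀ x < 4, ∀ e01 e02 e03 e12 e13 e23, fb e01 e02 e03 e12 e13 e23 x x = false := by
    intro x hx e01 e02 e03 e12 e13 e23
    interval_cases x <;> rfl
  have hget : ∀ x < 4, [a, b, c, d].getD x 0 ∈ [a, b, c, d] := fun x hx => getD_mem (by simpa using hx)
  have hc : cluB (dd G a b) (dd G a c) (dd G a d) (dd G b c) (dd G b d) (dd G c d) = true := by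
    unfold cluB
    rw [List.all_eq_true]
    intro x hx
    rw [List.all_eq_true]
    intro y hy
    rw [List.all_eq_true]
    intro z hz
    rw [List.mem_range] at hx hy hz
    rw [Bool.or_eq_true, Bool.not_eq_true', ← Bool.not_eq_true, or_iff_not_imp_left, not_not]
    intro h1
    simp only [Bool.and_eq_true, Bool.not_eq_true', beq_eq_false_iff_ne] at h1
    obtain ⟨⟨h2, h3⟩, h4⟩ := h1
    have hxy : x ≠ y := by
      intro hxy
      subst hxy
      rw [hself x hx] at h2
      simp at h2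
    have hyz : y ≠ z := by
      intro hxy
      subst hxy
      rw [hself y hy] at h3
      simp at h3
    rw [hspec x y hx hy hxy] at h2
    rw [hspec y z hy hz hyz] at h3
    rw [hspec x z hx hz h4]
    refine hcl _ (hget x hx) _ (hget y hy) _ (hget z hz) h2 h3 ?_
    intro h5
    exact h4 (getD_inj hnd (by simpa using hx) (by simpa using hz) h5)
  rcases h with h | h
  · rw [hc] at h
    simp at h
  · unfold schB at h
    rw [List.any_eq_true] at h
    obtain ⟨s, hs, h⟩ := h
    rw [List.any_eq_true] at h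
    obtain ⟨t, ht, h⟩ := h
    rw [List.mem_range] at ht
    obtain ⟨hs1, hs2, hs3⟩ := perms4_spec s hs
    refine ⟨t, ht, s.map fun i => [a, b, c, d].getD i 0, nodup_map hnd hs2 hs3, sub_map hs3, by
      simp [hs1], ?_⟩
    intro x hx y hy hxy
    have h1 := List.all_eq_true.1 (List.all_eq_true.1 h x (List.mem_range.2 hx)) y
      (List.mem_range.2 hy)
    rw [Bool.or_eq_true] at h1
    rcases h1 with h1 | h1
    · exact absurd (by simpa using h1) hxy
    · have h6 : ∀ k, k < 4 → (s.map fun i => [a, b, c, d].getD i 0).getD k 0 =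
          [a, b, c, d].getD (s.getD k 0) 0 := by
        intro k hk
        rw [List.getD_eq_getElem _ _ (by simp [hs1, hk]), List.getElem_map,
          List.getD_eq_getElem s _ (by omega)]
      rw [h6 x hx, h6 y hy]
      have h7 : ∀ k, k < 4 → s.getD k 0 < 4 := by
        intro k hk
        rw [List.getD_eq_getElem _ _ (by omega)]
        exact hs3 _ (List.getElem_mem _)
      have h8 : s.getD x 0 ≠ s.getD y 0 := by
        intro h9
        rw [List.getD_eq_getElem _ _ (by omega), List.getD_eq_getElem _ _ (by omega)] at h9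
        exact hxy (hs2.getElem_inj_iff.1 h9)
      rw [← hspec _ _ (h7 x hx) (h7 y hy) h8]
      rw [beq_iff_eq] at h1
      rw [h1]

end Pool.Agent.Q129.SubW
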