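import Pool.Agent.Q129.SubW
import Pool.Agent.Q129.SubD1
import Pool.Agent.Q129.SubD2
import Pool.Agent.Q129.SubD3
import Pool.Agent.Q129.SubD4
import Pool.Agent.Q129.SubD5
import Pool.Agent.Q129.SubD6

set_option autoImplicit false

namespace Pool.Agent.Q129.SubX

open Pool.Agent.Q129.SubChk Pool.Agent.Q129.SubLeaf Pool.Agent.Q129.SubV Pool.Agent.Q129.SubW
open Pool.Agent.Q129.SubData

/-! ### Sorting inside a cluster -/

def srt : List ℕ := [7, 5, 5, 3, 7]

theorem tyL_patV {G : SimpleGraph V} {t : ℕ} {a b c d : V} (h : TyL G t [a, b, c, d]) :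
    PatV G t a b c d := by
  obtain ⟨-, h⟩ := h
  have h01 := h 0 (by norm_num) 1 (by norm_num) (by norm_num)
  have h02 := h 0 (by norm_num) 2 (by norm_num) (by norm_num)
  have h03 := h 0 (by norm_num) 3 (by norm_num) (by norm_num)
  have h12 := h 1 (by norm_num) 2 (by norm_num) (by norm_num)
  have h13 := h 1 (by norm_num) 3 (by norm_num) (by norm_num)
  have h23 := h 2 (by norm_num) 3 (by norm_num) (by norm_num)
  simp only [tp, decide_eq_true_eq] at h01 h02 h03 h12 h13 h23
  exact ⟨h01, h02, h03, h12, h13, h23⟩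

theorem swap01 {G : SimpleGraph V} {t : ℕ} {a b c d : V} (h : PatV G t a b c d) :
    PatV G t b a c d := by
  obtain ⟨h1, h2, h3, h4, h5, h6⟩ := h
  exact ⟨by rw [G.adj_comm]; exact h1, h4, h5, h2, h3, h6⟩

theorem swap12 {G : SimpleGraph V} {t : ℕ} {a b c d : V} (ht : t = 0 ∨ t = 3 ∨ t = 4)
    (h : PatV G t a b c d) : PatV G t a c b d := by
  obtain ⟨h1, h2, h3, h4, h5, h6⟩ := h
  refine ⟨?_, ?_, h3, by rw [G.adj_comm]; exact h4, ?_, ?_⟩
  · rw [h2]; omega
  · rw [h1]; omega
  · rw [h6]; omega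
  · rw [h5]; omega

theorem swap23 {G : SimpleGraph V} {t : ℕ} {a b c d : V} (ht : t = 0 ∨ t = 1 ∨ t = 2 ∨ t = 4)
    (h : PatV G t a b c d) : PatV G t a b d c := by
  obtain ⟨h1, h2, h3, h4, h5, h6⟩ := h
  refine ⟨h1, ?_, ?_, ?_, ?_, by rw [G.adj_comm]; exact h6⟩
  · rw [h3]; omega
  · rw [h2]; omega
  · rw [h5]; omega
  · rw [h4]; omega

theorem sortPat (G : SimpleGraph V) (p : List V) {t : ℕ} (ht : t < 5) :
    ∀ (n : ℕ) (a b c d : V), 3 * kv G p a + 2 * kv G p b + kv G p c = n → PatV G t a b c d →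
      ∃ a' b' c' d', [a', b', c', d'].Perm [a, b, c, d] ∧ PatV G t a' b' c' d' ∧
        ((srt.getD t 0).testBit 0 = true → kv G p a' ≤ kv G p b') ∧
        ((srt.getD t 0).testBit 1 = true → kv G p b' ≤ kv G p c') ∧
        ((srt.getD t 0).testBit 2 = true → kv G p c' ≤ kv G p d') := by
  intro n
  induction n using Nat.strong_induction_on with
  | _ n ih =>
    intro a b c d hn h
    by_cases h1 : (srt.getD t 0).testBit 0 = true → kv G p a ≤ kv G p b
    · by_cases h2 : (srt.getD t 0).testBit 1 = true → kv G p b ≤ kv G p c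
      · by_cases h3 : (srt.getD t 0).testBit 2 = true → kv G p c ≤ kv G p d
        · exact ⟨a, b, c, d, List.Perm.refl _, h, h1, h2, h3⟩
        · have h3 : (srt.getD t 0).testBit 2 = true ∧ kv G p d < kv G p c := by
            by_contra hcon
            exact h3 (fun h4 => Nat.le_of_not_lt (fun h5 => hcon ⟨h4, h5⟩))
          have ht' : t = 0 ∨ t = 1 ∨ t = 2 ∨ t = 4 := by
            have h4 := h3.1
            interval_cases t <;> revert h4 <;> decide
          obtain ⟨a', b', c', d', hp, hh⟩ := ih _ (by omega) a b d c rfl (swap23 ht' h)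
          refine ⟨a', b', c', d', hp.trans ?_, hh⟩
          exact (List.Perm.swap c d []).cons b |>.cons a
      · have h2 : (srt.getD t 0).testBit 1 = true ∧ kv G p c < kv G p b := by
          by_contra hcon
          exact h2 (fun h4 => Nat.le_of_not_lt (fun h5 => hcon ⟨h4, h5⟩))
        have ht' : t = 0 ∨ t = 3 ∨ t = 4 := by
          have h4 := h2.1
          interval_cases t <;> revert h4 <;> decide
        obtain ⟨a', b', c', d', hp, hh⟩ := ih _ (by omega) a c b d rfl (swap12 ht' h)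
        refine ⟨a', b', c', d', hp.trans ?_, hh⟩
        exact (List.Perm.swap b c [d]).cons a
    · have h1 : (srt.getD t 0).testBit 0 = true ∧ kv G p b < kv G p a := by
        by_contra hcon
        exact h1 (fun h4 => Nat.le_of_not_lt (fun h5 => hcon ⟨h4, h5⟩))
      obtain ⟨a', b', c', d', hp, hh⟩ := ih _ (by omega) b a c d rfl (swap01 h)
      refine ⟨a', b', c', d', hp.trans ?_, hh⟩
      exact List.Perm.swap a b [c, d]

theorem list4 {L : List V} (hL : L.length = 4) : ∃ a b c d, L = [a, b, c, d] := by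
  match L, hL with
  | [a, b, c, d], _ => exact ⟨a, b, c, d, rfl⟩

theorem sortTy (G : SimpleGraph V) (p : List V) {t : ℕ} (ht : t < 5) {A : List V}
    (hA : TyL G t A) : ∃ A' : List V, A'.Perm A ∧ TyL G t A' ∧
      ∀ k, (srt.getD t 0).testBit k = true → kv G p (A'.getD k 0) ≤ kv G p (A'.getD (k + 1) 0) := by
  obtain ⟨a, b, c, d, rfl⟩ := list4 hA.1
  obtain ⟨a', b', c', d', h1, h2, h3, h4, h5⟩ := sortPat G p ht _ a b c d rfl (tyL_patV hA)
  refine ⟨[a', b', c', d'], h1, patV_tyL h2, ?_⟩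
  intro k hk
  have hk3 : k < 3 := by
    by_contra hk3
    have h6 : srt.getD t 0 < 2 ^ 3 := by
      interval_cases t <;> decide
    rw [Nat.testBit_lt_two_pow (lt_of_lt_of_le h6 (Nat.pow_le_pow_right (by norm_num)
      (by omega)))] at hk
    simp at hk
  interval_cases k
  · exact h3 hk
  · exact h4 hk
  · exact h5 hk

/-! ### Prescribed blocks -/

theorem rm_symm : ∀ i < 3, ∀ x < 6, ∀ y < 6, rm i x y = rm i y x := by decide +kernel

theorem pr6_mem : ∀ x < 6, ∀ y < x, (x, y) ∈ pr6 := by decide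

theorem isR_adj {G : SimpleGraph V} {i : ℕ} {r : List V} (hr : IsR G i r) (hi : i < 3) (x y : ℕ)
    (hx : x < 6) (hy : y < 6) (hxy : x ≠ y) :
    G.Adj (r.getD x 0) (r.getD y 0) ↔ rm i x y = true := by
  rcases Nat.lt_or_gt_of_ne hxy with h | h
  · rw [G.adj_comm, rm_symm i hi x hx y hy]
    exact hr.2.2 (y, x) (pr6_mem y hy x h)
  · exact hr.2.2 (x, y) (pr6_mem x hx y h)

theorem sndR {G : SimpleGraph V} {i : ℕ} {r q : List V} (hr : IsR G i r) (hi : i < 3) :
    Snd (eB 0 6 0 6 (rm i)) (adjL G (r ++ q)) := by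
  refine Snd.block ?_
  intro x hx y hy hxy
  unfold adjL
  rw [List.getD_append _ _ _ _ (by rw [hr.1]; omega), List.getD_append _ _ _ _ (by rw [hr.1]; omega)]
  rw [Nat.zero_add, Nat.zero_add]
  exact isR_adj hr hi x y hx hy (by omega)

theorem getD_mid {r A q : List V} {n x : ℕ} (hr : r.length = n) (hx : x < A.length) :
    (r ++ (A ++ q)).getD (n + x) 0 = A.getD x 0 := by
  rw [List.getD_append_right _ _ _ _ (by omega), hr, Nat.add_sub_cancel_left,
    List.getD_append _ _ _ _ hx]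

theorem sndA {G : SimpleGraph V} {t : ℕ} {r A q : List V} {n : ℕ} (hr : r.length = n)
    (hA : TyL G t A) : Snd (eB n 4 n 4 (tp t)) (adjL G (r ++ (A ++ q))) := by
  refine Snd.block ?_
  intro x hx y hy hxy
  unfold adjL
  rw [getD_mid hr (by rw [hA.1]; exact hx), getD_mid hr (by rw [hA.1]; exact hy)]
  exact hA.2 x hx y hy (by omega)

/-! ### The first stages -/

theorem exists_p3 {G : SimpleGraph V} {S : Finset V} (h : ¬ Cl G (S : Set V)) :
    ∃ a b c, a ∈ S ∧ b ∈ S ∧ c ∈ S ∧ G.Adj a b ∧ G.Adj b c ∧ a ≠ c ∧ ¬ G.Adj a c := by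
  unfold Cl at h
  push Not at h
  obtain ⟨a, ha, b, hb, c, hc, h1, h2, h3, h4⟩ := h
  exact ⟨a, b, c, ha, hb, hc, h1, h2, h3, h4⟩

def e3 : ℕ → ℕ → Option Bool := eB 0 3 0 3 fun x y => x == 1 || y == 1

theorem snd3 {G : SimpleGraph V} {a b c : V} {q : List V} (h1 : G.Adj a b) (h2 : G.Adj b c)
    (h3 : ¬ G.Adj a c) : Snd e3 (adjL G ([a, b, c] ++ q)) := by
  refine Snd.block ?_
  intro x hx y hy hxy
  have h3' : ¬ G.Adj c a := fun h => h3 h.symm
  interval_cases x <;> interval_cases y <;>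
    first
      | exact absurd rfl hxy
      | simp [adjL, h1, h2, h1.symm, h2.symm, h3, h3']

/-- Stages starting from an induced path. -/
theorem stageI {P : Prm} {ord : List (ℕ × ℕ)} {A B : ℕ} {cs : List ℕ}
    (h : run P ord A B cs = true) (hP : P.m0 = 3)
    (hs : ∀ a, P.sorted.testBit a = true → 3 ≤ a ∧ a + 1 < P.n)
    (hok : okMask A B e3 = true) (hforb : P.forb = 0) (hexc : P.exc = []) (hu : P.u012 = false)
    (G : SimpleGraph V) (S : Finset V) (hS : S.card = P.n) :
    Cl G (S : Set V) ∨ (P.g ≤ P.n ∧ HasCl G S P.g) ∨ Cov G P.K (S : Set V) ∨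
      (P.iso = true ∧ ∃ i < 3, ∃ r, IsR G i r ∧ ∀ x ∈ r, x ∈ S) := by
  by_cases hcl : Cl G (S : Set V)
  · exact Or.inl hcl
  right
  obtain ⟨a, b, c, ha, hb, hc, hab, hbc, hne, hac⟩ := exists_p3 hcl
  have hnd : [a, b, c].Nodup := by
    simp [hab.ne, hbc.ne, hne]
  obtain ⟨q, h1, h2, h3, h4⟩ := enumRest G S [a, b, c] hnd (by
    intro x hx
    simp only [List.mem_cons, List.not_mem_nil, or_false] at hx
    rcases hx with rfl | rfl | rfl <;> assumption)
  have hcon := con_okMask hok (snd3 (q := q) hab hbc hac)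
  rcases apply_run h G h1 (h4.trans hS) (by simp [hP]) (by
    intro k hk
    obtain ⟨hk1, hk2⟩ := hs k hk
    exact sorted_get h3 [a, b, c] k (by simpa using hk1) (by rw [h4, hS]; exact hk2)) hcon h2
    with h5 | h5 | h5 | h5 | h5 | h5
  · exact Or.inl h5
  · exact Or.inr (Or.inl h5)
  · obtain ⟨t, _, _, _, _, h6, -⟩ := h5
    rw [hforb] at h6
    simp at h6
  · obtain ⟨h6, -⟩ := h5
    rw [hu] at h6
    simp at h6
  · obtain ⟨rows, h6, -⟩ := h5
    rw [hexc] at h6
    simp at h6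
  · exact Or.inr (Or.inr h5)

theorem bit_of {m n a : ℕ} (h : (List.range n).all (fun k => !(m.testBit k)) = true)
    (ha : m.testBit a = true) : n ≤ a := by
  by_contra hcon
  have h1 := List.all_eq_true.1 h a (List.mem_range.2 (by omega))
  rw [ha] at h1
  simp at h1

theorem bit_lt {m n a : ℕ} (h : m < 2 ^ n) (ha : m.testBit a = true) : a < n := by
  by_contra hcon
  rw [Nat.testBit_lt_two_pow (lt_of_lt_of_le h (Nat.pow_le_pow_right (by norm_num)
    (by omega)))] at ha
  simp at ha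

theorem cov5 (G : SimpleGraph V) (S : Finset V) (hS : S.card = 5) : Cov G 2 (S : Set V) := by
  rcases stageI runI5 rfl (fun a ha => ⟨bit_of (n := 3) (by decide) ha,
    Nat.succ_lt_succ (bit_lt (n := 4) (by decide) ha)⟩) (by decide +kernel) rfl rfl rfl G S hS
    with h | h | h | h
  · exact Cl.cov h 1
  · exact absurd h.1 (by decide)
  · exact h
  · exact absurd h.1 (by decide)

theorem cov6 (G : SimpleGraph V) (S : Finset V) (hS : S.card = 6) : Cov G 2 (S : Set V) ∨
    ∃ i < 3, ∃ r, IsR G i r ∧ ∀ x ∈ r, x ∈ S := by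
  rcases stageI runI6 rfl (fun a ha => ⟨bit_of (n := 3) (by decide) ha,
    Nat.succ_lt_succ (bit_lt (n := 5) (by decide) ha)⟩) (by decide +kernel) rfl rfl rfl G S hS
    with h | h | h | h
  · exact Or.inl (Cl.cov h 1)
  · exact absurd h.1 (by decide)
  · exact Or.inl h
  · exact Or.inr h.2

theorem cl8 (G : SimpleGraph V) (S : Finset V) (hS : S.card = 8) : HasCl G S 4 ∨
    ∃ i < 3, ∃ r, IsR G i r ∧ ∀ x ∈ r, x ∈ S := by
  rcases stageI runI8 rfl (fun a ha => ⟨bit_of (n := 3) (by decide) ha,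
    Nat.succ_lt_succ (bit_lt (n := 7) (by decide) ha)⟩) (by decide +kernel) rfl rfl rfl G S hS
    with h | h | h | h
  · exact Or.inl (Cl.hasCl h (by omega))
  · exact Or.inl h.2
  · exact absurd h (fun h => cov_zero (by omega) h)
  · exact Or.inr h.2

/-- Stages starting from an exceptional graph. -/
theorem stageR {P : Prm} {ord : List (ℕ × ℕ)} {A B : ℕ} {cs : List ℕ} {i : ℕ}
    (h : run P ord A B cs = true) (hP : P.m0 = 6) (hi : i < 3)
    (hs : ∀ a, P.sorted.testBit a = true → 6 ≤ a ∧ a + 1 < P.n)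
    (hok : okMask A B (eB 0 6 0 6 (rm i)) = true) (hforb : P.forb = 0) (hexc : P.exc = [])
    (hu : P.u012 = false) (hiso : P.iso = false)
    (G : SimpleGraph V) (S : Finset V) (hS : S.card = P.n) {r : List V} (hr : IsR G i r)
    (hrS : ∀ x ∈ r, x ∈ S) :
    (P.g ≤ P.n ∧ HasCl G S P.g) ∨ Cov G P.K (S : Set V) := by
  obtain ⟨q, h1, h2, h3, h4⟩ := enumRest G S r hr.2.1 hrS
  have hcon := con_okMask hok (sndR (q := q) hr hi)
  rcases apply_run h G h1 (h4.trans hS) (by rw [hP, hr.1]) (by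
    intro k hk
    obtain ⟨hk1, hk2⟩ := hs k hk
    exact sorted_get h3 r k (by rw [hr.1]; exact hk1) (by rw [h4, hS]; exact hk2)) hcon h2
    with h5 | h5 | h5 | h5 | h5 | h5
  · exact Or.inl h5
  · exact Or.inr h5
  · obtain ⟨t, _, _, _, _, h6, -⟩ := h5
    rw [hforb] at h6
    simp at h6
  · obtain ⟨h6, -⟩ := h5
    rw [hu] at h6
    simp at h6
  · obtain ⟨rows, h6, -⟩ := h5
    rw [hexc] at h6
    simp at h6
  · rw [hiso] at h5
    simp at h5

theorem stageC (G : SimpleGraph V) (S : Finset V) (hS : S.card = 9) {i : ℕ} (hi : i < 3)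
    {r : List V} (hr : IsR G i r) (hrS : ∀ x ∈ r, x ∈ S) :
    HasCl G S 4 ∨ Cov G 3 (S : Set V) := by
  have hb : ∀ a, (192 : ℕ).testBit a = true → 6 ≤ a ∧ a + 1 < 9 := fun a ha =>
    ⟨bit_of (n := 6) (by decide) ha, Nat.succ_lt_succ (bit_lt (n := 8) (by decide) ha)⟩
  interval_cases i
  · exact (stageR runC0 rfl (by norm_num) hb (by decide +kernel) rfl rfl rfl rfl G S hS hr
      hrS).imp_left And.right
  · exact (stageR runC1 rfl (by norm_num) hb (by decide +kernel) rfl rfl rfl rfl G S hS hr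
      hrS).imp_left And.right
  · exact (stageR runC2 rfl (by norm_num) hb (by decide +kernel) rfl rfl rfl rfl G S hS hr
      hrS).imp_left And.right

theorem stageD (G : SimpleGraph V) (S : Finset V) (hS : S.card = 10) {i : ℕ} (hi : i < 3)
    {r : List V} (hr : IsR G i r) (hrS : ∀ x ∈ r, x ∈ S) : HasCl G S 4 := by
  have hb : ∀ a, (448 : ℕ).testBit a = true → 6 ≤ a ∧ a + 1 < 10 := fun a ha =>
    ⟨bit_of (n := 6) (by decide) ha, Nat.succ_lt_succ (bit_lt (n := 9) (by decide) ha)⟩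
  have hz : Cov G 0 (S : Set V) → HasCl G S 4 := fun h => (cov_zero (by omega) h).elim
  interval_cases i
  · exact (stageR runD0 rfl (by norm_num) hb (by decide +kernel) rfl rfl rfl rfl G S hS hr
      hrS).elim And.right hz
  · exact (stageR runD1 rfl (by norm_num) hb (by decide +kernel) rfl rfl rfl rfl G S hS hr
      hrS).elim And.right hz
  · exact (stageR runD2 rfl (by norm_num) hb (by decide +kernel) rfl rfl rfl rfl G S hS hr
      hrS).elim And.right hz

/-- Removing a cluster. -/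
theorem cov_of_hasCl {G : SimpleGraph V} {S : Finset V} {k m : ℕ} (h : HasCl G S k)
    (hm : ∀ T : Finset V, T ⊆ S → T.card = S.card - k → Cov G m (T : Set V)) :
    Cov G (m + 1) (S : Set V) := by
  obtain ⟨L, h1, h2, h3, h4⟩ := h
  refine Cov.cons (T := ls L) ?_ h4
  have hsub : L.toFinset ⊆ S := by
    intro x hx
    exact h3 x (List.mem_toFinset.1 hx)
  have h5 := hm (S \ L.toFinset) Finset.sdiff_subset (by
    rw [Finset.card_sdiff_of_subset hsub, List.toFinset_card_of_nodup h1, h2])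
  refine Cov.mono h5 ?_
  intro x hx
  rw [Finset.mem_coe, Finset.mem_sdiff, List.mem_toFinset]
  exact ⟨Finset.mem_coe.1 hx.1, fun h => hx.2 h⟩

theorem cov9 (G : SimpleGraph V) (S : Finset V) (hS : S.card = 9) : Cov G 3 (S : Set V) := by
  have key4 : HasCl G S 4 → Cov G 3 (S : Set V) := fun h => cov_of_hasCl h (fun T _ hT =>
    cov5 G T (by omega))
  obtain ⟨T, hT1, hT2⟩ := Finset.exists_subset_card_eq (show 8 ≤ S.card by omega)
  rcases cl8 G T hT2 with h | ⟨i, hi, r, hr, hrT⟩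
  · exact key4 (h.mono hT1)
  · rcases stageC G S hS hi hr (fun x hx => hT1 (hrT x hx)) with h | h
    · exact key4 h
    · exact h

theorem cl10 (G : SimpleGraph V) (S : Finset V) (hS : S.card = 10) : HasCl G S 4 := by
  obtain ⟨T, hT1, hT2⟩ := Finset.exists_subset_card_eq (show 8 ≤ S.card by omega)
  rcases cl8 G T hT2 with h | ⟨i, hi, r, hr, hrT⟩
  · exact h.mono hT1
  · exact stageD G S hS hi hr (fun x hx => hT1 (hrT x hx))

end Pool.Agent.Q129.SubX
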