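import Pool.Agent.Q129.SubX

set_option autoImplicit false

namespace Pool.Agent.Q129.SubY

open Pool.Agent.Q129.SubChk Pool.Agent.Q129.SubLeaf Pool.Agent.Q129.SubV Pool.Agent.Q129.SubW
open Pool.Agent.Q129.SubData Pool.Agent.Q129.SubX

/-- Stages starting from an exceptional graph and a cluster on four vertices. -/
theorem stageA {P : Prm} {ord : List (ℕ × ℕ)} {Am Bm : ℕ} {cs : List ℕ} {i t : ℕ}
    (h : run P ord Am Bm cs = true) (hn : P.n = 10) (hP : P.m0 = 6) (hi : i < 3) (ht : t < 5)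
    (hs : ∀ k, P.sorted.testBit k = true → 6 ≤ k ∧ (srt.getD t 0).testBit (k - 6) = true)
    (hok : okMask Am Bm (eOr (eB 0 6 0 6 (rm i)) (eB 6 4 6 4 (tp t))) = true)
    (hg : P.g = 5) (hK : P.K = 3) (hiso : P.iso = false)
    (G : SimpleGraph V) (S : Finset V) {r A : List V} (hr : IsR G i r) (hA : TyL G t A)
    (hnd : (r ++ A).Nodup) (hS : ∀ x, x ∈ r ++ A ↔ x ∈ S) :
    HasCl G S 5 ∨ Cov G 3 (S : Set V) ∨
    (∃ t a b c d, P.forb.testBit t = true ∧ [a, b, c, d].Nodup ∧ (∀ x ∈ [a, b, c, d], x ∈ S) ∧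
      PatV G t a b c d) ∨
    ∃ A' : List V, A'.Perm A ∧ TyL G t A' ∧
      (G012 P (adjL G (r ++ A')) ∨ GExc P (adjL G (r ++ A'))) := by
  obtain ⟨A', h1, h2, h3⟩ := sortTy G r ht hA
  have hnd' : (r ++ A').Nodup := ((h1.symm.append_left r).nodup_iff).1 hnd
  have hS' : ∀ x, x ∈ r ++ A' ↔ x ∈ S := by
    intro x
    rw [(h1.append_left r).mem_iff]
    exact hS x
  have hlen : (r ++ A').length = P.n := by
    rw [List.length_append, hr.1, h2.1, hn]
  have hcon := con_okMask hok ((sndR (q := A') hr hi).or (by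
    have := sndA (q := []) hr.1 h2
    rw [List.append_nil] at this
    exact this))
  rcases apply_run h G hnd' hlen (by rw [hP, hr.1]) (by
    intro k hk
    obtain ⟨hk1, hk2⟩ := hs k hk
    have hk3 : k - 6 < 3 := by
      have h6 : srt.getD t 0 < 2 ^ 3 := by
        interval_cases t <;> decide
      exact bit_lt h6 hk2
    have h4 := h3 _ hk2
    rw [List.getD_append_right _ _ _ _ (by rw [hr.1]; exact hk1),
      List.getD_append_right _ _ _ _ (by rw [hr.1]; omega), hr.1,
      show k + 1 - 6 = k - 6 + 1 by omega]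
    exact h4) hcon hS' with h5 | h5 | h5 | h5 | h5 | h5
  · rw [hg] at h5
    exact Or.inl h5.2
  · rw [hK] at h5
    exact Or.inr (Or.inl h5)
  · exact Or.inr (Or.inr (Or.inl h5))
  · exact Or.inr (Or.inr (Or.inr ⟨A', h1, h2, Or.inl h5⟩))
  · exact Or.inr (Or.inr (Or.inr ⟨A', h1, h2, Or.inr h5⟩))
  · rw [hiso] at h5
    simp at h5

theorem bits_ok {m t : ℕ} (hm : m < 2 ^ 10)
    (h : ((List.range 10).all fun k => !(m.testBit k) ||
      (Nat.ble 6 k && (srt.getD t 0).testBit (k - 6))) = true) :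
    ∀ k, m.testBit k = true → 6 ≤ k ∧ (srt.getD t 0).testBit (k - 6) = true := by
  intro k hk
  have h1 := List.all_eq_true.1 h k (List.mem_range.2 (bit_lt hm hk))
  rw [hk] at h1
  simp only [Bool.not_true, Bool.false_or, Bool.and_eq_true] at h1
  exact ⟨Nat.le_of_ble_eq_true h1.1, h1.2⟩

/-- Stage E: without a clique on four vertices. -/
theorem stageE (G : SimpleGraph V) (S : Finset V) {i t : ℕ} (hi : i < 3) (ht : t < 4)
    {r A : List V} (hr : IsR G i r) (hA : TyL G t A) (hnd : (r ++ A).Nodup)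
    (hS : ∀ x, x ∈ r ++ A ↔ x ∈ S) :
    HasCl G S 5 ∨ Cov G 3 (S : Set V) ∨
    ∃ t' a b c d, (t' = 4 ∨ t' < t) ∧ [a, b, c, d].Nodup ∧ (∀ x ∈ [a, b, c, d], x ∈ S) ∧
      PatV G t' a b c d := by
  have fin : ∀ {P : Prm}, P.u012 = false → P.exc = [] →
      (∀ k, P.forb.testBit k = true → (k = 4 ∨ k < t)) →
      (HasCl G S 5 ∨ Cov G 3 (S : Set V) ∨
      (∃ t a b c d, P.forb.testBit t = true ∧ [a, b, c, d].Nodup ∧
        (∀ x ∈ [a, b, c, d], x ∈ S) ∧ PatV G t a b c d) ∨
      ∃ A' : List V, A'.Perm A ∧ TyL G t A' ∧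
        (G012 P (adjL G (r ++ A')) ∨ GExc P (adjL G (r ++ A')))) →
      HasCl G S 5 ∨ Cov G 3 (S : Set V) ∨
      ∃ t' a b c d, (t' = 4 ∨ t' < t) ∧ [a, b, c, d].Nodup ∧ (∀ x ∈ [a, b, c, d], x ∈ S) ∧
        PatV G t' a b c d := by
    intro P hu he hf h
    rcases h with h | h | ⟨t', a, b, c, d, h1, h2, h3, h4⟩ | ⟨A', -, -, h | h⟩
    · exact Or.inl h
    · exact Or.inr (Or.inl h)
    · exact Or.inr (Or.inr ⟨t', a, b, c, d, hf t' h1, h2, h3, h4⟩)
    · obtain ⟨h6, -⟩ := h
      rw [hu] at h6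
      simp at h6
    · obtain ⟨rows, h6, -⟩ := h
      rw [he] at h6
      simp at h6
  have fb : ∀ {m t : ℕ}, m < 2 ^ 5 → ((List.range 5).all fun k => !(m.testBit k) ||
      (Nat.beq k 4 || Nat.blt k t)) = true → ∀ k, m.testBit k = true → (k = 4 ∨ k < t) := by
    intro m t hm h k hk
    have h1 := List.all_eq_true.1 h k (List.mem_range.2 (bit_lt hm hk))
    rw [hk] at h1
    simp only [Bool.not_true, Bool.false_or, Bool.or_eq_true] at h1
    rcases h1 with h1 | h1
    · exact Or.inl (Nat.eq_of_beq_eq_true h1)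
    · exact Or.inr (Nat.le_of_ble_eq_true h1)
  interval_cases i <;> interval_cases t
  · exact fin rfl rfl (fb (by decide) (by decide)) (stageA runE00 rfl rfl (by decide) (by decide)
      (bits_ok (by decide) (by decide)) (by decide +kernel) rfl rfl rfl G S hr hA hnd hS)
  · exact fin rfl rfl (fb (by decide) (by decide)) (stageA runE01 rfl rfl (by decide) (by decide)
      (bits_ok (by decide) (by decide)) (by decide +kernel) rfl rfl rfl G S hr hA hnd hS)
  · exact fin rfl rfl (fb (by decide) (by decide)) (stageA runE02 rfl rfl (by decide) (by decide)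
      (bits_ok (by decide) (by decide)) (by decide +kernel) rfl rfl rfl G S hr hA hnd hS)
  · exact fin rfl rfl (fb (by decide) (by decide)) (stageA runE03 rfl rfl (by decide) (by decide)
      (bits_ok (by decide) (by decide)) (by decide +kernel) rfl rfl rfl G S hr hA hnd hS)
  · exact fin rfl rfl (fb (by decide) (by decide)) (stageA runE10 rfl rfl (by decide) (by decide)
      (bits_ok (by decide) (by decide)) (by decide +kernel) rfl rfl rfl G S hr hA hnd hS)
  · exact fin rfl rfl (fb (by decide) (by decide)) (stageA runE11 rfl rfl (by decide) (by decide)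
      (bits_ok (by decide) (by decide)) (by decide +kernel) rfl rfl rfl G S hr hA hnd hS)
  · exact fin rfl rfl (fb (by decide) (by decide)) (stageA runE12 rfl rfl (by decide) (by decide)
      (bits_ok (by decide) (by decide)) (by decide +kernel) rfl rfl rfl G S hr hA hnd hS)
  · exact fin rfl rfl (fb (by decide) (by decide)) (stageA runE13 rfl rfl (by decide) (by decide)
      (bits_ok (by decide) (by decide)) (by decide +kernel) rfl rfl rfl G S hr hA hnd hS)
  · exact fin rfl rfl (fb (by decide) (by decide)) (stageA runE20 rfl rfl (by decide) (by decide)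
      (bits_ok (by decide) (by decide)) (by decide +kernel) rfl rfl rfl G S hr hA hnd hS)
  · exact fin rfl rfl (fb (by decide) (by decide)) (stageA runE21 rfl rfl (by decide) (by decide)
      (bits_ok (by decide) (by decide)) (by decide +kernel) rfl rfl rfl G S hr hA hnd hS)
  · exact fin rfl rfl (fb (by decide) (by decide)) (stageA runE22 rfl rfl (by decide) (by decide)
      (bits_ok (by decide) (by decide)) (by decide +kernel) rfl rfl rfl G S hr hA hnd hS)
  · exact fin rfl rfl (fb (by decide) (by decide)) (stageA runE23 rfl rfl (by decide) (by decide)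
      (bits_ok (by decide) (by decide)) (by decide +kernel) rfl rfl rfl G S hr hA hnd hS)

/-- An enumeration of a set with six elements by an exceptional graph inside. -/
theorem enum6 {G : SimpleGraph V} {S : Finset V} (hS : S.card = 6) {i : ℕ} {r : List V}
    (hr : IsR G i r) (hrS : ∀ x ∈ r, x ∈ S) : ∀ x, x ∈ r ↔ x ∈ S := by
  have h1 : r.toFinset = S := by
    apply Finset.eq_of_subset_of_card_le
    · intro x hx
      exact hrS x (List.mem_toFinset.1 hx)
    · rw [List.toFinset_card_of_nodup hr.2.1, hr.1, hS]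
  intro x
  rw [← h1, List.mem_toFinset]

theorem join_enum {S : Finset V} {r A : List V} (hA : A.Nodup) (hr : r.Nodup)
    (hAS : ∀ x ∈ A, x ∈ S) (hrS : ∀ x, x ∈ r ↔ x ∈ S \ A.toFinset) :
    (r ++ A).Nodup ∧ ∀ x, x ∈ r ++ A ↔ x ∈ S := by
  constructor
  · rw [List.nodup_append]
    refine ⟨hr, hA, ?_⟩
    intro a ha b hb hab
    subst hab
    have := (hrS a).1 ha
    rw [Finset.mem_sdiff, List.mem_toFinset] at this
    exact this.2 hb
  · intro x
    rw [List.mem_append, hrS x, Finset.mem_sdiff, List.mem_toFinset]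
    constructor
    · rintro (h | h)
      · exact h.1
      · exact hAS x h
    · intro h
      by_cases hx : x ∈ A
      · exact Or.inr hx
      · exact Or.inl ⟨h, hx⟩

theorem no5 {G : SimpleGraph V} {S : Finset V} (hS : S.card = 10) (h : ¬ Cov G 3 (S : Set V)) :
    ¬ HasCl G S 5 := fun h5 => h (cov_of_hasCl h5 (fun T _ hT => cov5 G T (by omega)))

theorem ls_perm {L A : List V} (h : ∀ x, x ∈ A → x ∈ L) : ls A ⊆ ls L := fun x hx => h x hx

/-- Every set with ten elements that is not `3`-coverable contains a clique on four vertices. -/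
theorem k4_of_not_cov {G : SimpleGraph V} {S : Finset V} (hS : S.card = 10)
    (h : ¬ Cov G 3 (S : Set V)) :
    ∃ A : List V, A.Nodup ∧ (∀ x ∈ A, x ∈ S) ∧ TyL G 4 A ∧ Cl G (ls A) := by
  classical
  by_contra hno
  have h5 := no5 hS h
  -- the types that occur
  have hcl4 : ∀ {L : List V} {t : ℕ}, t < 5 → L.Nodup → TyL G t L → Cl G (ls L) := by
    intro L t ht hnd hL a ha b hb c hc hab hbc hac
    obtain ⟨x, hx, rfl⟩ := exists_getD ha
    obtain ⟨y, hy, rfl⟩ := exists_getD hb
    obtain ⟨z, hz, rfl⟩ := exists_getD hc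
    rw [hL.1] at hx hy hz
    have hxy : x ≠ y := by
      rintro rfl
      exact G.irrefl hab
    have hyz : y ≠ z := by
      rintro rfl
      exact G.irrefl hbc
    have hxz : x ≠ z := by
      rintro rfl
      exact hac rfl
    rw [hL.2 x hx y hy hxy] at hab
    rw [hL.2 y hy z hz hyz] at hbc
    rw [hL.2 x hx z hz hxz]
    interval_cases t <;> interval_cases x <;> interval_cases y <;> interval_cases z <;>
      first | exact absurd rfl hxy | exact absurd rfl hyz | exact absurd rfl hxz |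
        (revert hab hbc; decide)
  have hex : ∃ t, t < 5 ∧ ∃ A : List V, A.Nodup ∧ (∀ x ∈ A, x ∈ S) ∧ TyL G t A := by
    obtain ⟨L, h1, h2, h3, h4⟩ := cl10 G S hS
    obtain ⟨t, ht, A, hA1, hA2, hA3⟩ := exists_type h2 h1 h4
    exact ⟨t, ht, A, hA1, fun x hx => h3 x (hA2 x hx), hA3⟩
  obtain ⟨ht, A, hA1, hA2, hA3⟩ := Nat.find_spec hex
  have hmin : ∀ t', t' < Nat.find hex → ¬ (t' < 5 ∧ ∃ A : List V, A.Nodup ∧ (∀ x ∈ A, x ∈ S) ∧
    TyL G t' A) := fun t' h => Nat.find_min hex h
  generalize Nat.find hex = t at ht hA3 hmin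
  by_cases ht4 : t = 4
  · subst ht4
    exact hno ⟨A, hA1, hA2, hA3, hcl4 (by norm_num) hA1 hA3⟩
  have hAcl := hcl4 ht hA1 hA3
  have hsub : A.toFinset ⊆ S := by
    intro x hx
    exact hA2 x (List.mem_toFinset.1 hx)
  have hcard : (S \ A.toFinset).card = 6 := by
    rw [Finset.card_sdiff_of_subset hsub, List.toFinset_card_of_nodup hA1, hA3.1, hS]
  rcases cov6 G _ hcard with h6 | ⟨i, hi, r, hr, hrS⟩
  · apply h
    refine Cov.cons (T := ls A) (Cov.mono h6 ?_) hAcl
    intro x hx
    rw [Finset.mem_coe, Finset.mem_sdiff, List.mem_toFinset]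
    exact ⟨Finset.mem_coe.1 hx.1, fun h => hx.2 h⟩
  · have hrS' := enum6 hcard hr hrS
    obtain ⟨hnd, hmem⟩ := join_enum hA1 hr.2.1 hA2 hrS'
    rcases stageE G S hi (show t < 4 by omega) hr hA3 hnd hmem with h7 | h7 |
      ⟨t', a, b, c, d, h8, h9, h10, h11⟩
    · exact h5 h7
    · exact h h7
    · rcases h8 with h8 | h8
      · subst h8
        exact hno ⟨[a, b, c, d], h9, h10, patV_tyL h11, hcl4 (by norm_num) h9 (patV_tyL h11)⟩
      · exact hmin t' h8 ⟨by omega, [a, b, c, d], h9, h10, patV_tyL h11⟩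

end Pool.Agent.Q129.SubY
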