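import Pool.Agent.Q129.SubY

set_option autoImplicit false

namespace Pool.Agent.Q129.SubZ

open Pool.Agent.Q129.SubChk Pool.Agent.Q129.SubLeaf Pool.Agent.Q129.SubV Pool.Agent.Q129.SubW
open Pool.Agent.Q129.SubData Pool.Agent.Q129.SubX Pool.Agent.Q129.SubY

def U012 (G : SimpleGraph V) (r A : List V) : Prop :=
  ∃ a ∈ A, ¬ G.Adj a (r.getD 0 0) ∧ ¬ G.Adj a (r.getD 1 0) ∧ ¬ G.Adj a (r.getD 2 0)

def L5 : List (List ℕ) :=
  [[52, 58, 35, 31], [56, 53, 35, 31], [60, 42, 37, 31], [56, 37, 43, 31], [52, 42, 39, 31]]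

def Ex1 (G : SimpleGraph V) (r A : List V) (e : ℕ) : Prop :=
  ∀ q < 4, ∀ s < 6, (G.Adj (A.getD q 0) (r.getD s 0) ↔
    ((L5.getD e []).getD q 0).testBit s = true)

def Ex2 (G : SimpleGraph V) (r A : List V) : Prop :=
  (∀ q < 3, ∀ s < 6, (G.Adj (A.getD q 0) (r.getD s 0) ↔
    (([52, 50, 15] : List ℕ).getD q 0).testBit s = true)) ∧
  ∀ s, 1 ≤ s → s < 4 → G.Adj (A.getD 3 0) (r.getD s 0)

theorem rowsP_get {adj : ℕ → ℕ → Prop} : ∀ (rows : List (ℕ × ℕ)) (q : ℕ), RowsP adj q rows →
    ∀ k < rows.length, ∀ s < 16, ((rows.getD k (0, 0)).1.testBit s = true → adj (q + k) s) ∧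
      ((rows.getD k (0, 0)).2.testBit s = true → ¬ adj (q + k) s) := by
  intro rows
  induction rows with
  | nil => intro q _ k hk; simp at hk
  | cons r rs ih =>
    intro q h k hk s hs
    obtain ⟨h1, h2⟩ := h
    cases k with
    | zero => exact h1 s hs
    | succ k =>
      have h3 := ih (q + 1) h2 k (by simpa using hk) s hs
      rw [show q + 1 + k = q + (k + 1) by omega] at h3
      exact h3

theorem adjL_RA {G : SimpleGraph V} {i : ℕ} {r A : List V} (hr : IsR G i r) (hA : A.length = 4)
    {q s : ℕ} (hq : q < 4) (hs : s < 6) :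
    adjL G (r ++ A) (6 + q) s ↔ G.Adj (A.getD q 0) (r.getD s 0) := by
  unfold adjL
  have h1 := getD_mid (q := []) (r := r) (A := A) (n := 6) (x := q) hr.1 (by omega)
  rw [List.append_nil] at h1
  rw [h1, List.getD_append _ _ _ _ (by rw [hr.1]; exact hs)]

theorem u012_of {G : SimpleGraph V} {i : ℕ} {r A : List V} {P : Prm} (hr : IsR G i r)
    (hA : A.length = 4) (h : G012 P (adjL G (r ++ A))) : U012 G r A := by
  obtain ⟨-, a, h1, h2, h3, h4, h5⟩ := h
  obtain ⟨q, rfl⟩ : ∃ q, a = 6 + q := ⟨a - 6, by omega⟩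
  rw [adjL_RA hr hA (by omega) (by norm_num)] at h3 h4 h5
  exact ⟨A.getD q 0, getD_mem (by omega), h3, h4, h5⟩

theorem TyL.u012_perm {G : SimpleGraph V} {r A A' : List V} (h : A'.Perm A)
    (hu : U012 G r A') : U012 G r A := by
  obtain ⟨a, h1, h2⟩ := hu
  exact ⟨a, h.mem_iff.1 h1, h2⟩

theorem stageF0 (G : SimpleGraph V) (S : Finset V) {r A : List V} (hr : IsR G 0 r)
    (hA : TyL G 4 A) (hnd : (r ++ A).Nodup) (hS : ∀ x, x ∈ r ++ A ↔ x ∈ S)
    (h5 : ¬ HasCl G S 5) (h3 : ¬ Cov G 3 (S : Set V)) : U012 G r A := by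
  rcases stageA runF0 rfl rfl (by decide) (by decide) (bits_ok (by decide) (by decide))
    (by decide +kernel) rfl rfl rfl G S hr hA hnd hS with h | h | ⟨t, a, b, c, d, h6, -⟩ |
    ⟨A', h6, h7, h | h⟩
  · exact absurd h h5
  · exact absurd h h3
  · simp [PF0] at h6
  · exact TyL.u012_perm h6 (u012_of hr h7.1 h)
  · obtain ⟨rows, h8, -⟩ := h
    simp [PF0] at h8

theorem stageF2 (G : SimpleGraph V) (S : Finset V) {r A : List V} (hr : IsR G 2 r)
    (hA : TyL G 4 A) (hnd : (r ++ A).Nodup) (hS : ∀ x, x ∈ r ++ A ↔ x ∈ S)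
    (h5 : ¬ HasCl G S 5) (h3 : ¬ Cov G 3 (S : Set V)) : U012 G r A ∨
    ∃ A' : List V, A'.Perm A ∧ TyL G 4 A' ∧ Ex2 G r A' := by
  rcases stageA runF2 rfl rfl (by decide) (by decide) (bits_ok (by decide) (by decide))
    (by decide +kernel) rfl rfl rfl G S hr hA hnd hS with h | h | ⟨t, a, b, c, d, h6, -⟩ |
    ⟨A', h6, h7, h | h⟩
  · exact absurd h h5
  · exact absurd h h3
  · simp [PF2] at h6
  · exact Or.inl (TyL.u012_perm h6 (u012_of hr h7.1 h))
  · right
    obtain ⟨rows, h8, h9⟩ := h
    have h10 := rowsP_get rows 6 h9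
    have hrow : ∀ q < 4, ∀ s < 6, q < rows.length →
        ((rows.getD q (0, 0)).1.testBit s = true → G.Adj (A'.getD q 0) (r.getD s 0)) ∧
        ((rows.getD q (0, 0)).2.testBit s = true → ¬ G.Adj (A'.getD q 0) (r.getD s 0)) := by
      intro q hq s hs hql
      have h11 := h10 q hql s (by omega)
      rw [adjL_RA hr h7.1 hq hs] at h11
      exact h11
    simp only [PF2, List.mem_cons, List.not_mem_nil, or_false] at h8
    rcases h8 with rfl | rfl
    · refine ⟨A', h6, h7, ?_, ?_⟩
      · intro q hq s hs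
        have h12 := hrow q (by omega) s hs (by simp; omega)
        interval_cases q <;> interval_cases s <;>
          first
            | exact ⟨fun _ => by decide, fun _ => h12.1 (by decide)⟩
            | exact ⟨fun h => absurd h (h12.2 (by decide)), fun h => absurd h (by decide)⟩
      · intro s hs1 hs2
        have h12 := hrow 3 (by omega) s (by omega) (by simp)
        interval_cases s
        · exact h12.1 (by decide)
        · exact h12.1 (by decide)
        · exact h12.1 (by decide)
    · obtain ⟨a, b, c, d, rfl⟩ := list4 h7.1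
      refine ⟨[a, b, d, c], ?_, patV_tyL (swap23 (by norm_num) (tyL_patV h7)), ?_, ?_⟩
      · refine List.Perm.trans ?_ h6
        exact ((List.Perm.swap c d []).cons b).cons a
      · intro q hq s hs
        interval_cases q
        · have h12 := hrow 0 (by omega) s hs (by simp)
          interval_cases s <;>
          first
            | exact ⟨fun _ => by decide, fun _ => h12.1 (by decide)⟩
            | exact ⟨fun h => absurd h (h12.2 (by decide)), fun h => absurd h (by decide)⟩
        · have h12 := hrow 1 (by omega) s hs (by simp)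
          interval_cases s <;>
          first
            | exact ⟨fun _ => by decide, fun _ => h12.1 (by decide)⟩
            | exact ⟨fun h => absurd h (h12.2 (by decide)), fun h => absurd h (by decide)⟩
        · have h12 := hrow 3 (by omega) s hs (by simp)
          interval_cases s <;>
          first
            | exact ⟨fun _ => by decide, fun _ => h12.1 (by decide)⟩
            | exact ⟨fun h => absurd h (h12.2 (by decide)), fun h => absurd h (by decide)⟩
      · intro s hs1 hs2
        have h12 := hrow 2 (by omega) s (by omega) (by simp)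
        interval_cases s
        · exact h12.1 (by decide)
        · exact h12.1 (by decide)
        · exact h12.1 (by decide)

theorem stageF1 (G : SimpleGraph V) (S : Finset V) {r A : List V} (hr : IsR G 1 r)
    (hA : TyL G 4 A) (hnd : (r ++ A).Nodup) (hS : ∀ x, x ∈ r ++ A ↔ x ∈ S)
    (h5 : ¬ HasCl G S 5) (h3 : ¬ Cov G 3 (S : Set V)) :
    ∃ A' : List V, A'.Perm A ∧ TyL G 4 A' ∧ ∃ e < 5, Ex1 G r A' e := by
  rcases stageA runF1 rfl rfl (by decide) (by decide) (bits_ok (by decide) (by decide))
    (by decide +kernel) rfl rfl rfl G S hr hA hnd hS with h | h | ⟨t, a, b, c, d, h6, -⟩ |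
    ⟨A', h6, h7, h | h⟩
  · exact absurd h h5
  · exact absurd h h3
  · simp [PF1] at h6
  · obtain ⟨h8, -⟩ := h
    simp [PF1] at h8
  · refine ⟨A', h6, h7, ?_⟩
    obtain ⟨rows, h8, h9⟩ := h
    have h10 := rowsP_get rows 6 h9
    have hrow : ∀ q < 4, ∀ s < 6, q < rows.length →
        ((rows.getD q (0, 0)).1.testBit s = true → G.Adj (A'.getD q 0) (r.getD s 0)) ∧
        ((rows.getD q (0, 0)).2.testBit s = true → ¬ G.Adj (A'.getD q 0) (r.getD s 0)) := by
      intro q hq s hs hql
      have h11 := h10 q hql s (by omega)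
      rw [adjL_RA hr h7.1 hq hs] at h11
      exact h11
    have gen : ∀ e < 5, rows.length = 4 → ((List.range 4).all fun q => (List.range 6).all fun s =>
        (rows.getD q (0, 0)).1.testBit s == ((L5.getD e []).getD q 0).testBit s &&
        (rows.getD q (0, 0)).2.testBit s == !((L5.getD e []).getD q 0).testBit s) = true →
        ∃ e < 5, Ex1 G r A' e := by
      intro e he hlen hall
      refine ⟨e, he, ?_⟩
      intro q hq s hs
      have h12 := hrow q hq s hs (by omega)
      have h13 := List.all_eq_true.1 (List.all_eq_true.1 hall q (List.mem_range.2 hq)) s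
        (List.mem_range.2 hs)
      rw [Bool.and_eq_true, beq_iff_eq, beq_iff_eq] at h13
      rw [h13.1, h13.2] at h12
      cases hb : ((L5.getD e []).getD q 0).testBit s with
      | true => exact ⟨fun _ => rfl, fun _ => h12.1 hb⟩
      | false => exact ⟨fun h => absurd h (h12.2 (by rw [hb]; rfl)), fun h => by simp at h⟩
    simp only [PF1, List.mem_cons, List.not_mem_nil, or_false] at h8
    rcases h8 with h8 | h8 | h8 | h8 | h8
    · exact gen 0 (by norm_num) (by rw [h8]; rfl) (by rw [h8]; decide)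
    · exact gen 1 (by norm_num) (by rw [h8]; rfl) (by rw [h8]; decide)
    · exact gen 2 (by norm_num) (by rw [h8]; rfl) (by rw [h8]; decide)
    · exact gen 3 (by norm_num) (by rw [h8]; rfl) (by rw [h8]; decide)
    · exact gen 4 (by norm_num) (by rw [h8]; rfl) (by rw [h8]; decide)

end Pool.Agent.Q129.SubZ
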