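import Mathlib
import Pool.Agent.Q2.TN.Stm

/-! Project TN, job A1: subgroups of p-nilpotent groups are p-nilpotent. -/

namespace Q129.TN_A1

open Q2.TN Subgroup

theorem a1 : S_A1 := by
  intro p hp G _ _ hG H
  obtain ⟨N, hN, hc, k, hk⟩ := hG
  refine ⟨N.subgroupOf H, hN.subgroupOf H, ?_, ?_⟩
  · have h1 : Nat.card (N.subgroupOf H) ∣ Nat.card N := by
      have e : Nat.card (N.subgroupOf H) = Nat.card ((N.subgroupOf H).map H.subtype) :=
        (Subgroup.card_map_of_injective H.subtype_injective).symm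
      rw [e]
      apply Subgroup.card_dvd_of_le
      rw [Subgroup.subgroupOf_map_subtype]
      exact inf_le_left
    exact Nat.Coprime.coprime_dvd_left h1 hc
  · have h1 : (N.subgroupOf H).index ∣ p ^ k := by
      rw [← hk]
      exact Subgroup.relIndex_dvd_index_of_normal N H
    obtain ⟨j, -, hj⟩ := (Nat.dvd_prime_pow hp).1 h1
    exact ⟨j, hj⟩

end Q129.TN_A1
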