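import Mathlib

set_option autoImplicit false

/-!
A proper colouring of a Hamming-distance graph with `q ^ (n - d + 1)` colours and with a
transition edge.
-/

namespace Q129.Transition

/-- The Hamming-distance graph: `x` and `y` are adjacent when they differ in at least `d`
coordinates. -/
def H (q n d : ℕ) : SimpleGraph (Fin n → ZMod q) where
  Adj x y := x ≠ y ∧ d ≤ hammingDist x y
  symm := ⟨fun x y h => ⟨h.1.symm, by rw [hammingDist_comm]; exact h.2⟩⟩
  loopless := ⟨fun _ h => h.1 rfl⟩

/-- `K` is a proper colouring. -/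
def Proper {V C : Type} (G : SimpleGraph V) (K : V → C) : Prop := ∀ x y, G.Adj x y → K x ≠ K y

/-- `{x, y}` is a transition edge of `K`: it is an edge, and the colouring remains proper when the
colours of `x` and `y` are exchanged. -/
def TransitionEdge {V C : Type} [DecidableEq V] (G : SimpleGraph V) (K : V → C) (x y : V) : Prop :=
  G.Adj x y ∧ Proper G (fun v => K (Equiv.swap x y v))

/-- The index set of the coordinates. -/
abbrev I (q : ℕ) : Type := Fin 3 ⊕ (Fin 3 → ZMod q)

variable {q : ℕ} [NeZero q]

/-- The syndrome. -/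
def syn (x : I q → ZMod q) : Fin 3 → ZMod q :=
  fun j => x (Sum.inl j) + ∑ s : Fin 3 → ZMod q, x (Sum.inr s) * s j

/-- The colouring by the nearest codeword, restricted to the information coordinates. -/
def col (x : I q → ZMod q) : (Fin 3 → ZMod q) → ZMod q :=
  fun t => x (Sum.inr t) - if t = syn x then 1 else 0

theorem inl_eq (x : I q → ZMod q) (j : Fin 3) : x (Sum.inl j) = - ∑ s, col x s * s j := by
  have h : ∑ s : Fin 3 → ZMod q, col x s * s j =
      (∑ s : Fin 3 → ZMod q, x (Sum.inr s) * s j) - syn x j := by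
    simp only [col, sub_mul, Finset.sum_sub_distrib, ite_mul, one_mul, zero_mul,
      Finset.sum_ite_eq', Finset.mem_univ, if_true]
  rw [h]
  simp only [syn]
  ring

theorem dist_le {x y : I q → ZMod q} (h : col x = col y) : hammingDist x y ≤ 2 := by
  classical
  have h1 : ∀ j, x (Sum.inl j) = y (Sum.inl j) := fun j => by rw [inl_eq x j, inl_eq y j, h]
  rw [hammingDist]
  refine le_trans (Finset.card_le_card (t := {Sum.inr (syn x), Sum.inr (syn y)}) ?_)
    Finset.card_le_two
  intro i hi
  rw [Finset.mem_filter] at hi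
  rcases i with j | t
  · exact absurd (h1 j) hi.2
  · rw [Finset.mem_insert, Finset.mem_singleton]
    by_contra hcon
    push Not at hcon
    obtain ⟨h2, h3⟩ := hcon
    have h4 := congrFun h t
    simp only [col] at h4
    rw [if_neg (fun h => h2 (by rw [h])), if_neg (fun h => h3 (by rw [h])), sub_zero,
      sub_zero] at h4
    exact hi.2 h4

omit [NeZero q] in
theorem hammingDist_comp {α β : Type} [Fintype α] [Fintype β] (e : α ≃ β)
    (x y : β → ZMod q) : hammingDist (fun a => x (e a)) (fun a => y (e a)) = hammingDist x y := by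
  classical
  rw [hammingDist, hammingDist]
  refine Finset.card_bij (fun a _ => e a) ?_ ?_ ?_
  · intro a ha
    rw [Finset.mem_filter] at ha ⊢
    exact ⟨Finset.mem_univ _, ha.2⟩
  · intro a _ b _ h
    exact e.injective h
  · intro b hb
    rw [Finset.mem_filter] at hb
    refine ⟨e.symm b, ?_, e.apply_symm_apply b⟩
    rw [Finset.mem_filter]
    refine ⟨Finset.mem_univ _, ?_⟩
    rw [e.apply_symm_apply]
    exact hb.2

omit [NeZero q] in
theorem main (q : ℕ) (hq : 2 ≤ q) : ∃ n d : ℕ, 2 ≤ d ∧ d ≤ n ∧
    ∃ K : (Fin n → ZMod q) → Fin (q ^ (n - d + 1)), Proper (H q n d) K ∧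
      ∃ x y, TransitionEdge (H q n d) K x y := by
  classical
  have : NeZero q := ⟨by omega⟩
  have hcard : Fintype.card (I q) = q ^ 3 + 3 := by
    simp only [I, Fintype.card_sum, Fintype.card_fin, Fintype.card_fun, ZMod.card]
    ring
  obtain ⟨e⟩ : Nonempty (Fin (q ^ 3 + 3) ≃ I q) :=
    ⟨(Fintype.equivFinOfCardEq hcard).symm⟩
  refine ⟨q ^ 3 + 3, 3, by norm_num, by omega, ?_⟩
  have hexp : q ^ 3 + 3 - 3 + 1 = q ^ 3 + 1 := by omega
  rw [hexp]
  -- the palette
  obtain ⟨φ⟩ : Nonempty (Option (Option ((Fin 3 → ZMod q) → ZMod q)) ↪ Fin (q ^ (q ^ 3 + 1))) := by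
    apply Function.Embedding.nonempty_of_card_le
    rw [Fintype.card_option, Fintype.card_option, Fintype.card_fin]
    simp only [Fintype.card_fun, Fintype.card_fin, ZMod.card]
    have h1 : 2 ^ 1 ≤ q ^ (q ^ 3) := by
      calc 2 ^ 1 ≤ q ^ 1 := Nat.pow_le_pow_left hq 1
        _ ≤ q ^ (q ^ 3) := Nat.pow_le_pow_right (by omega) (Nat.one_le_pow _ _ (by omega))
    have h2 : q ^ (q ^ 3) * 2 ≤ q ^ (q ^ 3) * q := Nat.mul_le_mul_left _ hq
    have h3 : q ^ (q ^ 3 + 1) = q ^ (q ^ 3) * q := pow_succ _ _
    rw [h3]
    omega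
  let x0 : Fin (q ^ 3 + 3) → ZMod q := fun _ => 0
  let y0 : Fin (q ^ 3 + 3) → ZMod q := fun _ => 1
  have h01 : (0 : ZMod q) ≠ 1 := by
    have : Fact (1 < q) := ⟨by omega⟩
    exact zero_ne_one
  have hd : hammingDist x0 y0 = q ^ 3 + 3 := by
    rw [hammingDist, Finset.filter_true_of_mem, Finset.card_univ, Fintype.card_fin]
    intro i _
    exact h01
  have hxy : x0 ≠ y0 := by
    intro h
    rw [h, hammingDist_self] at hd
    omega
  let K : (Fin (q ^ 3 + 3) → ZMod q) → Option (Option ((Fin 3 → ZMod q) → ZMod q)) := fun x =>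
    if x = x0 then none else if x = y0 then some none else some (some (col fun i => x (e.symm i)))
  have hx0 : K x0 = none := if_pos rfl
  have hy0 : K y0 = some none := by
    change (if y0 = x0 then none else if y0 = y0 then some none else _) = _
    rw [if_neg hxy.symm, if_pos rfl]
  have hK : ∀ x, x ≠ x0 → x ≠ y0 → K x = some (some (col fun i => x (e.symm i))) := by
    intro x h1 h2
    change (if x = x0 then none else if x = y0 then some none else _) = _
    rw [if_neg h1, if_neg h2]
  -- two distinct vertices with the same colour are at distance at most two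
  have key : ∀ x y, x ≠ y → K x = K y →
      x ≠ x0 ∧ x ≠ y0 ∧ y ≠ x0 ∧ y ≠ y0 ∧ hammingDist x y ≤ 2 := by
    intro x y hne h
    by_cases h1 : x = x0
    · subst h1
      rw [hx0] at h
      by_cases h2 : y = y0
      · rw [h2, hy0] at h; cases h
      · rw [hK y hne.symm h2] at h; cases h
    · by_cases h2 : x = y0
      · subst h2
        rw [hy0] at h
        by_cases h3 : y = x0
        · rw [h3, hx0] at h; cases h
        · rw [hK y h3 hne.symm] at h; cases h
      · rw [hK x h1 h2] at h
        by_cases h3 : y = x0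
        · rw [h3, hx0] at h; cases h
        · by_cases h4 : y = y0
          · rw [h4, hy0] at h; cases h
          · rw [hK y h3 h4] at h
            refine ⟨h1, h2, h3, h4, ?_⟩
            have h5 := dist_le (Option.some_injective _ (Option.some_injective _ h))
            have h6 := hammingDist_comp e.symm.symm (fun i => x (e.symm i))
              (fun i => y (e.symm i))
            simp only [Equiv.symm_symm, Equiv.symm_apply_apply] at h6
            rw [h6]
            exact h5
  refine ⟨fun x => φ (K x), ?_, x0, y0, ⟨hxy, by rw [hd]; omega⟩, ?_⟩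
  · intro x y hadj he
    have := key x y hadj.1 (φ.injective he)
    have h2 := hadj.2
    omega
  · intro x y hadj he
    have hne : Equiv.swap x0 y0 x ≠ Equiv.swap x0 y0 y :=
      fun h => hadj.1 ((Equiv.swap x0 y0).injective h)
    obtain ⟨h1, h2, h3, h4, h5⟩ := key _ _ hne (φ.injective he)
    have hx : Equiv.swap x0 y0 x = x := by
      apply Equiv.swap_apply_of_ne_of_ne
      · rintro rfl; exact h2 (Equiv.swap_apply_left _ _)
      · rintro rfl; exact h1 (Equiv.swap_apply_right _ _)
    have hy : Equiv.swap x0 y0 y = y := by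
      apply Equiv.swap_apply_of_ne_of_ne
      · rintro rfl; exact h4 (Equiv.swap_apply_left _ _)
      · rintro rfl; exact h3 (Equiv.swap_apply_right _ _)
    rw [hx, hy] at h5
    have h6 := hadj.2
    omega

end Q129.Transition
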