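import Pool.Agent.Q129.NoCol

set_option autoImplicit false

/-!
Maximum chromatic numbers of unit, midpoint unit and midpoint proper veto interval graphs.
-/

namespace Q129.VetoClasses

/-- A veto interval: a closed interval `[l, r]` with a veto mark `v`, where `l < v < r`. -/
structure VetoInterval where
  l : ℝ
  v : ℝ
  r : ℝ
  hlv : l < v
  hvr : v < r

/-- The intervals meet and neither contains the veto mark of the other. -/
def Meet (a b : VetoInterval) : Prop :=
  (a.v < b.l ∧ b.l < a.r ∧ a.r < b.v) ∨ (b.v < a.l ∧ a.l < b.r ∧ b.r < a.v)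

/-- `I` is a veto interval representation of `G`. -/
def IsRep {V : Type} (G : SimpleGraph V) (I : V → VetoInterval) : Prop :=
  Function.Injective I ∧ ∀ a b, a ≠ b → (G.Adj a b ↔ Meet (I a) (I b))

/-- All intervals have the same length. -/
def Unit {V : Type} (I : V → VetoInterval) : Prop := ∃ L : ℝ, ∀ a, (I a).r - (I a).l = L

/-- No interval properly contains another. -/
def Proper {V : Type} (I : V → VetoInterval) : Prop :=
  ∀ a b, ¬ Set.Icc (I a).l (I a).r ⊂ Set.Icc (I b).l (I b).r

/-- Every veto mark is the midpoint of its interval. -/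
def Midpoint {V : Type} (I : V → VetoInterval) : Prop := ∀ a, (I a).v = ((I a).l + (I a).r) / 2

/-- Unit veto interval graphs. -/
def IsUVI {V : Type} (G : SimpleGraph V) : Prop := ∃ I, IsRep G I ∧ Unit I

/-- Midpoint unit veto interval graphs. -/
def IsMUVI {V : Type} (G : SimpleGraph V) : Prop := ∃ I, IsRep G I ∧ Unit I ∧ Midpoint I

/-- Midpoint proper veto interval graphs. -/
def IsMPVI {V : Type} (G : SimpleGraph V) : Prop := ∃ I, IsRep G I ∧ Proper I ∧ Midpoint I

/-- Every unit veto interval graph is 4-colourable. -/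
theorem uvi_colorable {V : Type} {G : SimpleGraph V} (h : IsUVI G) : G.Colorable 4 := by
  classical
  obtain ⟨I, ⟨_, hI⟩, L, hL⟩ := h
  let k : V → ℤ := fun a => ⌊(I a).l / L⌋
  have key : ∀ a b, (I a).v < (I b).l → (I b).l < (I a).r → (I a).r < (I b).v →
      (((k a : ZMod 2), decide ((I a).v < L * (k a + 1))) : ZMod 2 × Bool) =
      ((k b : ZMod 2), decide ((I b).v < L * (k b + 1))) → False := by
    intro a b h1 h2 h3 he
    have hLa := hL a
    have hLb := hL b
    have la := (I a).hlv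
    have ra := (I a).hvr
    have lb := (I b).hlv
    have rb := (I b).hvr
    have hLpos : 0 < L := by linarith
    simp only [Prod.mk.injEq] at he
    obtain ⟨he1, he2⟩ := he
    have fa1 : (k a : ℝ) ≤ (I a).l / L := Int.floor_le _
    have fa2 : (I a).l / L < k a + 1 := Int.lt_floor_add_one _
    have fb1 : (k b : ℝ) ≤ (I b).l / L := Int.floor_le _
    have fb2 : (I b).l / L < k b + 1 := Int.lt_floor_add_one _
    rw [le_div_iff₀ hLpos] at fa1 fb1
    rw [div_lt_iff₀ hLpos] at fa2 fb2
    have hk1 : k a ≤ k b := Int.floor_le_floor (div_le_div_of_nonneg_right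
      (by linarith) hLpos.le)
    have hk2 : k b < k a + 2 := by
      have h5 : (k b : ℝ) * L < (k a + 2) * L := by nlinarith
      have h6 := lt_of_mul_lt_mul_right h5 hLpos.le
      exact_mod_cast h6
    have hk : k a = k b := by
      have h4 : ((k a - k b : ℤ) : ZMod 2) = 0 := by push_cast; rw [he1]; ring
      have h5 := (ZMod.intCast_zmod_eq_zero_iff_dvd _ 2).1 h4
      obtain ⟨z, hz⟩ := h5
      push_cast at hz
      omega
    have hv1 : (I a).v < L * (k a + 1) := by
      rw [hk]; nlinarith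
    have hv2 : ¬ (I b).v < L * (k b + 1) := by
      rw [← hk]; nlinarith
    rw [decide_eq_true hv1, decide_eq_false hv2] at he2
    exact absurd he2 (by decide)
  have hC : ∀ a b, G.Adj a b →
      (((k a : ZMod 2), decide ((I a).v < L * (k a + 1))) : ZMod 2 × Bool) ≠
      ((k b : ZMod 2), decide ((I b).v < L * (k b + 1))) := by
    intro a b hab he
    rcases (hI a b hab.ne).1 hab with ⟨h1, h2, h3⟩ | ⟨h1, h2, h3⟩
    · exact key a b h1 h2 h3 he
    · exact key b a h1 h2 h3 he.symm
  let C : G.Coloring (ZMod 2 × Bool) := SimpleGraph.Coloring.mk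
    (fun a => ((k a : ZMod 2), decide ((I a).v < L * (k a + 1)))) (fun {a b} h => hC a b h)
  have := C.colorable
  simpa using this

/-- The sets of the elements of rank below `m`. -/
def lev {V : Type} (R : V → V → Prop) : ℕ → Set V
  | 0 => ∅
  | m + 1 => {b | ∀ a, R a b → a ∈ lev R m}

/-- The relation used to define the levels. -/
def Prec (a b : VetoInterval) : Prop := a.v < b.l ∧ a.r < b.v

/-- The rank function of a finite acyclic relation. -/
theorem exists_rank {V : Type} [Finite V] (R : V → V → Prop) (f : V → ℝ)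
    (hf : ∀ a b, R a b → f a < f b) :
    ∃ B : V → ℕ, (∀ a b, R a b → B a < B b) ∧ ∀ b, 0 < B b → ∃ a, R a b ∧ B b = B a + 1 := by
  classical
  have hmono : ∀ m, lev R m ⊆ lev R (m + 1) := by
    intro m
    induction m with
    | zero => exact Set.empty_subset _
    | succ m ih => exact fun b hb a ha => ih (hb a ha)
  have hmono' : Monotone (lev R) := monotone_nat_of_le_succ hmono
  have hex : ∀ b, ∃ m, b ∈ lev R m := by
    have hwf : WellFounded (fun a b : V => f a < f b) := by
      have : IsStrictOrder V (fun a b : V => f a < f b) :=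
        { irrefl := fun a => lt_irrefl _, trans := fun a b c => lt_trans }
      exact Finite.wellFounded_of_trans_of_irrefl _
    intro b
    induction b using hwf.induction with
    | _ b ih =>
      have : ∀ a, ∃ m, R a b → a ∈ lev R m := by
        intro a
        by_cases h : R a b
        · obtain ⟨m, hm⟩ := ih a (hf a b h)
          exact ⟨m, fun _ => hm⟩
        · exact ⟨0, fun h' => absurd h' h⟩
      choose m hm using this
      obtain ⟨M, hM⟩ : ∃ M, ∀ a, m a ≤ M := by
        obtain ⟨M, hM⟩ := (Set.finite_range m).bddAbove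
        exact ⟨M, fun a => hM ⟨a, rfl⟩⟩
      exact ⟨M + 1, fun a ha => hmono' (hM a) (hm a ha)⟩
  obtain ⟨N, hN, hNmin⟩ : ∃ N : V → ℕ, (∀ b, b ∈ lev R (N b)) ∧
      ∀ b m, b ∈ lev R m → N b ≤ m :=
    ⟨fun b => Nat.find (hex b), fun b => Nat.find_spec (hex b),
      fun b m h => Nat.find_min' (hex b) h⟩
  have hNpos : ∀ b, 0 < N b := by
    intro b
    rcases Nat.eq_zero_or_pos (N b) with h | h
    · have := hN b
      rw [h] at this
      exact absurd this (Set.notMem_empty b)
    · exact h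
  have h1 : ∀ a b, R a b → N a < N b := by
    intro a b hab
    obtain ⟨m, hm⟩ : ∃ m, N b = m + 1 := ⟨N b - 1, by have := hNpos b; omega⟩
    have h2 := hN b
    rw [hm] at h2
    have h3 := hNmin a m (h2 a hab)
    omega
  refine ⟨fun b => N b - 1, ?_, ?_⟩
  · intro a b hab
    have := h1 a b hab
    have := hNpos a
    simp only
    omega
  · intro b hb
    simp only at hb
    obtain ⟨m, hm⟩ : ∃ m, N b = m + 2 := ⟨N b - 2, by omega⟩
    have h2 : ¬ ∀ a, R a b → a ∈ lev R m := fun h => by
      have := hNmin b (m + 1) h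
      omega
    push Not at h2
    obtain ⟨a, hab, ha⟩ := h2
    refine ⟨a, hab, ?_⟩
    have h3 := h1 a b hab
    have h4 : m < N a := by
      by_contra hcon
      push Not at hcon
      exact ha (hmono' hcon (hN a))
    simp only
    omega

/-- Every midpoint proper veto interval graph is 3-colourable. -/
theorem mpvi_colorable {V : Type} [Finite V] {G : SimpleGraph V} (h : IsMPVI G) :
    G.Colorable 3 := by
  classical
  obtain ⟨I, ⟨_, hI⟩, hprop, hmid⟩ := h
  -- monotonicity
  have hlr : ∀ a b, (I a).l ≤ (I b).l → (I a).r ≤ (I b).r := by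
    intro a b hab
    by_contra hcon
    push Not at hcon
    apply hprop b a
    rw [Set.ssubset_iff_subset_ne]
    refine ⟨Set.Icc_subset_Icc hab hcon.le, ?_⟩
    intro he
    have h1 : (I a).r ∈ Set.Icc (I a).l (I a).r :=
      ⟨((I a).hlv.trans (I a).hvr).le, le_rfl⟩
    rw [← he] at h1
    exact absurd h1.2 (not_le.2 hcon)
  have hlv : ∀ a b, (I a).l ≤ (I b).l → (I a).v ≤ (I b).v := by
    intro a b hab
    rw [hmid a, hmid b]
    have := hlr a b hab
    linarith
  obtain ⟨B, hB1, hB2⟩ := exists_rank (fun a b : V => Prec (I a) (I b)) (fun a => (I a).l)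
    (fun a b h => (I a).hlv.trans h.1)
  have key : ∀ a b, (I a).v < (I b).l → (I b).l < (I a).r → (I a).r < (I b).v →
      (B a : ZMod 3) ≠ (B b : ZMod 3) := by
    intro a b h1 h2 h3 he
    have h4 : B a < B b := hB1 a b ⟨h1, h3⟩
    have h5 : B b < B a + 3 := by
      by_contra hcon
      push Not at hcon
      obtain ⟨c, hc, hBc⟩ := hB2 b (by omega)
      obtain ⟨d, hd, hBd⟩ := hB2 c (by omega)
      obtain ⟨e, hee, hBe⟩ := hB2 d (by omega)
      have h6 : (I a).l < (I d).l := by
        by_contra hcon2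
        push Not at hcon2
        have : Prec (I e) (I a) :=
          ⟨lt_of_lt_of_le hee.1 hcon2, lt_of_lt_of_le hee.2 (hlv d a hcon2)⟩
        have := hB1 e a this
        omega
      have h7 := hlr a d h6.le
      have h8 := hd.2
      have h9 := hc.1
      linarith
    have h6 : ((B b : ℤ) - (B a : ℤ) : ZMod 3) = 0 := by
      push_cast
      rw [he]; ring
    have h7 : (((B b : ℤ) - (B a : ℤ) : ℤ) : ZMod 3) = 0 := by
      push_cast
      push_cast at h6
      exact h6
    rw [ZMod.intCast_zmod_eq_zero_iff_dvd] at h7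
    obtain ⟨z, hz⟩ := h7
    push_cast at hz
    omega
  let C : G.Coloring (ZMod 3) := SimpleGraph.Coloring.mk (fun a => (B a : ZMod 3)) (by
    intro a b hab he
    rcases (hI a b hab.ne).1 hab with ⟨h1, h2, h3⟩ | ⟨h1, h2, h3⟩
    · exact key a b h1 h2 h3 he
    · exact key b a h1 h2 h3 he.symm)
  have := C.colorable
  simpa using this

theorem muvi_mpvi {V : Type} {G : SimpleGraph V} (h : IsMUVI G) : IsMPVI G := by
  obtain ⟨I, hI, ⟨L, hL⟩, hm⟩ := h
  refine ⟨I, hI, ?_, hm⟩
  intro a b hab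
  have h1 := (Set.Icc_subset_Icc_iff ((I a).hlv.trans (I a).hvr).le).1 hab.1
  have h2 := hL a
  have h3 := hL b
  apply hab.2
  apply Set.Icc_subset_Icc
  · linarith
  · linarith

theorem muvi_uvi {V : Type} {G : SimpleGraph V} (h : IsMUVI G) : IsUVI G := by
  obtain ⟨I, hI, hL, _⟩ := h
  exact ⟨I, hI, hL⟩

/-! ### Integer data -/

/-- Integer version of `Meet`. -/
def MeetZ (a b : ℤ × ℤ × ℤ) : Prop :=
  (a.2.1 < b.1 ∧ b.1 < a.2.2 ∧ a.2.2 < b.2.1) ∨ (b.2.1 < a.1 ∧ a.1 < b.2.2 ∧ b.2.2 < a.2.1)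

instance (a b : ℤ × ℤ × ℤ) : Decidable (MeetZ a b) := by unfold MeetZ; infer_instance

/-- The graph of a list of intervals with integer data. -/
def zGraph (n : ℕ) (D : Fin n → ℤ × ℤ × ℤ) : SimpleGraph (Fin n) where
  Adj a b := a ≠ b ∧ MeetZ (D a) (D b)
  symm := ⟨fun _ _ h => ⟨h.1.symm, h.2.symm⟩⟩
  loopless := ⟨fun _ h => h.1 rfl⟩

instance (n : ℕ) (D : Fin n → ℤ × ℤ × ℤ) : DecidableRel (zGraph n D).Adj := fun a b =>
  inferInstanceAs (Decidable (a ≠ b ∧ MeetZ (D a) (D b)))

/-- The intervals. -/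
def toI {n : ℕ} (D : Fin n → ℤ × ℤ × ℤ) (hD : ∀ a, (D a).1 < (D a).2.1 ∧ (D a).2.1 < (D a).2.2)
    (a : Fin n) : VetoInterval where
  l := (D a).1
  v := (D a).2.1
  r := (D a).2.2
  hlv := by exact_mod_cast (hD a).1
  hvr := by exact_mod_cast (hD a).2

theorem zRep {n : ℕ} (D : Fin n → ℤ × ℤ × ℤ)
    (hD : ∀ a, (D a).1 < (D a).2.1 ∧ (D a).2.1 < (D a).2.2) (hinj : Function.Injective D) :
    IsRep (zGraph n D) (toI D hD) := by
  constructor
  · intro a b hab
    apply hinj
    have h1 := congrArg VetoInterval.l hab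
    have h2 := congrArg VetoInterval.v hab
    have h3 := congrArg VetoInterval.r hab
    simp only [toI, Int.cast_inj] at h1 h2 h3
    exact Prod.ext h1 (Prod.ext h2 h3)
  · intro a b hab
    simp only [zGraph, ne_eq, hab, not_false_eq_true, true_and, MeetZ, Meet, toI, Int.cast_lt]

/-- The 18 unit veto intervals. -/
def D18 : Fin 18 → ℤ × ℤ × ℤ :=
  ![(62, 67, 86), (40, 49, 64), (68, 89, 92), (24, 27, 48), (42, 61, 66), (46, 63, 70),
    (46, 51, 70), (56, 75, 80), (34, 37, 58), (52, 73, 76), (30, 33, 54), (34, 55, 58),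
    (56, 59, 80), (60, 81, 84), (38, 41, 62), (50, 53, 74), (28, 49, 52), (12, 27, 36)]

/-- The earlier neighbours. -/
def nb18 : List (List ℕ) :=
  [[], [0], [0], [1], [0, 3], [2, 3], [2, 3], [1, 6], [4, 5, 7], [1, 6, 8], [4, 5, 9],
    [3, 7, 10], [2, 8, 11], [1, 6, 12], [5, 7, 9, 13], [2, 7, 13], [3, 15], [8, 11, 16]]

theorem D18_uvi : IsUVI (zGraph 18 D18) := by
  have hD : ∀ a, (D18 a).1 < (D18 a).2.1 ∧ (D18 a).2.1 < (D18 a).2.2 := by decide +kernel
  refine ⟨toI D18 hD, zRep D18 hD (by decide +kernel), 24, ?_⟩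
  have h : ∀ a, (D18 a).2.2 - (D18 a).1 = 24 := by decide +kernel
  intro a
  have := h a
  simp only [toI]
  exact_mod_cast this

theorem D18_not : ¬ (zGraph 18 D18).Colorable 3 := by
  apply Q129.NoCol.not_colorable _ nb18 (by decide +kernel)
  · decide +kernel
  · decide +kernel

/-- The five-cycle. -/
def D5 : Fin 5 → ℤ × ℤ × ℤ := ![(-5, 0, 5), (-2, 3, 8), (1, 6, 11), (4, 9, 14), (7, 12, 17)]

theorem D5_muvi : IsMUVI (zGraph 5 D5) := by
  have hD : ∀ a, (D5 a).1 < (D5 a).2.1 ∧ (D5 a).2.1 < (D5 a).2.2 := by decide +kernel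
  refine ⟨toI D5 hD, zRep D5 hD (by decide +kernel), ⟨10, ?_⟩, ?_⟩
  · have h : ∀ a, (D5 a).2.2 - (D5 a).1 = 10 := by decide +kernel
    intro a
    have := h a
    simp only [toI]
    exact_mod_cast this
  · have h : ∀ a, 2 * (D5 a).2.1 = (D5 a).1 + (D5 a).2.2 := by decide +kernel
    intro a
    have := h a
    have h2 : (2 : ℝ) * ((D5 a).2.1 : ℝ) = ((D5 a).1 : ℝ) + ((D5 a).2.2 : ℝ) := by
      exact_mod_cast this
    simp only [toI]
    linarith

theorem D5_not : ¬ (zGraph 5 D5).Colorable 2 := by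
  apply Q129.NoCol.not_colorable _ [[], [], [0], [0, 1], [1, 2]] (by decide +kernel)
  · decide +kernel
  · decide +kernel

/-- The set of the chromatic numbers of the finite graphs in a class. -/
def chromaticNumbers (P : ∀ n : ℕ, SimpleGraph (Fin n) → Prop) : Set ℕ :=
  {c | ∃ (n : ℕ) (G : SimpleGraph (Fin n)), P n G ∧ G.chromaticNumber = c}

theorem isGreatest_of {P : ∀ n : ℕ, SimpleGraph (Fin n) → Prop} {c : ℕ}
    (h1 : ∀ (n : ℕ) (G : SimpleGraph (Fin n)), P n G → G.Colorable c)
    {n : ℕ} (G : SimpleGraph (Fin n)) (hG : P n G) (hc : 0 < c) (h2 : ¬ G.Colorable (c - 1)) :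
    IsGreatest (chromaticNumbers P) c := by
  constructor
  · refine ⟨n, G, hG, le_antisymm (SimpleGraph.chromaticNumber_le_iff_colorable.2 (h1 n G hG)) ?_⟩
    by_contra hcon
    push Not at hcon
    apply h2
    rw [← SimpleGraph.chromaticNumber_le_iff_colorable]
    have h3 : (c : ℕ∞) = ((c - 1 : ℕ) : ℕ∞) + 1 := by
      rw [← Nat.cast_succ, Nat.succ_eq_add_one, Nat.sub_add_cancel hc]
    rw [h3] at hcon
    exact Order.le_of_lt_add_one hcon
  · rintro m ⟨n', G', hG', hm⟩
    have := SimpleGraph.chromaticNumber_le_iff_colorable.2 (h1 n' G' hG')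
    rw [hm] at this
    exact_mod_cast this

theorem main : IsGreatest (chromaticNumbers fun _ G => IsUVI G) 4 ∧
    IsGreatest (chromaticNumbers fun _ G => IsMUVI G) 3 ∧
    IsGreatest (chromaticNumbers fun _ G => IsMPVI G) 3 :=
  ⟨isGreatest_of (fun _ _ h => uvi_colorable h) _ D18_uvi (by norm_num) D18_not,
    isGreatest_of (fun _ _ h => mpvi_colorable (muvi_mpvi h)) _ D5_muvi (by norm_num) D5_not,
    isGreatest_of (fun _ _ h => mpvi_colorable h) _ (muvi_mpvi D5_muvi) (by norm_num) D5_not⟩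

end Q129.VetoClasses
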